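import Pool.Agent.Lib_helper17.CR.DefsF
import Pool.Agent.Lib_helper17.RS.P_XA1

/-!
# Genus theory for Rubin's conjecture (RG): definitions
-/

set_option autoImplicit false
set_option linter.unusedSectionVars false

namespace Pool.Agent.RG

open Pool.Agent.RSK Pool.Agent.RS2 Pool.Agent.RS3 Pool.Agent.SY Pool.Agent.AU Pool.Agent.CR
open NumberField IsDedekindDomain
open scoped TensorProduct

/-! ## Endomorphisms -/

section Alg

variable {M : Type} [AddCommGroup M]

/-- `1 + τ + … + τ ^ (p - 1)` -/
noncomputable def trc (p : ℕ) (τ : M →+ M) : M →+ M where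
  toFun x := ∑ i ∈ Finset.range p, τ^[i] x
  map_zero' := Finset.sum_eq_zero fun i _ => iterate_map_zero τ i
  map_add' x y := by
    rw [← Finset.sum_add_distrib]
    exact Finset.sum_congr rfl fun i _ => iterate_map_add τ i x y

/-- `τ - 1` -/
def dlt (τ : M →+ M) : M →+ M := τ - AddMonoidHom.id M

theorem trc_apply (p : ℕ) (τ : M →+ M) (x : M) : trc p τ x = ∑ i ∈ Finset.range p, τ^[i] x := rfl

theorem dlt_apply (τ : M →+ M) (x : M) : dlt τ x = τ x - x := rfl

end Alg

/-! ## Divisors -/

section Div

variable {K E : Type} [Field K] [NumberField K] [Field E] [NumberField E] [Algebra K E]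

/-- the divisors of `K` -/
abbrev Dvs (K : Type) [Field K] [NumberField K] : Type := HeightOneSpectrum (𝓞 K) →₀ ℤ

/-- the divisor of an element of `Kˣ` -/
noncomputable def dv (K : Type) [Field K] [NumberField K] : Additive Kˣ →+ Dvs K where
  toFun x := Finsupp.ofSupportFinite (dvx (Additive.toMul x)) (dvx_finite _)
  map_zero' := by
    ext v
    exact ordv_one v
  map_add' x y := by
    ext v
    exact ordv_mul v _ _

theorem dv_apply (x : Additive Kˣ) (v : HeightOneSpectrum (𝓞 K)) :
    dv K x v = ordv v ((Additive.toMul x : Kˣ) : K) := rfl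

/-- the action of `σ` on `Eˣ` -/
noncomputable def eac (σ : E ≃ₐ[K] E) : Additive Eˣ →+ Additive Eˣ :=
  MonoidHom.toAdditive (Units.map (σ : E →* E))

theorem eac_apply (σ : E ≃ₐ[K] E) (x : Additive Eˣ) :
    ((Additive.toMul (eac σ x) : Eˣ) : E) = σ ((Additive.toMul x : Eˣ) : E) := rfl

/-- the action of `σ` on the finite places -/
noncomputable def pac (σ : E ≃ₐ[K] E) : HeightOneSpectrum (𝓞 E) ≃ HeightOneSpectrum (𝓞 E) :=
  HeightOneSpectrum.equivOfRingEquiv (RingOfIntegers.mapRingEquiv σ.toRingEquiv)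

/-- the action of `σ` on the divisors -/
noncomputable def dac (σ : E ≃ₐ[K] E) : Dvs E →+ Dvs E :=
  (Finsupp.domCongr (pac σ)).toAddMonoidHom

theorem dac_apply (σ : E ≃ₐ[K] E) (D : Dvs E) (W : HeightOneSpectrum (𝓞 E)) :
    dac σ D (pac σ W) = D W := by
  show D ((pac σ).symm (pac σ W)) = D W
  rw [Equiv.symm_apply_apply]

/-- extension of divisors (for unramified extensions) -/
noncomputable def xt (K E : Type) [Field K] [NumberField K] [Field E] [NumberField E]
    [Algebra K E] : Dvs K →+ Dvs E where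
  toFun D := Finsupp.ofSupportFinite (fun W => D (W.under (𝓞 K))) (by
    refine Set.Finite.subset (ovr_finite (H := E) D.support) fun W hW => ?_
    show W.under (𝓞 K) ∈ D.support
    rwa [Finsupp.mem_support_iff])
  map_zero' := by
    ext W
    rfl
  map_add' D D' := by
    ext W
    rfl

theorem xt_apply (D : Dvs K) (W : HeightOneSpectrum (𝓞 E)) :
    xt K E D W = D (W.under (𝓞 K)) := rfl

/-- the inclusion `Kˣ → Eˣ` -/
noncomputable def inc (K E : Type) [Field K] [Field E] [Algebra K E] :
    Additive Kˣ →+ Additive Eˣ :=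
  MonoidHom.toAdditive (Units.map (algebraMap K E : K →* E))

theorem inc_apply (x : Additive Kˣ) :
    ((Additive.toMul (inc K E x) : Eˣ) : E) = algebraMap K E ((Additive.toMul x : Kˣ) : K) := rfl

theorem dac_single (σ : E ≃ₐ[K] E) (W : HeightOneSpectrum (𝓞 E)) (n : ℤ) :
    dac σ (Finsupp.single W n) = Finsupp.single (pac σ W) n := by
  show Finsupp.equivMapDomain (pac σ) (Finsupp.single W n) = _
  rw [Finsupp.equivMapDomain_single]

end Div

/-! ## Characters of the divisor group -/

section Ch

variable {K H : Type} [Field K] [NumberField K] [Field H] [NumberField H] [Algebra K H]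
  {G : Type} [CommGroup G]

/-- `f` is trivial on the principal divisors and at all places whose decomposition group in `H/K` is
contained in `M`. -/
structure VM (ι : G ≃* (H ≃ₐ[K] H)) (M : Subgroup G) (p : ℕ) (f : Dvs K →+ ZMod p) : Prop where
  /-- `f` is trivial on the principal divisors -/
  prin : ∀ x : Additive Kˣ, f (dv K x) = 0
  /-- `f` is trivial at the places which split completely in `H^M` -/
  split : ∀ W : HeightOneSpectrum (𝓞 H), (∀ g : G, act (ι g) (Sum.inr W) = Sum.inr W → g ∈ M) →
    f (Finsupp.single (W.under (𝓞 K)) 1) = 0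

/-- the place `v` splits completely in `H^M` -/
def Spl (ι : G ≃* (H ≃ₐ[K] H)) (M : Subgroup G) (v : HeightOneSpectrum (𝓞 K)) : Prop :=
  ∀ W : HeightOneSpectrum (𝓞 H), W.under (𝓞 K) = v →
    ∀ g : G, act (ι g) (Sum.inr W) = Sum.inr W → g ∈ M

end Ch

/-! ## The condition -/

section Cond

variable {F H : Type} [Field F] [NumberField F] [Field H] [NumberField H] [Algebra F H]
  {G : Type} [CommGroup G] [Fintype G]

/-- the ideal `𝔪` of `ℤ[G]` generated by `p` and the elements `g - 1` -/
noncomputable def mI (p : ℕ) (G : Type) [CommGroup G] : Ideal (MonoidAlgebra ℤ G) :=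
  Ideal.span ({(p : MonoidAlgebra ℤ G)} ∪ {x | ∃ g : G, x = MonoidAlgebra.single g 1 - 1})

/-- the subgroup generated by the intersections of `N` and the decomposition groups of the places
in `S` -/
noncomputable def RN (ι : G ≃* (H ≃ₐ[F] H)) (S : Finset (HeightOneSpectrum (𝓞 F)))
    (N : Subgroup G) : Subgroup G :=
  ⨆ P : PS S, dgF ι P.pl ⊓ N

/-- The condition under which the elements of `𝔪 ^ κ u` are integral at `p`: if `#S = r + 1`, then
`#G` divides `p ^ κ [G : D]`, where `D` is generated by the decomposition groups of the places in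
`S`; and for every subgroup `N` of index `p` such that only the `v_i` split completely in `H^N`,
`r + 2 + i (p - 1) ≤ #S + g + κ`, where `#N = p ^ i` and `p ^ g` is the index of `RN` in `N`. -/
def CondR (p κ : ℕ) (ι : G ≃* (H ≃ₐ[F] H)) (S : Finset (HeightOneSpectrum (𝓞 F))) {r : ℕ}
    (w : Fin r → Pl H) : Prop :=
  (r + 2 ≤ Fintype.card (InfinitePlace F) + S.card ∨
    Nat.card G ∣ p ^ κ * (RN ι S ⊤).index) ∧
  ∀ N : Subgroup G, N.index = p → NoX ι S w N → ∃ i g : ℕ, Nat.card N = p ^ i ∧
    (RN ι S N).relIndex N = p ^ g ∧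
    r + i * (p - 1) + 2 ≤ Fintype.card (InfinitePlace F) + S.card + g + κ

open scoped Classical in
/-- `∑ (2 - d_v)` over the places `v` in `S` whose decomposition group `D_v` is not trivial, where
`#D_v = p ^ d_v` -/
noncomputable def eS (p : ℕ) (ι : G ≃* (H ≃ₐ[F] H)) (S : Finset (HeightOneSpectrum (𝓞 F))) : ℤ :=
  ∑ P : PS S, if dgF ι P.pl = ⊥ then 0 else 2 - (Nat.log p (Nat.card (dgF ι P.pl)) : ℤ)

end Cond

end Pool.Agent.RG
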