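import Pool.Agent.Lib_helper35.RG.Defs
import Pool.Agent.Lib_helper17.RS.P_UP2

/-!
Block SPU: a place with trivial decomposition group is unramified.
-/

set_option autoImplicit false
set_option linter.unusedSectionVars false

namespace Pool.Agent.RG

open Pool.Agent.RSK Pool.Agent.RS2 Pool.Agent.RS3 Pool.Agent.SY Pool.Agent.AU Pool.Agent.CR
open NumberField IsDedekindDomain
open scoped TensorProduct

open scoped Pointwise

section A2

variable {K E : Type} [Field K] [NumberField K] [Field E] [NumberField E] [Algebra K E]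
  [IsGalois K E]

theorem spl_unram_pr (W : HeightOneSpectrum (𝓞 E))
    (h : ∀ σ : E ≃ₐ[K] E, act σ (Sum.inr W) = Sum.inr W → σ = 1) :
    Algebra.IsUnramifiedAt (𝓞 K) W.asIdeal := by
  set v := W.under (𝓞 K) with hv
  have hlo : W.asIdeal.LiesOver v.asIdeal := ⟨rfl⟩
  have := v.isPrime
  have := v.isMaximal
  have := W.isPrime
  have h1 := Ideal.card_stabilizer_eq_card_inertia_mul_finrank (G := E ≃ₐ[K] E) v.asIdeal W.asIdeal
  have h2 : Nat.card (MulAction.stabilizer (E ≃ₐ[K] E) W.asIdeal) = 1 := by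
    rw [Nat.card_eq_one_iff_unique]
    refine ⟨⟨fun a b => ?_⟩, ⟨1⟩⟩
    have key : ∀ a : MulAction.stabilizer (E ≃ₐ[K] E) W.asIdeal, (a : E ≃ₐ[K] E) = 1 := by
      intro a
      apply h
      show Sum.inr _ = Sum.inr _
      congr 1
      apply HeightOneSpectrum.ext
      rw [up2_act_ideal]
      exact a.2
    exact Subtype.ext ((key a).trans (key b).symm)
  rw [h2] at h1
  have h3 : Nat.card (Ideal.inertia (E ≃ₐ[K] E) W.asIdeal) = 1 := (Nat.eq_one_of_mul_eq_one_right h1.symm)
  rw [Ideal.card_inertia_eq_ramificationIdxIn v.asIdeal W.asIdeal,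
    Ideal.ramificationIdxIn_eq_ramificationIdx v.asIdeal W.asIdeal (E ≃ₐ[K] E)] at h3
  exact Ideal.ramificationIdx_eq_one_iff.1 h3

end A2

end Pool.Agent.RG

namespace Pool.Agent.RG

theorem spl_unram : type_of% @spl_unram_pr := @spl_unram_pr

end Pool.Agent.RG
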