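import Pool.Agent.Lib_helper35.RG.Defs
import Pool.Agent.Lib_helper17.RS.P_EA
import Pool.Agent.Lib_helper17.RS.P_EB

/-!
# Genus theory for Rubin's conjecture (RG), block DZ: the sum over all primes
-/

set_option autoImplicit false
set_option linter.unusedSectionVars false
set_option linter.unusedVariables false

namespace Pool.Agent.RG

open Pool.Agent.RSK Pool.Agent.RS2 Pool.Agent.RS3 Pool.Agent.SY Pool.Agent.AU Pool.Agent.CR
open NumberField IsDedekindDomain Filter Topology Complex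
open scoped TensorProduct

section B

theorem dz_norm (K : Type) [Field K] [NumberField K] (s : ℝ) (v : HeightOneSpectrum (𝓞 K)) :
    ‖(nv v : ℂ) ^ (-(s : ℂ))‖ = (nv v : ℝ) ^ (-s) := by
  rw [ea_norm, Complex.ofReal_re]

theorem nv_summable_pr (K : Type) [Field K] [NumberField K] {s : ℝ} (hs : 1 < s) :
    Summable fun v : HeightOneSpectrum (𝓞 K) => (nv v : ℝ) ^ (-s) := by
  have h := summable_nv (k := K) (s := (s : ℂ)) (by rw [Complex.ofReal_re]; exact hs)
  exact h.congr fun v => dz_norm K s v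

theorem dz_two (K : Type) [Field K] [NumberField K] (v : HeightOneSpectrum (𝓞 K)) :
    (2 : ℝ) ≤ nv v := by
  exact_mod_cast ea_two_le v

theorem dz_mono (K : Type) [Field K] [NumberField K] {s t : ℝ} (hst : s ≤ t)
    (v : HeightOneSpectrum (𝓞 K)) : (nv v : ℝ) ^ (-t) ≤ (nv v : ℝ) ^ (-s) :=
  Real.rpow_le_rpow_of_exponent_le (by linarith [dz_two K v]) (by linarith)

theorem dz_half (K : Type) [Field K] [NumberField K] {s : ℝ} (hs : 1 < s)
    (v : HeightOneSpectrum (𝓞 K)) : (nv v : ℝ) ^ (-s) ≤ 1 / 2 := by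
  have h := ea_norm_le (k := K) (s := (s : ℂ)) (by rw [Complex.ofReal_re]; exact hs) v
  rwa [dz_norm] at h

theorem dz_pos (K : Type) [Field K] [NumberField K] (s : ℝ)
    (v : HeightOneSpectrum (𝓞 K)) : 0 < (nv v : ℝ) ^ (-s) :=
  Real.rpow_pos_of_pos (by linarith [dz_two K v]) _

theorem dz_log {x : ℝ} (h0 : 0 ≤ x) (h1 : x ≤ 1 / 2) : |(-Real.log (1 - x)) - x| ≤ 2 * x ^ 2 := by
  have h := Real.abs_log_sub_add_sum_range_le (x := x) (by rw [abs_of_nonneg h0]; linarith) 1
  rw [Finset.sum_range_one, abs_of_nonneg h0] at h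
  norm_num at h
  have h2 : |(-Real.log (1 - x)) - x| = |x + Real.log (1 - x)| := by
    rw [← abs_neg]
    congr 1
    ring
  rw [h2]
  refine h.trans ?_
  rw [div_le_iff₀ (by linarith)]
  nlinarith [sq_nonneg x]

/-- the logarithm of the zeta function -/
theorem dz_zeta (K : Type) [Field K] [NumberField K] {s : ℝ} (hs : 1 < s) :
    0 < ‖dedekindZeta K s‖ ∧
    |∑' v : HeightOneSpectrum (𝓞 K), (nv v : ℝ) ^ (-s) - Real.log ‖dedekindZeta K s‖| ≤
      ∑' v : HeightOneSpectrum (𝓞 K), 2 * (nv v : ℝ) ^ (-2 : ℝ) := by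
  have hsr : 1 < ((s : ℂ)).re := by rw [Complex.ofReal_re]; exact hs
  have hsum := nv_summable_pr K hs
  have hb : ∀ v : HeightOneSpectrum (𝓞 K),
      |(-Real.log (1 - (nv v : ℝ) ^ (-s))) - (nv v : ℝ) ^ (-s)| ≤ 2 * (nv v : ℝ) ^ (-2 : ℝ) := by
    intro v
    refine (dz_log (dz_pos K s v).le (dz_half K hs v)).trans ?_
    have h1 : ((nv v : ℝ) ^ (-s)) ^ 2 = (nv v : ℝ) ^ (-(2 * s)) := by
      rw [← Real.rpow_natCast, ← Real.rpow_mul (by linarith [dz_two K v])]
      congr 1
      push_cast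
      ring
    rw [h1]
    have := dz_mono K (s := 2) (t := 2 * s) (by linarith) v
    linarith
  have hs2 : Summable fun v : HeightOneSpectrum (𝓞 K) => 2 * (nv v : ℝ) ^ (-2 : ℝ) :=
    (nv_summable_pr K (s := 2) (by norm_num)).mul_left 2
  have hdiff : Summable fun v : HeightOneSpectrum (𝓞 K) =>
      (-Real.log (1 - (nv v : ℝ) ^ (-s))) - (nv v : ℝ) ^ (-s) :=
    Summable.of_norm_bounded hs2 fun v => by rw [Real.norm_eq_abs]; exact hb v
  have hlog : Summable fun v : HeightOneSpectrum (𝓞 K) => -Real.log (1 - (nv v : ℝ) ^ (-s)) :=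
    (hdiff.add hsum).congr fun v => by ring
  -- the product
  have hp := (eb_hasProd (k := K) hsr).norm
  have hp2 := hlog.hasSum.rexp
  have hfun : (fun v : HeightOneSpectrum (𝓞 K) => ‖(1 - (nv v : ℂ) ^ (-(s : ℂ)))⁻¹‖) =
      fun v => Real.exp (-Real.log (1 - (nv v : ℝ) ^ (-s))) := by
    funext v
    have h1 : (nv v : ℂ) ^ (-(s : ℂ)) = (((nv v : ℝ) ^ (-s) : ℝ) : ℂ) := by
      rw [Complex.ofReal_cpow (by linarith [dz_two K v])]
      push_cast
      rfl
    have h2 := dz_half K hs v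
    rw [h1, norm_inv, Real.exp_neg, Real.exp_log (by linarith)]
    congr 1
    rw [← Complex.ofReal_one, ← Complex.ofReal_sub, Complex.norm_real, Real.norm_eq_abs,
      abs_of_pos (by linarith)]
  have heq : ‖dedekindZeta K s‖ =
      Real.exp (∑' v : HeightOneSpectrum (𝓞 K), -Real.log (1 - (nv v : ℝ) ^ (-s))) := by
    rw [hfun] at hp
    exact hp.unique hp2
  refine ⟨by rw [heq]; exact Real.exp_pos _, ?_⟩
  rw [heq, Real.log_exp, abs_sub_comm, ← hlog.tsum_sub hsum]
  refine (norm_tsum_le_tsum_norm (f := fun v : HeightOneSpectrum (𝓞 K) =>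
    (-Real.log (1 - (nv v : ℝ) ^ (-s))) - (nv v : ℝ) ^ (-s)) ?_).trans ?_
  · exact Summable.of_norm_bounded hs2 fun v => by
      rw [norm_norm, Real.norm_eq_abs]
      exact hb v
  · refine Summable.tsum_le_tsum (fun v => by rw [Real.norm_eq_abs]; exact hb v) ?_ hs2
    exact Summable.of_norm_bounded hs2 fun v => by
      rw [norm_norm, Real.norm_eq_abs]
      exact hb v

/-- Block DZ: the primes of a number field: from the simple pole of the Dedekind zeta function. -/
theorem dens_all_pr (K : Type) [Field K] [NumberField K] : ∃ C : ℝ, ∀ s : ℝ, 1 < s → s ≤ 2 →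
    |∑' v : HeightOneSpectrum (𝓞 K), (nv v : ℝ) ^ (-s) - Real.log (1 / (s - 1))| ≤ C := by
  set R : ℝ → ℝ := fun s => ∑' v : HeightOneSpectrum (𝓞 K), (nv v : ℝ) ^ (-s) with hR
  set G : ℝ := ∑' v : HeightOneSpectrum (𝓞 K), 2 * (nv v : ℝ) ^ (-2 : ℝ) with hG
  have hlim : Tendsto (fun s : ℝ => Real.log ‖((s : ℂ) - 1) * dedekindZeta K s‖) (𝓝[>] 1)
      (𝓝 (Real.log (dedekindZeta_residue K))) := by
    have h1 := (tendsto_sub_one_mul_dedekindZeta_nhdsGT K).norm
    rw [Complex.norm_real, Real.norm_eq_abs, abs_of_pos (dedekindZeta_residue_pos K)] at h1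
    exact h1.log (dedekindZeta_residue_pos K).ne'
  have hev : ∀ᶠ s : ℝ in 𝓝[>] 1, |Real.log ‖((s : ℂ) - 1) * dedekindZeta K s‖ -
      Real.log (dedekindZeta_residue K)| < 1 := by
    have := (Metric.tendsto_nhds.1 hlim) 1 one_pos
    simpa only [Real.dist_eq] using this
  obtain ⟨b, hb, hsub⟩ := mem_nhdsGT_iff_exists_Ioo_subset.1 hev
  have hb : 1 < b := hb
  set d : ℝ := min ((b - 1) / 2) (1 / 2) with hd
  have hd0 : 0 < d := lt_min (by linarith) (by norm_num)
  have hdb : 1 + d < b := by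
    have := min_le_left ((b - 1) / 2) (1 / 2 : ℝ)
    rw [← hd] at this
    linarith
  refine ⟨max (|Real.log (dedekindZeta_residue K)| + 1 + G) (R (1 + d) + |Real.log d|),
    fun s h1 h2 => ?_⟩
  change |R s - Real.log (1 / (s - 1))| ≤ _
  have hs1 : 0 < s - 1 := by linarith
  have hlog : Real.log (1 / (s - 1)) = -Real.log (s - 1) := by
    rw [one_div, Real.log_inv]
  rcases lt_or_ge s (1 + d) with h3 | h3
  · refine le_max_of_le_left ?_
    have h4 : |Real.log ‖((s : ℂ) - 1) * dedekindZeta K s‖ -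
        Real.log (dedekindZeta_residue K)| < 1 := hsub ⟨h1, by linarith⟩
    obtain ⟨h6, h5⟩ := dz_zeta K h1
    have h7 : Real.log ‖((s : ℂ) - 1) * dedekindZeta K s‖ =
        Real.log (s - 1) + Real.log ‖dedekindZeta K s‖ := by
      rw [norm_mul, Real.log_mul _ h6.ne']
      · congr 1
        have h8 : (s : ℂ) - 1 = ((s - 1 : ℝ) : ℂ) := by push_cast; ring
        rw [h8, Complex.norm_real, Real.norm_eq_abs, abs_of_pos hs1]
      · have h8 : (s : ℂ) - 1 = ((s - 1 : ℝ) : ℂ) := by push_cast; ring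
        rw [h8, Complex.norm_real, Real.norm_eq_abs, abs_of_pos hs1]
        exact hs1.ne'
    rw [h7] at h4
    rw [hlog]
    have h10 := abs_lt.1 h4
    have h11 := abs_le.1 h5
    have h12 := neg_abs_le (Real.log (dedekindZeta_residue K))
    have h13 := le_abs_self (Real.log (dedekindZeta_residue K))
    rw [abs_le]
    constructor <;> linarith
  · refine le_max_of_le_right ?_
    have h4 : R s ≤ R (1 + d) :=
      Summable.tsum_le_tsum (fun v => dz_mono K h3 v) (nv_summable_pr K h1)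
        (nv_summable_pr K (by linarith))
    have h40 : 0 ≤ R s := tsum_nonneg fun v => (dz_pos K s v).le
    have h5 : |Real.log (1 / (s - 1))| ≤ |Real.log d| := by
      rw [hlog, abs_neg]
      have h6 : Real.log d ≤ Real.log (s - 1) := Real.log_le_log hd0 (by linarith)
      have h7 : Real.log (s - 1) ≤ 0 := Real.log_nonpos hs1.le (by linarith)
      rw [abs_of_nonpos h7, abs_of_nonpos (h6.trans h7)]
      linarith
    calc |R s - Real.log (1 / (s - 1))| ≤ |R s| + |Real.log (1 / (s - 1))| := abs_sub _ _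
      _ ≤ R (1 + d) + |Real.log d| := by
        rw [abs_of_nonneg h40]
        exact add_le_add h4 h5

end B

end Pool.Agent.RG

namespace Pool.Agent.RG

theorem dens_all : type_of% @dens_all_pr := @dens_all_pr
theorem nv_summable : type_of% @nv_summable_pr := @nv_summable_pr

end Pool.Agent.RG
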