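import Pool.Agent.Lib_helper35.RG.Defs
import Pool.Agent.Lib_helper35.RG.P_DZ
import Pool.Agent.Lib_helper17.RS.P_UP1
import Pool.Agent.Lib_helper17.RS.P_UP2
import Pool.Agent.Lib_helper17.RS.P_TW
import Pool.Agent.Lib_helper17.RS.P_QU1
import Pool.Agent.Lib_helper17.RS.P_IF

/-!
# RG, block DS: density of the primes which split completely in `H^M`
-/

set_option autoImplicit false
set_option linter.unusedSectionVars false
set_option linter.unusedVariables false

namespace Pool.Agent.RG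

open Pool.Agent.RSK Pool.Agent.RS2 Pool.Agent.RS3 Pool.Agent.SY Pool.Agent.AU Pool.Agent.CR
open NumberField IsDedekindDomain Filter Topology Complex
open scoped TensorProduct

section DSA

variable {K E : Type} [Field K] [NumberField K] [Field E] [NumberField E] [Algebra K E]
  [IsGalois K E]

/-- the decomposition group of `W` is trivial -/
def ds_T (K : Type) {E : Type} [Field K] [NumberField K] [Field E] [NumberField E] [Algebra K E]
    (W : HeightOneSpectrum (𝓞 E)) : Prop :=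
  ∀ σ : E ≃ₐ[K] E, act σ (Sum.inr W) = Sum.inr W → σ = 1

theorem ds_trans {W W' : HeightOneSpectrum (𝓞 E)} (h : W.under (𝓞 K) = W'.under (𝓞 K)) :
    ∃ σ : E ≃ₐ[K] E, act σ (Sum.inr W) = Sum.inr W' :=
  act_trans (F := K) (W := Sum.inr W) (W' := Sum.inr W') (congrArg Sum.inr h)

theorem ds_same {W W' : HeightOneSpectrum (𝓞 E)} (hW : ds_T K W)
    (h : W.under (𝓞 K) = W'.under (𝓞 K)) : ds_T K W' := by
  obtain ⟨τ, hτ⟩ := ds_trans h
  intro σ hσ
  have h1 : act (τ⁻¹ * (σ * τ)) (Sum.inr W) = Sum.inr W := by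
    rw [act_mul, act_mul, hτ, hσ, ← hτ, ← act_mul, inv_mul_cancel, act_one]
  have h2 := hW _ h1
  rw [inv_mul_eq_one] at h2
  exact (mul_eq_right.mp h2.symm)

theorem ds_fib {W : HeightOneSpectrum (𝓞 E)} (hW : ds_T K W) :
    Nat.card {W' : HeightOneSpectrum (𝓞 E) // W'.under (𝓞 K) = W.under (𝓞 K)} =
      Nat.card (E ≃ₐ[K] E) := by
  symm
  have hact : ∀ σ : E ≃ₐ[K] E, ∃ W' : HeightOneSpectrum (𝓞 E),
      W'.under (𝓞 K) = W.under (𝓞 K) ∧ act σ (Sum.inr W) = Sum.inr W' := by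
    intro σ
    exact ⟨_, under_equiv σ W, rfl⟩
  choose φ hφ1 hφ2 using hact
  refine Nat.card_congr (Equiv.ofBijective (fun σ => ⟨φ σ, hφ1 σ⟩) ⟨?_, ?_⟩)
  · intro σ τ hst
    have h1 : φ σ = φ τ := congrArg Subtype.val hst
    have h2 : act σ (Sum.inr W) = act τ (Sum.inr W) := by rw [hφ2, hφ2, h1]
    have h3 : act (τ⁻¹ * σ) (Sum.inr W) = Sum.inr W := by
      rw [act_mul, h2, ← act_mul, inv_mul_cancel, act_one]
    have h4 := hW _ h3
    rw [inv_mul_eq_one] at h4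
    exact h4.symm
  · rintro ⟨W', hW'⟩
    obtain ⟨σ, hσ⟩ := ds_trans hW'.symm
    refine ⟨σ, Subtype.ext ?_⟩
    have h1 := hφ2 σ
    rw [hσ] at h1
    exact (Sum.inr_injective h1).symm

theorem ds_finite (v : HeightOneSpectrum (𝓞 K)) :
    Finite {W' : HeightOneSpectrum (𝓞 E) // W'.under (𝓞 K) = v} := by
  have h := ovr_finite (H := E) {v}
  have h2 : {W' : HeightOneSpectrum (𝓞 E) | W'.under (𝓞 K) = v}.Finite := by
    refine h.subset fun W hW => ?_
    rw [Set.mem_ofPred_eq, Finset.mem_singleton]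
    exact hW
  exact h2.to_subtype

theorem ds_fib_le (v : HeightOneSpectrum (𝓞 K)) :
    Nat.card {W' : HeightOneSpectrum (𝓞 E) // W'.under (𝓞 K) = v} ≤ Nat.card (E ≃ₐ[K] E) := by
  rcases isEmpty_or_nonempty {W' : HeightOneSpectrum (𝓞 E) // W'.under (𝓞 K) = v} with h | ⟨W, hW⟩
  · rw [Nat.card_of_isEmpty]
    exact Nat.zero_le _
  have hact : ∀ σ : E ≃ₐ[K] E, ∃ W' : HeightOneSpectrum (𝓞 E),
      W'.under (𝓞 K) = v ∧ act σ (Sum.inr W) = Sum.inr W' := by
    intro σ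
    exact ⟨_, (under_equiv σ W).trans hW, rfl⟩
  choose φ hφ1 hφ2 using hact
  refine Nat.card_le_card_of_surjective (fun σ => ⟨φ σ, hφ1 σ⟩) ?_
  rintro ⟨W', hW'⟩
  obtain ⟨σ, hσ⟩ := ds_trans (hW.trans hW'.symm)
  refine ⟨σ, Subtype.ext ?_⟩
  have h1 := hφ2 σ
  rw [hσ] at h1
  exact (Sum.inr_injective h1).symm

theorem ds_nv (W : HeightOneSpectrum (𝓞 E)) :
    nv W = nv (W.under (𝓞 K)) ^ ((W.under (𝓞 K)).asIdeal.inertiaDeg' W.asIdeal) := by
  have hlo : W.asIdeal.LiesOver (W.under (𝓞 K)).asIdeal := ⟨rfl⟩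
  exact Ideal.absNorm_eq_pow_inertiaDeg'_of_liesOver W.asIdeal (W.under (𝓞 K)).asIdeal
    (W.under (𝓞 K)).isPrime (W.under (𝓞 K)).ne_bot

theorem ds_nv_split {W : HeightOneSpectrum (𝓞 E)} (hW : ds_T K W) :
    nv W = nv (W.under (𝓞 K)) := by
  have h1 := up2_card (F := K) W
  have h2 : Nat.card {σ : E ≃ₐ[K] E // act σ (Sum.inr W) = Sum.inr W} = 1 := by
    rw [Nat.card_eq_one_iff_unique]
    refine ⟨⟨fun a b => Subtype.ext ?_⟩, ⟨⟨1, act_one _⟩⟩⟩
    rw [hW _ a.2, hW _ b.2]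
  rw [h2] at h1
  rw [ds_nv (K := K) W, Nat.eq_one_of_mul_eq_one_left h1.symm, pow_one]

theorem ds_two (v : HeightOneSpectrum (𝓞 K)) : 2 ≤ nv v := by
  have h1 : nv v ≠ 0 := by
    rw [nv, Ne, Ideal.absNorm_eq_zero_iff]
    exact v.ne_bot
  have h2 : nv v ≠ 1 := by
    rw [nv, Ne, Ideal.absNorm_eq_one_iff]
    exact v.isPrime.ne_top
  omega

theorem ds_nv_non {W : HeightOneSpectrum (𝓞 E)} (hW : ¬ ds_T K W)
    (hun : Algebra.IsUnramifiedAt (𝓞 K) W.asIdeal) :
    nv (W.under (𝓞 K)) ^ 2 ≤ nv W := by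
  have h1 := up2_card (F := K) W
  have hlo : W.asIdeal.LiesOver (W.under (𝓞 K)).asIdeal := ⟨rfl⟩
  have e1 : (W.under (𝓞 K)).asIdeal.ramificationIdx' W.asIdeal = 1 := by
    rw [Ideal.ramificationIdx'_eq_ramificationIdx (W.under (𝓞 K)).asIdeal W.asIdeal
      (W.under (𝓞 K)).ne_bot]
    exact Ideal.ramificationIdx_eq_one_of_isUnramifiedAt
  rw [e1, one_mul] at h1
  have h2 : 1 < Nat.card {σ : E ≃ₐ[K] E // act σ (Sum.inr W) = Sum.inr W} := by
    rw [Finite.one_lt_card_iff_nontrivial]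
    unfold ds_T at hW
    push Not at hW
    obtain ⟨σ, hσ, hne⟩ := hW
    exact ⟨⟨⟨σ, hσ⟩, ⟨1, act_one _⟩, fun h => hne (congrArg Subtype.val h)⟩⟩
  rw [h1] at h2
  rw [ds_nv (K := K) W]
  exact Nat.pow_le_pow_right (by have := ds_two (W.under (𝓞 K)); omega) h2

theorem ds_ram : {W : HeightOneSpectrum (𝓞 E) | ¬ Algebra.IsUnramifiedAt (𝓞 K) W.asIdeal}.Finite := by
  have h1 : differentIdeal (𝓞 K) (𝓞 E) ≠ ⊥ := differentIdeal_ne_bot
  have h2 := Ideal.finite_factors (I := differentIdeal (𝓞 K) (𝓞 E)) h1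
  refine h2.subset fun W hW => ?_
  exact dvd_differentIdeal_iff.mpr hW

open scoped Classical in
theorem ds_sum (K E : Type) [Field K] [NumberField K] [Field E] [NumberField E] [Algebra K E]
    [IsGalois K E] : ∃ B : ℝ, ∀ s : ℝ, 1 < s → s ≤ 2 →
    |∑' W : HeightOneSpectrum (𝓞 E), (nv W : ℝ) ^ (-s) -
      (Nat.card (E ≃ₐ[K] E) : ℝ) * ∑' v : HeightOneSpectrum (𝓞 K),
        (if ∃ W : HeightOneSpectrum (𝓞 E), W.under (𝓞 K) = v ∧ ds_T K W then
          (nv v : ℝ) ^ (-s) else 0)| ≤ B := by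
  set n : ℕ := Nat.card (E ≃ₐ[K] E) with hn
  let e : (Σ v : HeightOneSpectrum (𝓞 K), {W : HeightOneSpectrum (𝓞 E) // W.under (𝓞 K) = v}) ≃
      HeightOneSpectrum (𝓞 E) := 
    Equiv.sigmaFiberEquiv (fun W : HeightOneSpectrum (𝓞 E) => W.under (𝓞 K))
  have he : ∀ p, e p = p.2.1 := fun p => rfl
  -- the bound for the nonsplit part
  let b1 : HeightOneSpectrum (𝓞 E) → ℝ :=
    fun W => if Algebra.IsUnramifiedAt (𝓞 K) W.asIdeal then 0 else 1
  let b2 : HeightOneSpectrum (𝓞 E) → ℝ := fun W => (nv (W.under (𝓞 K)) : ℝ) ^ (-2 : ℝ)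
  have hb1 : Summable b1 := by
    refine summable_of_hasFiniteSupport ((ds_ram (K := K) (E := E)).subset fun W hW => ?_)
    rw [Function.mem_support] at hW
    intro hun
    exact hW (if_pos hun)
  have hb2 : Summable b2 := by
    rw [← e.summable_iff]
    rw [summable_sigma_of_nonneg (fun p => by
      show 0 ≤ (nv _ : ℝ) ^ (-2 : ℝ)
      positivity)]
    constructor
    · intro v
      have := ds_finite (E := E) v
      exact Summable.of_finite
    · have hval : ∀ v : HeightOneSpectrum (𝓞 K),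
          (∑' W : {W : HeightOneSpectrum (𝓞 E) // W.under (𝓞 K) = v}, (b2 ∘ e) ⟨v, W⟩) =
            (Nat.card {W : HeightOneSpectrum (𝓞 E) // W.under (𝓞 K) = v} : ℝ) *
              (nv v : ℝ) ^ (-2 : ℝ) := by
        intro v
        have h1 : (fun W : {W : HeightOneSpectrum (𝓞 E) // W.under (𝓞 K) = v} =>
            (b2 ∘ e) ⟨v, W⟩) = fun _ => (nv v : ℝ) ^ (-2 : ℝ) := by
          funext W
          show (nv (W.1.under (𝓞 K)) : ℝ) ^ (-2 : ℝ) = _
          rw [W.2]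
        rw [h1, tsum_const, nsmul_eq_mul]
      refine Summable.of_nonneg_of_le (fun v => tsum_nonneg fun W => ?_) (fun v => ?_)
        ((nv_summable K (s := 2) (by norm_num)).mul_left (n : ℝ))
      · show 0 ≤ (nv _ : ℝ) ^ (-2 : ℝ)
        positivity
      · rw [hval]
        refine mul_le_mul_of_nonneg_right ?_ (by positivity)
        exact_mod_cast ds_fib_le (E := E) v
  refine ⟨∑' W, (b1 W + b2 W), fun s hs1 hs2 => ?_⟩
  have hsE := nv_summable E hs1
  have hsK := nv_summable K hs1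
  -- the split part
  let f : HeightOneSpectrum (𝓞 E) → ℝ := fun W => if ds_T K W then (nv W : ℝ) ^ (-s) else 0
  have hf0 : ∀ W, 0 ≤ f W := by
    intro W
    show 0 ≤ (if ds_T K W then (nv W : ℝ) ^ (-s) else 0)
    split_ifs
    · positivity
    · exact le_refl _
  have hfle : ∀ W, f W ≤ (nv W : ℝ) ^ (-s) := by
    intro W
    show (if ds_T K W then (nv W : ℝ) ^ (-s) else 0) ≤ _
    split_ifs
    · exact le_refl _
    · positivity
  have hfs : Summable f := Summable.of_nonneg_of_le hf0 hfle hsE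
  have hfsum : ∑' W, f W = (n : ℝ) * ∑' v : HeightOneSpectrum (𝓞 K),
        (if ∃ W : HeightOneSpectrum (𝓞 E), W.under (𝓞 K) = v ∧ ds_T K W then
          (nv v : ℝ) ^ (-s) else 0) := by
    have hfs' : Summable fun p => f (e p) := e.summable_iff.mpr hfs
    rw [← e.tsum_eq f, hfs'.tsum_sigma, ← tsum_mul_left]
    refine tsum_congr fun v => ?_
    by_cases hv : ∃ W : HeightOneSpectrum (𝓞 E), W.under (𝓞 K) = v ∧ ds_T K W
    · rw [if_pos hv]
      obtain ⟨W, hWv, hW⟩ := hv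
      have h1 : (fun W' : {W : HeightOneSpectrum (𝓞 E) // W.under (𝓞 K) = v} =>
          f (e ⟨v, W'⟩)) = fun _ => (nv v : ℝ) ^ (-s) := by
        funext W'
        have h2 : ds_T K W'.1 := ds_same hW (hWv.trans W'.2.symm)
        show (if ds_T K W'.1 then (nv W'.1 : ℝ) ^ (-s) else 0) = _
        rw [if_pos h2, ds_nv_split h2, W'.2]
      have h3 := ds_fib hW
      rw [hWv] at h3
      rw [h1, tsum_const, nsmul_eq_mul, h3]
    · rw [if_neg hv, mul_zero]
      have h1 : (fun W' : {W : HeightOneSpectrum (𝓞 E) // W.under (𝓞 K) = v} =>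
          f (e ⟨v, W'⟩)) = fun _ => 0 := by
        funext W'
        exact if_neg fun h => hv ⟨W'.1, W'.2, h⟩
      rw [h1, tsum_zero]
  rw [← hfsum, ← hsE.tsum_sub hfs]
  have hd0 : ∀ W : HeightOneSpectrum (𝓞 E), 0 ≤ (nv W : ℝ) ^ (-s) - f W := fun W =>
    sub_nonneg.mpr (hfle W)
  rw [abs_of_nonneg (tsum_nonneg hd0)]
  refine (hsE.sub hfs).tsum_le_tsum (fun W => ?_) (hb1.add hb2)
  have hW1 : (1 : ℝ) ≤ nv W := by
    have := ds_two W
    exact_mod_cast (by omega : 1 ≤ nv W)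
  have hb1' : 0 ≤ b1 W := by
    show (0 : ℝ) ≤ if _ then 0 else 1
    split_ifs
    · exact le_refl _
    · exact zero_le_one
  have hb2' : 0 ≤ b2 W := by
    show 0 ≤ (nv _ : ℝ) ^ (-2 : ℝ)
    positivity
  by_cases hT : ds_T K W
  · have : f W = (nv W : ℝ) ^ (-s) := if_pos hT
    rw [this, sub_self]
    exact add_nonneg hb1' hb2'
  · have : f W = 0 := if_neg hT
    rw [this, sub_zero]
    by_cases hun : Algebra.IsUnramifiedAt (𝓞 K) W.asIdeal
    · have h1 := ds_nv_non hT hun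
      have hv1 : (2 : ℝ) ≤ nv (W.under (𝓞 K)) := by exact_mod_cast ds_two (W.under (𝓞 K))
      have h2 : (nv W : ℝ) ^ (-s) ≤ (nv W : ℝ) ^ (-1 : ℝ) :=
        Real.rpow_le_rpow_of_exponent_le hW1 (by linarith)
      have h3 : (nv W : ℝ) ^ (-1 : ℝ) ≤ b2 W := by
        show _ ≤ (nv (W.under (𝓞 K)) : ℝ) ^ (-2 : ℝ)
        rw [Real.rpow_neg (by positivity), Real.rpow_neg (by positivity), Real.rpow_one]
        have h4 : ((nv (W.under (𝓞 K)) : ℝ) ^ (2 : ℝ)) ≤ nv W := by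
          rw [show (2 : ℝ) = ((2 : ℕ) : ℝ) by norm_num, Real.rpow_natCast]
          exact_mod_cast h1
        exact inv_anti₀ (by positivity) h4
      linarith
    · have h1 : b1 W = 1 := if_neg hun
      have h2 : (nv W : ℝ) ^ (-s) ≤ 1 := Real.rpow_le_one_of_one_le_of_nonpos hW1 (by linarith)
      linarith

end DSA

section DSB

variable {K H : Type} [Field K] [NumberField K] [Field H] [NumberField H] [Algebra K H]
  [IsGalois K H] {G : Type} [CommGroup G] [Fintype G] (ι : G ≃* (H ≃ₐ[K] H))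

theorem ds_spl_iff (M : Subgroup G) (v : HeightOneSpectrum (𝓞 K)) :
    Spl ι M v ↔ ∃ W : HeightOneSpectrum (𝓞 (Kf ι M)), W.under (𝓞 K) = v ∧ ds_T K W := by
  have hgal := kf_galois ι M
  let _ : Fintype (G ⧸ M) := Fintype.ofFinite _
  obtain ⟨ι', hq⟩ := kf_quo ι M
  have hone : ∀ g : G, ι' (QuotientGroup.mk' M g) = 1 ↔ g ∈ M := by
    intro g
    rw [MulEquiv.map_eq_one_iff]
    exact QuotientGroup.eq_one_iff g
  constructor
  · intro h
    obtain ⟨W₀, hW₀⟩ := dn_surj (H := Kf ι M) (Sum.inr v : Pl K)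
    rcases W₀ with W₀ | W₀
    · exact absurd hW₀ (by simp [dn])
    refine ⟨W₀, Sum.inr_injective hW₀, fun σ hσ => ?_⟩
    obtain ⟨W, hW⟩ := dn_surj (H := H) (Sum.inr W₀ : Pl (Kf ι M))
    rcases W with W | W
    · exact absurd hW (by simp [dn])
    obtain ⟨g, hg⟩ := QuotientGroup.mk'_surjective M (ι'.symm σ)
    have hσg : ι' (QuotientGroup.mk' M g) = σ := by rw [hg, MulEquiv.apply_symm_apply]
    have h1 : dn (Kf ι M) (act (ι g) (Sum.inr W)) = dn (Kf ι M) (Sum.inr W : Pl H) := by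
      rw [quo_act hq, hσg, hW, hσ]
    obtain ⟨τ, hτ⟩ := act_trans (F := Kf ι M) h1
    -- `τ` is given by an element of `M`
    obtain ⟨m, hm⟩ := ι.surjective (τ.restrictScalars K)
    have hmM : m ∈ M := by
      rw [← hone]
      ext x
      have h2 := hq.compat m x
      rw [hm] at h2
      have h3 : (τ.restrictScalars K) (algebraMap (Kf ι M) H x) = algebraMap (Kf ι M) H x :=
        τ.commutes x
      rw [h3] at h2
      exact h2
    have h4 : act (ι (m * g)) (Sum.inr W) = Sum.inr W := by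
      rw [map_mul, act_mul, hm, act_restrict, hτ]
    have hWv : W.under (𝓞 K) = v := by
      have h5 := dn_dn (F₀ := K) (F := Kf ι M) (Sum.inr W : Pl H)
      rw [hW, hW₀] at h5
      exact (Sum.inr_injective h5).symm
    have h6 := h W hWv (m * g) h4
    have h7 : g ∈ M := (Subgroup.mul_mem_cancel_left M hmM).mp h6
    rw [← hσg, hone]
    exact h7
  · rintro ⟨W₀, hW₀, hT⟩ W hW g hg
    have h5 := dn_dn (F₀ := K) (F := Kf ι M) (Sum.inr W : Pl H)
    have h6 : (W.under (𝓞 (Kf ι M))).under (𝓞 K) = v := (Sum.inr_injective h5).trans hW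
    have hT' : ds_T K (W.under (𝓞 (Kf ι M))) := ds_same hT (hW₀.trans h6.symm)
    have h7 := quo_act hq g (Sum.inr W)
    rw [hg] at h7
    exact (hone g).mp (hT' _ h7.symm)

open scoped Classical in
theorem dens_spl_pr (M : Subgroup G) : ∃ C : ℝ, ∀ s : ℝ, 1 < s → s ≤ 2 →
    |∑' v : HeightOneSpectrum (𝓞 K), (if Spl ι M v then (nv v : ℝ) ^ (-s) else 0) -
      (1 / M.index : ℝ) * Real.log (1 / (s - 1))| ≤ C := by
  have hgal := kf_galois ι M
  let _ : Fintype (G ⧸ M) := Fintype.ofFinite _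
  obtain ⟨ι', hq⟩ := kf_quo ι M
  have hcard : Nat.card (Kf ι M ≃ₐ[K] Kf ι M) = M.index := by
    rw [← Nat.card_congr ι'.toEquiv]
    rfl
  obtain ⟨B, hB⟩ := ds_sum K (Kf ι M)
  obtain ⟨C, hC⟩ := dens_all (Kf ι M)
  refine ⟨C + B, fun s hs1 hs2 => ?_⟩
  have h1 := hB s hs1 hs2
  have h2 := hC s hs1 hs2
  rw [hcard] at h1
  have h3 : (fun v : HeightOneSpectrum (𝓞 K) => if Spl ι M v then (nv v : ℝ) ^ (-s) else 0) =
      fun v => if ∃ W : HeightOneSpectrum (𝓞 (Kf ι M)), W.under (𝓞 K) = v ∧ ds_T K W then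
          (nv v : ℝ) ^ (-s) else 0 := by
    funext v
    by_cases hv : Spl ι M v
    · rw [if_pos hv, if_pos ((ds_spl_iff ι M v).mp hv)]
    · rw [if_neg hv, if_neg (fun h => hv ((ds_spl_iff ι M v).mpr h))]
  rw [h3]
  set X : ℝ := ∑' v : HeightOneSpectrum (𝓞 K),
    (if ∃ W : HeightOneSpectrum (𝓞 (Kf ι M)), W.under (𝓞 K) = v ∧ ds_T K W then
      (nv v : ℝ) ^ (-s) else 0) with hX
  have hn : (1 : ℝ) ≤ M.index := by
    have := Subgroup.index_ne_zero_of_finite (H := M)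
    exact_mod_cast Nat.one_le_iff_ne_zero.mpr this
  have h4 : |(M.index : ℝ) * X - Real.log (1 / (s - 1))| ≤ C + B := by
    rw [abs_le] at h1 h2 ⊢
    constructor <;> linarith [h1.1, h1.2, h2.1, h2.2]
  have h5 : X - (1 / M.index : ℝ) * Real.log (1 / (s - 1)) =
      (1 / M.index : ℝ) * ((M.index : ℝ) * X - Real.log (1 / (s - 1))) := by
    have : (M.index : ℝ) ≠ 0 := by linarith
    field_simp
  rw [h5, abs_mul, abs_of_nonneg (by positivity)]
  have h6 : (1 / M.index : ℝ) ≤ 1 := by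
    rw [div_le_one (by linarith)]
    exact hn
  calc (1 / M.index : ℝ) * |(M.index : ℝ) * X - Real.log (1 / (s - 1))|
      ≤ 1 * |(M.index : ℝ) * X - Real.log (1 / (s - 1))| :=
        mul_le_mul_of_nonneg_right h6 (abs_nonneg _)
    _ ≤ C + B := by rw [one_mul]; exact h4

end DSB

end Pool.Agent.RG

namespace Pool.Agent.RG

theorem dens_spl : type_of% @dens_spl_pr := @dens_spl_pr

end Pool.Agent.RG
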