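import Pool.Agent.Lib_helper35.RG.Defs
import Pool.Agent.Lib_helper17.RS.P_IA

/-!
# Genus theory for Rubin's conjecture (RG), block LAT: the Herbrand quotient of a lattice
-/

set_option autoImplicit false
set_option linter.unusedSectionVars false
set_option linter.unusedVariables false

namespace Pool.Agent.RG

open Pool.Agent.RSK Pool.Agent.RS2 Pool.Agent.RS3 Pool.Agent.SY Pool.Agent.AU Pool.Agent.CR
open NumberField IsDedekindDomain Filter Topology Complex
open scoped TensorProduct

section A

variable {M : Type} [AddCommGroup M]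

/-- an endomorphism `t` of a free module with `∑ (t + 1) ^ i = 0` has determinant `± p ^ b` -/
theorem lat_det {E : Type} [AddCommGroup E] [Module.Free ℤ E] [Module.Finite ℤ E] {p : ℕ}
    (hp : p.Prime) {b : ℕ} (hb : Module.finrank ℤ E = b * (p - 1)) (t : E →ₗ[ℤ] E)
    (ht : ∑ i ∈ Finset.range p, (t + 1) ^ i = 0) :
    (LinearMap.range t).toAddSubgroup.index = p ^ b := by
  obtain ⟨W, hW⟩ := ia_poly hp
  obtain ⟨u, c, huc⟩ := ia_unit hW
  rw [ia_index_range]
  have hn0 : Polynomial.aeval t (∑ i ∈ Finset.range p, (Polynomial.X + 1 : Polynomial ℤ) ^ i) =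
      0 := by
    simp only [map_sum, map_pow, map_add, Polynomial.aeval_X, map_one]
    exact ht
  have h1 : Polynomial.aeval t (1 + Polynomial.X * W) * Polynomial.aeval t u = 1 := by
    rw [← map_mul, huc, map_add, map_mul, hn0, zero_mul, add_zero, map_one]
  have hv : IsUnit (LinearMap.det (Polynomial.aeval t (1 + Polynomial.X * W))) := by
    have h2 := congrArg LinearMap.det h1
    rw [map_mul, map_one] at h2
    exact IsUnit.of_mul_eq_one _ h2
  have hv' : (LinearMap.det (Polynomial.aeval t (1 + Polynomial.X * W))).natAbs = 1 :=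
    Int.isUnit_iff_natAbs_eq.1 hv
  have h4 : t ^ (p - 1) = (-(p : ℤ)) • Polynomial.aeval t (1 + Polynomial.X * W) := by
    have h5 := congrArg (Polynomial.aeval t) hW
    rw [hn0, map_add, map_mul, map_natCast, map_pow, Polynomial.aeval_X] at h5
    rw [eq_neg_of_add_eq_zero_left h5.symm]
    ext x
    simp
    abel
  have h6 := congrArg (fun f => (LinearMap.det f).natAbs) h4
  simp only [map_pow, LinearMap.det_smul, Int.natAbs_mul, Int.natAbs_pow, Int.natAbs_neg,
    Int.natAbs_natCast, hv', mul_one, hb] at h6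
  rw [pow_mul] at h6
  exact Nat.pow_left_injective (Nat.sub_ne_zero_of_lt hp.one_lt) h6

/-- the index of the image of a submodule -/
theorem lat_rel (S : AddSubgroup M) (f : M →+ M) (hf : ∀ x ∈ S, f x ∈ S)
    (t : S.toIntSubmodule →ₗ[ℤ] S.toIntSubmodule) (ht : ∀ x, ((t x : M)) = f x) :
    (S.map f).relIndex S = (LinearMap.range t).toAddSubgroup.index := by
  have h1 : ((S.map f).addSubgroupOf S) =
      ((LinearMap.range t).toAddSubgroup : AddSubgroup S.toIntSubmodule) := by
    ext x
    constructor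
    · intro hx
      obtain ⟨y, hy, hyx⟩ := AddSubgroup.mem_addSubgroupOf.1 hx
      refine ⟨⟨y, hy⟩, ?_⟩
      apply Subtype.ext
      rw [ht]
      exact hyx
    · rintro ⟨y, hy⟩
      refine AddSubgroup.mem_addSubgroupOf.2 ⟨y, y.2, ?_⟩
      rw [← ht, hy]
  unfold AddSubgroup.relIndex
  rw [h1]
  rfl

theorem lat_iter (τ : M →+ M) (i : ℕ) (x : M) :
    ((τ.toIntLinearMap : Module.End ℤ M) ^ i) x = τ^[i] x := by
  rw [Module.End.pow_apply]
  rfl

theorem q_lat_pr [Module.Finite ℤ M] [Module.IsTorsionFree ℤ M] {p : ℕ} (hp : p.Prime)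
    (τ : M →+ M)
    (hτ : ∀ x, τ^[p] x = x) {a b : ℕ}
    (ha : Module.finrank ℤ (dlt τ).ker.toIntSubmodule = a)
    (hb : Module.finrank ℤ (trc p τ).ker.toIntSubmodule = b * (p - 1)) :
    (dlt τ).range.relIndex (trc p τ).ker ≠ 0 ∧ (trc p τ).range.relIndex (dlt τ).ker ≠ 0 ∧
    (dlt τ).range.relIndex (trc p τ).ker * p ^ a =
      p ^ b * (trc p τ).range.relIndex (dlt τ).ker := by
  have hsucc : ∀ (i : ℕ) (x : M), τ (τ^[i] x) = τ^[i + 1] x := fun i x =>
    (Function.iterate_succ_apply' τ i x).symm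
  have hcomm : ∀ (i : ℕ) (x : M), τ^[i] (τ x) = τ^[i + 1] x := fun i x =>
    (Function.iterate_succ_apply τ i x).symm
  -- `t N = 0 = N t`
  have htel : ∀ x : M, ∑ i ∈ Finset.range p, τ^[i + 1] x = ∑ i ∈ Finset.range p, τ^[i] x := by
    intro x
    have h1 := Finset.sum_range_succ (fun i => τ^[i] x) p
    have h2 := Finset.sum_range_succ' (fun i => τ^[i] x) p
    rw [h1] at h2
    rw [hτ x, Function.iterate_zero, id_eq] at h2
    exact (add_right_cancel h2).symm
  have htN : ∀ x, dlt τ (trc p τ x) = 0 := by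
    intro x
    rw [dlt_apply, trc_apply, map_sum, Finset.sum_congr rfl fun i _ => hsucc i x, htel x,
      sub_self]
  have hNt : ∀ x, trc p τ (dlt τ x) = 0 := by
    intro x
    rw [dlt_apply, map_sub, trc_apply, trc_apply, Finset.sum_congr rfl fun i _ => hcomm i x,
      htel x, sub_self]
  -- `N = p` on the invariants
  have hNB : ∀ x ∈ (dlt τ).ker, trc p τ x = p • x := by
    intro x hx
    have h1 : τ x = x := by
      have h2 : dlt τ x = 0 := hx
      rw [dlt_apply] at h2
      exact sub_eq_zero.1 h2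
    have h2 : ∀ i : ℕ, τ^[i] x = x := fun i => Function.iterate_fixed h1 i
    rw [trc_apply, Finset.sum_congr rfl fun i _ => h2 i, Finset.sum_const, Finset.card_range]
  -- the two sublattices
  set A : AddSubgroup M := (trc p τ).ker with hA
  set B : AddSubgroup M := (dlt τ).ker with hB
  have htA : ∀ x ∈ A, dlt τ x ∈ A := fun x _ => hNt x
  have hNBm : ∀ x ∈ B, trc p τ x ∈ B := fun x _ => htN x
  -- the index of `t A` in `A`
  let tA : A.toIntSubmodule →ₗ[ℤ] A.toIntSubmodule :=
    ((dlt τ).toIntLinearMap).restrict (p := A.toIntSubmodule) (q := A.toIntSubmodule) htA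
  have htAv : ∀ x, ((tA x : M)) = dlt τ x := fun x => rfl
  have hiA : (A.map (dlt τ)).relIndex A = p ^ b := by
    rw [lat_rel A (dlt τ) htA tA htAv]
    refine lat_det hp hb tA ?_
    ext x
    have h1 : ∀ (i : ℕ) (x : A.toIntSubmodule), ((((tA + 1) ^ i) x : A.toIntSubmodule) : M) =
        τ^[i] (x : M) := by
      intro i
      induction i with
      | zero => intro x; rfl
      | succ i ih =>
        intro x
        rw [pow_succ, Module.End.mul_apply, ih]
        have h2 : (((tA + 1) x : A.toIntSubmodule) : M) = τ (x : M) := by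
          show ((tA x : M)) + (x : M) = τ x
          rw [htAv, dlt_apply, sub_add_cancel]
        rw [h2, Function.iterate_succ_apply]
    rw [LinearMap.sum_apply, Submodule.coe_sum, Finset.sum_congr rfl fun i _ => h1 i x]
    exact x.2
  -- the index of `p B = N B` in `B`
  let nB : B.toIntSubmodule →ₗ[ℤ] B.toIntSubmodule := (p : ℤ) • LinearMap.id
  have hiB : (B.map (trc p τ)).relIndex B = p ^ a := by
    rw [lat_rel B (trc p τ) hNBm nB (by
      intro x
      rw [hNB x x.2]
      show (p : ℤ) • (x : M) = p • (x : M)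
      rw [natCast_zsmul])]
    rw [ia_index_range, LinearMap.det_smul, LinearMap.det_id, mul_one, Int.natAbs_pow,
      Int.natAbs_natCast, ha]
  -- the chains
  have c1 : (A.map (dlt τ)).relIndex (dlt τ).range * (dlt τ).range.relIndex A = p ^ b := by
    rw [← hiA]
    refine AddSubgroup.relIndex_mul_relIndex _ _ _ ?_ ?_
    · rintro _ ⟨x, _, rfl⟩
      exact ⟨x, rfl⟩
    · rintro _ ⟨x, rfl⟩
      exact hNt x
  have c2 : (B.map (trc p τ)).relIndex (trc p τ).range * (trc p τ).range.relIndex B = p ^ a := by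
    rw [← hiB]
    refine AddSubgroup.relIndex_mul_relIndex _ _ _ ?_ ?_
    · rintro _ ⟨x, _, rfl⟩
      exact ⟨x, rfl⟩
    · rintro _ ⟨x, rfl⟩
      exact htN x
  have c3 : (A.map (dlt τ)).relIndex (dlt τ).range = (B.map (trc p τ)).relIndex (trc p τ).range := by
    rw [AddMonoidHom.range_eq_map, AddMonoidHom.range_eq_map, AddSubgroup.relIndex_map_map,
      AddSubgroup.relIndex_map_map, ← hA, ← hB, sup_comm]
    simp
  rw [c3] at c1
  have hpa : p ^ a ≠ 0 := pow_ne_zero _ hp.ne_zero
  have hpb : p ^ b ≠ 0 := pow_ne_zero _ hp.ne_zero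
  refine ⟨?_, ?_, ?_⟩
  · intro h0
    rw [h0, mul_zero] at c1
    exact hpb c1.symm
  · intro h0
    rw [h0, mul_zero] at c2
    exact hpa c2.symm
  · rw [← c1, ← c2]
    ring

end A

end Pool.Agent.RG

namespace Pool.Agent.RG

theorem q_lat : type_of% @q_lat_pr := @q_lat_pr

end Pool.Agent.RG
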