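import Pool.Agent.Lib_helper35.RG.Defs

/-!
# Genus theory for Rubin's conjecture (RG), block QI
-/

set_option autoImplicit false
set_option linter.unusedSectionVars false
set_option linter.unusedVariables false

namespace Pool.Agent.RG

open Pool.Agent.RSK Pool.Agent.RS2 Pool.Agent.RS3 Pool.Agent.SY Pool.Agent.AU Pool.Agent.CR
open NumberField IsDedekindDomain Filter Topology Complex
open scoped TensorProduct

section A

variable {M : Type} [AddCommGroup M]

/-- `[M : M'] = [f M : f M'] [ker f : ker f ∩ M']` -/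
theorem qi_split (f : M →+ M) (M' : AddSubgroup M) :
    (M'.map f).relIndex f.range * M'.relIndex f.ker = M'.index := by
  have h1 : (M'.map f).relIndex f.range = (M' ⊔ f.ker).index := by
    rw [AddMonoidHom.range_eq_map, AddSubgroup.relIndex_map_map, top_sup_eq,
      AddSubgroup.relIndex_top_right]
  have h2 : M'.relIndex f.ker = M'.relIndex (M' ⊔ f.ker) := by
    rw [AddSubgroup.relIndex_sup_left]
  rw [h1, h2, mul_comm]
  exact AddSubgroup.relIndex_mul_index le_sup_left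

/-- `[ker f : g M'] = [ker f : g M] [g M : g M'] = [ker f : ker f ∩ M'] [ker f ∩ M' : g M']` -/
theorem qi_two (f g : M →+ M) (hfg : ∀ x, f (g x) = 0) (M' : AddSubgroup M)
    (hg : ∀ x ∈ M', g x ∈ M') :
    (M'.map g).relIndex g.range * g.range.relIndex f.ker =
      (M'.map g).relIndex (f.ker ⊓ M') * M'.relIndex f.ker := by
  have h1 : M'.map g ≤ g.range := by
    rintro _ ⟨x, -, rfl⟩
    exact ⟨x, rfl⟩
  have h2 : g.range ≤ f.ker := by
    rintro _ ⟨x, rfl⟩
    exact hfg x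
  have h3 : M'.map g ≤ f.ker ⊓ M' := by
    rintro _ ⟨x, hx, rfl⟩
    exact ⟨hfg x, hg x hx⟩
  rw [AddSubgroup.relIndex_mul_relIndex _ _ _ h1 h2, ← AddSubgroup.inf_relIndex_right M' f.ker,
    inf_comm M' f.ker, AddSubgroup.relIndex_mul_relIndex _ _ _ h3 inf_le_left]

theorem q_index_pr (f g : M →+ M) (hfg : ∀ x, f (g x) = 0) (hgf : ∀ x, g (f x) = 0)
    (M' : AddSubgroup M) (hf : ∀ x ∈ M', f x ∈ M') (hg : ∀ x ∈ M', g x ∈ M')
    (hfin : M'.index ≠ 0) (h1 : (M'.map f).relIndex (g.ker ⊓ M') ≠ 0)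
    (h2 : (M'.map g).relIndex (f.ker ⊓ M') ≠ 0) :
    f.range.relIndex g.ker ≠ 0 ∧ g.range.relIndex f.ker ≠ 0 ∧
    f.range.relIndex g.ker * (M'.map g).relIndex (f.ker ⊓ M') =
      g.range.relIndex f.ker * (M'.map f).relIndex (g.ker ⊓ M') := by
  have sf := qi_split f M'
  have sg := qi_split g M'
  have tf := qi_two f g hfg M' hg
  have tg := qi_two g f hgf M' hf
  set Af := (M'.map f).relIndex f.range
  set Ag := (M'.map g).relIndex g.range
  set Bf := M'.relIndex f.ker
  set Bg := M'.relIndex g.ker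
  set Hf := g.range.relIndex f.ker
  set Hg := f.range.relIndex g.ker
  set hf' := (M'.map g).relIndex (f.ker ⊓ M')
  set hg' := (M'.map f).relIndex (g.ker ⊓ M')
  have nAB : Af * Bf ≠ 0 := by rw [sf]; exact hfin
  have nAB' : Ag * Bg ≠ 0 := by rw [sg]; exact hfin
  have nAf : Af ≠ 0 := left_ne_zero_of_mul nAB
  have nBf : Bf ≠ 0 := right_ne_zero_of_mul nAB
  have nAg : Ag ≠ 0 := left_ne_zero_of_mul nAB'
  have nBg : Bg ≠ 0 := right_ne_zero_of_mul nAB'
  have nHf : Ag * Hf ≠ 0 := by rw [tf]; exact mul_ne_zero h2 nBf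
  have nHg : Af * Hg ≠ 0 := by rw [tg]; exact mul_ne_zero h1 nBg
  refine ⟨right_ne_zero_of_mul nHg, right_ne_zero_of_mul nHf, ?_⟩
  refine Nat.eq_of_mul_eq_mul_left (Nat.pos_of_ne_zero (mul_ne_zero nAf nAg)) ?_
  calc Af * Ag * (Hg * hf') = Af * Hg * (Ag * hf') := by ring
    _ = hg' * hf' * (Ag * Bg) := by rw [tg]; ring
    _ = hg' * hf' * (Af * Bf) := by rw [sg, sf]
    _ = (hf' * Bf) * (Af * hg') := by ring
    _ = Af * Ag * (Hf * hg') := by rw [← tf]; ring

end A

end Pool.Agent.RG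

namespace Pool.Agent.RG

theorem q_index : type_of% @q_index_pr := @q_index_pr

end Pool.Agent.RG
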