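import Pool.Agent.Lib_helper35.RG.Defs
import Pool.Agent.Lib_helper17.RS.P_UP2
import Pool.Agent.Lib_helper17.RS.P_XD

/-!
# RG, block EQ: equivariance, Hilbert 90, finiteness of the class group, periodicity
-/

set_option autoImplicit false
set_option linter.unusedSectionVars false
set_option linter.unusedVariables false

namespace Pool.Agent.RG

open Pool.Agent.RSK Pool.Agent.RS2 Pool.Agent.RS3 Pool.Agent.SY Pool.Agent.AU Pool.Agent.CR
open NumberField IsDedekindDomain Filter Topology Complex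
open scoped TensorProduct

section A2

variable {K E : Type} [Field K] [NumberField K] [Field E] [NumberField E] [Algebra K E]
  [IsGalois K E]

theorem dv_eac_pr (σ : E ≃ₐ[K] E) (x : Additive Eˣ) :
    dv E (eac σ x) = dac σ (dv E x) := by
  ext W
  obtain ⟨W', rfl⟩ := (pac σ).surjective W
  rw [dac_apply, dv_apply, dv_apply, eac_apply]
  exact ordv_act σ W' _

theorem eq_eac_iter (σ : E ≃ₐ[K] E) (n : ℕ) (x : Additive Eˣ) :
    (eac σ)^[n] x = eac (σ ^ n) x := by
  induction n generalizing x with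
  | zero =>
    apply Additive.toMul.injective
    ext
    rfl
  | succ n ih =>
    rw [Function.iterate_succ_apply, ih]
    apply Additive.toMul.injective
    ext
    rw [eac_apply, eac_apply, eac_apply, pow_succ, AlgEquiv.mul_apply]

theorem eq_pac_mul (σ τ : E ≃ₐ[K] E) (W : HeightOneSpectrum (𝓞 E)) :
    pac (σ * τ) W = pac σ (pac τ W) := by
  ext x
  show (RingOfIntegers.mapRingEquiv (σ * τ).toRingEquiv).symm x ∈ W.asIdeal ↔
    (RingOfIntegers.mapRingEquiv τ.toRingEquiv).symm
      ((RingOfIntegers.mapRingEquiv σ.toRingEquiv).symm x) ∈ W.asIdeal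
  have h : (RingOfIntegers.mapRingEquiv (σ * τ).toRingEquiv).symm x =
      (RingOfIntegers.mapRingEquiv τ.toRingEquiv).symm
      ((RingOfIntegers.mapRingEquiv σ.toRingEquiv).symm x) := by
    ext
    rfl
  rw [h]

theorem eq_pac_one (W : HeightOneSpectrum (𝓞 E)) : pac (1 : E ≃ₐ[K] E) W = W := by
  ext x
  show (RingOfIntegers.mapRingEquiv (1 : E ≃ₐ[K] E).toRingEquiv).symm x ∈ W.asIdeal ↔ _
  have h : (RingOfIntegers.mapRingEquiv (1 : E ≃ₐ[K] E).toRingEquiv).symm x = x := by
    ext
    rfl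
  rw [h]

theorem eq_dac_mul (σ τ : E ≃ₐ[K] E) (D : Dvs E) : dac (σ * τ) D = dac σ (dac τ D) := by
  ext W
  obtain ⟨W', rfl⟩ := (pac (σ * τ)).surjective W
  rw [dac_apply, eq_pac_mul, dac_apply, dac_apply]

theorem eq_dac_one (D : Dvs E) : dac (1 : E ≃ₐ[K] E) D = D := by
  ext W
  have h := dac_apply (1 : E ≃ₐ[K] E) D W
  rwa [eq_pac_one] at h

theorem eq_dac_iter (σ : E ≃ₐ[K] E) (n : ℕ) (D : Dvs E) : (dac σ)^[n] D = dac (σ ^ n) D := by
  induction n generalizing D with
  | zero => rw [pow_zero, eq_dac_one]; rfl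
  | succ n ih => rw [Function.iterate_succ_apply, ih, pow_succ, eq_dac_mul]

theorem eac_h90_pr {p : ℕ} (hp : p.Prime) (hcard : Nat.card (E ≃ₐ[K] E) = p) (σ : E ≃ₐ[K] E)
    (hσ : σ ≠ 1) (x : Additive Eˣ) (hx : trc p (eac σ) x = 0) : ∃ y, dlt (eac σ) y = x := by
  classical
  have : Fact p.Prime := ⟨hp⟩
  have : FiniteDimensional K E := Module.Finite.of_restrictScalars_finite ℚ K E
  have hg : ∀ τ, τ ∈ Subgroup.zpowers σ := fun τ => mem_zpowers_of_prime_card hcard hσ
  have : IsCyclic (E ≃ₐ[K] E) := ⟨σ, hg⟩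
  have hord : orderOf σ = p := by
    rw [← hcard]
    exact orderOf_eq_card_of_forall_mem_zpowers hg
  have hN : Algebra.norm K ((Additive.toMul x : Eˣ) : E) = 1 := by
    apply (algebraMap K E).injective
    rw [Algebra.norm_eq_prod_automorphisms, map_one]
    rw [← IsCyclic.image_range_orderOf hg, hord, Finset.prod_image]
    · have h1 : Additive.toMul (trc p (eac σ) x) = 1 := by rw [hx]; rfl
      rw [trc_apply] at h1
      have h2 := congrArg (fun u : Eˣ => (u : E)) h1
      simp only [toMul_sum, Units.val_one, Units.coe_prod] at h2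
      rw [← h2]
      refine Finset.prod_congr rfl fun i _ => ?_
      rw [eq_eac_iter, eac_apply]
    · intro i hi j hj hij
      rw [Finset.coe_range, Set.mem_Iio] at hi hj
      exact pow_injOn_Iio_orderOf (by rw [hord]; exact hi) (by rw [hord]; exact hj) hij
  obtain ⟨y, hy⟩ := groupCohomology.exists_div_of_norm_eq_one hg hN
  refine ⟨Additive.ofMul y⁻¹, ?_⟩
  apply Additive.toMul.injective
  ext
  rw [← hy, dlt_apply, toMul_sub, Units.val_div_eq_div_val, eac_apply]
  simp only [toMul_ofMul, Units.val_inv_eq_inv_val, map_inv₀]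
  have h1 : σ (y : E) ≠ 0 := by simp
  have h2 : (y : E) ≠ 0 := y.ne_zero
  field_simp

theorem dv_index_pr (E : Type) [Field E] [NumberField E] : (dv E).range.index ≠ 0 := by
  have h := (xd_hA_ne (k := E) ∅).1
  unfold hA at h
  have h1 : (Dv ∅ : AddSubgroup (HeightOneSpectrum (𝓞 E) →₀ ℤ)) = ⊤ := by
    ext D
    simp only [AddSubgroup.mem_top, iff_true]
    intro v hv
    exact absurd hv (Finset.notMem_empty v)
  have h2 : (Pr ∅ ∅ : AddSubgroup (HeightOneSpectrum (𝓞 E) →₀ ℤ)) = (dv E).range := by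
    ext D
    constructor
    · rintro ⟨-, x, -, hx⟩
      refine ⟨Additive.ofMul x, ?_⟩
      ext v
      rw [dv_apply]
      exact (hx v (Finset.notMem_empty v)).symm
    · rintro ⟨x, rfl⟩
      refine ⟨fun v hv => absurd hv (Finset.notMem_empty v), Additive.toMul x, ?_, fun v _ => ?_⟩
      · intro v hv
        exact absurd hv (Finset.notMem_empty v)
      · exact dv_apply x v
  rw [h1, h2, AddSubgroup.relIndex_top_right] at h
  exact h

theorem eac_per_pr {p : ℕ} (hcard : Nat.card (E ≃ₐ[K] E) = p) (σ : E ≃ₐ[K] E)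
    (x : Additive Eˣ) : (eac σ)^[p] x = x := by
  rw [eq_eac_iter, ← hcard, pow_card_eq_one']
  apply Additive.toMul.injective
  ext
  rw [eac_apply]
  rfl

theorem dac_per_pr {p : ℕ} (hcard : Nat.card (E ≃ₐ[K] E) = p) (σ : E ≃ₐ[K] E) (x : Dvs E) :
    (dac σ)^[p] x = x := by
  rw [eq_dac_iter, ← hcard, pow_card_eq_one', eq_dac_one]

end A2

end Pool.Agent.RG

namespace Pool.Agent.RG

theorem dv_eac : type_of% @dv_eac_pr := @dv_eac_pr
theorem eac_h90 : type_of% @eac_h90_pr := @eac_h90_pr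
theorem dv_index : type_of% @dv_index_pr := @dv_index_pr
theorem eac_per : type_of% @eac_per_pr := @eac_per_pr
theorem dac_per : type_of% @dac_per_pr := @dac_per_pr

end Pool.Agent.RG
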