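import Pool.Agent.Lib_helper35.RG.Defs
import Pool.Agent.Lib_helper3.AU.NJ

/-!
# Multiquadratic extensions: the exact norm formula, definitions
-/

set_option autoImplicit false
set_option linter.unusedSectionVars false

namespace Pool.Agent.RG

open Pool.Agent.RSK Pool.Agent.RS2 Pool.Agent.RS3 Pool.Agent.SY Pool.Agent.AU Pool.Agent.CR
open NumberField IsDedekindDomain
open scoped TensorProduct

/-- the characters `G → 𝔽₂` -/
abbrev Ch (G : Type) [CommGroup G] : Type := Additive G →+ ZMod 2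

section

variable {G : Type} [CommGroup G]

/-- the kernel of `θ` -/
def kr (θ : Ch G) : Subgroup G where
  carrier := {g | θ (Additive.ofMul g) = 0}
  one_mem' := map_zero θ
  mul_mem' := fun {a b} ha hb => by
    show θ (Additive.ofMul a + Additive.ofMul b) = 0
    rw [map_add, ha, hb, add_zero]
  inv_mem' := fun {a} ha => by
    show θ (-Additive.ofMul a) = 0
    rw [map_neg, ha, neg_zero]

/-- the sign `(-1) ^ θ(g)` -/
def sg (θ : Ch G) (g : G) : ℤ := if θ (Additive.ofMul g) = 0 then 1 else -1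

theorem sg_mul (θ : Ch G) (g h : G) : sg θ (g * h) = sg θ g * sg θ h := by
  have key : ∀ a b : ZMod 2, (if a + b = 0 then (1 : ℤ) else -1) =
      (if a = 0 then 1 else -1) * (if b = 0 then 1 else -1) := by decide
  show (if θ (Additive.ofMul g + Additive.ofMul h) = 0 then (1 : ℤ) else -1) = _
  rw [map_add, key]
  rfl

theorem sg_one (θ : Ch G) : sg θ 1 = 1 := by
  show (if θ 0 = 0 then (1 : ℤ) else -1) = 1
  rw [map_zero, if_pos rfl]

theorem sg_sq (θ : Ch G) (g : G) : sg θ g * sg θ g = 1 := by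
  unfold sg
  split_ifs <;> rfl

/-- the complex character `(-1) ^ θ` -/
noncomputable def chi (θ : Ch G) : G →* ℂˣ where
  toFun g := Units.mk0 ((sg θ g : ℤ) : ℂ) (by
    intro h
    have h1 := sg_sq θ g
    have h2 : sg θ g = 0 := by exact_mod_cast h
    rw [h2] at h1
    exact absurd h1 (by decide))
  map_one' := by
    ext
    show ((sg θ 1 : ℤ) : ℂ) = 1
    rw [sg_one, Int.cast_one]
  map_mul' g h := by
    ext
    show ((sg θ (g * h) : ℤ) : ℂ) = ((sg θ g : ℤ) : ℂ) * ((sg θ h : ℤ) : ℂ)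
    rw [sg_mul, Int.cast_mul]

theorem chi_apply (θ : Ch G) (g : G) : ((chi θ g : ℂˣ) : ℂ) = ((sg θ g : ℤ) : ℂ) := rfl

end

section

variable {F H : Type} [Field F] [NumberField F] [Field H] [NumberField H] [Algebra F H]
  {G : Type} [CommGroup G] [Fintype G]

/-- the elements `x` of `U_{S,T}` with `g x = (-1) ^ θ(g) x` for all `g` -/
noncomputable def Uc (ι : G ≃* (H ≃ₐ[F] H)) (S T : Finset (HeightOneSpectrum (𝓞 F))) (θ : Ch G) :
    AddSubgroup (UM ι S T) where
  carrier := {x | ∀ g : G, MonoidAlgebra.single g (1 : ℤ) • x = sg θ g • x}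
  zero_mem' := fun g => by rw [smul_zero, smul_zero]
  add_mem' := fun {a b} ha hb g => by rw [smul_add, ha g, hb g, smul_add]
  neg_mem' := fun {a} ha g => by rw [smul_neg, ha g, smul_neg]

/-- `b` is a `ℤ`-basis of `Uc ι S T θ` -/
structure IsBs (ι : G ≃* (H ≃ₐ[F] H)) (S T : Finset (HeightOneSpectrum (𝓞 F))) (θ : Ch G) {r : ℕ}
    (b : Fin r → UM ι S T) : Prop where
  /-- `b` is linearly independent -/
  indep : LinearIndependent ℤ b
  /-- `b` generates `Uc ι S T θ` -/
  span : AddSubgroup.closure (Set.range b) = Uc ι S T θ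

/-- the characters `θ` with `L^{(r)}(θ, 0) ≠ 0` -/
def Xr (ι : G ≃* (H ≃ₐ[F] H)) (S : Finset (HeightOneSpectrum (𝓞 F))) {r : ℕ} (w : Fin r → Pl H)
    (θ : Ch G) : Prop :=
  (θ = 0 → Fintype.card (InfinitePlace F) + S.card = r + 1) ∧ (θ ≠ 0 → NoX ι S w (kr θ))

open scoped Classical in
/-- the absolute value of the coefficient of `b_1 ∧ … ∧ b_r` in the `θ`-part of `u` -/
noncomputable def nn (ι : G ≃* (H ≃ₐ[F] H)) (S T : Finset (HeightOneSpectrum (𝓞 F))) (r : ℕ)
    (θ : Ch G) : ℕ :=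
  if θ = 0 then hA S T else
    2 ^ (Fintype.card (InfinitePlace F) + S.card - (r + 1)) * hJ 2 F (Kf ι (kr θ)) S T

/-- the determinant of the matrix `f_i(b_j)` -/
def dF {M : Type} [AddCommGroup M] {r : ℕ} (f : Fin r → (M →+ ℤ)) (b : Fin r → M) : ℤ :=
  Matrix.det (Matrix.of fun i j => f i (b j))

end

end Pool.Agent.RG
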