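import Pool.Agent.Lib_helper35.RG.Defs
import Pool.Agent.Lib_helper35.RG.DefsN

/-!
# Block NA: Hilbert 90 with a condition at `T`
-/

set_option autoImplicit false
set_option linter.unusedSectionVars false
set_option linter.unusedVariables false

namespace Pool.Agent.RG

open Pool.Agent.RSK Pool.Agent.RS2 Pool.Agent.RS3 Pool.Agent.SY Pool.Agent.AU Pool.Agent.CR
open NumberField IsDedekindDomain Filter Topology Complex
open scoped TensorProduct nonZeroDivisors

section NA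

variable {F H : Type} [Field F] [NumberField F] [Field H] [NumberField H] [Algebra F H]
  [IsGalois F H] {G : Type} [CommGroup G] [Fintype G] {ι : G ≃* (H ≃ₐ[F] H)}
  {S T : Finset (HeightOneSpectrum (𝓞 F))} {r : ℕ} {w : Fin r → Pl H}
  {fr : HeightOneSpectrum (𝓞 F) → G}

/-- the trace is onto modulo an unramified prime -/
theorem na_tr (v : HeightOneSpectrum (𝓞 F))
    (hunr : ∀ W : HeightOneSpectrum (𝓞 H), W.under (𝓞 F) = v →
      Algebra.IsUnramifiedAt (𝓞 F) W.asIdeal) :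
    ∃ t : 𝓞 H, Algebra.intTrace (𝓞 F) (𝓞 H) t ∉ v.asIdeal := by
  by_contra! hall
  have hv : v.asIdeal ≠ ⊥ := v.ne_bot
  set I : Ideal (𝓞 H) := v.asIdeal.map (algebraMap (𝓞 F) (𝓞 H)) with hI
  have hI0 : I ≠ ⊥ := (Ideal.map_eq_bot_iff_of_injective
    (FaithfulSMul.algebraMap_injective (𝓞 F) (𝓞 H))).not.mpr hv
  have h1 : differentIdeal (𝓞 F) (𝓞 H) ≤ I := by
    rw [differentialIdeal_le_iff (K := F) (L := H) hI0, Submodule.map_le_iff_le_comap]
    intro x hx
    rw [Submodule.restrictScalars_mem, FractionalIdeal.mem_coe,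
      FractionalIdeal.mem_inv_iff (by simpa using hI0)] at hx
    rw [Submodule.mem_comap, LinearMap.coe_restrictScalars, ← FractionalIdeal.coe_one,
      ← div_self (G₀ := FractionalIdeal (𝓞 F)⁰ F) (a := (v.asIdeal : FractionalIdeal (𝓞 F)⁰ F))
        (by simpa using hv),
      FractionalIdeal.mem_coe, FractionalIdeal.mem_div_iff_of_ne_zero (by simpa using hv)]
    intro y hy'
    obtain ⟨y, hy, rfl : algebraMap (𝓞 F) F _ = _⟩ := (FractionalIdeal.mem_coeIdeal _).mp hy'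
    have h2 := hx (algebraMap (𝓞 H) H (algebraMap (𝓞 F) (𝓞 H) y))
      (FractionalIdeal.mem_coeIdeal_of_mem _ (Ideal.mem_map_of_mem _ hy))
    rw [FractionalIdeal.mem_one_iff] at h2
    obtain ⟨z, hz⟩ := h2
    refine (FractionalIdeal.mem_coeIdeal _).mpr ⟨Algebra.intTrace (𝓞 F) (𝓞 H) z, hall z, ?_⟩
    rw [Algebra.algebraMap_intTrace (K := F) (L := H), hz, ← IsScalarTower.algebraMap_apply,
      IsScalarTower.algebraMap_apply (𝓞 F) F H, mul_comm x, ← Algebra.smul_def, map_smul,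
      smul_eq_mul, mul_comm]
  have : v.asIdeal.IsPrime := v.isPrime
  obtain ⟨⟨P, hP1, hP2⟩⟩ := (inferInstance : Nonempty (v.asIdeal.primesOver (𝓞 H)))
  have hPbot : P ≠ ⊥ := by
    rintro rfl
    apply hv
    rw [hP2.over]
    exact Ideal.under_bot _ _
  set W : HeightOneSpectrum (𝓞 H) := ⟨P, hP1, hPbot⟩ with hW
  have hWv : W.under (𝓞 F) = v := HeightOneSpectrum.ext hP2.over.symm
  have h3 := hunr W hWv
  have : W.asIdeal.IsPrime := W.isPrime
  rw [← not_dvd_differentIdeal_iff] at h3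
  apply h3
  rw [Ideal.dvd_iff_le]
  refine h1.trans ?_
  rw [hI, Ideal.map_le_iff_le_comap]
  exact le_of_eq hP2.over

/-- an integer with trace `1` modulo `T` -/
theorem na_t (T : Finset (HeightOneSpectrum (𝓞 F)))
    (hunr : ∀ W : HeightOneSpectrum (𝓞 H), W.under (𝓞 F) ∈ T →
      Algebra.IsUnramifiedAt (𝓞 F) W.asIdeal) :
    ∃ t : 𝓞 H, ∀ v ∈ T, Algebra.intTrace (𝓞 F) (𝓞 H) t - 1 ∈ v.asIdeal := by
  classical
  set J : Ideal (𝓞 F) := LinearMap.range (Algebra.intTrace (𝓞 F) (𝓞 H)) with hJ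
  set P : Ideal (𝓞 F) := ∏ v ∈ T, v.asIdeal with hP
  have h1 : J ⊔ P = ⊤ := by
    by_contra hne
    obtain ⟨M, hM, hle⟩ := Ideal.exists_le_maximal _ hne
    have h2 : P ≤ M := le_sup_right.trans hle
    rw [hP, hM.isPrime.prod_le] at h2
    obtain ⟨v, hv, hvM⟩ := h2
    have h3 : v.asIdeal = M := v.isMaximal.eq_of_le hM.ne_top hvM
    obtain ⟨t, ht⟩ := na_tr (H := H) v fun W hW => hunr W (by rw [hW]; exact hv)
    apply ht
    rw [h3]
    exact hle (Ideal.mem_sup_left ⟨t, rfl⟩)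
  have h2 : (1 : 𝓞 F) ∈ J ⊔ P := by
    rw [h1]
    exact Submodule.mem_top
  obtain ⟨j, ⟨t, ht⟩, q, hq, hjq⟩ := Submodule.mem_sup.1 h2
  refine ⟨t, fun v hv => ?_⟩
  have h3 : Algebra.intTrace (𝓞 F) (𝓞 H) t - 1 = -q := by
    rw [ht, ← hjq]
    ring
  rw [h3]
  refine neg_mem ?_
  have h4 : P ≤ v.asIdeal := by
    rw [hP]
    exact Ideal.prod_le_inf.trans (Finset.inf_le hv)
  exact h4 hq

theorem na_pow {p : ℕ} (hp : p.Prime) (hcard : Nat.card (H ≃ₐ[F] H) = p) (σ : H ≃ₐ[F] H)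
    (hσ : σ ≠ 1) : (∀ τ : H ≃ₐ[F] H, τ ∈ Subgroup.zpowers σ) ∧ orderOf σ = p := by
  have := Fact.mk hp
  have h1 : orderOf σ = p := orderOf_eq_prime (by
    rw [← hcard]
    exact pow_card_eq_one') hσ
  refine ⟨fun τ => ?_, h1⟩
  exact mem_zpowers_of_prime_card hcard hσ

/-- the norm as a product of iterates -/
theorem na_norm {p : ℕ} (hp : p.Prime) (hcard : Nat.card (H ≃ₐ[F] H) = p) (σ : H ≃ₐ[F] H)
    (hσ : σ ≠ 1) (x : H) : algebraMap F H (Algebra.norm F x) =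
      ∏ i ∈ Finset.range p, (σ ^ i) x := by
  classical
  obtain ⟨h1, h2⟩ := na_pow hp hcard σ hσ
  rw [Algebra.norm_eq_prod_automorphisms]
  have h3 : (Finset.range p).image (fun i => σ ^ i) = Finset.univ := by
    rw [← h2]
    exact IsCyclic.image_range_orderOf h1
  rw [← h3, Finset.prod_image]
  intro i hi j hj hij
  have hi' : i < orderOf σ := by rw [h2]; exact Finset.mem_range.1 hi
  have hj' : j < orderOf σ := by rw [h2]; exact Finset.mem_range.1 hj
  exact pow_injOn_Iio_orderOf hi' hj' hij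

theorem na_iter (σ : H ≃ₐ[F] H) (x : Additive Hˣ) (i : ℕ) :
    ((Additive.toMul ((eac σ)^[i] x) : Hˣ) : H) = (σ ^ i) ((Additive.toMul x : Hˣ) : H) := by
  induction i with
  | zero => rfl
  | succ i ih =>
    rw [Function.iterate_succ_apply', eac_apply, ih, pow_succ']
    rfl

theorem h90_T_pr {p : ℕ} (hp : p.Prime) (hcard : Nat.card (H ≃ₐ[F] H) = p)
    (T : Finset (HeightOneSpectrum (𝓞 F)))
    (hunr : ∀ W : HeightOneSpectrum (𝓞 H), W.under (𝓞 F) ∈ T →
      Algebra.IsUnramifiedAt (𝓞 F) W.asIdeal) (σ : H ≃ₐ[F] H) (hσ : σ ≠ 1) (x : Additive Hˣ)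
    (hx : Additive.toMul x ∈ KT (ovr H T)) (hN : trc p (eac σ) x = 0) :
    ∃ y : Additive Hˣ, Additive.toMul y ∈ KT (ovr H T) ∧ dlt (eac σ) y = x := by
  classical
  obtain ⟨hz, ho⟩ := na_pow hp hcard σ hσ
  -- the norm is one
  have hnorm : Algebra.norm F ((Additive.toMul x : Hˣ) : H) = 1 := by
    apply (algebraMap F H).injective
    rw [na_norm hp hcard σ hσ, map_one]
    have h1 := congrArg (fun m : Additive Hˣ => ((Additive.toMul m : Hˣ) : H)) hN
    simp only [trc_apply, toMul_sum, toMul_zero, Units.val_one] at h1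
    rw [← h1, Units.coe_prod]
    exact Finset.prod_congr rfl fun i _ => (na_iter σ x i).symm
  have hcyc : IsCyclic (H ≃ₐ[F] H) := ⟨σ, hz⟩
  obtain ⟨y', hy'⟩ := groupCohomology.exists_div_of_norm_eq_one hz hnorm
  -- `σ y₀ = x y₀`
  set y₀ : Hˣ := y'⁻¹ with hy₀
  have hσy : σ (y₀ : H) = ((Additive.toMul x : Hˣ) : H) * (y₀ : H) := by
    have hne : (y' : H) ≠ 0 := y'.ne_zero
    have hne2 : σ (y' : H) ≠ 0 := (map_ne_zero σ).2 hne
    rw [← hy', hy₀, Units.val_inv_eq_inv_val, map_inv₀]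
    field_simp
  have hdl : ∀ y : Additive Hˣ, (∃ b : F, b ≠ 0 ∧ (y₀ : H) = algebraMap F H b *
      ((Additive.toMul y : Hˣ) : H)) → dlt (eac σ) y = x := by
    rintro y ⟨b, hb, hyb⟩
    have hb' : algebraMap F H b ≠ 0 := (map_ne_zero _).2 hb
    rw [dlt_apply, sub_eq_iff_eq_add]
    apply Additive.toMul.injective
    apply Units.ext
    rw [eac_apply, toMul_add, Units.val_mul]
    have h1 : algebraMap F H b * σ ((Additive.toMul y : Hˣ) : H) =
        algebraMap F H b * (((Additive.toMul x : Hˣ) : H) * ((Additive.toMul y : Hˣ) : H)) := by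
      have h2 := hσy
      rw [hyb, map_mul, AlgEquiv.commutes] at h2
      rw [h2]
      ring
    exact mul_left_cancel₀ hb' h1
  by_cases hT : T = ∅
  · refine ⟨Additive.ofMul y₀, ?_, hdl _ ⟨1, one_ne_zero, by simp⟩⟩
    intro W hW
    rw [mem_ovr, hT] at hW
    exact absurd hW (Finset.notMem_empty _)
  obtain ⟨v₀, hv₀⟩ := Finset.nonempty_iff_ne_empty.2 hT
  obtain ⟨t, ht⟩ := na_t (H := H) T hunr
  -- the quotients
  have hq : ∀ τ : H ≃ₐ[F] H, ∃ u : Hˣ, u ∈ KT (ovr H T) ∧ τ (y₀ : H) = (u : H) * (y₀ : H) := by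
    intro τ
    have h1 : ∀ i : ℕ, ∃ u : Hˣ, u ∈ KT (ovr H T) ∧ (σ ^ i) (y₀ : H) = (u : H) * (y₀ : H) := by
      intro i
      induction i with
      | zero => exact ⟨1, (KT (ovr H T)).one_mem, by simp⟩
      | succ i ih =>
        obtain ⟨u, hu, hue⟩ := ih
        refine ⟨(σ • u : Hˣ) * Additive.toMul x, (KT (ovr H T)).mul_mem (cd_kt_smul σ hu) hx, ?_⟩
        have h2 : (σ ^ (i + 1)) (y₀ : H) = σ ((σ ^ i) (y₀ : H)) := by
          rw [pow_succ']
          rfl
        rw [h2, hue, map_mul, hσy, Units.val_mul]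
        have h3 : ((σ • u : Hˣ) : H) = σ (u : H) := rfl
        rw [h3]
        ring
    have h2 := hz τ
    rw [← mem_powers_iff_mem_zpowers] at h2
    obtain ⟨i, hi⟩ := h2
    rw [← hi]
    exact h1 i
  choose u hu hue using hq
  set b : F := Algebra.trace F H (algebraMap (𝓞 H) H t * (y₀ : H)) with hb
  have hbH : algebraMap F H b = ∑ τ : H ≃ₐ[F] H, τ (algebraMap (𝓞 H) H t) * (u τ : H) * y₀ := by
    rw [hb, trace_eq_sum_automorphisms]
    refine Finset.sum_congr rfl fun τ _ => ?_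
    rw [map_mul, hue τ]
    ring
  have htr : algebraMap F H (algebraMap (𝓞 F) F (Algebra.intTrace (𝓞 F) (𝓞 H) t)) =
      ∑ τ : H ≃ₐ[F] H, τ (algebraMap (𝓞 H) H t) := by
    rw [Algebra.algebraMap_intTrace (K := F) (L := H), trace_eq_sum_automorphisms]
  have hy0ne : (y₀ : H) ≠ 0 := y₀.ne_zero
  have hdiv : algebraMap F H b / y₀ - 1 =
      (∑ τ : H ≃ₐ[F] H, τ (algebraMap (𝓞 H) H t) * ((u τ : H) - 1)) +
        algebraMap F H (algebraMap (𝓞 F) F (Algebra.intTrace (𝓞 F) (𝓞 H) t - 1)) := by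
    rw [map_sub, map_sub, htr, map_one, map_one, hbH, ← Finset.sum_mul, mul_div_cancel_right₀ _ hy0ne]
    have h1 : ∀ τ : H ≃ₐ[F] H, τ (algebraMap (𝓞 H) H t) * ((u τ : H) - 1) =
        τ (algebraMap (𝓞 H) H t) * (u τ : H) - τ (algebraMap (𝓞 H) H t) := fun τ => by ring
    rw [Finset.sum_congr rfl fun τ _ => h1 τ, Finset.sum_sub_distrib]
    ring
  have hval : ∀ W ∈ ovr H T, W.valuation H (algebraMap F H b / y₀ - 1) < 1 := by
    intro W hW
    rw [hdiv]
    refine Valuation.map_add_lt _ ?_ ?_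
    · refine Valuation.map_sum_lt _ one_ne_zero fun τ _ => ?_
      rw [map_mul, mul_comm]
      refine mul_lt_one_of_lt_of_le (hu τ W hW) ?_
      have h1 : τ (algebraMap (𝓞 H) H t) = algebraMap (𝓞 H) H
          (RingOfIntegers.mapRingEquiv τ.toRingEquiv t) := rfl
      rw [h1]
      exact W.valuation_le_one _
    · have h1 : algebraMap F H (algebraMap (𝓞 F) F (Algebra.intTrace (𝓞 F) (𝓞 H) t - 1)) =
          algebraMap (𝓞 H) H (algebraMap (𝓞 F) (𝓞 H) (Algebra.intTrace (𝓞 F) (𝓞 H) t - 1)) := by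
        rw [← IsScalarTower.algebraMap_apply, ← IsScalarTower.algebraMap_apply]
      rw [h1, HeightOneSpectrum.valuation_lt_one_iff_mem]
      have h2 := ht _ (mem_ovr.1 hW)
      exact h2
  have hW0 : ∃ W, W ∈ ovr H T := by
    have : v₀.asIdeal.IsPrime := v₀.isPrime
    obtain ⟨⟨P, hP1, hP2⟩⟩ := (inferInstance : Nonempty (v₀.asIdeal.primesOver (𝓞 H)))
    have hPbot : P ≠ ⊥ := by
      rintro rfl
      apply v₀.ne_bot
      rw [hP2.over]
      exact Ideal.under_bot _ _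
    refine ⟨⟨P, hP1, hPbot⟩, ?_⟩
    rw [mem_ovr]
    have : HeightOneSpectrum.under (𝓞 F) ⟨P, hP1, hPbot⟩ = v₀ :=
      HeightOneSpectrum.ext hP2.over.symm
    rw [this]
    exact hv₀
  have hbne : algebraMap F H b ≠ 0 := by
    intro h0
    obtain ⟨W, hW⟩ := hW0
    have h1 := hval W hW
    rw [h0, zero_div, zero_sub, Valuation.map_neg, map_one] at h1
    exact lt_irrefl _ h1
  set ub : Hˣ := Units.mk0 (algebraMap F H b / y₀) (div_ne_zero hbne hy0ne) with hub
  have hubK : ub ∈ KT (ovr H T) := fun W hW => hval W hW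
  refine ⟨Additive.ofMul ub⁻¹, (KT (ovr H T)).inv_mem hubK, hdl _ ⟨b, fun h0 => hbne (by
    rw [h0, map_zero]), ?_⟩⟩
  show (y₀ : H) = algebraMap F H b * ((ub⁻¹ : Hˣ) : H)
  have h1 : ((ub⁻¹ : Hˣ) : H) = (y₀ : H) / algebraMap F H b := by
    rw [Units.val_inv_eq_inv_val ub]
    show (algebraMap F H b / (y₀ : H))⁻¹ = _
    rw [inv_div]
  rw [h1, mul_div_cancel₀ _ hbne]


end NA

end Pool.Agent.RG

namespace Pool.Agent.RG

theorem h90_T : type_of% @h90_T_pr := @h90_T_pr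

end Pool.Agent.RG
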