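import Pool.Agent.Lib_helper35.RG.Defs
import Pool.Agent.Lib_helper35.RG.P_NA
import Pool.Agent.Lib_helper35.RG.DefsN

/-!
# Multiquadratic extensions, block NB: `RS2.cd_theta` is surjective, equality in `AU.cap_dvdJ`
(helper16)
-/

set_option autoImplicit false
set_option linter.unusedSectionVars false
set_option linter.unusedVariables false

namespace Pool.Agent.RG

open Pool.Agent.RSK Pool.Agent.RS2 Pool.Agent.RS3 Pool.Agent.SY Pool.Agent.AU Pool.Agent.CR
open NumberField IsDedekindDomain Filter Topology Complex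
open scoped TensorProduct

section NBl

variable {F H : Type} [Field F] [NumberField F] [Field H] [NumberField H] [Algebra F H]
  [IsGalois F H] {G : Type} [CommGroup G] [Fintype G] {ι : G ≃* (H ≃ₐ[F] H)}
  {S T : Finset (HeightOneSpectrum (𝓞 F))} {r : ℕ} {w : Fin r → Pl H}
  {fr : HeightOneSpectrum (𝓞 F) → G}

/-- if the divisor of `y` outside `S` is invariant under a generator, it is invariant -/
theorem nb_inv {p : ℕ} (hp : p.Prime) (hG : Nat.card G = p) {σ : G} (hσ : σ ≠ 1) {y : Hˣ}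
    (hy : ∀ W : HeightOneSpectrum (𝓞 H), W ∉ ovr H S →
      ordv W ((ι σ • y : Hˣ) : H) = ordv W (y : H)) (τ : H ≃ₐ[F] H)
    (W : HeightOneSpectrum (𝓞 H)) (hW : W ∉ ovr H S) :
    ordv W ((τ • y : Hˣ) : H) = ordv W (y : H) := by
  obtain ⟨g, rfl⟩ := ι.surjective τ
  obtain ⟨n, rfl⟩ := cd_gen hp hG hσ g
  rw [map_pow]
  induction n with
  | zero => rw [pow_zero, one_smul]
  | succ n ih =>
    rw [pow_succ, mul_smul, cd_ordv_smul, hy, ← cd_ordv_smul, ih]
    rw [mem_ovr, under_equiv]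
    rwa [mem_ovr] at hW

/-- the divisor of `F` given by an element of `Hˣ` -/
noncomputable def nb_D (S : Finset (HeightOneSpectrum (𝓞 F))) (y : Hˣ) :
    HeightOneSpectrum (𝓞 F) →₀ ℤ :=
  Finsupp.ofSupportFinite
    (fun v => open scoped Classical in
      if v ∈ S then 0 else ordv (up1_surj (H := H) v).choose (y : H)) (by
    classical
    refine Set.Finite.subset ((dvx_finite y).image fun W => W.under (𝓞 F)) fun v hv => ?_
    refine ⟨(up1_surj (H := H) v).choose, ?_, (up1_surj (H := H) v).choose_spec⟩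
    rw [Function.mem_support] at hv ⊢
    intro h
    apply hv
    split_ifs
    · rfl
    · exact h)

theorem nb_D_in {v : HeightOneSpectrum (𝓞 F)} (hv : v ∈ S) (y : Hˣ) : nb_D S y v = 0 := by
  classical
  show (if v ∈ S then 0 else _) = 0
  rw [if_pos hv]

theorem nb_D_out {v : HeightOneSpectrum (𝓞 F)} (hv : v ∉ S) (y : Hˣ) :
    nb_D S y v = ordv (up1_surj (H := H) v).choose (y : H) := by
  classical
  show (if v ∈ S then 0 else _) = _
  rw [if_neg hv]

theorem nb_P {p : ℕ} (hp : p.Prime) (hG : Nat.card G = p) {σ : G} (hσ : σ ≠ 1) {y : Hˣ}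
    (hyT : y ∈ KT (ovr H T))
    (hy : ∀ W : HeightOneSpectrum (𝓞 H), W ∉ ovr H S →
      ordv W ((ι σ • y : Hˣ) : H) = ordv W (y : H)) : cd_P S T (nb_D S y) y := by
  refine ⟨hyT, fun W hW => ?_⟩
  have hWS : W.under (𝓞 F) ∉ S := by rwa [mem_ovr] at hW
  rw [nb_D_out hWS]
  obtain ⟨W', hW'⟩ : ∃ W', W' = (up1_surj (H := H) (W.under (𝓞 F))).choose := ⟨_, rfl⟩
  have hu : W'.under (𝓞 F) = W.under (𝓞 F) := by
    rw [hW']; exact (up1_surj (H := H) (W.under (𝓞 F))).choose_spec
  rw [← hW']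
  obtain ⟨τ, hτ⟩ := act_trans (F := F) (W := (Sum.inr W' : Pl H)) (W' := (Sum.inr W : Pl H))
    (congrArg Sum.inr hu)
  have hτ' : HeightOneSpectrum.equivOfRingEquiv (RingOfIntegers.mapRingEquiv τ.toRingEquiv) W' =
      W := Sum.inr.inj hτ
  have h1 := ordv_act τ W' (y : H)
  rw [hτ'] at h1
  have h2 := nb_inv hp hG hσ hy τ W hW
  have h3 : ((τ • y : Hˣ) : H) = τ (y : H) := rfl
  rw [h3, h1] at h2
  exact h2

theorem nb_ordv_T {y : Hˣ} (hy : y ∈ KT (ovr H T)) {W : HeightOneSpectrum (𝓞 H)}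
    (hW : W ∈ ovr H T) : ordv W (y : H) = 0 := by
  refine cd_ordv_of_val ?_
  have h1 := hy W hW
  have e : (y : H) = ((y : H) - 1) + 1 := by ring
  rw [e, Valuation.map_add_eq_of_lt_right _ (by rw [map_one]; exact h1), map_one]

theorem nb_K {y : Hˣ} (hy : cd_P S T (nb_D S y) y) : nb_D S y ∈ cd_K F H S T := by
  have hDT : ∀ v ∈ T, nb_D S y v = 0 := by
    intro v hv
    by_cases hS : v ∈ S
    · exact nb_D_in hS y
    · rw [nb_D_out hS]
      refine nb_ordv_T hy.1 ?_
      rw [mem_ovr, (up1_surj (H := H) v).choose_spec]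
      exact hv
  refine ⟨hDT, fun W hW => ?_, y, hy.1, fun W hW => ?_⟩
  · rw [cd_ext_apply]
    exact hDT _ (mem_ovr.1 hW)
  · rw [cd_ext_apply]
    exact hy.2 W hW

/-- the norm as a sum over the powers of a generator -/
theorem nb_trc {p : ℕ} (hp : p.Prime) (hG : Nat.card G = p) {σ : G} (hσ : σ ≠ 1) (x : Hˣ) :
    trc p (eac (ι σ)) (Additive.ofMul x) = Additive.ofMul (∏ g : G, ι g • x) := by
  classical
  have hpow : ∀ i : ℕ, (eac (ι σ))^[i] (Additive.ofMul x) = Additive.ofMul (ι (σ ^ i) • x) := by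
    intro i
    induction i with
    | zero => rw [pow_zero, map_one, one_smul]; rfl
    | succ i ih =>
      rw [Function.iterate_succ_apply', ih, pow_succ', map_mul, mul_smul]
      rfl
  have : Fact p.Prime := ⟨hp⟩
  have hord : orderOf σ = p := by
    have h1 : orderOf σ ∣ p := by rw [← hG]; exact orderOf_dvd_natCard σ
    rcases (Nat.dvd_prime hp).1 h1 with h | h
    · exact absurd (orderOf_eq_one_iff.1 h) hσ
    · exact h
  have himg : (Finset.range p).image (fun i => σ ^ i) = Finset.univ := by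
    refine Finset.eq_univ_of_forall fun g => ?_
    obtain ⟨n, hn⟩ := cd_gen hp hG hσ g
    rw [Finset.mem_image]
    refine ⟨n % p, Finset.mem_range.2 (Nat.mod_lt _ hp.pos), ?_⟩
    rw [← hn, ← hord, pow_mod_orderOf]
  have hinj : Set.InjOn (fun i => σ ^ i) (Finset.range p : Set ℕ) := by
    intro i hi j hj hij
    rw [Finset.coe_range, Set.mem_Iio] at hi hj
    exact pow_injOn_Iio_orderOf (by rw [Set.mem_Iio, hord]; exact hi)
      (by rw [Set.mem_Iio, hord]; exact hj) hij
  rw [trc_apply, Finset.sum_congr rfl fun i _ => hpow i, ← himg, Finset.prod_image hinj,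
    ofMul_prod]

theorem nb_surj {p : ℕ} (hp : p.Prime) (hG : Nat.card G = p) (hD : DataW ι S T r w fr) {σ : G}
    (hσ : σ ≠ 1) : Function.Surjective (cd_theta ι S T σ) := by
  intro q
  obtain ⟨m, rfl⟩ := QuotientAddGroup.mk_surjective q
  obtain ⟨u, hu⟩ := m
  have hcard : Nat.card (H ≃ₐ[F] H) = p := by rw [← hG]; exact (Nat.card_congr ι.toEquiv).symm
  have hισ : ι σ ≠ 1 := by
    intro h
    exact hσ (ι.injective (h.trans (map_one ι).symm))
  have hN : trc p (eac (ι σ)) (Additive.ofMul u.val) = 0 := by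
    rw [nb_trc hp hG hσ, ← cd_nrm_val]
    have h1 : nrm G • u = 0 := hu
    rw [h1]
    rfl
  obtain ⟨y, hyT, hy⟩ := h90_T hp hcard T (fun W hW => hD.unram W fun hS =>
    Finset.disjoint_left.1 hD.disj hS hW) (ι σ) hισ (Additive.ofMul u.val) u.val_mem.2 hN
  obtain ⟨y, rfl⟩ := Additive.ofMul.surjective y
  have hyT' : y ∈ KT (ovr H T) := hyT
  have hy' : (ι σ • y) * y⁻¹ = u.val := by
    have h1 := congrArg Additive.toMul hy
    rw [dlt_apply] at h1
    exact h1
  have hyo : ∀ W : HeightOneSpectrum (𝓞 H), W ∉ ovr H S →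
      ordv W ((ι σ • y : Hˣ) : H) = ordv W (y : H) := by
    intro W hW
    have h1 : ordv W (((ι σ • y) * y⁻¹ : Hˣ) : H) = 0 := by
      rw [hy']
      exact cd_ordv_of_val (u.val_mem.1 W hW)
    rw [ordv_mul, ordv_inv] at h1
    linarith
  have hP := nb_P hp hG hσ hyT' hyo
  refine ⟨⟨nb_D S y, nb_K hP⟩, ?_⟩
  show (QuotientAddGroup.mk (cd_y ι σ (cd_K_exists (nb_K hP)).choose_spec) :
        mMinus G (UM ι S T) ⧸ ((mSub (UM ι S T) σ).addSubgroupOf (mMinus G (UM ι S T)))) = _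
  rw [QuotientAddGroup.eq, AddSubgroup.mem_addSubgroupOf]
  have h := cd_wd (ι := ι) σ hP (cd_K_exists (nb_K hP)).choose_spec
  have e1 : (cd_y ι σ hP : UM ι S T) = u := UM.ext hy'
  rw [e1] at h
  have e : ((-cd_y ι σ (cd_K_exists (nb_K hP)).choose_spec + ⟨u, hu⟩ :
      mMinus G (UM ι S T)) : UM ι S T) = u -
        (cd_y ι σ (cd_K_exists (nb_K hP)).choose_spec : UM ι S T) := by
    push_cast
    abel
  rw [e]
  exact h

theorem cap_eq_pr {p : ℕ} (hp : p.Prime) (hG : Nat.card G = p) (hD : DataW ι S T r w fr) {σ : G}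
    (hσ : σ ≠ 1) : hA S T * jE F H S T =
      hA (ovr H S) (ovr H T) * (mSub (UM ι S T) σ).relIndex (mMinus G (UM ι S T)) := by
  have h1 : (Pr S T).relIndex (cd_K F H S T) * (cd_K F H S T).relIndex (Dv T) =
      (Pr S T).relIndex (Dv T) :=
    AddSubgroup.relIndex_mul_relIndex _ _ _ (cd_Pr_le hD) inf_le_left
  have h2 : (Pr S T).relIndex (cd_K F H S T) =
      (mSub (UM ι S T) σ).relIndex (mMinus G (UM ι S T)) := by
    have e1 : (Pr S T).relIndex (cd_K F H S T) = Nat.card (cd_theta ι S T σ).range := by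
      rw [← AddSubgroup.index_ker, cd_ker hp hG hD hσ]
      rfl
    rw [e1, AddMonoidHom.range_eq_top.2 (nb_surj hp hG hD hσ)]
    exact Nat.card_congr AddSubgroup.topEquiv.toEquiv
  have h3 : (cd_K F H S T).relIndex (Dv T) =
      (Pr (ovr H S) (ovr H T)).relIndex ((Dv T).map (Pool.Agent.RS2.cd_ext F H)) := by
    have e1 : (cd_K F H S T).relIndex (Dv T) =
        ((Pr (ovr H S) (ovr H T)).comap (cd_ext F H)).relIndex (Dv T) := by
      rw [cd_K, AddSubgroup.inf_relIndex_left]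
    rw [e1, AddSubgroup.relIndex_comap]
  rw [hA, ← h1, h3, mul_assoc, nj_hA, h2, mul_comm]

end NBl

end Pool.Agent.RG

namespace Pool.Agent.RG

theorem cap_eq : type_of% @cap_eq_pr := @cap_eq_pr

end Pool.Agent.RG
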