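import Pool.Agent.Lib_helper35.RG.Defs
import Pool.Agent.Lib_helper35.RG.P_NB
import Pool.Agent.Lib_helper35.RG.DefsN

/-!
# RG, block NC: the exact norm formula
-/

set_option autoImplicit false
set_option linter.unusedSectionVars false
set_option linter.unusedVariables false

namespace Pool.Agent.RG

open Pool.Agent.RSK Pool.Agent.RS2 Pool.Agent.RS3 Pool.Agent.SY Pool.Agent.AU Pool.Agent.CR
open NumberField IsDedekindDomain Filter Topology Complex
open scoped TensorProduct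

section NA

variable {F H : Type} [Field F] [NumberField F] [Field H] [NumberField H] [Algebra F H]
  [IsGalois F H] {G : Type} [CommGroup G] [Fintype G] {ι : G ≃* (H ≃ₐ[F] H)}
  {S T : Finset (HeightOneSpectrum (𝓞 F))} {r : ℕ} {w : Fin r → Pl H}
  {fr : HeightOneSpectrum (𝓞 F) → G}

/-- Block NC: `AU.nj_main` with `k = 1`. -/
theorem nj_exact_pr {p : ℕ} (hp : p.Prime) (hG : Nat.card G = p) (hD : DataW ι S T r w fr)
    {m : ℕ} (hm : Fintype.card (PS S) = r + m + 1)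
    {c : (G →* ℂˣ) → ℂ} (hc : LeadX S T r fr c) {b : Fin r → UM ι S T} {x : MonoidAlgebra ℚ G}
    (hco : Core ι S T w c b x) :
    ‖pX (fun χ => evQ χ x)‖ * ((p : ℝ) ^ r *
      ((mSpn G b).relIndex (mMinus G (UM ι S T)) : ℝ)) = (p : ℝ) ^ m * (jE F H S T : ℝ) := by
  obtain ⟨σ, hσ⟩ := nm2_sigma hp hG
  have hfin : Module.Finite ℤ (UM ι S T) := um_finite hD
  have htf : Module.IsTorsionFree ℤ (UM ι S T) := um_tf hD
  have hrk : Module.finrank ℤ (mMinus G (UM ι S T)) = r * (p - 1) := um_rank hp hG hD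
  have h1 := idx_one hp hG hσ hrk b (fun j => hco.minus j)
  have hk := cap_eq hp hG hD hσ
  have h2 := norm_x hp hG hD hm hc hco
  have hF : (hA S T : ℝ) ≠ 0 := Nat.cast_ne_zero.2 (nm2_hA_pos hD).ne'
  have h1' : ((mPlus G (UM ι S T) ⊔ mSpn G b).index : ℝ) *
      ((mSub (UM ι S T) σ).relIndex (mMinus G (UM ι S T)) : ℝ) =
      (p : ℝ) ^ r * ((mSpn G b).relIndex (mMinus G (UM ι S T)) : ℝ) := by
    exact_mod_cast h1
  have hk' : (hA (ovr H S) (ovr H T) : ℝ) *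
      ((mSub (UM ι S T) σ).relIndex (mMinus G (UM ι S T)) : ℝ) =
        (hA S T : ℝ) * jE F H S T := by
    exact_mod_cast hk.symm
  refine mul_left_cancel₀ hF ?_
  calc (hA S T : ℝ) * (‖pX (fun χ => evQ χ x)‖ * ((p : ℝ) ^ r *
        ((mSpn G b).relIndex (mMinus G (UM ι S T)) : ℝ)))
      = (hA S T : ℝ) * (‖pX (fun χ => evQ χ x)‖ * (((mPlus G (UM ι S T) ⊔ mSpn G b).index : ℝ) *
      ((mSub (UM ι S T) σ).relIndex (mMinus G (UM ι S T)) : ℝ))) := by rw [h1']
    _ = (‖pX (fun χ => evQ χ x)‖ * (hA S T * (mPlus G (UM ι S T) ⊔ mSpn G b).index)) *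
      ((mSub (UM ι S T) σ).relIndex (mMinus G (UM ι S T)) : ℝ) := by ring
    _ = ((p : ℝ) ^ m * hA (ovr H S) (ovr H T)) *
      ((mSub (UM ι S T) σ).relIndex (mMinus G (UM ι S T)) : ℝ) := by rw [h2]
    _ = (p : ℝ) ^ m * (hA (ovr H S) (ovr H T) *
      ((mSub (UM ι S T) σ).relIndex (mMinus G (UM ι S T)) : ℝ)) := by ring
    _ = (p : ℝ) ^ m * ((hA S T : ℝ) * jE F H S T) := by rw [hk']
    _ = (hA S T : ℝ) * ((p : ℝ) ^ m * (jE F H S T : ℝ)) := by ring

end NA

end Pool.Agent.RG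

namespace Pool.Agent.RG

theorem nj_exact : type_of% @nj_exact_pr := @nj_exact_pr

end Pool.Agent.RG
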