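import Pool.Agent.Lib_helper35.RG.Defs
import Pool.Agent.Lib_helper35.RG.P_NC
import Pool.Agent.Lib_helper35.RG.DefsN

/-!
# RG block ND: the coefficient for a quadratic extension
-/

set_option autoImplicit false
set_option linter.unusedSectionVars false
set_option linter.unusedVariables false

namespace Pool.Agent.RG

open Pool.Agent.RSK Pool.Agent.RS2 Pool.Agent.RS3 Pool.Agent.SY Pool.Agent.AU Pool.Agent.CR
open NumberField IsDedekindDomain Filter Topology Complex
open scoped TensorProduct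

section NDG

variable {G : Type} [CommGroup G] [Fintype G]

theorem nd_ex (hG : Nat.card G = 2) : ∃ g : G, g ≠ 1 := by
  have h1 : 1 < Nat.card G := by rw [hG]; norm_num
  have : Nontrivial G := Finite.one_lt_card_iff_nontrivial.1 h1
  exact exists_ne 1

theorem nd_char (hG : Nat.card G = 2) {χ : G →* ℂˣ} (hχ : χ ≠ 1) {ψ : G →* ℂˣ} (hψ : ψ ≠ 1) :
    ψ = χ := by
  have hc : Nat.card (G →* ℂˣ) = 2 := by rw [px2_card, hG]
  have hfin : Finite (G →* ℂˣ) := px2_finite
  by_contra hne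
  have hinj : Function.Injective (![1, χ, ψ] : Fin 3 → (G →* ℂˣ)) := by
    intro i j hij
    fin_cases i <;> fin_cases j <;> first
      | rfl
      | (exfalso; revert hij; simp [hχ, hψ, hne, hχ.symm, hψ.symm, Ne.symm hne])
  have h2 := Nat.card_le_card_of_injective _ hinj
  rw [hc, Nat.card_eq_fintype_card, Fintype.card_fin] at h2
  omega

theorem nd_pX (hG : Nat.card G = 2) {χ : G →* ℂˣ} (hχ : χ ≠ 1) (φ : (G →* ℂˣ) → ℂ) :
    pX φ = φ χ := by
  have hu : ∀ y : {χ : G →* ℂˣ // χ ≠ 1}, y = ⟨χ, hχ⟩ := fun y =>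
    Subtype.ext (nd_char hG hχ y.2)
  unfold pX
  let _ : Unique {χ : G →* ℂˣ // χ ≠ 1} := ⟨⟨⟨χ, hχ⟩⟩, hu⟩
  rw [finprod_unique]
  rfl

theorem nd_val (hG : Nat.card G = 2) {χ : G →* ℂˣ} (hχ : χ ≠ 1) {g : G} (hg : g ≠ 1) :
    ((χ g : ℂˣ) : ℂ) = -1 := by
  have h1 : g ^ 2 = 1 := by
    rw [← hG]
    exact pow_card_eq_one'
  have h2 : ((χ g : ℂˣ) : ℂ) ^ 2 = 1 := by
    rw [← Units.val_pow_eq_pow_val, ← map_pow, h1, map_one, Units.val_one]
  have h3 : ((χ g : ℂˣ) : ℂ) ≠ 1 := by
    intro h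
    apply hχ
    have hc : Fintype.card G = 2 := by rw [← Nat.card_eq_fintype_card, hG]
    ext x
    by_cases hx : x = 1
    · rw [hx, map_one, map_one]
    · have hxg : x = g := by
        by_contra hne
        have hinj : Function.Injective (![1, x, g] : Fin 3 → G) := by
          intro i j hij
          fin_cases i <;> fin_cases j <;> first
            | rfl
            | (exfalso; revert hij; simp [hx, hg, hne, Ne.symm hx, Ne.symm hg, Ne.symm hne])
        have h2 := Fintype.card_le_of_injective _ hinj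
        rw [hc, Fintype.card_fin] at h2
        omega
      rw [hxg, h]
      rfl
  have h4 : (((χ g : ℂˣ) : ℂ) - 1) * (((χ g : ℂˣ) : ℂ) + 1) = 0 := by linear_combination h2
  rcases mul_eq_zero.1 h4 with h | h
  · exact absurd (sub_eq_zero.1 h) h3
  · linear_combination h

theorem nd_mMinus (M : Type) [AddCommGroup M] [Module (MonoidAlgebra ℤ G) M] {r : ℕ}
    {b : Fin r → M} (hb : AddSubgroup.closure (Set.range b) = mMinus G M) :
    mSpn G b = mMinus G M := by
  apply le_antisymm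
  · intro x hx
    have hx' : x ∈ Submodule.span (MonoidAlgebra ℤ G) (Set.range b) := hx
    show nrm G • x = 0
    induction hx' using Submodule.span_induction with
    | mem v hv =>
      have h1 : v ∈ mMinus G M := by
        rw [← hb]
        exact AddSubgroup.subset_closure hv
      exact h1
    | zero => exact smul_zero _
    | add v w hv hw h1 h2 => rw [smul_add, h1 hv, h2 hw, add_zero]
    | smul c v hv h1 => rw [smul_smul, mul_comm, ← smul_smul, h1 hv, smul_zero]
  · rw [← hb, AddSubgroup.closure_le]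
    intro x hx
    exact Submodule.subset_span hx

end NDG

section NDM

variable {F H : Type} [Field F] [NumberField F] [Field H] [NumberField H] [Algebra F H]
  [IsGalois F H] {G : Type} [CommGroup G] [Fintype G] {ι : G ≃* (H ≃ₐ[F] H)}
  {S T : Finset (HeightOneSpectrum (𝓞 F))} {r : ℕ} {w : Fin r → Pl H}
  {fr : HeightOneSpectrum (𝓞 F) → G}

theorem norm_two_pr (hG : Nat.card G = 2) (hD : DataW ι S T r w fr)
    {m : ℕ} (hm : Fintype.card (PS S) = r + m + 1)
    {c : (G →* ℂˣ) → ℂ} (hc : LeadX S T r fr c) {b : Fin r → UM ι S T}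
    (hb : AddSubgroup.closure (Set.range b) = mMinus G (UM ι S T)) {χ : G →* ℂˣ} (hχ : χ ≠ 1)
    {q : ℚ} (hq : c χ⁻¹ = (q : ℂ) * evR χ (wmat ι S T w b).det) :
    ∃ n : ℤ, n.natAbs = 2 ^ m * jE F H S T ∧ q * 2 ^ r = n := by
  obtain ⟨g, hg⟩ := nd_ex hG
  set x : MonoidAlgebra ℚ G := MonoidAlgebra.single 1 (q / 2) - MonoidAlgebra.single g (q / 2)
    with hx
  have hval : ∀ ψ : G →* ℂˣ, evQ ψ x = ((q / 2 : ℚ) : ℂ) * (1 - ((ψ g : ℂˣ) : ℂ)) := by
    intro ψ
    rw [hx, map_sub, px2_evQ_single, px2_evQ_single, map_one, Units.val_one]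
    ring
  have hχv : evQ χ x = (q : ℂ) := by
    rw [hval, nd_val hG hχ hg]
    push_cast
    ring
  have hco : Core ι S T w c b x := by
    refine ⟨fun j => ?_, ?_, ?_⟩
    · have h1 : b j ∈ mMinus G (UM ι S T) := by
        rw [← hb]
        exact AddSubgroup.subset_closure ⟨j, rfl⟩
      exact h1
    · rw [evQ_one_nrm, hval, MonoidHom.one_apply, Units.val_one, sub_self, mul_zero]
    · intro ψ hψ
      rw [nd_char hG hχ hψ, hχv, hq]
  have h1 := nj_exact Nat.prime_two hG hD hm hc hco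
  rw [nd_pX hG hχ, hχv, nd_mMinus _ hb, AddSubgroup.relIndex_self] at h1
  have h2 : ‖(q : ℂ)‖ = |(q : ℝ)| := by
    rw [show (q : ℂ) = ((q : ℝ) : ℂ) by push_cast; rfl, Complex.norm_real, Real.norm_eq_abs]
  rw [h2] at h1
  have h3 : |q| * 2 ^ r = 2 ^ m * (jE F H S T : ℚ) := by
    have : ((|q| * 2 ^ r : ℚ) : ℝ) = ((2 ^ m * (jE F H S T : ℚ) : ℚ) : ℝ) := by
      push_cast at h1 ⊢
      linarith
    exact_mod_cast this
  rcases abs_choice q with h | h
  · refine ⟨((2 ^ m * jE F H S T : ℕ) : ℤ), Int.natAbs_natCast _, ?_⟩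
    rw [h] at h3
    rw [h3]
    push_cast
    ring
  · refine ⟨-((2 ^ m * jE F H S T : ℕ) : ℤ), by rw [Int.natAbs_neg, Int.natAbs_natCast], ?_⟩
    rw [h] at h3
    push_cast
    linarith

end NDM

end Pool.Agent.RG

namespace Pool.Agent.RG

theorem norm_two : type_of% @norm_two_pr := @norm_two_pr

end Pool.Agent.RG
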