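import Pool.Agent.Lib_helper35.RG.Defs
import Pool.Agent.Lib_helper35.RG.DefsN

/-!
# Block NE: values at elements of `Uc`
-/

set_option autoImplicit false
set_option linter.unusedSectionVars false
set_option linter.unusedVariables false

namespace Pool.Agent.RG

open Pool.Agent.RSK Pool.Agent.RS2 Pool.Agent.RS3 Pool.Agent.SY Pool.Agent.AU Pool.Agent.CR
open NumberField IsDedekindDomain Filter Topology Complex
open scoped TensorProduct

section NA

variable {F H : Type} [Field F] [NumberField F] [Field H] [NumberField H] [Algebra F H]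
  [IsGalois F H] {G : Type} [CommGroup G] [Fintype G] {ι : G ≃* (H ≃ₐ[F] H)}
  {S T : Finset (HeightOneSpectrum (𝓞 F))} {r : ℕ} {w : Fin r → Pl H}
  {fr : HeightOneSpectrum (𝓞 F) → G}

theorem ne_evZ_single (χ : G →* ℂˣ) (g : G) (n : ℤ) :
    evZ χ (MonoidAlgebra.single g n) = (n : ℂ) * ((χ g : ℂˣ) : ℂ) := by
  have h0 : evZ χ (MonoidAlgebra.single g n) = evQ χ (toQ G (MonoidAlgebra.single g n)) := rfl
  rw [h0]
  have : toQ G (MonoidAlgebra.single g n) = MonoidAlgebra.single g ((n : ℤ) : ℚ) := by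
    simp [toQ]
  rw [this, px2_evQ_single]
  simp

theorem ne_sum (x : MonoidAlgebra ℤ G) : x = ∑ g : G, MonoidAlgebra.single g (x.coeff g) := by
  classical
  ext g
  rw [MonoidAlgebra.coeff_sum]
  simp

theorem ne_val (θ : Ch G) {x : MonoidAlgebra ℤ G}
    (hx : ∀ g : G, MonoidAlgebra.single g (1 : ℤ) * x = sg θ g • x) :
    evZ (chi θ) x = (Nat.card G : ℂ) * ((x.coeff 1 : ℤ) : ℂ) := by
  classical
  have hc : ∀ g : G, x.coeff g = sg θ g * x.coeff 1 := by
    intro g
    have h1 : (MonoidAlgebra.single g (1 : ℤ) * x).coeff g = sg θ g * x.coeff g := by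
      rw [hx, MonoidAlgebra.coeff_smul]
      rfl
    rw [MonoidAlgebra.coeff_single_mul_apply, one_mul, inv_mul_cancel] at h1
    rw [h1, ← mul_assoc, sg_sq, one_mul]
  have h2 : x = ∑ g : G, MonoidAlgebra.single g (sg θ g * x.coeff 1) := by
    conv_lhs => rw [ne_sum x]
    exact Finset.sum_congr rfl fun g _ => by rw [hc g]
  have h3 : ∀ g : G, evZ (chi θ) (MonoidAlgebra.single g (sg θ g * x.coeff 1)) =
      ((x.coeff 1 : ℤ) : ℂ) := by
    intro g
    rw [ne_evZ_single, chi_apply]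
    have h4 : sg θ g * x.coeff 1 * sg θ g = x.coeff 1 := by
      rw [mul_comm, ← mul_assoc, sg_sq, one_mul]
    exact_mod_cast h4
  conv_lhs => rw [h2]
  rw [map_sum, Finset.sum_congr rfl fun g _ => h3 g, Finset.sum_const, Finset.card_univ,
    nsmul_eq_mul, Nat.card_eq_fintype_card]

/-- Block NE (values at elements of `Uc`): `ψ(b) = ∑ sg θ g f(b) g`, `f` the coefficient of `1`. -/
theorem uc_coeff_pr (θ : Ch G) {b : UM ι S T} (hb : b ∈ Uc ι S T θ)
    (ψ : UM ι S T →ₗ[MonoidAlgebra ℤ G] MonoidAlgebra ℤ G) :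
    evZ (chi θ) (ψ b) = (Nat.card G : ℂ) * ((ψ b).coeff 1 : ℤ) := by
  apply ne_val
  intro g
  rw [← smul_eq_mul, ← map_smul, hb g, map_zsmul]

theorem uc_det_pr (θ : Ch G) {b : Fin r → UM ι S T} (hb : ∀ i, b i ∈ Uc ι S T θ)
    (ψ : Fin r → (UM ι S T →ₗ[MonoidAlgebra ℤ G] MonoidAlgebra ℤ G)) :
    evZ (chi θ) (pmat ψ b).det = (Nat.card G : ℂ) ^ r *
      (Matrix.det (Matrix.of fun i j => (ψ i (b j)).coeff 1) : ℤ) := by
  rw [RingHom.map_det]
  have h1 : (evZ (chi θ)).mapMatrix (pmat ψ b) = (Nat.card G : ℂ) •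
      (Int.castRingHom ℂ).mapMatrix (Matrix.of fun i j => (ψ i (b j)).coeff 1) := by
    ext i j
    simp only [RingHom.mapMatrix_apply, Matrix.map_apply, Matrix.smul_apply, smul_eq_mul,
      Matrix.of_apply, pmat]
    exact uc_coeff_pr θ (hb j) (ψ i)
  rw [h1, Matrix.det_smul, Fintype.card_fin, ← RingHom.map_det]
  rfl

/-- every additive map `U_{S,T} → ℤ` is the coefficient of `1` of a unique `ℤ[G]`-linear map -/
theorem coeff_ext_pr (f : UM ι S T →+ ℤ) :
    ∃ ψ : UM ι S T →ₗ[MonoidAlgebra ℤ G] MonoidAlgebra ℤ G, ∀ x, (ψ x).coeff 1 = f x := by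
  classical
  let φ : UM ι S T →+ MonoidAlgebra ℤ G :=
    { toFun := fun x => ∑ g : G, MonoidAlgebra.single g
        (f (MonoidAlgebra.single g⁻¹ (1 : ℤ) • x))
      map_zero' := by simp
      map_add' := by
        intro x y
        rw [← Finset.sum_add_distrib]
        refine Finset.sum_congr rfl fun g _ => ?_
        rw [smul_add, map_add, MonoidAlgebra.single_add] }
  have hφ : ∀ x, φ x = ∑ g : G, MonoidAlgebra.single g
      (f (MonoidAlgebra.single g⁻¹ (1 : ℤ) • x)) := fun _ => rfl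
  have hg : ∀ (h : G) (x : UM ι S T), φ (MonoidAlgebra.single h (1 : ℤ) • x) =
      MonoidAlgebra.single h (1 : ℤ) * φ x := by
    intro h x
    rw [hφ, hφ, Finset.mul_sum]
    refine Fintype.sum_equiv (Equiv.mulLeft h⁻¹) _ _ fun g => ?_
    rw [MonoidAlgebra.single_mul_single, one_mul, ← mul_smul, MonoidAlgebra.single_mul_single,
      one_mul]
    simp only [Equiv.coe_mulLeft, mul_inv_rev, inv_inv, mul_inv_cancel_left]
  have hs : ∀ (a : MonoidAlgebra ℤ G) (x : UM ι S T), φ (a • x) = a * φ x := by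
    intro a
    induction a using MonoidAlgebra.induction_linear with
    | zero => intro x; rw [zero_smul, map_zero, zero_mul]
    | add a b ha hb => intro x; rw [add_smul, map_add, ha, hb, add_mul]
    | single g n =>
      intro x
      have e : (MonoidAlgebra.single g n : MonoidAlgebra ℤ G) =
          n • MonoidAlgebra.single g (1 : ℤ) := by simp
      rw [e, smul_assoc, map_zsmul, hg, smul_mul_assoc]
  refine ⟨{ toFun := φ, map_add' := map_add φ, map_smul' := fun a x => hs a x }, fun x => ?_⟩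
  show (φ x).coeff 1 = f x
  rw [hφ, MonoidAlgebra.coeff_sum]
  have e1 : (MonoidAlgebra.single (1 : G) (1 : ℤ) : MonoidAlgebra ℤ G) • x = x := by
    rw [← MonoidAlgebra.one_def, one_smul]
  simp [Finsupp.single_apply, e1]

end NA

end Pool.Agent.RG

namespace Pool.Agent.RG

theorem uc_coeff : type_of% @uc_coeff_pr := @uc_coeff_pr
theorem uc_det : type_of% @uc_det_pr := @uc_det_pr
theorem coeff_ext : type_of% @coeff_ext_pr := @coeff_ext_pr

end Pool.Agent.RG
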