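import Pool.Agent.Lib_helper35.RG.Defs
import Pool.Agent.Lib_helper35.RG.DefsN
import Pool.Agent.Lib_helper3.AU.T1

/-!
# Block NF: the trivial character
-/

set_option autoImplicit false
set_option linter.unusedSectionVars false
set_option linter.unusedVariables false

namespace Pool.Agent.RG

open Pool.Agent.RSK Pool.Agent.RS2 Pool.Agent.RS3 Pool.Agent.SY Pool.Agent.AU Pool.Agent.CR
open NumberField IsDedekindDomain Filter Topology Complex
open scoped TensorProduct

section NA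

variable {F H : Type} [Field F] [NumberField F] [Field H] [NumberField H] [Algebra F H]
  [IsGalois F H] {G : Type} [CommGroup G] [Fintype G] {ι : G ≃* (H ≃ₐ[F] H)}
  {S T : Finset (HeightOneSpectrum (𝓞 F))} {r : ℕ} {w : Fin r → Pl H}
  {fr : HeightOneSpectrum (𝓞 F) → G}

theorem nf_inj : Function.Injective (RSK.rf2_inc ι S T) := by
  rw [injective_iff_map_eq_zero]
  intro y hy
  have h1 := congrArg UM.val hy
  rw [RSK.rf2_inc_val, UM.val_zero] at h1
  have h2 : ((Additive.toMul y : Un S T) : Fˣ) = 1 := by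
    apply Units.ext
    apply (algebraMap F H).injective
    have h3 := congrArg (Units.val) h1
    rw [Units.coe_map] at h3
    rw [Units.val_one, map_one]
    exact h3
  have h4 : (Additive.toMul y : Un S T) = 1 := Subtype.ext h2
  exact h4

theorem nf_uc : Uc ι S T (0 : Ch G) = mPlus G (UM ι S T) := by
  ext x
  have hs : ∀ g : G, sg (0 : Ch G) g = 1 := fun g => if_pos rfl
  constructor
  · intro hx g
    have h1 : MonoidAlgebra.single g (1 : ℤ) • x = sg (0 : Ch G) g • x := hx g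
    rw [hs, one_smul] at h1
    exact h1
  · intro hx g
    show MonoidAlgebra.single g (1 : ℤ) • x = sg (0 : Ch G) g • x
    rw [hs, one_smul]
    exact hx g

theorem nf_basis {b : Fin r → UM ι S T} (hb : IsBs ι S T 0 b) :
    ∃ y : Module.Basis (Fin r) ℤ (Additive (Un S T)), ∀ j, RSK.rf2_inc ι S T (y j) = b j := by
  have h0 : ∀ j, ∃ y : Additive (Un S T), RSK.rf2_inc ι S T y = b j := by
    intro j
    apply RSK.rf2_plus
    rw [← nf_uc, ← hb.span]
    exact AddSubgroup.subset_closure ⟨j, rfl⟩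
  choose y hy using h0
  have hli : LinearIndependent ℤ y := by
    apply LinearIndependent.of_comp (RSK.rf2_inc ι S T).toIntLinearMap
    have : ((RSK.rf2_inc ι S T).toIntLinearMap ∘ y) = b := by
      funext j
      exact hy j
    rw [this]
    exact hb.indep
  have hsp : ⊤ ≤ Submodule.span ℤ (Set.range y) := by
    intro z _
    have h1 : RSK.rf2_inc ι S T z ∈ AddSubgroup.closure (Set.range b) := by
      rw [hb.span, nf_uc]
      exact RSK.rf2_inc_plus z
    have h2 : Set.range b = (RSK.rf2_inc ι S T) '' Set.range y := by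
      rw [← Set.range_comp]
      congr 1
      funext j
      exact (hy j).symm
    rw [h2, ← AddMonoidHom.map_closure] at h1
    obtain ⟨z', hz', hz⟩ := h1
    have h3 : z' = z := nf_inj hz
    rw [← h3]
    have h4 : AddSubgroup.closure (Set.range y) ≤
        (Submodule.span ℤ (Set.range y)).toAddSubgroup := by
      rw [AddSubgroup.closure_le]
      exact Submodule.subset_span
    exact h4 hz'
  exact ⟨Module.Basis.mk hli hsp, fun j => by rw [Module.Basis.mk_apply, hy]⟩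

theorem nf_main (hD : Data ι S T r w fr)
    (hcard : Fintype.card (InfinitePlace F) + S.card = r + 1) {c : (G →* ℂˣ) → ℂ}
    (hc : Lead S T r fr c) (u : (⋀[MonoidAlgebra ℤ G]^r (UM ι S T)) ⊗[ℤ] ℚ)
    (hu : ∀ χ : G →* ℂˣ, evR χ (extQ (detMap (fun i => wl ι S T (w i))).toAddMonoidHom u) = c χ⁻¹)
    (b : Module.Basis (Fin r) ℤ (Additive (Un S T))) :
    ∃ n : ℤ, n.natAbs = hA S T ∧
      ∀ ψ : Fin r → (UM ι S T →ₗ[MonoidAlgebra ℤ G] MonoidAlgebra ℤ G),
        evQ 1 (psiQ ψ u) = (n : ℂ) *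
          (Matrix.det (Matrix.of fun i k => (ψ i (RSK.rf2_inc ι S T (b k))).coeff 1) : ℤ) := by
  classical
  have htf : TFree S T := RSK.tf_F (RSK.tf_H hD).1
  obtain ⟨hn, hR, hh, Z, hZ1, hZ2, hZ3⟩ := cnf hD.disj htf b
  have hcardS : Fintype.card (PS S) = r + 1 := by
    rw [← hcard]
    simp [PS]
  -- the leading term
  have hc1 : c 1 = (-1) ^ (T.card + 1) * ((hA S T * regS S (bu b) : ℝ) : ℂ) := by
    obtain ⟨Λ, h1, h2, h3⟩ := hc 1
    have h4 := mero_ext h1 hZ1 (fun s hs => by rw [h2 s hs, hZ2 s hs, lst_one]) 0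
    have h5 : Tendsto (fun s : ℂ => Z s / s ^ r) (𝓝[≠] 0) (𝓝 (c 1)) := by
      refine h3.congr' ?_
      filter_upwards [h4] with s hs
      rw [hs]
    exact tendsto_nhds_unique h5 hZ3
  -- the units of `F` in the units of `H`
  have hinv : ∀ (y : Additive (Un S T)) (g : G),
      MonoidAlgebra.single g (1 : ℤ) • RSK.rf2_inc ι S T y = RSK.rf2_inc ι S T y :=
    fun y g => RSK.rf2_inc_plus y g
  obtain ⟨z, hz1, hz2⟩ := ln_main w 1 (fun k => RSK.rf2_inc ι S T (b k)) (fun m => by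
    have h1 : nrm G • m ∈ mPlus G (UM ι S T) := by
      intro g
      rw [← mul_smul]
      congr 1
      unfold nrm
      rw [Finset.mul_sum]
      refine Finset.sum_bij (fun g' _ => g * g') (fun _ _ => Finset.mem_univ _)
        (fun _ _ _ _ h => mul_left_cancel h) (fun g' _ => ⟨g⁻¹ * g', Finset.mem_univ _, by simp⟩) ?_
      intro g' _
      rw [MonoidAlgebra.single_mul_single, one_mul]
    obtain ⟨y, hy⟩ := RSK.rf2_plus _ h1
    refine ⟨nrm G, fun k => (b.repr y k) • (1 : MonoidAlgebra ℤ G), ?_, ?_⟩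
    · rw [← al_evZ, px2_evQ_nrm_one]
      exact Nat.cast_ne_zero.2 Nat.card_pos.ne'
    · rw [← hy]
      conv_lhs => rw [← b.sum_repr y]
      rw [map_sum]
      refine Finset.sum_congr rfl fun k _ => ?_
      rw [map_zsmul, smul_assoc, one_smul]) u
  -- the logarithms
  set B : Matrix (Fin r) (Fin r) ℝ :=
    Matrix.of fun i j => lg (dn F (w i)) (bu b j : F) with hB
  have h2 : evR 1 (wmat ι S T w (fun k => RSK.rf2_inc ι S T (b k))).det =
      (Nat.card G : ℂ) ^ r * (B.det : ℝ) := by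
    have hds := Matrix.det_smul (B.map (Complex.ofRealHom : ℝ → ℂ)) (Nat.card G : ℂ)
    rw [Fintype.card_fin] at hds
    rw [AlgHom.map_det, show ((B.det : ℝ) : ℂ) = (B.map (Complex.ofRealHom : ℝ → ℂ)).det from
      Complex.ofRealHom.map_det B, ← hds]
    congr 1
    ext i k
    show evR 1 (wl ι S T (w i) (RSK.rf2_inc ι S T (b k))) = (Nat.card G : ℂ) • ((B i k : ℝ) : ℂ)
    rw [tr1_evR]
    have h3 : ∀ γ : G, (((lg (act (ι γ) (w i)) ((RSK.rf2_inc ι S T (b k)).val : H) : ℝ) : ℂ) *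
        (((1 : G →* ℂˣ) γ : ℂˣ) : ℂ)) = ((B i k : ℝ) : ℂ) := by
      intro γ
      rw [MonoidHom.one_apply, Units.val_one, mul_one]
      congr 1
      have h4 : ((RSK.rf2_inc ι S T (b k)).val : H) = algebraMap F H (bu b k : F) := rfl
      rw [h4]
      have h5 : lg (act (ι γ) (w i)) (algebraMap F H (bu b k : F)) =
          lg (w i) (algebraMap F H (bu b k : F)) := by
        conv_lhs => rw [← (ι γ).commutes (bu b k : F)]
        exact lg_act _ _ _
      rw [h5, t1_lg (hD.split i)]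
      rfl
    rw [Finset.sum_congr rfl fun γ _ => h3 γ, Finset.sum_const, Finset.card_univ, nsmul_eq_mul,
      Nat.card_eq_fintype_card, smul_eq_mul]
  have h3 : regS S (bu b) = |B.det| :=
    t1_reg (T := T) hD.mem hD.inj hcardS (bu b) (fun j => (Additive.toMul (b j) : Un S T).2)
  have e1 : (1 : G →* ℂˣ)⁻¹ = 1 := by
    apply MonoidHom.ext
    intro g
    show ((1 : G →* ℂˣ) g)⁻¹ = 1
    rw [MonoidHom.one_apply, inv_one]
  rw [hu, e1, hc1, h2] at hz2
  have hBne : B.det ≠ 0 := by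
    intro h
    rw [h, abs_zero] at h3
    exact hR.ne' h3
  have hBc : ((B.det : ℝ) : ℂ) ≠ 0 := Complex.ofReal_ne_zero.2 hBne
  obtain ⟨ε, hε1, hε⟩ : ∃ ε : ℤ, (ε = 1 ∨ ε = -1) ∧ |B.det| = ε * B.det := by
    rcases le_total 0 B.det with h | h
    · exact ⟨1, Or.inl rfl, by rw [abs_of_nonneg h]; simp⟩
    · exact ⟨-1, Or.inr rfl, by rw [abs_of_nonpos h]; simp⟩
  have h4 : z * (Nat.card G : ℂ) ^ r = (-1) ^ (T.card + 1) * (hA S T : ℂ) * ε := by
    apply mul_right_cancel₀ hBc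
    rw [mul_assoc, ← hz2, h3, hε]
    push_cast
    ring
  refine ⟨(-1) ^ (T.card + 1) * (hA S T : ℤ) * ε, ?_, fun ψ => ?_⟩
  · rw [Int.natAbs_mul, Int.natAbs_mul, Int.natAbs_pow, Int.natAbs_neg, Int.natAbs_one, one_pow,
      one_mul, Int.natAbs_natCast]
    rcases hε1 with h | h <;> rw [h] <;> simp
  -- the values of the `ψ_i`
  set A : Matrix (Fin r) (Fin r) ℤ :=
    Matrix.of fun i k => (ψ i (RSK.rf2_inc ι S T (b k))).coeff 1 with hA'
  have h1 : evZ 1 (pmat ψ (fun k => RSK.rf2_inc ι S T (b k))).det =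
      (Nat.card G : ℂ) ^ r * (A.det : ℤ) := by
    have hds := Matrix.det_smul (A.map (Int.cast : ℤ → ℂ)) (Nat.card G : ℂ)
    rw [Fintype.card_fin] at hds
    rw [RingHom.map_det, show ((A.det : ℤ) : ℂ) = (A.map (Int.cast : ℤ → ℂ)).det from
      (Int.castRingHom ℂ).map_det A, ← hds]
    congr 1
    ext i k
    show evZ 1 (ψ i (RSK.rf2_inc ι S T (b k))) = (Nat.card G : ℂ) • ((A i k : ℤ) : ℂ)
    rw [t1_inv (fun g => by rw [← smul_eq_mul, ← map_smul, hinv]), smul_eq_mul]
    rfl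
  rw [hz1 ψ, h1, ← mul_assoc, h4]
  push_cast
  ring

theorem nf_chi : chi (0 : Ch G) = 1 := by
  ext g
  show ((sg (0 : Ch G) g : ℤ) : ℂ) = 1
  rw [show sg (0 : Ch G) g = 1 from if_pos rfl, Int.cast_one]

theorem z_zero_pr (hD : Data ι S T r w fr) (hX : Xr ι S w (0 : Ch G)) {c : (G →* ℂˣ) → ℂ}
    (hc : Lead S T r fr c) {u : (⋀[MonoidAlgebra ℤ G]^r (UM ι S T)) ⊗[ℤ] ℚ}
    (hu : IsStark ι S T w c u) {b : Fin r → UM ι S T} (hb : IsBs ι S T 0 b) :
    ∃ n : ℤ, n.natAbs = hA S T ∧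
      ∀ ψ : Fin r → (UM ι S T →ₗ[MonoidAlgebra ℤ G] MonoidAlgebra ℤ G),
        evQ (chi 0) (psiQ ψ u) = (n : ℂ) *
          (Matrix.det (Matrix.of fun i j => (ψ i (b j)).coeff 1) : ℤ) := by
  obtain ⟨y, hy⟩ := nf_basis hb
  obtain ⟨n, hn, h⟩ := nf_main hD (hX.1 rfl) hc u hu.value y
  refine ⟨n, hn, fun ψ => ?_⟩
  rw [nf_chi, h ψ]
  simp only [hy]

end NA

end Pool.Agent.RG

namespace Pool.Agent.RG

theorem z_zero : type_of% @z_zero_pr := @z_zero_pr

end Pool.Agent.RG
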