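import Pool.Agent.Lib_helper35.RG.Defs
import Pool.Agent.Lib_helper35.RG.DefsN
import Pool.Agent.Lib_helper3.AU.CN
import Pool.Agent.Lib_helper3.AU.TRF
import Pool.Agent.Lib_helper17.RS.P_UR

/-!
# RG, part N, block NG: bases of `Uc`
-/

set_option autoImplicit false
set_option linter.unusedSectionVars false
set_option linter.unusedVariables false

namespace Pool.Agent.RG

open Pool.Agent.RSK Pool.Agent.RS2 Pool.Agent.RS3 Pool.Agent.SY Pool.Agent.AU Pool.Agent.CR
open NumberField IsDedekindDomain Filter Topology Complex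
open scoped TensorProduct

theorem ng_bas {A M : Type} [AddCommGroup A] [AddCommGroup M] {r : ℕ}
    (b : Module.Basis (Fin r) ℤ A) (f : A →+ M) (hf : Function.Injective f) (U : AddSubgroup M)
    (hU : ∀ x, x ∈ U ↔ ∃ y, f y = x) :
    LinearIndependent ℤ (fun j => f (b j)) ∧
      AddSubgroup.closure (Set.range fun j => f (b j)) = U := by
  refine And.intro ?_ ?_
  · have h := b.linearIndependent.map' f.toIntLinearMap (LinearMap.ker_eq_bot.2 hf)
    exact h
  · apply le_antisymm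
    · rw [AddSubgroup.closure_le]
      rintro _ ⟨j, rfl⟩
      exact (hU _).2 ⟨b j, rfl⟩
    · intro x hx
      obtain ⟨y, rfl⟩ := (hU x).1 hx
      rw [← b.sum_repr y, map_sum]
      refine AddSubgroup.sum_mem _ fun j _ => ?_
      rw [map_zsmul]
      exact AddSubgroup.zsmul_mem _ (AddSubgroup.subset_closure (Set.mem_range_self j)) _

section NA

variable {F H : Type} [Field F] [NumberField F] [Field H] [NumberField H] [Algebra F H]
  [IsGalois F H] {G : Type} [CommGroup G] [Fintype G] {ι : G ≃* (H ≃ₐ[F] H)}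
  {S T : Finset (HeightOneSpectrum (𝓞 F))} {r : ℕ} {w : Fin r → Pl H}
  {fr : HeightOneSpectrum (𝓞 F) → G}

theorem ng_zero (hD : Data ι S T r w fr)
    (hcard : Fintype.card (InfinitePlace F) + S.card = r + 1) :
    ∃ b : Fin r → UM ι S T, IsBs ι S T 0 b := by
  have htf : TFree S T := RSK.tf_F (RSK.tf_H hD).1
  obtain ⟨n, ⟨b⟩⟩ := un_exists hD.disj htf
  have hn := (cnf hD.disj htf b).1
  have hcardS : Fintype.card (PS S) = r + 1 := by
    rw [← hcard]
    simp [PS]
  obtain rfl : n = r := by omega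
  have hU : ∀ x, x ∈ Uc ι S T 0 ↔ ∃ y, RSK.urMap ι S T y = x := by
    intro x
    rw [← RSK.urMap_range]
    have h : ∀ g : G, sg (0 : Ch G) g = 1 := fun g => if_pos rfl
    constructor
    · intro hx g
      have h1 := hx g
      rw [h g, one_smul] at h1
      exact h1
    · intro hx g
      have h1 := hx g
      rw [h1, h g, one_smul]
  obtain ⟨h1, h2⟩ := ng_bas b (RSK.urMap ι S T) RSK.urMap_inj (Uc ι S T 0) hU
  exact ⟨_, h1, h2⟩

theorem ng_kr (θ : Ch G) (g : G) : g ∈ kr θ ↔ θ (Additive.ofMul g) = 0 := Iff.rfl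

theorem ng_index (θ : Ch G) (hθ : θ ≠ 0) : (kr θ).index = 2 := by
  have h1 : ∃ a : G, θ (Additive.ofMul a) ≠ 0 := by
    by_contra h
    push Not at h
    exact hθ (AddMonoidHom.ext fun a => h (Additive.toMul a))
  obtain ⟨a, ha⟩ := h1
  rw [Subgroup.index_eq_two_iff]
  refine ⟨a, fun b => ?_⟩
  rw [ng_kr, ng_kr]
  have e : θ (Additive.ofMul (b * a)) = θ (Additive.ofMul b) + θ (Additive.ofMul a) := by
    rw [ofMul_mul, map_add]
  rw [e]
  have key : ∀ x y : ZMod 2, y ≠ 0 → (x + y = 0 ∧ ¬ x = 0) ∨ (x = 0 ∧ ¬ x + y = 0) := by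
    decide
  exact key _ _ ha

theorem ng_sg_mem (θ : Ch G) {g : G} (h : g ∈ kr θ) : sg θ g = 1 := if_pos h

theorem ng_sg_not (θ : Ch G) {g : G} (h : g ∉ kr θ) : sg θ g = -1 := if_neg h

theorem ng_ne (hD : Data ι S T r w fr) (θ : Ch G) (hθ0 : θ ≠ 0) (hθ : NoX ι S w (kr θ)) :
    ∃ b : Fin r → UM ι S T, IsBs ι S T θ b := by
  classical
  have := kf_galois ι (kr θ)
  obtain ⟨ι', hq⟩ := kf_quo ι (kr θ)
  let _ : Fintype (G ⧸ kr θ) := Fintype.ofFinite _
  have hπ : ∀ g : G, QuotientGroup.mk' (kr θ) g = 1 ↔ g ∈ kr θ := by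
    intro g
    rw [← MonoidHom.mem_ker, QuotientGroup.ker_mk']
  have hD' := cn_data (ι := ι) (ι' := ι') (π := QuotientGroup.mk' (kr θ)) hq hD (by
    intro W hW hg
    exact hθ W hW (fun g h => (hπ g).1 (hg g h)))
  have hcard : Nat.card (G ⧸ kr θ) = 2 := ng_index θ hθ0
  have hfin := RSK.um_finite hD'
  have htf := RSK.um_tf hD'
  have hrk := RSK.um_rank Nat.prime_two hcard hD'
  have hrk1 : Module.finrank ℤ (mMinus (G ⧸ kr θ) (UM ι' S T)) = r := by
    rw [hrk]
    omega
  -- a basis of the minus part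
  have e : mMinus (G ⧸ kr θ) (UM ι' S T) ≃+
      AddSubgroup.toIntSubmodule (mMinus (G ⧸ kr θ) (UM ι' S T)) :=
    { toFun := fun u => ⟨u.1, u.2⟩
      invFun := fun u => ⟨u.1, u.2⟩
      left_inv := fun u => rfl
      right_inv := fun u => rfl
      map_add' := fun u v => rfl }
  have i1 : Module.Finite ℤ (mMinus (G ⧸ kr θ) (UM ι' S T)) :=
    Module.Finite.equiv e.toIntLinearEquiv.symm
  have i2 : Module.Free ℤ (AddSubgroup.toIntSubmodule (mMinus (G ⧸ kr θ) (UM ι' S T))) := by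
    infer_instance
  have i3 : Module.Free ℤ (mMinus (G ⧸ kr θ) (UM ι' S T)) :=
    Module.Free.of_equiv e.toIntLinearEquiv.symm
  let b := Module.finBasisOfFinrankEq ℤ (mMinus (G ⧸ kr θ) (UM ι' S T)) hrk1
  let f : mMinus (G ⧸ kr θ) (UM ι' S T) →+ UM ι S T :=
    (tr2U ι ι' S T).comp (mMinus (G ⧸ kr θ) (UM ι' S T)).subtype
  have hinj : Function.Injective (tr2U ι ι' S T) := by
    intro y z h
    have h1 := congrArg UM.val h
    rw [tr2U_val, tr2U_val] at h1
    exact UM.ext (Units.map_injective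
      (f := (algebraMap (Kf ι (kr θ)) H : (Kf ι (kr θ)) →* H))
      (algebraMap (Kf ι (kr θ)) H).injective h1)
  have hf : Function.Injective f := hinj.comp Subtype.val_injective
  -- an element outside of the kernel
  obtain ⟨a, ha⟩ : ∃ a : G, a ∉ kr θ := by
    by_contra h
    push Not at h
    have h1 : kr θ = ⊤ := (Subgroup.eq_top_iff' _).2 h
    have h2 := ng_index θ hθ0
    rw [h1, Subgroup.index_top] at h2
    exact absurd h2 (by decide)
  have hne : (1 : G ⧸ kr θ) ≠ QuotientGroup.mk' (kr θ) a := fun h => ha ((hπ a).1 h.symm)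
  have huniv : (Finset.univ : Finset (G ⧸ kr θ)) = {1, QuotientGroup.mk' (kr θ) a} := by
    symm
    apply Finset.eq_univ_of_card
    rw [Finset.card_pair hne, ← Nat.card_eq_fintype_card, hcard]
  have hnrm : ∀ u : UM ι' S T, nrm (G ⧸ kr θ) • u =
      u + MonoidAlgebra.single (QuotientGroup.mk' (kr θ) a) (1 : ℤ) • u := by
    intro u
    rw [RSK.ur_nrm_smul, huniv, Finset.sum_pair hne, ← MonoidAlgebra.one_def, one_smul]
  have hU : ∀ x, x ∈ Uc ι S T θ ↔ ∃ y, f y = x := by
    intro x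
    constructor
    · intro hx
      obtain ⟨u, hu⟩ := tf_inv hq x (fun n hn => by
        have h1 := hx n
        rw [ng_sg_mem θ ((hπ n).1 hn), one_smul] at h1
        exact h1)
      have h2 : MonoidAlgebra.single (QuotientGroup.mk' (kr θ) a) (1 : ℤ) • u = -u := by
        apply hinj
        rw [← tr2U_smul hq, map_neg, hu]
        have h1 := hx a
        rw [ng_sg_not θ ha, neg_smul, one_smul] at h1
        exact h1
      refine ⟨⟨u, ?_⟩, hu⟩
      show nrm (G ⧸ kr θ) • u = 0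
      rw [hnrm, h2, add_neg_cancel]
    · rintro ⟨⟨u, hu⟩, rfl⟩ g
      have hu' : nrm (G ⧸ kr θ) • u = 0 := hu
      rw [hnrm] at hu'
      have h2 : MonoidAlgebra.single (QuotientGroup.mk' (kr θ) a) (1 : ℤ) • u = -u :=
        (neg_eq_of_add_eq_zero_right hu').symm
      show MonoidAlgebra.single g (1 : ℤ) • tr2U ι ι' S T u = sg θ g • tr2U ι ι' S T u
      rw [tr2U_smul hq]
      by_cases hg : g ∈ kr θ
      · rw [ng_sg_mem θ hg, one_smul, (hπ g).2 hg, ← MonoidAlgebra.one_def, one_smul]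
      · have h3 : QuotientGroup.mk' (kr θ) g = QuotientGroup.mk' (kr θ) a := by
          have h4 : QuotientGroup.mk' (kr θ) g ∈ (Finset.univ : Finset (G ⧸ kr θ)) :=
            Finset.mem_univ _
          rw [huniv, Finset.mem_insert, Finset.mem_singleton] at h4
          rcases h4 with h4 | h4
          · exact absurd ((hπ g).1 h4) hg
          · exact h4
        rw [h3, h2, ng_sg_not θ hg, neg_smul, one_smul, map_neg]
  obtain ⟨h1, h2⟩ := ng_bas b f hf (Uc ι S T θ) hU
  exact ⟨_, h1, h2⟩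

theorem bs_exists_pr (hD : Data ι S T r w fr) (θ : Ch G) (hθ : Xr ι S w θ) :
    ∃ b : Fin r → UM ι S T, IsBs ι S T θ b := by
  by_cases h : θ = 0
  · subst h
    exact ng_zero hD (hθ.1 rfl)
  · exact ng_ne hD θ h (hθ.2 h)

end NA

end Pool.Agent.RG

namespace Pool.Agent.RG

theorem bs_exists : type_of% @bs_exists_pr := @bs_exists_pr

end Pool.Agent.RG
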