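import Pool.Agent.Lib_helper35.RG.Defs
import Pool.Agent.Lib_helper35.RG.DefsN

/-!
# Project RG, block NO: `AU.DvP` are the extended divisors
-/

set_option autoImplicit false
set_option linter.unusedSectionVars false
set_option linter.unusedVariables false

namespace Pool.Agent.RG

open Pool.Agent.RSK Pool.Agent.RS2 Pool.Agent.RS3 Pool.Agent.SY Pool.Agent.AU Pool.Agent.CR
open NumberField IsDedekindDomain Filter Topology Complex
open scoped TensorProduct

section NA

variable {F H : Type} [Field F] [NumberField F] [Field H] [NumberField H] [Algebra F H]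
  [IsGalois F H] {G : Type} [CommGroup G] [Fintype G] {ι : G ≃* (H ≃ₐ[F] H)}
  {S T : Finset (HeightOneSpectrum (𝓞 F))} {r : ℕ} {w : Fin r → Pl H}
  {fr : HeightOneSpectrum (𝓞 F) → G}

theorem no_inv {p : ℕ} (hcard : Nat.card (H ≃ₐ[F] H) = p)
    (T : Finset (HeightOneSpectrum (𝓞 F))) :
    (Dv T).map (Pool.Agent.RS2.cd_ext F H) = DvP p F H T := by
  classical
  have hpow : ∀ σ : H ≃ₐ[F] H, σ ^ p = 1 := fun σ => by
    rw [← hcard]
    exact pow_card_eq_one'
  ext D
  constructor
  · rintro ⟨D₀, hD₀, rfl⟩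
    refine ⟨nj_le F H T ⟨D₀, hD₀, rfl⟩, ?_⟩
    intro σ hσ W
    show D₀ (HeightOneSpectrum.under (𝓞 F) _) = D₀ (HeightOneSpectrum.under (𝓞 F) _)
    rw [under_equiv]
  · rintro ⟨hD, hinv⟩
    have hsurj : ∀ v : HeightOneSpectrum (𝓞 F), ∃ W : HeightOneSpectrum (𝓞 H),
      W.under (𝓞 F) = v := up1_surj
    choose c hc using hsurj
    have hconst : ∀ W : HeightOneSpectrum (𝓞 H), D W = D (c (W.under (𝓞 F))) := by
      intro W
      have h1 : dn F (Sum.inr (c (W.under (𝓞 F))) : Pl H) = dn F (Sum.inr W : Pl H) := by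
        show Sum.inr _ = Sum.inr _
        rw [hc]
      obtain ⟨σ, hσ⟩ := act_trans h1
      have h2 : HeightOneSpectrum.equivOfRingEquiv
          (RingOfIntegers.mapRingEquiv σ.toRingEquiv) (c (W.under (𝓞 F))) = W :=
        Sum.inr.inj hσ
      have h4 := hinv σ (hpow σ) (c (W.under (𝓞 F)))
      rw [h2] at h4
      exact h4
    refine ⟨Finsupp.ofSupportFinite (fun v => D (c v)) ?_, ?_, ?_⟩
    · refine Set.Finite.subset (D.support.finite_toSet.image (fun W => W.under (𝓞 F))) ?_
      intro v hv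
      exact ⟨c v, by simpa using hv, hc v⟩
    · intro v hv
      show D (c v) = 0
      refine hD _ ?_
      rw [mem_ovr, hc]
      exact hv
    · ext W
      show D (c (W.under (𝓞 F))) = D W
      exact (hconst W).symm

/-- Block NO: `AU.DvP` are the extended divisors. -/
theorem hJ_eq_pr {p : ℕ} (hp : p.Prime) (hcard : Nat.card (H ≃ₐ[F] H) = p)
    (S T : Finset (HeightOneSpectrum (𝓞 F))) : hJ p F H S T = jE F H S T := by
  rw [hJ, jE, no_inv hcard]

end NA

end Pool.Agent.RG

namespace Pool.Agent.RG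

theorem hJ_eq : type_of% @hJ_eq_pr := @hJ_eq_pr

end Pool.Agent.RG
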