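import Pool.Agent.Lib_helper35.RG.Defs
import Pool.Agent.Lib_helper35.RG.P_ND
import Pool.Agent.Lib_helper35.RG.P_NE
import Pool.Agent.Lib_helper35.RG.P_NO
import Pool.Agent.Lib_helper35.RG.DefsN
import Pool.Agent.Lib_helper3.AU.CN

/-!
# RG, block NH
-/

set_option autoImplicit false
set_option linter.unusedSectionVars false
set_option linter.unusedVariables false

namespace Pool.Agent.RG

open Pool.Agent.RSK Pool.Agent.RS2 Pool.Agent.RS3 Pool.Agent.SY Pool.Agent.AU Pool.Agent.CR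
open NumberField IsDedekindDomain Filter Topology Complex
open scoped TensorProduct

section NHalg

/-- a linearly independent family has functionals with nonzero determinant -/
theorem nh_dual {M : Type} [AddCommGroup M] [Module.Finite ℤ M] [Module.IsTorsionFree ℤ M] {r : ℕ}
    {b : Fin r → M} (hb : LinearIndependent ℤ b) : ∃ f : Fin r → (M →+ ℤ), dF f b ≠ 0 := by
  classical
  have : Module.Free ℤ M := Module.free_of_finite_type_torsion_free'
  let e := Module.Free.chooseBasis ℤ M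
  let φ : M →ₗ[ℤ] (Module.Free.ChooseBasisIndex ℤ M → ℚ) :=
    { toFun := fun x k => ((e.repr x k : ℤ) : ℚ)
      map_add' := fun x y => by
        funext k
        simp
      map_smul' := fun c x => by
        funext k
        simp }
  have hφ : LinearMap.ker φ = ⊥ := by
    rw [LinearMap.ker_eq_bot]
    intro x y hxy
    apply e.repr.injective
    ext k
    have h1 := congrFun hxy k
    have h2 : ((e.repr x k : ℤ) : ℚ) = ((e.repr y k : ℤ) : ℚ) := h1
    exact_mod_cast h2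
  have h1 : LinearIndependent ℤ (φ ∘ b) := hb.map' φ hφ
  have h2 : LinearIndependent ℚ (φ ∘ b) := (LinearIndependent.iff_fractionRing ℤ ℚ).1 h1
  obtain ⟨P, hP⟩ := LinearMap.exists_leftInverse_of_injective
    (Fintype.linearCombination ℚ (φ ∘ b)) (by
      rw [LinearMap.ker_eq_bot]
      exact linearIndependent_iff_injective_fintypeLinearCombination.1 h2)
  have hPb : ∀ j, P (φ (b j)) = Pi.single j 1 := by
    intro j
    have h3 := LinearMap.congr_fun hP (Pi.single j 1)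
    rw [LinearMap.comp_apply, Fintype.linearCombination_apply_single, one_smul] at h3
    exact h3
  obtain ⟨D, hD⟩ := IsLocalization.exist_integer_multiples_of_finite (nonZeroDivisors ℤ)
    (fun q : Module.Free.ChooseBasisIndex ℤ M × Fin r => P (Pi.single q.1 1) q.2)
  choose a ha using hD
  have hD0 : (D : ℤ) ≠ 0 := nonZeroDivisors.ne_zero D.2
  refine ⟨fun i => ⟨⟨fun x => ∑ k, a (k, i) * e.repr x k, by simp⟩, fun x y => by
    simp [mul_add, Finset.sum_add_distrib]⟩, ?_⟩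
  have hval : ∀ i j, (∑ k, a (k, i) * e.repr (b j) k) = if i = j then (D : ℤ) else 0 := by
    intro i j
    have h4 : φ (b j) = ∑ k, ((e.repr (b j) k : ℤ) : ℚ) • Pi.single k (1 : ℚ) := by
      funext k
      simp [Finset.sum_apply, Pi.single_apply]
      rfl
    have h5 := congrFun (hPb j) i
    rw [h4, map_sum, Finset.sum_apply] at h5
    have h6 : ((∑ k, a (k, i) * e.repr (b j) k : ℤ) : ℚ) =
        (D : ℤ) * ∑ k, (P (((e.repr (b j) k : ℤ) : ℚ) • Pi.single k (1 : ℚ))) i := by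
      rw [Finset.mul_sum, Int.cast_sum]
      refine Finset.sum_congr rfl fun k _ => ?_
      rw [map_smul, Pi.smul_apply, smul_eq_mul, Int.cast_mul]
      have h7 : ((a (k, i) : ℤ) : ℚ) = (D : ℤ) • (P (Pi.single k 1) i) := ha (k, i)
      rw [h7, zsmul_eq_mul]
      ring
    have h8 : ((∑ k, a (k, i) * e.repr (b j) k : ℤ) : ℚ) =
        ((if i = j then (D : ℤ) else 0 : ℤ) : ℚ) := by
      rw [h6, h5, Pi.single_apply]
      split_ifs <;> simp
    exact_mod_cast h8
  have hmat : (Matrix.of fun i j : Fin r => ∑ k, a (k, i) * e.repr (b j) k) =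
      (D : ℤ) • (1 : Matrix (Fin r) (Fin r) ℤ) := by
    ext i j
    rw [Matrix.of_apply, hval, Matrix.smul_apply, Matrix.one_apply]
    split_ifs <;> simp
  show Matrix.det (Matrix.of fun i j : Fin r => ∑ k, a (k, i) * e.repr (b j) k) ≠ 0
  rw [hmat, Matrix.det_smul, Matrix.det_one, mul_one, Fintype.card_fin]
  exact pow_ne_zero _ hD0

variable {G : Type} [CommGroup G]

theorem nh_index {θ : Ch G} (hθ : θ ≠ 0) : (kr θ).index = 2 := by
  obtain ⟨a, ha⟩ : ∃ a : G, θ (Additive.ofMul a) ≠ 0 := by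
    by_contra hcon
    push Not at hcon
    exact hθ (AddMonoidHom.ext fun x => hcon (Additive.toMul x))
  rw [Subgroup.index_eq_two_iff]
  refine ⟨a, fun b => ?_⟩
  have key : ∀ x y : ZMod 2, y ≠ 0 → (x + y = 0 ∧ ¬ x = 0) ∨ (x = 0 ∧ ¬ x + y = 0) := by decide
  have h := key (θ (Additive.ofMul b)) (θ (Additive.ofMul a)) ha
  show (θ (Additive.ofMul b + Additive.ofMul a) = 0 ∧ ¬ θ (Additive.ofMul b) = 0) ∨
    (θ (Additive.ofMul b) = 0 ∧ ¬ θ (Additive.ofMul b + Additive.ofMul a) = 0)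
  rw [map_add]
  exact h

theorem nh_sg_one {θ : Ch G} {g : G} (h : g ∈ kr θ) : sg θ g = 1 := if_pos h

theorem nh_sg_neg {θ : Ch G} {g : G} (h : g ∉ kr θ) : sg θ g = -1 := if_neg h

theorem nh_chi_one {θ : Ch G} {g : G} (h : g ∈ kr θ) : chi θ g = 1 := by
  ext
  rw [chi_apply, nh_sg_one h]
  simp

theorem nh_chi_ne {θ : Ch G} {g : G} (h : g ∉ kr θ) : chi θ g ≠ 1 := by
  intro h1
  have h2 := congrArg (fun x : ℂˣ => (x : ℂ)) h1
  simp only [chi_apply, nh_sg_neg h] at h2
  norm_num at h2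

variable [Fintype G]

/-- the values at `chi θ` are rational -/
theorem nh_rat (θ : Ch G) (y : MonoidAlgebra ℚ G) : ∃ q : ℚ, evQ (chi θ) y = (q : ℂ) := by
  induction y using tr2_ind with
  | h0 => exact ⟨0, by rw [map_zero, Rat.cast_zero]⟩
  | h2 a b ha hb =>
    obtain ⟨q, hq⟩ := ha
    obtain ⟨q', hq'⟩ := hb
    exact ⟨q + q', by rw [map_add, hq, hq', Rat.cast_add]⟩
  | h1 g c =>
    refine ⟨c * (sg θ g : ℤ), ?_⟩
    rw [px2_evQ_single, chi_apply]
    push_cast
    rfl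

/-- the idempotent of `θ`, times the order of `G` -/
noncomputable def nh_e (θ : Ch G) : MonoidAlgebra ℤ G := ∑ g : G, MonoidAlgebra.single g (sg θ g)

theorem nh_e_ev (θ : Ch G) : evZ (chi θ) (nh_e θ) = (Nat.card G : ℂ) := by
  unfold nh_e
  rw [map_sum]
  have h : ∀ g : G, evZ (chi θ) (MonoidAlgebra.single g (sg θ g)) = 1 := by
    intro g
    have h1 : (MonoidAlgebra.single g (sg θ g) : MonoidAlgebra ℤ G) =
        (sg θ g) • MonoidAlgebra.single g (1 : ℤ) := by
      rw [MonoidAlgebra.smul_single, smul_eq_mul, mul_one]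
    rw [h1, map_zsmul, er_sing, chi_apply, zsmul_eq_mul, ← Int.cast_mul, sg_sq, Int.cast_one]
  rw [Finset.sum_congr rfl fun g _ => h g, Finset.sum_const, Finset.card_univ, nsmul_eq_mul,
    mul_one, Nat.card_eq_fintype_card]

end NHalg

section NHum

variable {F H : Type} [Field F] [NumberField F] [Field H] [NumberField H] [Algebra F H]
  {G : Type} [CommGroup G] [Fintype G] {ι : G ≃* (H ≃ₐ[F] H)}
  {S T : Finset (HeightOneSpectrum (𝓞 F))}

theorem nh_e_mem (θ : Ch G) (m : UM ι S T) : nh_e θ • m ∈ Uc ι S T θ := by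
  intro g
  rw [← mul_smul, ← smul_assoc]
  congr 1
  unfold nh_e
  rw [Finset.mul_sum, Finset.smul_sum]
  refine Finset.sum_bij (fun g' _ => g * g') (fun _ _ => Finset.mem_univ _)
    (fun _ _ _ _ h => mul_left_cancel h)
    (fun g' _ => ⟨g⁻¹ * g', Finset.mem_univ _, mul_inv_cancel_left _ _⟩) ?_
  intro g' _
  rw [MonoidAlgebra.single_mul_single, one_mul, MonoidAlgebra.smul_single, sg_mul, smul_eq_mul,
    ← mul_assoc, sg_sq, one_mul]

/-- an element of the closure of the range of `b` is an integral combination -/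
theorem nh_comb {M : Type} [AddCommGroup M] {r : ℕ} {b : Fin r → M} {x : M}
    (hx : x ∈ AddSubgroup.closure (Set.range b)) : ∃ a : Fin r → ℤ, x = ∑ k, a k • b k := by
  classical
  induction hx using AddSubgroup.closure_induction with
  | mem x hx =>
    obtain ⟨k, rfl⟩ := hx
    exact ⟨Pi.single k 1, by simp [Pi.single_apply]⟩
  | zero => exact ⟨0, by simp⟩
  | add x y _ _ hx hy =>
    obtain ⟨a, rfl⟩ := hx
    obtain ⟨a', rfl⟩ := hy
    exact ⟨a + a', by simp [add_smul, Finset.sum_add_distrib]⟩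
  | neg x _ hx =>
    obtain ⟨a, rfl⟩ := hx
    exact ⟨-a, by simp⟩

theorem nh_b_mem {θ : Ch G} {r : ℕ} {b : Fin r → UM ι S T} (hb : IsBs ι S T θ b) (k : Fin r) :
    b k ∈ Uc ι S T θ := by
  rw [← hb.span]
  exact AddSubgroup.subset_closure ⟨k, rfl⟩

end NHum

section NHgen

variable {F K H : Type} [Field F] [NumberField F] [Field K] [NumberField K] [Field H]
  [NumberField H] [Algebra F K] [Algebra F H] [Algebra K H] [IsScalarTower F K H]
  [IsGalois F H] [IsGalois F K] [IsGalois K H]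
  {G G' : Type} [CommGroup G] [Fintype G] [CommGroup G'] [Fintype G'] {ι : G ≃* (H ≃ₐ[F] H)}
  {ι' : G' ≃* (K ≃ₐ[F] K)} {π : G →* G'}
  {S T : Finset (HeightOneSpectrum (𝓞 F))} {r : ℕ} {w : Fin r → Pl H}
  {fr : HeightOneSpectrum (𝓞 F) → G} {fr' : HeightOneSpectrum (𝓞 F) → G'}

theorem nh_tr_inj : Function.Injective (tr2U ι ι' S T) := by
  intro x y h
  apply UM.ext
  have h1 := congrArg UM.val h
  rw [tr2U_val, tr2U_val] at h1
  apply Units.ext
  have h2 := congrArg (fun z : Hˣ => (z : H)) h1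
  exact (algebraMap K H).injective h2

theorem nh_nrm (hG' : Nat.card G' = 2) {s : G'} (hs : s ≠ 1) :
    nrm G' = 1 + MonoidAlgebra.single s 1 := by
  classical
  have h1 : (Finset.univ : Finset G') = {1, s} := by
    refine (Finset.eq_univ_of_card _ ?_).symm
    rw [Finset.card_pair (Ne.symm hs), ← Nat.card_eq_fintype_card, hG']
  unfold nrm
  rw [h1, Finset.sum_pair (Ne.symm hs)]
  rfl

theorem nh_span (hq : Quo ι ι' π) (hG' : Nat.card G' = 2) {θ : Ch G}
    (hker : ∀ g, π g = 1 ↔ g ∈ kr θ) {b : Fin r → UM ι S T} (hb : IsBs ι S T θ b)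
    {b' : Fin r → UM ι' S T} (hb' : ∀ k, tr2U ι ι' S T (b' k) = b k) :
    AddSubgroup.closure (Set.range b') = mMinus G' (UM ι' S T) := by
  obtain ⟨s, hs⟩ : ∃ s : G', s ≠ 1 := by
    by_contra hcon
    push Not at hcon
    have : Nat.card G' = 1 := by
      rw [Nat.card_eq_one_iff_unique]
      exact ⟨⟨fun x y => by rw [hcon x, hcon y]⟩, ⟨1⟩⟩
    omega
  obtain ⟨g, rfl⟩ := hq.surj s
  have hg : g ∉ kr θ := fun h => hs ((hker g).2 h)
  have hN := nh_nrm hG' hs
  apply le_antisymm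
  · rw [AddSubgroup.closure_le]
    rintro _ ⟨k, rfl⟩
    show nrm G' • b' k = 0
    apply nh_tr_inj (ι := ι) (ι' := ι')
    rw [map_zero, hN, add_smul, one_smul, map_add, ← tr2U_smul hq, hb', nh_b_mem hb k g,
      nh_sg_neg hg]
    simp
  · intro x hx
    have hx0 : nrm G' • x = 0 := hx
    rw [hN, add_smul, one_smul] at hx0
    have h1 : tr2U ι ι' S T x ∈ Uc ι S T θ := by
      intro h
      rw [tr2U_smul hq]
      by_cases hh : h ∈ kr θ
      · rw [(hker h).2 hh, nh_sg_one hh, one_smul, ← MonoidAlgebra.one_def, one_smul]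
      · have h2 : π h = π g := by
          have h3 : ∀ y : G', y ≠ 1 → y = π g := by
            classical
            intro y hy
            have h4 : (Finset.univ : Finset G') = {1, π g} := by
              refine (Finset.eq_univ_of_card _ ?_).symm
              rw [Finset.card_pair (Ne.symm hs), ← Nat.card_eq_fintype_card, hG']
            have h5 : y ∈ (Finset.univ : Finset G') := Finset.mem_univ y
            rw [h4, Finset.mem_insert, Finset.mem_singleton] at h5
            exact h5.resolve_left hy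
          exact h3 _ fun h4 => hh ((hker h).1 h4)
        rw [h2, nh_sg_neg hh, neg_smul, one_smul, ← map_neg]
        congr 1
        exact eq_neg_of_add_eq_zero_right hx0
    rw [← hb.span] at h1
    have h2 : Set.range b = tr2U ι ι' S T '' Set.range b' := by
      ext y
      constructor
      · rintro ⟨k, rfl⟩
        exact ⟨b' k, ⟨k, rfl⟩, hb' k⟩
      · rintro ⟨_, ⟨k, rfl⟩, rfl⟩
        exact ⟨k, (hb' k).symm⟩
    rw [h2, ← AddMonoidHom.map_closure] at h1
    obtain ⟨y, hy, hyx⟩ := h1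
    rwa [← nh_tr_inj (ι := ι) (ι' := ι') hyx]

theorem nh_gen (hq : Quo ι ι' π) (hG' : Nat.card G' = 2) {θ : Ch G} (hθ : θ ≠ 0)
    (hker : ∀ g, π g = 1 ↔ g ∈ kr θ) (hD0 : Data ι S T r w fr)
    (hD : DataW ι' S T r (fun i => dn K (w i)) fr') {m : ℕ}
    (hm : Fintype.card (PS S) = r + m + 1)
    {c : (G →* ℂˣ) → ℂ} (hc : LeadX S T r fr' (fun χ' => c (χ'.comp π)))
    {u : (⋀[MonoidAlgebra ℤ G]^r (UM ι S T)) ⊗[ℤ] ℚ}
    (hu : ∀ χ : G →* ℂˣ, evR χ (extQ (detMap (fun i => wl ι S T (w i))).toAddMonoidHom u) = c χ⁻¹)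
    {b : Fin r → UM ι S T} (hb : IsBs ι S T θ b) :
    ∃ n : ℤ, n.natAbs = 2 ^ m * jE F K S T ∧
      ∀ ψ : Fin r → (UM ι S T →ₗ[MonoidAlgebra ℤ G] MonoidAlgebra ℤ G),
        evQ (chi θ) (psiQ ψ u) = (n : ℂ) *
          (Matrix.det (Matrix.of fun i j => (ψ i (b j)).coeff 1) : ℤ) := by
  classical
  have hfin : Module.Finite ℤ (UM ι S T) := Pool.Agent.RSK.um_finite hD0
  have htf : Module.IsTorsionFree ℤ (UM ι S T) := Pool.Agent.RSK.um_tf hD0
  -- the character of `G'`
  obtain ⟨s, hs⟩ := hq.surj.hasRightInverse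
  have hmul : ∀ x y : G, π x = π y → chi θ x = chi θ y := by
    intro x y hxy
    have h1 : x * y⁻¹ ∈ kr θ := (hker _).1 (by rw [map_mul, map_inv, hxy, mul_inv_cancel])
    have h2 := nh_chi_one h1
    rw [map_mul, map_inv] at h2
    exact mul_inv_eq_one.1 h2
  let χ' : G' →* ℂˣ :=
    { toFun := fun g' => chi θ (s g')
      map_one' := by
        rw [hmul (s 1) 1 (by rw [hs, map_one]), map_one]
      map_mul' := fun x y => by
        rw [hmul (s (x * y)) (s x * s y) (by rw [hs, map_mul, hs, hs]), map_mul] }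
  have hχ'c : χ'.comp π = chi θ := by
    ext g
    have h1 : χ' (π g) = chi θ g := hmul _ _ (hs (π g))
    rw [MonoidHom.comp_apply, h1]
  obtain ⟨a, ha⟩ : ∃ a : G, a ∉ kr θ := by
    by_contra hcon
    push Not at hcon
    exact hθ (AddMonoidHom.ext fun x => hcon (Additive.toMul x))
  have hχ' : χ' ≠ 1 := by
    intro h
    apply nh_chi_ne ha
    rw [← hχ'c, h]
    rfl
  -- the basis of the minus part of `K`
  have hex : ∀ k, ∃ x : UM ι' S T, tr2U ι ι' S T x = b k := fun k => by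
    refine tf_inv hq (b k) fun n hn => ?_
    rw [nh_b_mem hb k n, nh_sg_one ((hker n).1 hn), one_smul]
  choose b' hb' using hex
  have hspan := nh_span hq hG' hker hb hb'
  -- the proportionality
  obtain ⟨z, hz1, hz2⟩ := ln_main w (chi θ) b (fun m => by
    obtain ⟨α, hα⟩ := nh_comb (b := b) (x := nh_e θ • m) (by
      rw [hb.span]
      exact nh_e_mem θ m)
    refine ⟨nh_e θ, fun k => α k • (1 : MonoidAlgebra ℤ G), ?_, ?_⟩
    · rw [nh_e_ev]
      exact Nat.cast_ne_zero.2 Nat.card_pos.ne'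
    · rw [hα]
      refine Finset.sum_congr rfl fun k _ => ?_
      rw [smul_assoc, one_smul]) u
  have hbm := nh_b_mem hb
  have hdet : ∀ ψ : Fin r → (UM ι S T →ₗ[MonoidAlgebra ℤ G] MonoidAlgebra ℤ G),
      evQ (chi θ) (psiQ ψ u) = z * (Nat.card G : ℂ) ^ r *
          (Matrix.det (Matrix.of fun i j => (ψ i (b j)).coeff 1) : ℤ) := by
    intro ψ
    rw [hz1 ψ, uc_det θ hbm ψ, mul_assoc]
  -- cardinalities
  have hcardG : Nat.card G = Nat.card π.ker * 2 := by
    have h1 := Subgroup.card_mul_index π.ker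
    rw [Subgroup.index_ker, MonoidHom.range_eq_top.2 hq.surj, Subgroup.card_top, hG'] at h1
    exact h1.symm
  have hk0 : (Nat.card π.ker : ℂ) ≠ 0 := Nat.cast_ne_zero.2 Nat.card_pos.ne'
  have hG0 : (Nat.card G : ℂ) ≠ 0 := Nat.cast_ne_zero.2 Nat.card_pos.ne'
  -- rationality
  obtain ⟨q, hq'⟩ : ∃ q : ℚ, z * (Nat.card π.ker : ℂ) ^ r = (q : ℂ) := by
    obtain ⟨f, hf⟩ := nh_dual hb.indep
    choose ψ hψ using fun i => coeff_ext (f i)
    obtain ⟨q₀, hq₀⟩ := nh_rat θ (psiQ ψ u)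
    have h1 : (Matrix.of fun i j => (ψ i (b j)).coeff 1) = Matrix.of fun i j => f i (b j) := by
      ext i j
      exact hψ i (b j)
    rw [hdet ψ, h1] at hq₀
    have h2 : ((dF f b : ℤ) : ℂ) ≠ 0 := Int.cast_ne_zero.2 hf
    have h3 : z * (Nat.card G : ℂ) ^ r * ((dF f b : ℤ) : ℂ) = (q₀ : ℂ) := hq₀
    refine ⟨q₀ / ((Nat.card G : ℚ) ^ r * (dF f b : ℤ)) * (Nat.card π.ker : ℚ) ^ r, ?_⟩
    push_cast
    rw [← h3]
    field_simp
  -- the norm formula
  have hval : (fun χ' : G' →* ℂˣ => c (χ'.comp π)) χ'⁻¹ =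
      (q : ℂ) * evR χ' (wmat ι' S T (fun i => dn K (w i)) b').det := by
    have h1 : (χ'⁻¹).comp π = (chi θ)⁻¹ := by
      rw [← hχ'c]
      rfl
    show c ((χ'⁻¹).comp π) = _
    rw [h1, ← hu, hz2]
    have h2 : wmat ι S T w b = wmat ι S T w (fun k => tr2U ι ι' S T (b' k)) := by
      congr 1
      funext k
      rw [hb']
    rw [h2, ← hχ'c, tf_wmat hq hD0.split b' χ', ← hq']
    ring
  obtain ⟨n, hn1, hn2⟩ := norm_two hG' hD hm hc hspan hχ' hval
  refine ⟨n, hn1, fun ψ => ?_⟩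
  rw [hdet ψ]
  congr 1
  have h3 : (n : ℂ) = (q : ℂ) * 2 ^ r := by
    have h4 : ((q * 2 ^ r : ℚ) : ℂ) = ((n : ℚ) : ℂ) := by rw [hn2]
    push_cast at h4
    exact h4.symm
  rw [h3, ← hq', hcardG]
  push_cast
  rw [mul_pow]
  ring

end NHgen

section NHmain

variable {F H : Type} [Field F] [NumberField F] [Field H] [NumberField H] [Algebra F H]
  [IsGalois F H] {G : Type} [CommGroup G] [Fintype G] {ι : G ≃* (H ≃ₐ[F] H)}
  {S T : Finset (HeightOneSpectrum (𝓞 F))} {r : ℕ} {w : Fin r → Pl H}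
  {fr : HeightOneSpectrum (𝓞 F) → G}

theorem z_chi_pr (hD : Data ι S T r w fr) (hexp : ∀ g : G, g ^ 2 = 1) {θ : Ch G} (hθ : θ ≠ 0)
    (hX : Xr ι S w θ) {c : (G →* ℂˣ) → ℂ}
    (hc : Lead S T r fr c) {u : (⋀[MonoidAlgebra ℤ G]^r (UM ι S T)) ⊗[ℤ] ℚ}
    (hu : IsStark ι S T w c u) {b : Fin r → UM ι S T} (hb : IsBs ι S T θ b) :
    ∃ n : ℤ, n.natAbs =
        2 ^ (Fintype.card (InfinitePlace F) + S.card - (r + 1)) * hJ 2 F (Kf ι (kr θ)) S T ∧
      ∀ ψ : Fin r → (UM ι S T →ₗ[MonoidAlgebra ℤ G] MonoidAlgebra ℤ G),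
        evQ (chi θ) (psiQ ψ u) = (n : ℂ) *
          (Matrix.det (Matrix.of fun i j => (ψ i (b j)).coeff 1) : ℤ) := by
  classical
  have := kf_galois ι (kr θ)
  obtain ⟨ι', hq⟩ := kf_quo ι (kr θ)
  let _ : Fintype (G ⧸ kr θ) := Fintype.ofFinite _
  have hG' : Nat.card (G ⧸ kr θ) = 2 := nh_index hθ
  have hcard : Nat.card (Kf ι (kr θ) ≃ₐ[F] Kf ι (kr θ)) = 2 := by
    rw [← Nat.card_congr ι'.toEquiv, hG']
  have hK : Data ι' S T r (fun i => dn (Kf ι (kr θ)) (w i))
      (fun v => QuotientGroup.mk' (kr θ) (fr v)) := by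
    refine cn_data hq hD ?_
    intro W hW hWg
    refine hX.2 hθ W hW fun g hg => ?_
    have h1 := hWg g hg
    rw [← MonoidHom.mem_ker, QuotientGroup.ker_mk'] at h1
    exact h1
  have hm : Fintype.card (PS S) =
      r + (Fintype.card (InfinitePlace F) + S.card - (r + 1)) + 1 := by
    have h1 := hD.card
    have h2 : Fintype.card (PS S) = Fintype.card (InfinitePlace F) + S.card := by simp [PS]
    omega
  rw [hJ_eq Nat.prime_two hcard S T]
  exact nh_gen hq hG' hθ (fun g => by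
    rw [← MonoidHom.mem_ker, QuotientGroup.ker_mk']) hD (data_W hK) hm
    (fun χ' _ => hc (χ'.comp (QuotientGroup.mk' (kr θ)))) hu.value hb

end NHmain

end Pool.Agent.RG

namespace Pool.Agent.RG

theorem z_chi : type_of% @z_chi_pr := @z_chi_pr

end Pool.Agent.RG
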