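import Pool.Agent.Lib_helper35.RG.Defs
import Pool.Agent.Lib_helper35.RG.DefsN
import Pool.Agent.Lib_helper3.AU.ER

/-!
# Multiquadratic extensions, block NI: the other characters
-/

set_option autoImplicit false
set_option linter.unusedSectionVars false
set_option linter.unusedVariables false

namespace Pool.Agent.RG

open Pool.Agent.RSK Pool.Agent.RS2 Pool.Agent.RS3 Pool.Agent.SY Pool.Agent.AU Pool.Agent.CR
open NumberField IsDedekindDomain Filter Topology Complex
open scoped TensorProduct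

section NI0

variable {G : Type} [CommGroup G]

theorem ni_chi_iff (θ : Ch G) (g : G) : chi θ g = 1 ↔ g ∈ kr θ := by
  have h0 : chi θ g = 1 ↔ ((sg θ g : ℤ) : ℂ) = 1 := by
    rw [← Units.val_eq_one, chi_apply]
  rw [h0]
  have h1 : g ∈ kr θ ↔ θ (Additive.ofMul g) = 0 := Iff.rfl
  rw [h1]
  unfold sg
  split_ifs with h
  · exact ⟨fun _ => h, fun _ => Int.cast_one⟩
  · refine ⟨fun h2 => ?_, fun h2 => absurd h2 h⟩
    exfalso
    have h3 : (-1 : ℤ) = 1 := by exact_mod_cast h2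
    exact absurd h3 (by decide)

theorem ni_chi_one (θ : Ch G) : chi θ = 1 ↔ θ = 0 := by
  constructor
  · intro h
    refine AddMonoidHom.ext fun a => ?_
    have h1 : chi θ (Additive.toMul a) = 1 := by
      rw [h]
      rfl
    exact (ni_chi_iff θ _).1 h1
  · rintro rfl
    refine MonoidHom.ext fun g => ?_
    exact (ni_chi_iff 0 g).2 rfl

end NI0

section NA

variable {F H : Type} [Field F] [NumberField F] [Field H] [NumberField H] [Algebra F H]
  [IsGalois F H] {G : Type} [CommGroup G] [Fintype G] {ι : G ≃* (H ≃ₐ[F] H)}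
  {S T : Finset (HeightOneSpectrum (𝓞 F))} {r : ℕ} {w : Fin r → Pl H}
  {fr : HeightOneSpectrum (𝓞 F) → G}

theorem ni_cont {θ : Ch G} (h : Cont ι S w (chi θ)) : Xr ι S w θ := by
  refine ⟨fun h0 => h.1 ((ni_chi_one θ).2 h0), fun h0 W hW hg => ?_⟩
  refine h.2 (fun h1 => h0 ((ni_chi_one θ).1 h1)) W hW fun g hgW => ?_
  exact (ni_chi_iff θ g).2 (hg g hgW)

/-- Block NI: the other characters (`AU.er_ev`). -/
theorem z_none_pr {c : (G →* ℂˣ) → ℂ} {u : (⋀[MonoidAlgebra ℤ G]^r (UM ι S T)) ⊗[ℤ] ℚ}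
    (hu : IsStark ι S T w c u) {θ : Ch G} (hX : ¬ Xr ι S w θ)
    (ψ : Fin r → (UM ι S T →ₗ[MonoidAlgebra ℤ G] MonoidAlgebra ℤ G)) :
    evQ (chi θ) (psiQ ψ u) = 0 :=
  er_ev hu (fun h => hX (ni_cont h)) ψ

end NA

end Pool.Agent.RG

namespace Pool.Agent.RG

theorem z_none : type_of% @z_none_pr := @z_none_pr

end Pool.Agent.RG
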