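import Pool.Agent.Lib_helper35.RG.Defs
import Pool.Agent.Lib_helper35.RG.DefsN

set_option autoImplicit false
set_option linter.unusedSectionVars false
set_option linter.unusedVariables false

namespace Pool.Agent.RG

open Pool.Agent.RSK Pool.Agent.RS2 Pool.Agent.RS3 Pool.Agent.SY Pool.Agent.AU Pool.Agent.CR
open NumberField IsDedekindDomain Filter Topology Complex
open scoped TensorProduct

section NB

variable {G : Type} [CommGroup G] [Fintype G]

theorem nj_two_smul (hexp : ∀ g : G, g ^ 2 = 1) (x : Additive G) : 2 • x = 0 := by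
  have := hexp (Additive.toMul x)
  exact this

theorem nj_finite : Finite (Ch G) :=
  Finite.of_injective (fun f : Ch G => (f : Additive G → ZMod 2)) DFunLike.coe_injective

theorem nj_exists (hexp : ∀ g : G, g ^ 2 = 1) {g : G} (hg : g ≠ 1) :
    ∃ θ : Ch G, θ (Additive.ofMul g) ≠ 0 := by
  let _ : Module (ZMod 2) (Additive G) := AddCommGroup.zmodModule (nj_two_smul hexp)
  have hx : (Additive.ofMul g) ≠ 0 := fun h => hg h
  obtain ⟨f, hf⟩ := Module.Projective.exists_dual_ne_zero (ZMod 2) hx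
  exact ⟨f.toAddMonoidHom, hf⟩

theorem nj_sum_ne [Fintype (Ch G)] (hexp : ∀ g : G, g ^ 2 = 1) {g : G} (hg : g ≠ 1) :
    ∑ θ : Ch G, sg θ g = 0 := by
  obtain ⟨θ₀, hθ₀⟩ := nj_exists hexp hg
  have h1 : ∑ θ : Ch G, sg θ g = ∑ θ : Ch G, sg (θ + θ₀) g :=
    (Equiv.sum_comp (Equiv.addRight θ₀) (fun θ => sg θ g)).symm
  have h2 : ∀ θ : Ch G, sg (θ + θ₀) g = - sg θ g := by
    intro θ
    have h3 : θ₀ (Additive.ofMul g) = 1 := by
      generalize θ₀ (Additive.ofMul g) = c at hθ₀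
      revert c; decide
    show (if θ (Additive.ofMul g) + θ₀ (Additive.ofMul g) = 0 then (1 : ℤ) else -1)
      = - (if θ (Additive.ofMul g) = 0 then (1 : ℤ) else -1)
    rw [h3]
    generalize θ (Additive.ofMul g) = c
    revert c; decide
  have h4 : ∑ θ : Ch G, sg θ g = - ∑ θ : Ch G, sg θ g := by
    conv_lhs => rw [h1]
    simp only [h2, Finset.sum_neg_distrib]
  linarith

theorem nj_sum_one [Fintype (Ch G)] : ∑ θ : Ch G, sg θ (1 : G) = Fintype.card (Ch G) := by
  simp only [sg_one]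
  simp

theorem nj_card [Fintype (Ch G)] (hexp : ∀ g : G, g ^ 2 = 1) :
    Fintype.card (Ch G) = Nat.card G := by
  let _ : Module (ZMod 2) (Additive G) := AddCommGroup.zmodModule (nj_two_smul hexp)
  have e : Ch G ≃ Module.Dual (ZMod 2) (Additive G) :=
    { toFun := fun f => AddMonoidHom.toZModLinearMap 2 f
      invFun := fun f => f.toAddMonoidHom
      left_inv := fun f => rfl
      right_inv := fun f => rfl }
  have h1 : Fintype.card (Ch G) = Nat.card (Module.Dual (ZMod 2) (Additive G)) := by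
    rw [← Nat.card_eq_fintype_card]
    exact Nat.card_congr e
  have hfin : Module.Finite (ZMod 2) (Additive G) := Module.Finite.of_finite
  have h2 : Nat.card (Additive G) = Nat.card G := rfl
  rw [h1, ← h2, Module.natCard_eq_pow_finrank (K := ZMod 2),
    Module.natCard_eq_pow_finrank (K := ZMod 2) (V := Additive G), Subspace.dual_finrank_eq]

theorem nj_sum (y : MonoidAlgebra ℚ G) :
    y = ∑ h : G, MonoidAlgebra.single h (y.coeff h) := by
  conv_lhs => rw [← MonoidAlgebra.sum_coeff_single y]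
  rw [Finsupp.sum_fintype]
  intro h
  exact MonoidAlgebra.single_zero h

theorem nj_ev (θ : Ch G) (y : MonoidAlgebra ℚ G) :
    evQ (chi θ) y = ∑ h : G, ((y.coeff h : ℚ) : ℂ) * ((sg θ h : ℤ) : ℂ) := by
  conv_lhs => rw [nj_sum y]
  rw [map_sum]
  refine Finset.sum_congr rfl fun h _ => ?_
  rw [px2_evQ_single, chi_apply]

theorem nj_inv [Fintype (Ch G)] (hexp : ∀ g : G, g ^ 2 = 1) (g : G) (y : MonoidAlgebra ℚ G) :
    ∑ θ : Ch G, ((sg θ g : ℤ) : ℂ) * evQ (chi θ) y = (Nat.card G : ℂ) * ((y.coeff g : ℚ) : ℂ) := by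
  classical
  simp only [nj_ev, Finset.mul_sum]
  rw [Finset.sum_comm, Finset.sum_eq_single g]
  · have h1 : ∀ θ : Ch G, ((sg θ g : ℤ) : ℂ) * (((y.coeff g : ℚ) : ℂ) * ((sg θ g : ℤ) : ℂ))
        = ((y.coeff g : ℚ) : ℂ) := by
      intro θ
      have h2 : ((sg θ g : ℤ) : ℂ) * ((sg θ g : ℤ) : ℂ) = 1 := by
        rw [← Int.cast_mul, sg_sq, Int.cast_one]
      calc ((sg θ g : ℤ) : ℂ) * (((y.coeff g : ℚ) : ℂ) * ((sg θ g : ℤ) : ℂ))
          = ((sg θ g : ℤ) : ℂ) * ((sg θ g : ℤ) : ℂ) * ((y.coeff g : ℚ) : ℂ) := by ring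
        _ = _ := by rw [h2, one_mul]
    simp only [h1]
    rw [Finset.sum_const, Finset.card_univ, nj_card hexp, nsmul_eq_mul]
  · intro h _ hne
    have h1 : ∀ θ : Ch G, ((sg θ g : ℤ) : ℂ) * (((y.coeff h : ℚ) : ℂ) * ((sg θ h : ℤ) : ℂ))
        = ((y.coeff h : ℚ) : ℂ) * ((sg θ (g * h) : ℤ) : ℂ) := by
      intro θ
      rw [sg_mul, Int.cast_mul]; ring
    simp only [h1]
    rw [← Finset.mul_sum, ← Int.cast_sum, nj_sum_ne hexp, Int.cast_zero, mul_zero]
    intro h2
    apply hne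
    have h3 : g * g = 1 := by rw [← pow_two]; exact hexp g
    exact mul_left_cancel (h2.trans h3.symm)
  · intro h; exact absurd (Finset.mem_univ g) h

/-- Block NJ. -/
theorem glue_two_pr (hexp : ∀ g : G, g ^ 2 = 1) {m : ℕ} (hm : Nat.card G = 2 ^ m)
    (y : MonoidAlgebra ℚ G) (t : Ch G → ℤ)
    (ht : ∀ θ, evQ (chi θ) y = (2 : ℂ) ^ (m - 1) * (t θ : ℂ))
    (hpar : m ≠ 0 → Even (∑ᶠ θ : Ch G, t θ)) :
    ∃ a : MonoidAlgebra ℤ G, y = toQ G a := by
  classical
  have hfin : Finite (Ch G) := nj_finite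
  let _ : Fintype (Ch G) := Fintype.ofFinite _
  have hint : ∀ g : G, ∃ n : ℤ, y.coeff g = (n : ℚ) := by
    intro g
    have h1 := nj_inv hexp g y
    have h2 : ∑ θ : Ch G, ((sg θ g : ℤ) : ℂ) * evQ (chi θ) y
        = (2 : ℂ) ^ (m - 1) * ((∑ θ : Ch G, sg θ g * t θ : ℤ) : ℂ) := by
      rw [Int.cast_sum, Finset.mul_sum]
      refine Finset.sum_congr rfl fun θ _ => ?_
      rw [ht, Int.cast_mul]; ring
    rw [h2, hm] at h1
    rcases Nat.eq_zero_or_pos m with h0 | hpos
    · subst h0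
      refine ⟨∑ θ : Ch G, sg θ g * t θ, ?_⟩
      simp only [Nat.zero_sub, pow_zero, one_mul, Nat.cast_one] at h1
      exact_mod_cast h1.symm
    · have hev : Even (∑ θ : Ch G, sg θ g * t θ) := by
        have h3 := hpar (Nat.pos_iff_ne_zero.mp hpos)
        rw [finsum_eq_sum_of_fintype] at h3
        have h4 : Even (∑ θ : Ch G, (t θ - sg θ g * t θ)) := by
          refine Finset.sum_induction _ Even (fun a b => Even.add) (by simp) fun θ _ => ?_
          unfold sg
          split_ifs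
          · simp
          · exact ⟨t θ, by ring⟩
        have h5 : ∑ θ : Ch G, sg θ g * t θ
            = ∑ θ : Ch G, t θ - ∑ θ : Ch G, (t θ - sg θ g * t θ) := by
          rw [Finset.sum_sub_distrib]; ring
        rw [h5]
        exact h3.sub h4
      obtain ⟨n, hn⟩ := hev
      refine ⟨n, ?_⟩
      rw [hn] at h1
      obtain ⟨l, rfl⟩ : ∃ l, m = l + 1 := ⟨m - 1, by omega⟩
      simp only [Nat.add_sub_cancel] at h1
      have h6 : (2 : ℂ) ^ l ≠ 0 := pow_ne_zero _ two_ne_zero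
      have h7 : (2 : ℂ) ^ l * (2 * ((y.coeff g : ℚ) : ℂ)) = (2 : ℂ) ^ l * (2 * (n : ℂ)) := by
        push_cast at h1
        rw [pow_succ] at h1
        linear_combination -h1
      have h8 := mul_left_cancel₀ h6 h7
      have h9 := mul_left_cancel₀ (two_ne_zero) h8
      exact_mod_cast h9
  choose n hn using hint
  refine ⟨∑ g : G, MonoidAlgebra.single g (n g), ?_⟩
  rw [map_sum, nj_sum y]
  refine Finset.sum_congr rfl fun g _ => ?_
  unfold toQ
  rw [hn g]
  simp

end NB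

end Pool.Agent.RG

namespace Pool.Agent.RG

theorem glue_two : type_of% @glue_two_pr := @glue_two_pr

end Pool.Agent.RG
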