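import Pool.Agent.Lib_helper35.RG.Defs
import Pool.Agent.Lib_helper35.RG.DefsN
import Pool.Agent.Lib_helper3.AU.AL

/-!
# Block NK: the powers of the ideal `𝔪`
-/

set_option autoImplicit false
set_option linter.unusedSectionVars false
set_option linter.unusedVariables false

namespace Pool.Agent.RG

open Pool.Agent.RSK Pool.Agent.RS2 Pool.Agent.RS3 Pool.Agent.SY Pool.Agent.AU Pool.Agent.CR
open NumberField IsDedekindDomain Filter Topology Complex
open scoped TensorProduct

section NB

variable {G : Type} [CommGroup G] [Fintype G]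

/-- the factors -/
noncomputable abbrev nk_X (o : Option G) : MonoidAlgebra ℤ G :=
  o.elim (2 : MonoidAlgebra ℤ G) (fun g => MonoidAlgebra.single g 1 - 1)

/-- the generators -/
def nk_gen (G : Type) [CommGroup G] (j : ℕ) : Set (MonoidAlgebra ℤ G) :=
  {x | ∃ (h : G) (L : Fin j → Option G), x = MonoidAlgebra.single h 1 *
      ∏ i, (L i).elim (2 : MonoidAlgebra ℤ G) (fun g => MonoidAlgebra.single g 1 - 1)}

theorem nk_single_mul {j : ℕ} (g : G) {x : MonoidAlgebra ℤ G}
    (hx : x ∈ AddSubgroup.closure (nk_gen G j)) :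
    MonoidAlgebra.single g (1 : ℤ) * x ∈ AddSubgroup.closure (nk_gen G j) := by
  induction hx using AddSubgroup.closure_induction with
  | mem x hx =>
    obtain ⟨h, L, rfl⟩ := hx
    refine AddSubgroup.subset_closure ⟨g * h, L, ?_⟩
    rw [← mul_assoc, MonoidAlgebra.single_mul_single, one_mul]
  | zero => rw [mul_zero]; exact AddSubgroup.zero_mem _
  | add a b _ _ ha hb => rw [mul_add]; exact AddSubgroup.add_mem _ ha hb
  | neg a _ ha => rw [mul_neg]; exact AddSubgroup.neg_mem _ ha

theorem nk_mul {j : ℕ} (a : MonoidAlgebra ℤ G) {x : MonoidAlgebra ℤ G}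
    (hx : x ∈ AddSubgroup.closure (nk_gen G j)) :
    a * x ∈ AddSubgroup.closure (nk_gen G j) := by
  induction a using MonoidAlgebra.induction_linear with
  | zero => rw [zero_mul]; exact AddSubgroup.zero_mem _
  | add a b ha hb => rw [add_mul]; exact AddSubgroup.add_mem _ ha hb
  | single g c =>
    have h1 : (MonoidAlgebra.single g c : MonoidAlgebra ℤ G) = c • MonoidAlgebra.single g (1 : ℤ) := by
      simp
    rw [h1, smul_mul_assoc]
    exact AddSubgroup.zsmul_mem _ (nk_single_mul g hx) c

theorem nk_main (j : ℕ) {a : MonoidAlgebra ℤ G} (ha : a ∈ mI 2 G ^ j) :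
    a ∈ AddSubgroup.closure (nk_gen G j) := by
  induction j generalizing a with
  | zero =>
    have h1 : (1 : MonoidAlgebra ℤ G) ∈ AddSubgroup.closure (nk_gen G 0) :=
      AddSubgroup.subset_closure ⟨1, Fin.elim0, by
        rw [Finset.univ_eq_empty, Finset.prod_empty, mul_one]; rfl⟩
    have h2 := nk_mul a h1
    rwa [mul_one] at h2
  | succ j ih =>
    rw [pow_succ] at ha
    refine Submodule.mul_induction_on ha ?_ ?_
    · intro m hm n hn
      have hm' := ih hm
      clear ha hm
      -- induction on `n`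
      induction hn using Submodule.span_induction with
      | mem s hs =>
        induction hm' using AddSubgroup.closure_induction with
        | mem x hx =>
          obtain ⟨h, L, rfl⟩ := hx
          have key : ∀ o : Option G, (MonoidAlgebra.single h (1 : ℤ) *
              ∏ i, (L i).elim (2 : MonoidAlgebra ℤ G) (fun g => MonoidAlgebra.single g 1 - 1)) *
              o.elim (2 : MonoidAlgebra ℤ G) (fun g => MonoidAlgebra.single g 1 - 1) ∈
              AddSubgroup.closure (nk_gen G (j + 1)) := by
            intro o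
            refine AddSubgroup.subset_closure ⟨h, Fin.snoc (α := fun _ => Option G) L o, ?_⟩
            rw [Fin.prod_univ_castSucc, mul_assoc]
            simp only [Fin.snoc_castSucc, Fin.snoc_last]
          rcases hs with hs | ⟨g, rfl⟩
          · rw [Set.mem_singleton_iff] at hs
            rw [hs]
            exact key none
          · exact key (some g)
        | zero => rw [zero_mul]; exact AddSubgroup.zero_mem _
        | add a b _ _ ha hb => rw [add_mul]; exact AddSubgroup.add_mem _ ha hb
        | neg a _ ha => rw [neg_mul]; exact AddSubgroup.neg_mem _ ha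
      | zero => rw [mul_zero]; exact AddSubgroup.zero_mem _
      | add a b _ _ ha hb => rw [mul_add]; exact AddSubgroup.add_mem _ ha hb
      | smul c x _ hx =>
        rw [smul_eq_mul, mul_left_comm]
        exact nk_mul c hx
    · intro x y hx hy
      exact AddSubgroup.add_mem _ hx hy

theorem mI_ind_pr {j : ℕ} {P : MonoidAlgebra ℤ G → Prop} (h0 : P 0)
    (hadd : ∀ a b, P a → P b → P (a + b)) (hneg : ∀ a, P a → P (-a))
    (hgen : ∀ (h : G) (L : Fin j → Option G), P (MonoidAlgebra.single h 1 *
      ∏ i, (L i).elim (2 : MonoidAlgebra ℤ G) (fun g => MonoidAlgebra.single g 1 - 1)))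
    {a : MonoidAlgebra ℤ G} (ha : a ∈ mI 2 G ^ j) : P a := by
  have h := nk_main j ha
  clear ha
  induction h using AddSubgroup.closure_induction with
  | mem x hx =>
    obtain ⟨h, L, rfl⟩ := hx
    exact hgen h L
  | zero => exact h0
  | add a b _ _ ha hb => exact hadd a b ha hb
  | neg a _ ha => exact hneg a ha

theorem nk_evZ_single (χ : G →* ℂˣ) (g : G) :
    evZ χ (MonoidAlgebra.single g (1 : ℤ)) = ((χ g : ℂˣ) : ℂ) := by
  rw [← al_evZ]
  have : toQ G (MonoidAlgebra.single g (1 : ℤ)) = MonoidAlgebra.single g (1 : ℚ) := by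
    simp [toQ]
  rw [this, px2_evQ_single]
  simp

open scoped Classical in
theorem mI_val_pr {j : ℕ} (θ : Ch G) (h : G) (L : Fin j → Option G) : ∃ ε : ℤ,
    (ε = 1 ∨ ε = -1) ∧ evZ (chi θ) (MonoidAlgebra.single h 1 *
      ∏ i, (L i).elim (2 : MonoidAlgebra ℤ G) (fun g => MonoidAlgebra.single g 1 - 1)) =
      (2 : ℂ) ^ j * (ε : ℂ) *
        (if ∀ i, ∀ g, L i = some g → θ (Additive.ofMul g) ≠ 0 then 1 else 0) := by
  have hsg : ∀ g : G, sg θ g = 1 ∨ sg θ g = -1 := by
    intro g
    unfold sg
    split_ifs
    · exact Or.inl rfl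
    · exact Or.inr rfl
  induction j with
  | zero =>
    refine ⟨sg θ h, hsg h, ?_⟩
    rw [Finset.univ_eq_empty, Finset.prod_empty, mul_one, nk_evZ_single, chi_apply, pow_zero,
      one_mul, if_pos (fun i => i.elim0), mul_one]
  | succ j ih =>
    obtain ⟨ε, hε, h1⟩ := ih (fun i => L i.castSucc)
    rw [Fin.prod_univ_castSucc, ← mul_assoc, map_mul, h1]
    have hiff : (∀ i, ∀ g, L i = some g → θ (Additive.ofMul g) ≠ 0) ↔
        ((∀ i : Fin j, ∀ g, L i.castSucc = some g → θ (Additive.ofMul g) ≠ 0) ∧
          ∀ g, L (Fin.last j) = some g → θ (Additive.ofMul g) ≠ 0) := by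
      constructor
      · intro H
        exact ⟨fun i => H _, H _⟩
      · rintro ⟨H1, H2⟩ i
        refine Fin.lastCases ?_ (fun i => ?_) i
        · exact H2
        · exact H1 i
    by_cases hA : ∀ i : Fin j, ∀ g, L i.castSucc = some g → θ (Additive.ofMul g) ≠ 0
    swap
    · refine ⟨ε, hε, ?_⟩
      rw [if_neg hA, if_neg (fun H => hA (hiff.1 H).1)]
      ring
    rw [if_pos hA]
    rcases hL : L (Fin.last j) with _ | g
    · refine ⟨ε, hε, ?_⟩
      rw [if_pos (hiff.2 ⟨hA, fun g hg => by rw [hL] at hg; exact absurd hg (by simp)⟩)]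
      show _ * evZ (chi θ) (2 : MonoidAlgebra ℤ G) = _
      rw [map_ofNat, pow_succ]
      ring
    · have h2 : evZ (chi θ) ((some g).elim (2 : MonoidAlgebra ℤ G)
          (fun g => MonoidAlgebra.single g 1 - 1)) = ((sg θ g : ℤ) : ℂ) - 1 := by
        show evZ (chi θ) (MonoidAlgebra.single g 1 - 1) = _
        rw [map_sub, map_one, nk_evZ_single, chi_apply]
      rw [h2]
      by_cases hg : θ (Additive.ofMul g) = 0
      · refine ⟨ε, hε, ?_⟩
        rw [if_neg (fun H => (hiff.1 H).2 g hL hg)]
        have : sg θ g = 1 := if_pos hg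
        rw [this]
        push_cast
        ring
      · refine ⟨-ε, by rcases hε with h | h <;> [right; left] <;> rw [h] <;> norm_num, ?_⟩
        rw [if_pos (hiff.2 ⟨hA, fun g' hg' => by
          rw [hL] at hg'
          obtain rfl := Option.some.inj hg'
          exact hg⟩)]
        have : sg θ g = -1 := if_neg hg
        rw [this, pow_succ]
        push_cast
        ring

end NB

end Pool.Agent.RG

namespace Pool.Agent.RG

theorem mI_ind : type_of% @mI_ind_pr := @mI_ind_pr
theorem mI_val : type_of% @mI_val_pr := @mI_val_pr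

end Pool.Agent.RG
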