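import Pool.Agent.Lib_helper35.RG.DefsN

/-!
# Multiquadratic extensions: the parity condition
-/

set_option autoImplicit false
set_option linter.unusedSectionVars false

namespace Pool.Agent.RG

open Pool.Agent.RSK Pool.Agent.RS2 Pool.Agent.RS3 Pool.Agent.SY Pool.Agent.AU Pool.Agent.CR
open NumberField IsDedekindDomain Filter Topology Complex
open scoped TensorProduct

section NC

variable {F H : Type} [Field F] [NumberField F] [Field H] [NumberField H] [Algebra F H]
  [IsGalois F H] {G : Type} [CommGroup G] [Fintype G] {ι : G ≃* (H ≃ₐ[F] H)}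
  {S T : Finset (HeightOneSpectrum (𝓞 F))} {r : ℕ} {w : Fin r → Pl H}
  {fr : HeightOneSpectrum (𝓞 F) → G}

/-- The parity condition: for all choices of bases `B θ` of the groups `Uc ι S T θ`, all
`f_1, …, f_r` and `L`, the sum of the determinants `det (f_i(B θ_j))` over the `θ ∈ Xr` with
`2 ^ m ∤ 2 ^ j nn θ` and `θ(g) ≠ 0` for all `g` in `L` is even. -/
def Par (m j : ℕ) (ι : G ≃* (H ≃ₐ[F] H)) (S T : Finset (HeightOneSpectrum (𝓞 F))) {r : ℕ}
    (w : Fin r → Pl H) : Prop :=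
  ∀ B : Ch G → Fin r → UM ι S T, (∀ θ, Xr ι S w θ → IsBs ι S T θ (B θ)) →
    ∀ (f : Fin r → (UM ι S T →+ ℤ)) (L : Fin j → Option G),
      Even (∑ᶠ θ : {θ : Ch G // Xr ι S w θ ∧ ¬ 2 ^ m ∣ 2 ^ j * nn ι S T r θ ∧
        ∀ i, ∀ g, L i = some g → θ (Additive.ofMul g) ≠ 0}, dF f (B θ.1))

end NC

end Pool.Agent.RG
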