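import Pool.Agent.Lib_helper35.RG.Defs

/-!
# RG, block H2
-/

set_option autoImplicit false
set_option linter.unusedSectionVars false
set_option linter.unusedVariables false

namespace Pool.Agent.RG

open Pool.Agent.RSK Pool.Agent.RS2 Pool.Agent.RS3 Pool.Agent.SY Pool.Agent.AU Pool.Agent.CR
open NumberField IsDedekindDomain Filter Topology Complex
open scoped TensorProduct

section D

variable {F H : Type} [Field F] [NumberField F] [Field H] [NumberField H] [Algebra F H]
  [IsGalois F H] {G : Type} [CommGroup G] [Fintype G] {ι : G ≃* (H ≃ₐ[F] H)}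
  {S T : Finset (HeightOneSpectrum (𝓞 F))} {r : ℕ} {w : Fin r → Pl H}
  {fr : HeightOneSpectrum (𝓞 F) → G}

/-- Block H2: for `p = 2` there is no condition. -/
theorem hol_two_pr (hexp : ∀ g : G, g ^ 2 = 1) (N : Subgroup G) (hN : IsCyclic (G ⧸ N)) :
    Hol3 2 N.index F (Kf ι N) := by
  refine ⟨1, 1, ?_, ?_, fun _ _ _ x => rfl⟩
  · obtain ⟨g, hg⟩ := hN.exists_generator
    have h1 : orderOf g = Nat.card (G ⧸ N) := orderOf_eq_card_of_forall_mem_zpowers hg
    have h2 : g ^ 2 = 1 := by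
      obtain ⟨g', rfl⟩ := QuotientGroup.mk_surjective g
      rw [← QuotientGroup.mk_pow, hexp g', QuotientGroup.mk_one]
    rw [pow_one, Subgroup.index, ← h1]
    exact orderOf_dvd_of_pow_eq_one h2
  · intro a σ x
    have h1 : ∀ a : (ZMod (2 ^ 1))ˣ, (a : ZMod (2 ^ 1)).val = 1 := by decide
    have h3 : (1 : (ZMod (2 ^ 1))ˣ →* (Kf ι N ≃+* Kf ι N)) a = 1 := rfl
    rw [h3, h1 a]
    have h2 : (σ ^ 1) = σ := by
      rw [show (1 : ℕ) = 0 + 1 from rfl, pow_succ, pow_zero, one_mul]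
    exact congrArg (fun τ : Kf ι N ≃ₐ[F] Kf ι N => τ x) h2.symm

end D

end Pool.Agent.RG

namespace Pool.Agent.RG

theorem hol_two : type_of% @hol_two_pr := @hol_two_pr

end Pool.Agent.RG
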