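import Pool.Agent.Lib_helper35.RG.Defs
import Pool.Agent.Lib_helper35.RG.P_NF
import Pool.Agent.Lib_helper35.RG.P_NG
import Pool.Agent.Lib_helper35.RG.P_NH
import Pool.Agent.Lib_helper35.RG.P_NI
import Pool.Agent.Lib_helper35.RG.P_NJ
import Pool.Agent.Lib_helper35.RG.P_NK
import Pool.Agent.Lib_helper35.RG.DefsN
import Pool.Agent.Lib_helper35.RG.DefsP
import Pool.Agent.Lib_helper3.AU.ST

/-!
# RG, block NL: integrality at `2`
-/

set_option autoImplicit false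
set_option linter.unusedSectionVars false
set_option linter.unusedVariables false

namespace Pool.Agent.RG

open Pool.Agent.RSK Pool.Agent.RS2 Pool.Agent.RS3 Pool.Agent.SY Pool.Agent.AU Pool.Agent.CR
open NumberField IsDedekindDomain Filter Topology Complex
open scoped TensorProduct

section NLA

/-- the arithmetic of one character -/
theorem nl_arith {m j nnθ : ℕ} (hv : 2 ^ (m - 1) ∣ 2 ^ j * nnθ) {n : ℤ} (hn : n.natAbs = nnθ) :
    ∃ k : ℤ, (2 : ℤ) ^ j * n = 2 ^ (m - 1) * k ∧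
      (m ≠ 0 → (Even k ↔ 2 ^ m ∣ 2 ^ j * nnθ)) := by
  have h1 : ((2 : ℤ) ^ (m - 1)) ∣ 2 ^ j * n := by
    rw [← Int.natAbs_dvd_natAbs, Int.natAbs_mul, hn, Int.natAbs_pow, Int.natAbs_pow]
    exact hv
  obtain ⟨k, hk⟩ := h1
  refine ⟨k, hk, fun hm => ?_⟩
  have h2 : (2 ^ m ∣ 2 ^ j * nnθ) ↔ ((2 : ℤ) ^ m ∣ 2 ^ j * n) := by
    rw [← Int.natAbs_dvd_natAbs, Int.natAbs_mul, hn, Int.natAbs_pow, Int.natAbs_pow]
    rfl
  rw [h2, hk, even_iff_two_dvd]
  have h3 : (2 : ℤ) ^ m = 2 ^ (m - 1) * 2 := by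
    rw [← pow_succ, Nat.sub_add_cancel (Nat.one_le_iff_ne_zero.2 hm)]
  rw [h3]
  exact (mul_dvd_mul_iff_left (pow_ne_zero _ two_ne_zero)).symm

end NLA

section NC

variable {F H : Type} [Field F] [NumberField F] [Field H] [NumberField H] [Algebra F H]
  [IsGalois F H] {G : Type} [CommGroup G] [Fintype G] {ι : G ≃* (H ≃ₐ[F] H)}
  {S T : Finset (HeightOneSpectrum (𝓞 F))} {r : ℕ} {w : Fin r → Pl H}
  {fr : HeightOneSpectrum (𝓞 F) → G}

/-- the coefficient of `1` of a linear map -/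
noncomputable def nlC (ψ : UM ι S T →ₗ[MonoidAlgebra ℤ G] MonoidAlgebra ℤ G) : UM ι S T →+ ℤ where
  toFun x := (ψ x).coeff 1
  map_zero' := by rw [map_zero]; rfl
  map_add' x y := by rw [map_add]; rfl

open scoped Classical in
theorem nl_one (hD : Data ι S T r w fr) (hexp : ∀ g : G, g ^ 2 = 1) {m j : ℕ}
    (hv : ∀ θ : Ch G, Xr ι S w θ → 2 ^ (m - 1) ∣ 2 ^ j * nn ι S T r θ)
    {c : (G →* ℂˣ) → ℂ} (hc : Lead S T r fr c)
    {u : (⋀[MonoidAlgebra ℤ G]^r (UM ι S T)) ⊗[ℤ] ℚ} (hu : IsStark ι S T w c u)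
    {B : Ch G → Fin r → UM ι S T} (hB : ∀ θ, Xr ι S w θ → IsBs ι S T θ (B θ))
    (ψ : Fin r → (UM ι S T →ₗ[MonoidAlgebra ℤ G] MonoidAlgebra ℤ G)) (h : G)
    (L : Fin j → Option G) (θ : Ch G) :
    ∃ t : ℤ, evQ (chi θ) (toQ G (MonoidAlgebra.single h 1 *
        ∏ i, (L i).elim (2 : MonoidAlgebra ℤ G) (fun g => MonoidAlgebra.single g 1 - 1)) *
          psiQ ψ u) = (2 : ℂ) ^ (m - 1) * (t : ℂ) ∧
      (m ≠ 0 → Even (t - if (Xr ι S w θ ∧ ¬ 2 ^ m ∣ 2 ^ j * nn ι S T r θ ∧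
        ∀ i, ∀ g, L i = some g → θ (Additive.ofMul g) ≠ 0) then
          dF (fun i => nlC (ψ i)) (B θ) else 0)) := by
  have hev : ∀ a : MonoidAlgebra ℤ G, evQ (chi θ) (toQ G a * psiQ ψ u) =
      evZ (chi θ) a * evQ (chi θ) (psiQ ψ u) := by
    intro a
    rw [map_mul, al_evZ]
  by_cases hX : Xr ι S w θ
  · -- the value
    obtain ⟨n, hn, hψ⟩ : ∃ n : ℤ, n.natAbs = nn ι S T r θ ∧
        ∀ ψ : Fin r → (UM ι S T →ₗ[MonoidAlgebra ℤ G] MonoidAlgebra ℤ G),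
          evQ (chi θ) (psiQ ψ u) = (n : ℂ) *
            (Matrix.det (Matrix.of fun i j => (ψ i (B θ j)).coeff 1) : ℤ) := by
      by_cases h0 : θ = 0
      · subst h0
        obtain ⟨n, hn, hψ⟩ := z_zero hD hX hc hu (hB _ hX)
        refine ⟨n, ?_, hψ⟩
        rw [hn]
        unfold nn
        rw [if_pos rfl]
      · obtain ⟨n, hn, hψ⟩ := z_chi hD hexp h0 hX hc hu (hB _ hX)
        refine ⟨n, ?_, hψ⟩
        rw [hn]
        unfold nn
        rw [if_neg h0]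
    obtain ⟨k, hk, hkm⟩ := nl_arith (hv θ hX) hn
    obtain ⟨ε, hε, hval⟩ := mI_val θ h L
    have hdet : (Matrix.det (Matrix.of fun i j => (ψ i (B θ j)).coeff 1) : ℤ) =
        dF (fun i => nlC (ψ i)) (B θ) := rfl
    have hkC : (2 : ℂ) ^ j * (n : ℂ) = 2 ^ (m - 1) * (k : ℂ) := by exact_mod_cast hk
    rw [hev, hval, hψ, hdet]
    by_cases hδ : ∀ i, ∀ g, L i = some g → θ (Additive.ofMul g) ≠ 0
    · refine ⟨ε * k * dF (fun i => nlC (ψ i)) (B θ), ?_, fun hm => ?_⟩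
      · rw [if_pos hδ]
        push_cast
        linear_combination (ε : ℂ) * (dF (fun i => nlC (ψ i)) (B θ) : ℂ) * hkC
      · by_cases hdvd : 2 ^ m ∣ 2 ^ j * nn ι S T r θ
        · rw [if_neg (fun hh => hh.2.1 hdvd), sub_zero]
          have h1 : Even k := (hkm hm).2 hdvd
          exact (h1.mul_left ε).mul_right _
        · rw [if_pos ⟨hX, hdvd, hδ⟩]
          have h1 : ¬ Even k := fun hh => hdvd ((hkm hm).1 hh)
          rw [Int.not_even_iff_odd] at h1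
          have h2 : Odd ε := by
            rcases hε with rfl | rfl
            · exact odd_one
            · exact odd_neg_one
          have h3 : Odd (ε * k) := h2.mul h1
          have h4 : ε * k * dF (fun i => nlC (ψ i)) (B θ) - dF (fun i => nlC (ψ i)) (B θ) =
              (ε * k - 1) * dF (fun i => nlC (ψ i)) (B θ) := by ring
          rw [h4]
          exact (h3.sub_odd odd_one).mul_right _
    · refine ⟨0, ?_, fun _ => ?_⟩
      · rw [if_neg hδ]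
        push_cast
        ring
      · rw [if_neg (fun hh => hδ hh.2.2), sub_zero]
        exact Even.zero
  · refine ⟨0, ?_, fun _ => ?_⟩
    · rw [hev, z_none hu hX]
      push_cast
      ring
    · rw [if_neg (fun hh => hX hh.1), sub_zero]
      exact Even.zero

theorem nl_two (hD : Data ι S T r w fr) (hexp : ∀ g : G, g ^ 2 = 1) {m j : ℕ}
    (hm : Nat.card G = 2 ^ m) (hv : ∀ θ : Ch G, Xr ι S w θ → 2 ^ (m - 1) ∣ 2 ^ j * nn ι S T r θ)
    (hpar : Par m j ι S T w) {a : MonoidAlgebra ℤ G} (ha : a ∈ mI 2 G ^ j)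
    {c : (G →* ℂˣ) → ℂ} (hc : Lead S T r fr c)
    {u : (⋀[MonoidAlgebra ℤ G]^r (UM ι S T)) ⊗[ℤ] ℚ} (hu : IsStark ι S T w c u)
    (ψ : Fin r → (UM ι S T →ₗ[MonoidAlgebra ℤ G] MonoidAlgebra ℤ G)) :
    ∃ b : MonoidAlgebra ℤ G, toQ G a * psiQ ψ u = toQ G b := by
  classical
  have hfin : Finite (Ch G) := DFunLike.finite _
  have hft : Fintype (Ch G) := Fintype.ofFinite _
  -- the bases
  set B : Ch G → Fin r → UM ι S T := fun θ =>
    if h : Xr ι S w θ then (bs_exists hD θ h).choose else 0 with hBdef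
  have hB : ∀ θ, Xr ι S w θ → IsBs ι S T θ (B θ) := by
    intro θ hX
    rw [hBdef]
    dsimp only
    rw [dif_pos hX]
    exact (bs_exists hD θ hX).choose_spec
  refine mI_ind (j := j) (P := fun a => ∃ b : MonoidAlgebra ℤ G, toQ G a * psiQ ψ u = toQ G b)
    ?_ ?_ ?_ ?_ ha
  · exact ⟨0, by rw [map_zero, zero_mul]⟩
  · rintro a a' ⟨b, hb⟩ ⟨b', hb'⟩
    exact ⟨b + b', by rw [map_add, add_mul, hb, hb', map_add]⟩
  · rintro a ⟨b, hb⟩
    exact ⟨-b, by rw [map_neg, neg_mul, hb, map_neg]⟩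
  · intro h L
    have hone := fun θ => nl_one hD hexp hv hc hu hB ψ h L θ
    choose t ht hte using hone
    refine glue_two hexp hm _ t ht fun hm0 => ?_
    have h1 := hpar B hB (fun i => nlC (ψ i)) L
    have h2 : (∑ᶠ θ : {θ : Ch G // Xr ι S w θ ∧ ¬ 2 ^ m ∣ 2 ^ j * nn ι S T r θ ∧
        ∀ i, ∀ g, L i = some g → θ (Additive.ofMul g) ≠ 0}, dF (fun i => nlC (ψ i)) (B θ.1)) =
        ∑ θ : Ch G, if (Xr ι S w θ ∧ ¬ 2 ^ m ∣ 2 ^ j * nn ι S T r θ ∧
          ∀ i, ∀ g, L i = some g → θ (Additive.ofMul g) ≠ 0) then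
          dF (fun i => nlC (ψ i)) (B θ) else 0 := by
      rw [finsum_eq_sum_of_fintype, ← Finset.sum_filter]
      exact (Finset.sum_subtype (Finset.univ.filter fun θ : Ch G => Xr ι S w θ ∧
        ¬ 2 ^ m ∣ 2 ^ j * nn ι S T r θ ∧ ∀ i, ∀ g, L i = some g → θ (Additive.ofMul g) ≠ 0)
        (fun θ => by rw [Finset.mem_filter]; exact and_iff_right (Finset.mem_univ θ))
        (fun θ => dF (fun i => nlC (ψ i)) (B θ))).symm
    rw [h2] at h1
    rw [finsum_eq_sum_of_fintype]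
    have h3 : Even (∑ θ : Ch G, (t θ - if (Xr ι S w θ ∧ ¬ 2 ^ m ∣ 2 ^ j * nn ι S T r θ ∧
          ∀ i, ∀ g, L i = some g → θ (Additive.ofMul g) ≠ 0) then
          dF (fun i => nlC (ψ i)) (B θ) else 0)) :=
      Finset.even_sum _ fun θ _ => hte θ hm0
    rw [Finset.sum_sub_distrib] at h3
    have h4 := h3.add h1
    rwa [sub_add_cancel] at h4

theorem loc_two_pr (hD : Data ι S T r w fr) (hexp : ∀ g : G, g ^ 2 = 1) {m j : ℕ}
    (hm : Nat.card G = 2 ^ m) (hv : ∀ θ : Ch G, Xr ι S w θ → 2 ^ (m - 1) ∣ 2 ^ j * nn ι S T r θ)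
    (hpar : Par m j ι S T w) {a : MonoidAlgebra ℤ G} (ha : a ∈ mI 2 G ^ j) :
    CR.StarkMul 2 a ι S T w fr := by
  classical
  intro c Θ hc hΘ M _ _ e l hM u hu
  obtain ⟨φ, hφ⟩ := st_equiv hM
  have hl : ∀ i, (wl ι S T (w i)).comp (φ : M →ₗ[MonoidAlgebra ℤ G] UM ι S T) = l i := by
    intro i
    ext m : 1
    rw [hM.log i m]
    show ∑ γ : G, MonoidAlgebra.single γ (lg (act (ι γ) (w i)) ((φ m).val : H)) = _
    rw [hφ]
  have hu' : IsStark ι S T w c (stMap (φ : M →ₗ[MonoidAlgebra ℤ G] UM ι S T) u) := by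
    refine ⟨fun a ha => ?_, fun χ => ?_⟩
    · rw [← st_smul, hu.er a ha, map_zero]
    · have h1 := st_ext (AddMonoidHom.id (MonoidAlgebra ℝ G))
        (φ : M →ₗ[MonoidAlgebra ℤ G] UM ι S T) (fun i => wl ι S T (w i)) u
      rw [AddMonoidHom.id_comp, AddMonoidHom.id_comp] at h1
      rw [h1]
      have h2 : (fun i => (wl ι S T (w i)).comp (φ : M →ₗ[MonoidAlgebra ℤ G] UM ι S T)) = l :=
        funext hl
      rw [h2, hu.value]
      exact hΘ χ
  intro ψ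
  have hψ : psiQ (fun i => (ψ i).comp (φ.symm : UM ι S T →ₗ[MonoidAlgebra ℤ G] M))
      (stMap (φ : M →ₗ[MonoidAlgebra ℤ G] UM ι S T) (a • u)) =
      extQ ((toQ G).toAddMonoidHom.comp (detMap ψ).toAddMonoidHom) (a • u) := by
    unfold psiQ
    rw [st_ext]
    have h : (fun i => ((ψ i).comp (φ.symm : UM ι S T →ₗ[MonoidAlgebra ℤ G] M)).comp
        (φ : M →ₗ[MonoidAlgebra ℤ G] UM ι S T)) = ψ := by
      funext i
      ext m : 1
      show ψ i (φ.symm (φ m)) = ψ i m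
      rw [φ.symm_apply_apply]
    rw [h]
  obtain ⟨b, hb⟩ := nl_two hD hexp hm hv hpar ha hc hu'
    (fun i => (ψ i).comp (φ.symm : UM ι S T →ₗ[MonoidAlgebra ℤ G] M))
  refine ⟨1, b, by decide, ?_⟩
  rw [← hψ, pow_zero, mul_one, one_smul, st_smul, er_psiQ, ← hb]

end NC

end Pool.Agent.RG

namespace Pool.Agent.RG

theorem loc_two : type_of% @loc_two_pr := @loc_two_pr

end Pool.Agent.RG
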