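import Pool.Agent.Lib_helper35.RG.Defs
import Pool.Agent.Lib_helper35.RG.P_H2
import Pool.Agent.Lib_helper35.RG.P_NL
import Pool.Agent.Lib_helper35.RG.DefsN
import Pool.Agent.Lib_helper35.RG.DefsP
import Pool.Agent.Lib_helper17.CRF.E_EK

/-!
# RG, block NM: conclusion
-/

set_option autoImplicit false
set_option linter.unusedSectionVars false
set_option linter.unusedVariables false

namespace Pool.Agent.RG

open Pool.Agent.RSK Pool.Agent.RS2 Pool.Agent.RS3 Pool.Agent.SY Pool.Agent.AU Pool.Agent.CR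
open NumberField IsDedekindDomain Filter Topology Complex
open scoped TensorProduct

section NC

variable {F H : Type} [Field F] [NumberField F] [Field H] [NumberField H] [Algebra F H]
  [IsGalois F H] {G : Type} [CommGroup G] [Fintype G] {ι : G ≃* (H ≃ₐ[F] H)}
  {S T : Finset (HeightOneSpectrum (𝓞 F))} {r : ℕ} {w : Fin r → Pl H}
  {fr : HeightOneSpectrum (𝓞 F) → G}

/-- Block NM: as `main_R` (RG_MN_helper35.lean). -/
theorem rubin_par_pr (hD : Data ι S T r w fr) (hexp : ∀ g : G, g ^ 2 = 1) {m j : ℕ}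
    (hm : Nat.card G = 2 ^ m) (hv : ∀ θ : Ch G, Xr ι S w θ → 2 ^ (m - 1) ∣ 2 ^ j * nn ι S T r θ)
    (hpar : Par m j ι S T w) : CRF.RubinOn {a | a ∈ mI 2 G ^ j} ι S T w fr := by
  have hp : (2 : ℕ).Prime := Nat.prime_two
  have hG : IsPGroup 2 G := fun g => ⟨1, by rw [pow_one]; exact hexp g⟩
  have hH : ∀ N : Subgroup G, IsCyclic (G ⧸ N) → Hol3 2 N.index F (Kf ι N) :=
    fun N hN => hol_two hexp N hN
  have hP : ∀ N : Subgroup G, IsCyclic (G ⧸ N) → N ≠ ⊤ → PermLay F (Kf ι N) := by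
    intro N hN hne
    obtain ⟨j, hj⟩ := ek_index hp hG N
    exact hol3_lay ι N hN hne hp hj (hH N hN)
  have hA : ∀ N : Subgroup G, IsCyclic (G ⧸ N) → ∀ q : ℕ, q.Prime → AutAt q F (Kf ι N) := by
    intro N hN q hq
    obtain ⟨j, hj⟩ := ek_index hp hG N
    exact aut_hol3 N hp hj (hH N hN) q
  obtain ⟨c, Θ, h1, h2, M, i1, i2, e, l, h3, u, h4⟩ := stark_perm hD hP
  refine CRF.rubinOn_of ⟨c, Θ, h1, h2, M, i1, i2, e, l, h3, u, h4.er, h4.value, ?_⟩
  intro a ha ψ
  apply ej_unit (toQ G)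
  intro q hq
  have key : CR.StarkMul q a ι S T w fr := by
    by_cases hqp : q = 2
    · rw [hqp]
      exact loc_two hD hexp hm hv hpar ha
    · have hnd : ¬ q ^ (0 + 1) ∣ Nat.card G := by
        rw [hm, zero_add, pow_one]
        intro h
        exact hqp ((Nat.prime_dvd_prime_iff_eq hq hp).1 (hq.dvd_of_dvd_pow h))
      have h5 := alphaE ι S T w fr hD (κ := 0) (t := 0) hq (fun N hN => hA N hN q hq)
        (Or.inl hnd) (b := a) (by rw [pow_zero, Ideal.one_eq_top]; trivial)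
      rwa [pow_zero, one_mul] at h5
  obtain ⟨n, d, hn, hd⟩ := key c Θ h1 h2 M i1 i2 e l h3 u
    ⟨fun a ha => h4.er a (fun χ hχ => ha χ (by
      by_contra hc
      exact hχ (cont_zero hD h1 hP χ hc))), h4.value⟩ ψ
  refine ⟨n, d, hn, ?_⟩
  rw [← hd, pow_zero, mul_one]

end NC

end Pool.Agent.RG

namespace Pool.Agent.RG

theorem rubin_par : type_of% @rubin_par_pr := @rubin_par_pr

end Pool.Agent.RG
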