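import Pool.Agent.Lib_helper35.RG.All
import Pool.Agent.Lib_helper35.RG.P_NA
import Pool.Agent.Lib_helper35.RG.P_NB
import Pool.Agent.Lib_helper35.RG.P_NC
import Pool.Agent.Lib_helper35.RG.P_ND
import Pool.Agent.Lib_helper35.RG.P_NE
import Pool.Agent.Lib_helper35.RG.P_NF
import Pool.Agent.Lib_helper35.RG.P_NG
import Pool.Agent.Lib_helper35.RG.P_NH
import Pool.Agent.Lib_helper35.RG.P_NI
import Pool.Agent.Lib_helper35.RG.P_NJ
import Pool.Agent.Lib_helper35.RG.P_NK
import Pool.Agent.Lib_helper35.RG.P_NL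
import Pool.Agent.Lib_helper35.RG.P_NM
import Pool.Agent.Lib_helper35.RG.P_NO

/-!
# The exact norm formula and the parity criterion for multiquadratic extensions: the library
-/
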