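import Pool.Agent.Lib_helper35.RG.Defs
import Pool.Agent.Lib_helper17.CRF.N_PC5

/-!
# Project RG, block ES: `∑ (2 - d_v)` implies `CondR`
-/

set_option autoImplicit false
set_option linter.unusedSectionVars false
set_option linter.unusedVariables false

namespace Pool.Agent.RG

open Pool.Agent.RSK Pool.Agent.RS2 Pool.Agent.RS3 Pool.Agent.SY Pool.Agent.AU Pool.Agent.CR
open NumberField IsDedekindDomain Filter Topology Complex
open scoped TensorProduct

section ESG

variable {G : Type} [CommGroup G]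

theorem es_sup (A B : Subgroup G) : Nat.card (A ⊔ B : Subgroup G) ∣ Nat.card A * Nat.card B := by
  have h1 : Nat.card (B : Subgroup G) * B.relIndex (A ⊔ B) = Nat.card (A ⊔ B : Subgroup G) := by
    have h := Subgroup.relIndex_mul_relIndex (⊥ : Subgroup G) B (A ⊔ B) bot_le le_sup_right
    rwa [Subgroup.relIndex_bot_left, Subgroup.relIndex_bot_left] at h
  rw [← h1, Subgroup.relIndex_sup_right, mul_comm]
  exact mul_dvd_mul_right (Subgroup.relIndex_dvd_card B A) _

theorem es_iSup {I : Type} (s : Finset I) (A : I → Subgroup G) :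
    Nat.card (s.sup A : Subgroup G) ∣ ∏ P ∈ s, Nat.card (A P) := by
  classical
  induction s using Finset.induction_on with
  | empty => simp
  | insert a s ha ih =>
    rw [Finset.sup_insert, Finset.prod_insert ha]
    exact (es_sup _ _).trans (mul_dvd_mul_left _ ih)

theorem es_inf {p : ℕ} (hp : p.Prime) {N D : Subgroup G} (hN : N.index = p) (hD : ¬ D ≤ N) :
    Nat.card (D ⊓ N : Subgroup G) * p = Nat.card D := by
  have h0 : (N ⊔ D).index ∣ p := hN ▸ Subgroup.index_dvd_of_le le_sup_left
  have h1 : N ⊔ D = ⊤ := by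
    rcases (Nat.dvd_prime hp).1 h0 with h | h
    · exact Subgroup.index_eq_one.1 h
    · exfalso
      have h2 := Subgroup.relIndex_mul_index (show N ≤ N ⊔ D from le_sup_left)
      rw [h, hN] at h2
      have h3 : N.relIndex (N ⊔ D) = 1 :=
        Nat.eq_of_mul_eq_mul_right hp.pos (by rw [h2, one_mul])
      rw [Subgroup.relIndex_eq_one] at h3
      exact hD (le_trans le_sup_right h3)
  have h2 : N.relIndex D = p := by
    rw [← Subgroup.relIndex_sup_left, h1, Subgroup.relIndex_top_right, hN]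
  have h3 := Subgroup.relIndex_mul_relIndex (⊥ : Subgroup G) (D ⊓ N) D bot_le inf_le_left
  rw [Subgroup.relIndex_bot_left, Subgroup.relIndex_bot_left, Subgroup.inf_relIndex_left, h2] at h3
  exact h3

end ESG

section D

variable {F H : Type} [Field F] [NumberField F] [Field H] [NumberField H] [Algebra F H]
  [IsGalois F H] {G : Type} [CommGroup G] [Fintype G] {ι : G ≃* (H ≃ₐ[F] H)}
  {S T : Finset (HeightOneSpectrum (𝓞 F))} {r : ℕ} {w : Fin r → Pl H}
  {fr : HeightOneSpectrum (𝓞 F) → G}

theorem es_below (hD : Data ι S T r w fr) (N : Subgroup G) (hX : NoX ι S w N) (P : PS S)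
    (hP : dgF ι P.pl ≤ N) : dgF ι P.pl = ⊥ := by
  obtain ⟨W, hW⟩ := dn_surj (H := H) P.pl
  obtain ⟨l, hl⟩ := hX W (by rw [hW]; exact pc5_inS P) (fun g hg => by
    refine hP ?_
    rw [← hW]
    exact (dgF_eq W g).2 hg)
  have h1 : dgF ι (dn F (w l)) = ⊥ := (pc5_bot (w l)).2 (fun g hg =>
    (map_eq_one_iff ι ι.injective).1 (hD.split l _ hg))
  rw [← hW, hl, h1]

theorem condR_of_pr (hD : Data ι S T r w fr) {p : ℕ} (hp : p.Prime) (hexp : ∀ g : G, g ^ p = 1)
    {k κ : ℕ} (hk : Nat.card G = p ^ k)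
    (h : ((k : ℤ) - 1) * (p - 2) + 2 ≤ eS p ι S + κ) : CondR p κ ι S w := by
  classical
  have hp2 : 2 ≤ p := hp.two_le
  have hcard := (data_pl hD).1
  have hnt : Nontrivial G := (data_pl hD).2.1
  have hk1 : 1 ≤ k := by
    rcases Nat.eq_zero_or_pos k with h0 | h0
    · exfalso
      rw [h0, pow_zero] at hk
      exact (Nat.card_eq_one_iff_unique.1 hk).1.elim (Classical.choose (exists_pair_ne G))
        (Classical.choose (Classical.choose_spec (exists_pair_ne G))) |> fun h1 =>
          (Classical.choose_spec (Classical.choose_spec (exists_pair_ne G))) h1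
    · exact h0
  -- the orders of the decomposition groups
  have hex : ∀ A : Subgroup G, ∃ d : ℕ, Nat.card A = p ^ d := by
    intro A
    have h1 : Nat.card A ∣ p ^ k := hk ▸ Subgroup.card_subgroup_dvd_card A
    obtain ⟨d, -, hd⟩ := (Nat.dvd_prime_pow hp).1 h1
    exact ⟨d, hd⟩
  choose d hd using fun P : PS S => hex (dgF ι P.pl)
  have hlog : ∀ P : PS S, Nat.log p (Nat.card (dgF ι P.pl)) = d P := by
    intro P
    rw [hd P, Nat.log_pow hp.one_lt]
  set A : Finset (PS S) := Finset.univ.filter (fun P => dgF ι P.pl ≠ ⊥) with hA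
  have hd1 : ∀ P ∈ A, 1 ≤ d P := by
    intro P hP
    rcases Nat.eq_zero_or_pos (d P) with h0 | h0
    · exfalso
      have h1 := hd P
      rw [h0, pow_zero] at h1
      exact (Finset.mem_filter.1 hP).2 (Subgroup.card_eq_one.1 h1)
    · exact h0
  have hAc : A.card + r = Fintype.card (InfinitePlace F) + S.card := by
    have h1 : Nat.card {v : PS S // dgS ι S v = ⊥} =
        (Finset.univ.filter (fun P : PS S => dgF ι P.pl = ⊥)).card := by
      rw [Nat.card_eq_fintype_card, Fintype.card_subtype]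
      rfl
    rw [hcard] at h1
    have h2 : Fintype.card (PS S) = Fintype.card (InfinitePlace F) + S.card := by
      rw [Fintype.card_sum, Fintype.card_coe]
    rw [h1, ← h2, hA, ← Finset.card_univ,
      ← Finset.card_filter_add_card_filter_not (s := (Finset.univ : Finset (PS S)))
        (fun P => dgF ι P.pl = ⊥), add_comm]
  have heS : eS p ι S = ∑ P ∈ A, (2 - (d P : ℤ)) := by
    unfold eS
    rw [hA, Finset.sum_filter]
    refine Finset.sum_congr rfl fun P _ => ?_
    rw [hlog P]
    by_cases hP : dgF ι P.pl = ⊥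
    · simp [hP]
    · simp [hP]
  have heS2 : ∑ P ∈ A, (2 - (d P : ℤ)) = A.card - ∑ P ∈ A, ((d P : ℤ) - 1) := by
    rw [eq_sub_iff_add_eq, ← Finset.sum_add_distrib]
    have h1 : ∀ P ∈ A, (2 - (d P : ℤ)) + ((d P : ℤ) - 1) = 1 := fun P _ => by ring
    rw [Finset.sum_congr rfl h1, Finset.sum_const, nsmul_eq_mul, mul_one]
  have hcast : ∑ P ∈ A, ((d P : ℤ) - 1) = ((∑ P ∈ A, (d P - 1) : ℕ) : ℤ) := by
    push_cast
    refine Finset.sum_congr rfl fun P hP => ?_
    rw [Nat.cast_sub (hd1 P hP)]
    rfl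
  rw [heS, heS2, hcast] at h
  have hkp : (0 : ℤ) ≤ ((k : ℤ) - 1) * (p - 2) := by
    refine mul_nonneg ?_ ?_
    · have : (1 : ℤ) ≤ k := by exact_mod_cast hk1
      linarith
    · have : (2 : ℤ) ≤ p := by exact_mod_cast hp2
      linarith
  refine ⟨?_, ?_⟩
  · by_cases hS : r + 2 ≤ Fintype.card (InfinitePlace F) + S.card
    · exact Or.inl hS
    · right
      have h1 : A.card = 1 := by
        have := hD.card
        omega
      obtain ⟨P₀, hP₀⟩ := Finset.card_eq_one.1 h1
      have hdk : d P₀ ≤ κ := by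
        have h2 : ∑ P ∈ A, (d P - 1) = d P₀ - 1 := by rw [hP₀, Finset.sum_singleton]
        rw [h1, h2] at h
        have h3 : 1 ≤ d P₀ := hd1 P₀ (by rw [hP₀]; exact Finset.mem_singleton_self _)
        push_cast [Nat.cast_sub h3] at h
        have h4 : (d P₀ : ℤ) ≤ κ := by linarith
        exact_mod_cast h4
      have hRN : RN ι S ⊤ = dgF ι P₀.pl := by
        unfold RN
        apply le_antisymm
        · refine iSup_le fun P => ?_
          rw [inf_top_eq]
          by_cases hP : dgF ι P.pl = ⊥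
          · rw [hP]; exact bot_le
          · have h2 : P ∈ A := by rw [hA, Finset.mem_filter]; exact ⟨Finset.mem_univ _, hP⟩
            rw [hP₀, Finset.mem_singleton] at h2
            rw [h2]
        · refine le_trans ?_ (le_iSup (fun P : PS S => dgF ι P.pl ⊓ ⊤) P₀)
          rw [inf_top_eq]
      have h5 : Nat.card G = p ^ (d P₀) * (RN ι S ⊤).index := by
        rw [← Subgroup.card_mul_index (RN ι S ⊤), hRN, hd P₀]
      rw [h5]
      exact mul_dvd_mul_right (pow_dvd_pow p hdk) _
  · intro N hN hX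
    have hNc : Nat.card N = p ^ (k - 1) := by
      have h1 := N.card_mul_index
      rw [hN, hk] at h1
      have h2 : p ^ k = p ^ (k - 1) * p := by
        rw [← pow_succ]; congr 1; omega
      rw [h2] at h1
      exact Nat.eq_of_mul_eq_mul_right hp.pos h1
    have hRle : RN ι S N ≤ N := iSup_le fun P => inf_le_right
    obtain ⟨e, he⟩ := hex (RN ι S N)
    -- the order of `RN`
    have hinf : ∀ P : PS S, Nat.card (dgF ι P.pl ⊓ N : Subgroup G) =
        if P ∈ A then p ^ (d P - 1) else 1 := by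
      intro P
      by_cases hP : P ∈ A
      · rw [if_pos hP]
        have h1 : ¬ dgF ι P.pl ≤ N := fun h' => (Finset.mem_filter.1 hP).2 (es_below hD N hX P h')
        have h2 := es_inf hp hN h1
        rw [hd P] at h2
        have h3 : p ^ d P = p ^ (d P - 1) * p := by
          have := hd1 P hP
          rw [← pow_succ]; congr 1; omega
        rw [h3] at h2
        exact Nat.eq_of_mul_eq_mul_right hp.pos h2
      · rw [if_neg hP]
        have h1 : dgF ι P.pl = ⊥ := by
          by_contra h'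
          exact hP (by rw [hA, Finset.mem_filter]; exact ⟨Finset.mem_univ _, h'⟩)
        rw [h1, bot_inf_eq]
        exact Subgroup.card_bot
    have hsup : RN ι S N = (Finset.univ : Finset (PS S)).sup (fun P => dgF ι P.pl ⊓ N) := by
      unfold RN
      rw [Finset.sup_univ_eq_iSup]
    have hdvd : p ^ e ∣ p ^ (∑ P ∈ A, (d P - 1)) := by
      rw [← he, hsup]
      refine (es_iSup _ _).trans ?_
      have h1 : ∏ P : PS S, Nat.card (dgF ι P.pl ⊓ N : Subgroup G) =
          p ^ (∑ P ∈ A, (d P - 1)) := by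
        rw [Finset.prod_congr rfl fun P _ => hinf P, Finset.prod_ite_mem, Finset.univ_inter,
          Finset.prod_pow_eq_pow_sum]
      rw [h1]
    have hele : e ≤ ∑ P ∈ A, (d P - 1) := (Nat.pow_dvd_pow_iff_le_right hp.one_lt).1 hdvd
    have hek : e ≤ k - 1 := by
      have h1 : p ^ e ∣ p ^ (k - 1) := by
        rw [← he, ← hNc]
        exact Subgroup.card_dvd_of_le hRle
      exact (Nat.pow_dvd_pow_iff_le_right hp.one_lt).1 h1
    refine ⟨k - 1, k - 1 - e, hNc, ?_, ?_⟩
    · have h1 := Subgroup.relIndex_mul_relIndex (⊥ : Subgroup G) (RN ι S N) N bot_le hRle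
      rw [Subgroup.relIndex_bot_left, Subgroup.relIndex_bot_left, he, hNc] at h1
      have h2 : p ^ (k - 1) = p ^ e * p ^ (k - 1 - e) := by
        rw [← pow_add]; congr 1; omega
      rw [h2] at h1
      exact Nat.eq_of_mul_eq_mul_left (pow_pos hp.pos e) h1
    · have h1 : (((k - 1 - e : ℕ) : ℤ)) = (k : ℤ) - 1 - e := by
        rw [Nat.cast_sub hek, Nat.cast_sub hk1]; rfl
      have h2 : (((k - 1) * (p - 1) : ℕ) : ℤ) = ((k : ℤ) - 1) * ((p : ℤ) - 1) := by
        rw [Nat.cast_mul, Nat.cast_sub hk1, Nat.cast_sub (by omega : 1 ≤ p)]; rfl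
      have h3 : (e : ℤ) ≤ ((∑ P ∈ A, (d P - 1) : ℕ) : ℤ) := by exact_mod_cast hele
      have h4 : ((A.card : ℤ)) + r = Fintype.card (InfinitePlace F) + S.card := by
        exact_mod_cast hAc
      have h5 : ((r : ℤ)) + ((k : ℤ) - 1) * ((p : ℤ) - 1) + 2 ≤
          Fintype.card (InfinitePlace F) + S.card + ((k : ℤ) - 1 - e) + κ := by
        have h6 : ((k : ℤ) - 1) * ((p : ℤ) - 1) = ((k : ℤ) - 1) * (p - 2) + ((k : ℤ) - 1) := by
          ring
        rw [h6]
        linarith
      have h7 : (((r + (k - 1) * (p - 1) + 2 : ℕ)) : ℤ) ≤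
          ((Fintype.card (InfinitePlace F) + S.card + (k - 1 - e) + κ : ℕ) : ℤ) := by
        rw [Nat.cast_add, Nat.cast_add, h2, Nat.cast_add, Nat.cast_add, h1, Nat.cast_add]
        exact_mod_cast h5
      exact_mod_cast h7

end D

end Pool.Agent.RG

namespace Pool.Agent.RG

theorem condR_of : type_of% @condR_of_pr := @condR_of_pr

end Pool.Agent.RG
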