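import Pool.Agent.Lib_helper35.RG.Defs

/-!
# Block CT: counting characters
-/

set_option autoImplicit false
set_option linter.unusedSectionVars false
set_option linter.unusedVariables false

namespace Pool.Agent.RG

open Pool.Agent.RSK Pool.Agent.RS2 Pool.Agent.RS3 Pool.Agent.SY Pool.Agent.AU Pool.Agent.CR
open NumberField IsDedekindDomain Filter Topology Complex
open scoped TensorProduct

section CTL

variable {p : ℕ} [Fact p.Prime] {W₁ W₂ : Type} [AddCommGroup W₁] [Module (ZMod p) W₁] [Finite W₁]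
  [AddCommGroup W₂] [Module (ZMod p) W₂] [Finite W₂]

theorem ct_card (p : ℕ) [Fact p.Prime] (W₁ : Type) [AddCommGroup W₁] [Module (ZMod p) W₁]
    [Finite W₁] : Nat.card W₁ = p ^ Module.finrank (ZMod p) W₁ := by
  have : Module.Finite (ZMod p) W₁ := Module.Finite.of_finite
  rw [Module.natCard_eq_pow_finrank (K := ZMod p), Nat.card_zmod]

theorem ct_dual (p : ℕ) [Fact p.Prime] (W₁ : Type) [AddCommGroup W₁] [Module (ZMod p) W₁]
    [Finite W₁] : Nat.card (Module.Dual (ZMod p) W₁) = p ^ Module.finrank (ZMod p) W₁ := by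
  have : Module.Finite (ZMod p) W₁ := Module.Finite.of_finite
  rw [Module.natCard_eq_pow_finrank (K := ZMod p), Nat.card_zmod, Subspace.dual_finrank_eq]

/-- a nonzero functional with a given kernel -/
noncomputable def ct_r (M : Submodule (ZMod p) W₁) : Module.Dual (ZMod p) W₁ :=
  open scoped Classical in
  if h : ∃ χ : Module.Dual (ZMod p) W₁, χ ≠ 0 ∧ LinearMap.ker χ = M then h.choose else 0

theorem ct_r_spec {χ : Module.Dual (ZMod p) W₁} (h : χ ≠ 0) :
    ct_r (LinearMap.ker χ) ≠ 0 ∧ LinearMap.ker (ct_r (LinearMap.ker χ)) = LinearMap.ker χ := by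
  have h1 : ∃ χ' : Module.Dual (ZMod p) W₁, χ' ≠ 0 ∧ LinearMap.ker χ' = LinearMap.ker χ :=
    ⟨χ, h, rfl⟩
  unfold ct_r
  rw [dif_pos h1]
  exact h1.choose_spec

theorem ct_prop {χ χ' : Module.Dual (ZMod p) W₁} (h : LinearMap.ker χ' = LinearMap.ker χ) :
    ∃ c : ZMod p, c • χ' = χ := by
  have h1 : ⨅ i : Unit, LinearMap.ker ((fun _ : Unit => χ') i) ≤ LinearMap.ker χ := by
    rw [iInf_const, h]
  have h2 := mem_span_of_iInf_ker_le_ker h1
  rw [Set.range_const, Submodule.mem_span_singleton] at h2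
  exact h2

theorem ct_main (Q : Module.Dual (ZMod p) W₁ → Module.Dual (ZMod p) W₂ → Prop)
    (hQ : ∀ χ f, Q χ f → ∀ c : ZMod p, Q χ (c • f))
    (hex : ∀ χ, χ ≠ 0 → ∃ f, f ≠ 0 ∧ Q χ f)
    (hdis : ∀ χ χ', χ ≠ 0 → χ' ≠ 0 → LinearMap.ker χ ≠ LinearMap.ker χ' →
      ∀ f, Q χ f → Q χ' f → f = 0) : Nat.card W₁ ∣ Nat.card W₂ := by
  classical
  have hF : ∀ χ : Module.Dual (ZMod p) W₁, ∃ f : Module.Dual (ZMod p) W₂,
      χ ≠ 0 → f ≠ 0 ∧ Q χ f := by
    intro χ
    by_cases h : χ = 0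
    · exact ⟨0, fun h' => absurd h h'⟩
    · obtain ⟨f, hf⟩ := hex χ h
      exact ⟨f, fun _ => hf⟩
  choose F hF using hF
  have hc : ∀ χ : Module.Dual (ZMod p) W₁, ∃ c : ZMod p,
      χ ≠ 0 → c ≠ 0 ∧ c • ct_r (LinearMap.ker χ) = χ := by
    intro χ
    by_cases h : χ = 0
    · exact ⟨0, fun h' => absurd h h'⟩
    · obtain ⟨c, hc⟩ := ct_prop (ct_r_spec h).2
      refine ⟨c, fun _ => ⟨?_, hc⟩⟩
      rintro rfl
      rw [zero_smul] at hc
      exact h hc.symm
  choose c hc using hc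
  let Φ : Module.Dual (ZMod p) W₁ → Module.Dual (ZMod p) W₂ := fun χ =>
    if χ = 0 then 0 else c χ • F (ct_r (LinearMap.ker χ))
  have hne : ∀ χ, χ ≠ 0 → Φ χ ≠ 0 := by
    intro χ h
    have h1 := (hF _ (ct_r_spec h).1).1
    show (if χ = 0 then 0 else c χ • F (ct_r (LinearMap.ker χ))) ≠ 0
    rw [if_neg h]
    exact smul_ne_zero (hc χ h).1 h1
  have hinj : Function.Injective Φ := by
    intro χ χ' hΦ
    by_cases h : χ = 0
    · by_cases h' : χ' = 0
      · rw [h, h']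
      · exfalso
        apply hne χ' h'
        rw [← hΦ, h]
        exact if_pos rfl
    · by_cases h' : χ' = 0
      · exfalso
        apply hne χ h
        rw [hΦ, h']
        exact if_pos rfl
      · have e1 : Φ χ = c χ • F (ct_r (LinearMap.ker χ)) := if_neg h
        have e2 : Φ χ' = c χ' • F (ct_r (LinearMap.ker χ')) := if_neg h'
        have hk : LinearMap.ker χ = LinearMap.ker χ' := by
          by_contra hk
          have hk2 : LinearMap.ker (ct_r (LinearMap.ker χ)) ≠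
              LinearMap.ker (ct_r (LinearMap.ker χ')) := by
            rw [(ct_r_spec h).2, (ct_r_spec h').2]
            exact hk
          refine hne χ h (hdis _ _ (ct_r_spec h).1 (ct_r_spec h').1 hk2 (Φ χ) ?_ ?_)
          · rw [e1]
            exact hQ _ _ (hF _ (ct_r_spec h).1).2 _
          · rw [hΦ, e2]
            exact hQ _ _ (hF _ (ct_r_spec h').1).2 _
        have h3 : c χ = c χ' := by
          have h4 : (c χ - c χ') • F (ct_r (LinearMap.ker χ)) = 0 := by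
            refine (sub_smul (c χ) (c χ') (F (ct_r (LinearMap.ker χ)))).trans ?_
            rw [← e1, hΦ, e2, hk]
            exact sub_self _
          rcases smul_eq_zero.1 h4 with h5 | h5
          · exact sub_eq_zero.1 h5
          · exact absurd h5 (hF _ (ct_r_spec h).1).1
        rw [← (hc χ h).2, ← (hc χ' h').2, h3, hk]
  have hfin : Finite (Module.Dual (ZMod p) W₂) := by
    have : Module.Finite (ZMod p) W₂ := Module.Finite.of_finite
    exact Module.finite_of_finite (ZMod p)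
  have hle := Nat.card_le_card_of_injective Φ hinj
  rw [ct_dual p W₁, ct_dual p W₂] at hle
  rw [ct_card p W₁, ct_card p W₂]
  exact pow_dvd_pow p ((Nat.pow_le_pow_iff_right (Fact.out : p.Prime).one_lt).1 hle)

theorem ct_abs0 (Q : (W₁ →+ ZMod p) → (W₂ →+ ZMod p) → Prop)
    (hQ : ∀ χ f, Q χ f → ∀ c : ℕ, Q χ (c • f))
    (hex : ∀ χ, χ ≠ 0 → ∃ f, f ≠ 0 ∧ Q χ f)
    (hdis : ∀ χ χ', χ ≠ 0 → χ' ≠ 0 → χ.ker ≠ χ'.ker → ∀ f, Q χ f → Q χ' f → f = 0) :
    Nat.card W₁ ∣ Nat.card W₂ := by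
  have hne : ∀ χ : Module.Dual (ZMod p) W₁, χ ≠ 0 → χ.toAddMonoidHom ≠ 0 := by
    intro χ hχ h0
    exact hχ (LinearMap.ext fun x => DFunLike.congr_fun h0 x)
  refine ct_main (p := p) (W₁ := W₁) (W₂ := W₂)
    (fun χ f => Q χ.toAddMonoidHom f.toAddMonoidHom) ?_ ?_ ?_
  · intro χ f hf c
    have h3 := hQ _ _ hf c.val
    have h4 : c.val • f.toAddMonoidHom = (c • f : Module.Dual (ZMod p) W₂).toAddMonoidHom := by
      refine AddMonoidHom.ext fun x => ?_
      show c.val • f x = c • f x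
      rw [nsmul_eq_mul, ZMod.natCast_zmod_val, smul_eq_mul]
    rw [h4] at h3
    exact h3
  · intro χ hχ
    obtain ⟨f, hf0, hf⟩ := hex _ (hne χ hχ)
    refine ⟨f.toZModLinearMap p, ?_, hf⟩
    intro h0
    exact hf0 (AddMonoidHom.ext fun x => LinearMap.congr_fun h0 x)
  · intro χ χ' hχ hχ' hk f hf hf'
    have h3 := hdis _ _ (hne χ hχ) (hne χ' hχ') (fun h4 => hk ?_) _ hf hf'
    · exact LinearMap.ext fun x => DFunLike.congr_fun h3 x
    · ext x
      have h5 : x ∈ (χ.toAddMonoidHom).ker ↔ x ∈ (χ'.toAddMonoidHom).ker := by rw [h4]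
      exact h5

end CTL

theorem ct_abs {p : ℕ} [Fact p.Prime] {W₁ W₂ : Type} [AddCommGroup W₁] [Finite W₁]
    [AddCommGroup W₂] [Finite W₂] (h1 : ∀ x : W₁, p • x = 0) (h2 : ∀ x : W₂, p • x = 0)
    (Q : (W₁ →+ ZMod p) → (W₂ →+ ZMod p) → Prop)
    (hQ : ∀ χ f, Q χ f → ∀ c : ℕ, Q χ (c • f))
    (hex : ∀ χ, χ ≠ 0 → ∃ f, f ≠ 0 ∧ Q χ f)
    (hdis : ∀ χ χ', χ ≠ 0 → χ' ≠ 0 → χ.ker ≠ χ'.ker → ∀ f, Q χ f → Q χ' f → f = 0) :
    Nat.card W₁ ∣ Nat.card W₂ :=
  @ct_abs0 p _ W₁ W₂ _ (AddCommGroup.zmodModule h1) _ _ (AddCommGroup.zmodModule h2) _ Q hQ hex hdis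

section CTN

variable {N : Type} [CommGroup N] {p : ℕ} (R : Subgroup N)

/-- a character of `N` attached to a character of `N ⧸ R` -/
def ct_h (χ : Additive (N ⧸ R) →+ ZMod p) : N →* Multiplicative (ZMod p) :=
  MonoidHom.mk' (fun x => Multiplicative.ofAdd (χ (Additive.ofMul (x : N ⧸ R)))) fun a b => by
    rw [QuotientGroup.mk_mul, ofMul_mul, map_add, ofAdd_add]

theorem ct_h_ker (χ : Additive (N ⧸ R) →+ ZMod p) (x : N) :
    x ∈ (ct_h R χ).ker ↔ χ (Additive.ofMul (x : N ⧸ R)) = 0 := by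
  rw [MonoidHom.mem_ker]
  exact ofAdd_eq_one

theorem ct_h_le (χ : Additive (N ⧸ R) →+ ZMod p) : R ≤ (ct_h R χ).ker := by
  intro x hx
  rw [ct_h_ker, (QuotientGroup.eq_one_iff x).2 hx, ofMul_one, map_zero]

theorem ct_h_index [Fact p.Prime] {χ : Additive (N ⧸ R) →+ ZMod p} (h : χ ≠ 0) :
    (ct_h R χ).ker.index = p := by
  rw [Subgroup.index_ker]
  have h1 : (ct_h R χ).range ≠ ⊥ := by
    intro h2
    apply h
    refine AddMonoidHom.ext fun x => ?_
    obtain ⟨y, hy⟩ := QuotientGroup.mk_surjective (Additive.toMul x)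
    have h3 : ct_h R χ y ∈ (ct_h R χ).range := ⟨y, rfl⟩
    rw [h2, Subgroup.mem_bot] at h3
    have h4 : χ (Additive.ofMul (y : N ⧸ R)) = 0 := ofAdd_eq_one.1 h3
    have h5 : Additive.ofMul (y : N ⧸ R) = x := by
      rw [hy]
      rfl
    rw [h5] at h4
    exact h4
  have hcard : Nat.card (Multiplicative (ZMod p)) = p := by
    rw [Nat.card_congr (Multiplicative.toAdd (α := ZMod p))]
    exact Nat.card_zmod p
  have h6 := Subgroup.card_subgroup_dvd_card (ct_h R χ).range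
  rw [hcard] at h6
  rcases (Nat.dvd_prime Fact.out).1 h6 with h7 | h7
  · exact absurd (Subgroup.card_eq_one.1 h7) h1
  · exact h7

end CTN

section C0

theorem ct_count {V N : Type} [AddCommGroup V] [CommGroup N] [Finite N] {p : ℕ} (hp : p.Prime)
    (hN : ∀ x : N, x ^ p = 1) (R : Subgroup N) {g : ℕ} (hg : R.index = p ^ g)
    (A B : AddSubgroup V) (hAB : A ≤ B) (hfin : A.relIndex B ≠ 0)
    (P : Subgroup N → (B →+ ZMod p) → Prop)
    (hP : ∀ M f, P M f → ∀ c : ℕ, P M (c • f))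
    (hA : ∀ M f, P M f → ∀ x : B, (x : V) ∈ A → f x = 0)
    (hex : ∀ M : Subgroup N, R ≤ M → M.index = p → ∃ f, f ≠ 0 ∧ P M f)
    (hdis : ∀ M M' : Subgroup N, M.index = p → M'.index = p → M ≠ M' → ∀ f, P M f → P M' f →
      f = 0) :
    p ^ g ∣ (A ⊔ B.map (nsmulAddMonoidHom p)).relIndex B := by
  have : Fact p.Prime := ⟨hp⟩
  set K : AddSubgroup B := (A ⊔ B.map (nsmulAddMonoidHom p)).addSubgroupOf B with hK
  have hKi : (A ⊔ B.map (nsmulAddMonoidHom p)).relIndex B = Nat.card (B ⧸ K) := rfl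
  have hdvd : (A ⊔ B.map (nsmulAddMonoidHom p)).relIndex B ∣ A.relIndex B :=
    AddSubgroup.relIndex_dvd_of_le_left B le_sup_left
  have hne : Nat.card (B ⧸ K) ≠ 0 := by
    rw [← hKi]
    intro h0
    rw [h0, zero_dvd_iff] at hdvd
    exact hfin hdvd
  have hfinK : Finite (B ⧸ K) := (Nat.card_ne_zero.1 hne).2
  have hm1 : ∀ x : Additive (N ⧸ R), p • x = 0 := by
    intro x
    obtain ⟨y, hy⟩ := QuotientGroup.mk_surjective (Additive.toMul x)
    have h1 : x = Additive.ofMul (y : N ⧸ R) := by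
      rw [hy]
      rfl
    rw [h1, ← ofMul_pow, ← QuotientGroup.mk_pow, hN y]
    rfl
  have hker : ∀ f : B →+ ZMod p, (∀ x : B, (x : V) ∈ A → f x = 0) → K ≤ f.ker := by
    intro f hf x hx
    have hx' : (x : V) ∈ A ⊔ B.map (nsmulAddMonoidHom p) := hx
    obtain ⟨a, ha, y, ⟨b, hb, rfl⟩, hab⟩ := AddSubgroup.mem_sup.1 hx'
    have hx2 : x = ⟨a, hAB ha⟩ + p • (⟨b, hb⟩ : B) := Subtype.ext hab.symm
    rw [AddMonoidHom.mem_ker, hx2, map_add, hf ⟨a, hAB ha⟩ ha, map_nsmul, zero_add,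
      nsmul_eq_mul, CharP.cast_eq_zero, zero_mul]
  have hm2 : ∀ x : B ⧸ K, p • x = 0 := by
    intro x
    obtain ⟨y, rfl⟩ := QuotientAddGroup.mk_surjective x
    rw [← QuotientAddGroup.mk_nsmul, QuotientAddGroup.eq_zero_iff]
    show ((p • y : B) : V) ∈ A ⊔ B.map (nsmulAddMonoidHom p)
    exact AddSubgroup.mem_sup_right ⟨(y : V), y.2, rfl⟩
  have hmain : Nat.card (Additive (N ⧸ R)) ∣ Nat.card (B ⧸ K) := by
    refine ct_abs (p := p) hm1 hm2
      (fun χ f => P (ct_h R χ).ker (f.comp (QuotientAddGroup.mk' K))) ?_ ?_ ?_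
    · intro χ f hf c
      have h1 := hP _ _ hf c
      have h2 : c • (f.comp (QuotientAddGroup.mk' K)) =
          ((c • f).comp (QuotientAddGroup.mk' K)) := AddMonoidHom.ext fun x => rfl
      rw [h2] at h1
      exact h1
    · intro χ hχ
      obtain ⟨f, hf0, hf⟩ := hex _ (ct_h_le R χ) (ct_h_index R hχ)
      have hk := hker f (hA _ f hf)
      have hcomp : (QuotientAddGroup.lift K f hk).comp (QuotientAddGroup.mk' K) = f :=
        AddMonoidHom.ext fun x => rfl
      refine ⟨QuotientAddGroup.lift K f hk, ?_, ?_⟩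
      · intro h0
        apply hf0
        rw [← hcomp, h0]
        rfl
      · show P _ ((QuotientAddGroup.lift K f hk).comp (QuotientAddGroup.mk' K))
        rw [hcomp]
        exact hf
    · intro χ χ' hχ hχ' hne2 f hf hf'
      have hM : (ct_h R χ).ker ≠ (ct_h R χ').ker := by
        intro h0
        apply hne2
        ext x
        obtain ⟨y, hy⟩ := QuotientGroup.mk_surjective (Additive.toMul x)
        have h1 : x = Additive.ofMul (y : N ⧸ R) := by
          rw [hy]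
          rfl
        have h2 : y ∈ (ct_h R χ).ker ↔ y ∈ (ct_h R χ').ker := by
          rw [h0]
        rw [ct_h_ker, ct_h_ker, ← h1] at h2
        exact h2
      have h3 := hdis _ _ (ct_h_index R hχ) (ct_h_index R hχ') hM _ hf hf'
      refine AddMonoidHom.ext fun x => ?_
      obtain ⟨y, rfl⟩ := QuotientAddGroup.mk_surjective x
      exact DFunLike.congr_fun h3 y
  rw [hKi, ← hg]
  exact hmain

/-- Block CT (counting; pure algebra): `A ≤ B`, and for every subgroup `M ≥ R` of index `p` in the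
group `N` of exponent `p` a nonzero `f_M : B → ZMod p`, trivial on `A`, such that `f_M` and `f_M'`
have no common nonzero multiple for `M ≠ M'`. There are `(p^g - 1)/(p - 1)` subgroups `M`, so
`#Hom(B/A, ZMod p) ≥ p^g`, and `B/(A + pB)` is a finite `ZMod p`-space with the same dual. -/
theorem count_dvd_pr {V N : Type} [AddCommGroup V] [CommGroup N] [Finite N] {p : ℕ} (hp : p.Prime)
    (hN : ∀ x : N, x ^ p = 1) (R : Subgroup N) {g : ℕ} (hg : R.index = p ^ g)
    (A B : AddSubgroup V) (hAB : A ≤ B) (hfin : A.relIndex B ≠ 0)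
    (P : Subgroup N → (B →+ ZMod p) → Prop)
    (hP : ∀ M f, P M f → ∀ c : ℕ, P M (c • f))
    (hA : ∀ M f, P M f → ∀ x : B, (x : V) ∈ A → f x = 0)
    (hex : ∀ M : Subgroup N, R ≤ M → M.index = p → ∃ f, f ≠ 0 ∧ P M f)
    (hdis : ∀ M M' : Subgroup N, M.index = p → M'.index = p → M ≠ M' → ∀ f, P M f → P M' f →
      f = 0) :
    p ^ g ∣ A.relIndex B ∧
      p ^ g ∣ (A ⊔ B.map (nsmulAddMonoidHom p)).relIndex B := by
  have h := ct_count hp hN R hg A B hAB hfin P hP hA hex hdis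
  exact ⟨h.trans (AddSubgroup.relIndex_dvd_of_le_left B le_sup_left), h⟩

end C0

end Pool.Agent.RG

namespace Pool.Agent.RG

theorem count_dvd : type_of% @count_dvd_pr := @count_dvd_pr

end Pool.Agent.RG
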