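import Pool.Agent.Lib_helper35.RG.Defs
import Pool.Agent.Lib_helper92.KSA.KPO
import Pool.Agent.Lib_helper41.HZF.Defs

/-!
# Genus theory for Rubin's conjecture (RG), block LA
-/

set_option autoImplicit false
set_option linter.unusedSectionVars false
set_option linter.unusedVariables false

namespace Pool.Agent.RG

open Pool.Agent.RSK Pool.Agent.RS2 Pool.Agent.RS3 Pool.Agent.SY Pool.Agent.AU Pool.Agent.CR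
open NumberField IsDedekindDomain Filter Topology Complex
open scoped TensorProduct

section B

variable {K : Type} [Field K] [NumberField K]

/-- a character which is trivial on the principal ideals depends on the class only -/
theorem la_cls (ψ : Ideal (𝓞 K) →* ℂ)
    (hpr : ∀ α : 𝓞 K, α ≠ 0 → ψ (Ideal.span {α}) = 1) {I J : Ideal (𝓞 K)} (hI : I ≠ ⊥) (hJ : J ≠ ⊥)
    (h : ClassGroup.mk0 ⟨I, mem_nonZeroDivisors_of_ne_zero hI⟩ =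
      ClassGroup.mk0 ⟨J, mem_nonZeroDivisors_of_ne_zero hJ⟩) : ψ I = ψ J := by
  rw [ClassGroup.mk0_eq_mk0_iff] at h
  obtain ⟨x, y, hx, hy, hxy⟩ := h
  have h1 := congrArg ψ hxy
  simp only at h1
  rw [map_mul, map_mul, hpr x hx, hpr y hy, one_mul, one_mul] at h1
  exact h1

/-- the sum of a nontrivial character over the classes -/
theorem la_sum (ψ : Ideal (𝓞 K) →* ℂ) (h1 : ∀ 𝔠, 𝔠 ≠ ⊥ → ‖ψ 𝔠‖ = 1)
    (hpr : ∀ α : 𝓞 K, α ≠ 0 → ψ (Ideal.span {α}) = 1) (hne : ∃ 𝔠, 𝔠 ≠ ⊥ ∧ ψ 𝔠 ≠ 1)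
    (rep : ClassGroup (𝓞 K) → Ideal (𝓞 K)) (h0 : ∀ c, rep c ≠ ⊥)
    (hrep : ∀ c, ClassGroup.mk0 ⟨rep c, mem_nonZeroDivisors_of_ne_zero (h0 c)⟩ = c) :
    ∑ c, (ψ (rep c))⁻¹ = 0 := by
  obtain ⟨𝔠, h𝔠, hψ⟩ := hne
  set c0 : ClassGroup (𝓞 K) := ClassGroup.mk0 ⟨𝔠, mem_nonZeroDivisors_of_ne_zero h𝔠⟩ with hc0
  have h2 : ∀ c, ψ (rep (c0 * c)) = ψ 𝔠 * ψ (rep c) := by
    intro c
    rw [← map_mul]
    refine la_cls ψ hpr (h0 _) (mul_ne_zero h𝔠 (h0 c)) ?_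
    rw [hrep]
    have h3 : (⟨𝔠 * rep c, mem_nonZeroDivisors_of_ne_zero (mul_ne_zero h𝔠 (h0 c))⟩ :
        nonZeroDivisors (Ideal (𝓞 K))) = ⟨𝔠, mem_nonZeroDivisors_of_ne_zero h𝔠⟩ *
        ⟨rep c, mem_nonZeroDivisors_of_ne_zero (h0 c)⟩ := rfl
    rw [h3, map_mul, hrep]
  have h3 : ∑ c, (ψ (rep c))⁻¹ = (ψ 𝔠)⁻¹ * ∑ c, (ψ (rep c))⁻¹ := by
    rw [Finset.mul_sum, ← Equiv.sum_comp (Equiv.mulLeft c0) (fun c => (ψ (rep c))⁻¹)]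
    refine Finset.sum_congr rfl fun c _ => ?_
    rw [Equiv.coe_mulLeft, h2, mul_inv]
  have h4 : (1 - (ψ 𝔠)⁻¹) * ∑ c, (ψ (rep c))⁻¹ = 0 := by
    rw [sub_mul, one_mul, ← h3, sub_self]
  rcases mul_eq_zero.1 h4 with h5 | h5
  · exfalso
    apply hψ
    have h6 : (ψ 𝔠)⁻¹ = 1 := (sub_eq_zero.1 h5).symm
    rw [inv_eq_one] at h6
    exact h6
  · exact h5

open scoped Classical in
theorem la_scl (ψ : Ideal (𝓞 K) →* ℂ) (h0 : ψ ⊥ = 0)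
    (hpr : ∀ α : 𝓞 K, α ≠ 0 → ψ (Ideal.span {α}) = 1) {𝔟 : Ideal (𝓞 K)} (h𝔟 : 𝔟 ≠ ⊥)
    (F : (InfinitePlace K → ℝ) → ℂ) (u : ℝ) :
    HZ.Scl 𝔟 (fun 𝔠 => ψ 𝔠) F u =
      (ψ 𝔟)⁻¹ * HZ.Scl 𝔟 (fun 𝔠 => if 𝔠 = ⊥ then 0 else 1) F u := by
  unfold HZ.Scl
  rw [← tsum_mul_left]
  refine tsum_congr fun 𝔠 => ?_
  dsimp only
  by_cases hp : (𝔟 * 𝔠).IsPrincipal
  · rw [if_pos hp, if_pos hp]
    by_cases h𝔠 : 𝔠 = ⊥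
    · rw [if_pos h𝔠, h𝔠, h0]
      ring
    · rw [if_neg h𝔠]
      obtain ⟨α, hα⟩ := hp.principal
      have hα' : 𝔟 * 𝔠 = Ideal.span {α} := hα
      have hα0 : α ≠ 0 := by
        rintro rfl
        rw [Ideal.span_singleton_eq_bot.2 rfl] at hα'
        exact mul_ne_zero h𝔟 h𝔠 hα'
      have h2 : ψ 𝔟 * ψ 𝔠 = 1 := by
        rw [← map_mul, hα', hpr α hα0]
      rw [eq_inv_of_mul_eq_one_right h2]
      ring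
  · rw [if_neg hp, if_neg hp, mul_zero]

open scoped Classical in
theorem lb_theta_pr (ψ : Ideal (𝓞 K) →* ℂ) (h0 : ψ ⊥ = 0) (h1 : ∀ 𝔠, 𝔠 ≠ ⊥ → ‖ψ 𝔠‖ = 1)
    (hpr : ∀ α : 𝓞 K, α ≠ 0 → ψ (Ideal.span {α}) = 1) (hne : ∃ 𝔠, 𝔠 ≠ ⊥ ∧ ψ 𝔠 ≠ 1) :
    ∃ C : ℝ, ∀ u : ℝ, ‖∑' 𝔠 : Ideal (𝓞 K),
      ψ 𝔠 * (HZ.kg K Real.pi (u + Real.log (Ideal.absNorm 𝔠)) : ℂ)‖ ≤ C := by
  obtain ⟨C₀, hC₀, hP⟩ := HZ.nf_poisson (K := K)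
  choose rep hrep' using (ClassGroup.mk0_surjective (R := 𝓞 K))
  have hr0 : ∀ c, ((rep c : nonZeroDivisors (Ideal (𝓞 K))) : Ideal (𝓞 K)) ≠ ⊥ := fun c =>
    nonZeroDivisors.coe_ne_zero _
  have hcl : ∀ c : ClassGroup (𝓞 K), ∃ C : ℝ, ∀ u : ℝ,
      ‖HZ.Scl ((rep c : nonZeroDivisors (Ideal (𝓞 K))) : Ideal (𝓞 K))
        (fun 𝔠 => if 𝔠 = ⊥ then 0 else 1) KS.kpoF u -
      ((C₀ / NumberField.Units.torsionOrder K * Real.exp (-u) : ℝ) : ℂ)‖ ≤ C := fun c => KS.kpo_class hC₀ hP (hr0 c)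
  choose Cc hCc using hcl
  refine ⟨∑ c, Cc c, fun u => ?_⟩
  have hb : ∀ 𝔠 : Ideal (𝓞 K), ‖(fun 𝔠 : Ideal (𝓞 K) => ψ 𝔠) 𝔠‖ ≤ 1 := by
    intro 𝔠
    by_cases h : 𝔠 = ⊥
    · simp only [h, h0, norm_zero, zero_le_one]
    · exact (h1 𝔠 h).le
  have h2 := HZ.Dser_classes (fun c => ((rep c : nonZeroDivisors (Ideal (𝓞 K))) : Ideal (𝓞 K))) hr0
    (fun c => hrep' c) (KS.kpo_good (K := K)) hb h0 u
  unfold HZ.Dser at h2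
  have hE : (Real.exp (u / 2) : ℂ) ≠ 0 := by exact_mod_cast (Real.exp_pos _).ne'
  have h3 := mul_left_cancel₀ hE h2
  have h4 : ∑' 𝔠 : Ideal (𝓞 K),
      ψ 𝔠 * (HZ.kg K Real.pi (u + Real.log (Ideal.absNorm 𝔠)) : ℂ) =
      ∑ c, HZ.Scl ((rep c : nonZeroDivisors (Ideal (𝓞 K))) : Ideal (𝓞 K))
        (fun 𝔠 => ψ 𝔠) KS.kpoF u := by
    rw [← h3]
    refine tsum_congr fun 𝔠 => ?_
    rw [KS.kpo_kint]
  have h5 := la_sum ψ h1 hpr hne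
    (fun c => ((rep c : nonZeroDivisors (Ideal (𝓞 K))) : Ideal (𝓞 K))) hr0 (fun c => hrep' c)
  have h6 : ∑' 𝔠 : Ideal (𝓞 K),
      ψ 𝔠 * (HZ.kg K Real.pi (u + Real.log (Ideal.absNorm 𝔠)) : ℂ) =
      ∑ c, (ψ ((rep c : nonZeroDivisors (Ideal (𝓞 K))) : Ideal (𝓞 K)))⁻¹ *
        (HZ.Scl ((rep c : nonZeroDivisors (Ideal (𝓞 K))) : Ideal (𝓞 K))
        (fun 𝔠 => if 𝔠 = ⊥ then 0 else 1) KS.kpoF u -
        ((C₀ / NumberField.Units.torsionOrder K * Real.exp (-u) : ℝ) : ℂ)) := by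
    rw [h4]
    simp only [mul_sub, Finset.sum_sub_distrib]
    rw [← Finset.sum_mul, h5, zero_mul, sub_zero]
    exact Finset.sum_congr rfl fun c _ => la_scl ψ h0 hpr (hr0 c) _ u
  rw [h6]
  refine (norm_sum_le _ _).trans (Finset.sum_le_sum fun c _ => ?_)
  rw [norm_mul, norm_inv, h1 _ (hr0 c), inv_one, one_mul]
  exact hCc c u

end B

end Pool.Agent.RG

namespace Pool.Agent.RG

theorem lb_theta : type_of% @lb_theta_pr := @lb_theta_pr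

end Pool.Agent.RG
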