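import Pool.Agent.Lib_helper35.RG.Defs
import Pool.Agent.Lib_helper35.RG.P_LA
import Pool.Agent.Lib_helper41.HZF.LAM2
import Pool.Agent.Lib_helper41.HZF.Defs

/-!
# RG block LB: the L-series of a class group character is bounded for `s → 1+` (MP_dd9835_nt)
-/

set_option autoImplicit false
set_option linter.unusedSectionVars false
set_option linter.unusedVariables false

namespace Pool.Agent.RG

open Pool.Agent.RSK Pool.Agent.RS2 Pool.Agent.RS3 Pool.Agent.SY Pool.Agent.AU Pool.Agent.CR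
open NumberField IsDedekindDomain Filter Topology Complex
open scoped TensorProduct

section lb

open MeasureTheory

variable {K : Type} [Field K] [NumberField K]

theorem lb_kg_pos (u : ℝ) : 0 < HZ.kg K Real.pi u := by
  unfold HZ.kg
  rw [integral_pos_iff_support_of_nonneg (fun x => (Real.exp_pos _).le)
    (HZ.kg_integrable Real.pi_pos u)]
  have h : Function.support (fun x : Fin (Units.rank K) → ℝ =>
      Real.exp (-Real.pi * HZ.qn (HZ.Yv K u x))) = Set.univ := by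
    ext x
    simp only [Function.mem_support, Set.mem_univ, iff_true]
    exact (Real.exp_pos _).ne'
  rw [h]
  exact Measure.measure_univ_pos.mpr (NeZero.ne _)

/-- integrability of the Mellin integrand -/
theorem lb_int (K : Type) [Field K] [NumberField K] {s : ℝ} (h1 : 1 < s) (h2 : s ≤ 2) :
    Integrable (fun u : ℝ => Real.exp (s * u) * HZ.kg K Real.pi u) := by
  obtain ⟨C₁, hC₁, hk₁⟩ := HZ.kg_le (K := K) Real.pi_pos (A := 1 / 2) (by norm_num)
  obtain ⟨C₂, hC₂, hk₂⟩ := HZ.kg_le (K := K) Real.pi_pos (A := 3) (by norm_num)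
  have hdom : Integrable (fun u : ℝ => (C₁ + C₂) * Real.exp (-|(1 / 2 : ℝ) * u|)) :=
    (HZ.lam2_int_exp.comp_mul_left' (R := (1 / 2 : ℝ)) (by norm_num)).const_mul _
  refine hdom.mono' ?_ (ae_of_all _ fun u => ?_)
  · exact ((by fun_prop : Continuous fun u : ℝ => Real.exp (s * u)).mul
      (HZ.kg_continuous Real.pi_pos)).aestronglyMeasurable
  · rw [Real.norm_of_nonneg (mul_nonneg (Real.exp_pos _).le (lb_kg_pos u).le)]
    rcases le_total u 0 with hu | hu
    · calc Real.exp (s * u) * HZ.kg K Real.pi u ≤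
          Real.exp (s * u) * (C₁ * Real.exp (-(1 / 2 * u))) :=
            mul_le_mul_of_nonneg_left (hk₁ u) (Real.exp_pos _).le
        _ = C₁ * Real.exp (s * u + -(1 / 2 * u)) := by rw [Real.exp_add]; ring
        _ ≤ (C₁ + C₂) * Real.exp (-|(1 / 2 : ℝ) * u|) := by
            refine mul_le_mul (by linarith) (Real.exp_le_exp.2 ?_) (Real.exp_pos _).le
              (by linarith)
            rw [abs_of_nonpos (by linarith : (1 / 2 : ℝ) * u ≤ 0)]
            nlinarith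
    · calc Real.exp (s * u) * HZ.kg K Real.pi u ≤
          Real.exp (s * u) * (C₂ * Real.exp (-(3 * u))) :=
            mul_le_mul_of_nonneg_left (hk₂ u) (Real.exp_pos _).le
        _ = C₂ * Real.exp (s * u + -(3 * u)) := by rw [Real.exp_add]; ring
        _ ≤ (C₁ + C₂) * Real.exp (-|(1 / 2 : ℝ) * u|) := by
            refine mul_le_mul (by linarith) (Real.exp_le_exp.2 ?_) (Real.exp_pos _).le
              (by linarith)
            rw [abs_of_nonneg (by linarith : 0 ≤ (1 / 2 : ℝ) * u)]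
            nlinarith

/-- the Mellin integral is bounded below -/
theorem lb_gam (K : Type) [Field K] [NumberField K] : ∃ c : ℝ, 0 < c ∧ ∀ s : ℝ, 1 < s → s ≤ 2 →
    c ≤ ∫ u : ℝ, Real.exp (s * u) * HZ.kg K Real.pi u := by
  have hcont : Continuous (HZ.kg K Real.pi) := HZ.kg_continuous Real.pi_pos
  refine ⟨∫ u in (0 : ℝ)..1, HZ.kg K Real.pi u, ?_, fun s h1 h2 => ?_⟩
  · exact intervalIntegral.intervalIntegral_pos_of_pos (hcont.intervalIntegrable _ _)
      (fun u => lb_kg_pos u) one_pos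
  · rw [intervalIntegral.integral_of_le zero_le_one]
    have hI := lb_int K h1 h2
    calc ∫ u in Set.Ioc (0 : ℝ) 1, HZ.kg K Real.pi u ≤
        ∫ u in Set.Ioc (0 : ℝ) 1, Real.exp (s * u) * HZ.kg K Real.pi u := by
          refine setIntegral_mono_on ?_ hI.integrableOn measurableSet_Ioc fun u hu => ?_
          · exact (hcont.intervalIntegrable 0 1).1
          · have h3 : 1 ≤ Real.exp (s * u) := Real.one_le_exp (by nlinarith [hu.1])
            nlinarith [(lb_kg_pos (K := K) u).le]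
      _ ≤ _ := setIntegral_le_integral hI (ae_of_all _ fun u =>
          mul_nonneg (Real.exp_pos _).le (lb_kg_pos u).le)

/-- the shift -/
theorem lb_shift {s : ℝ} (h1 : 1 < s) (h2 : s ≤ 2) {N : ℝ} (hN : 0 < N) :
    Integrable (fun u : ℝ => Real.exp (s * u) * HZ.kg K Real.pi (u + Real.log N)) ∧
      ∫ u : ℝ, Real.exp (s * u) * HZ.kg K Real.pi (u + Real.log N) =
        N ^ (-s) * ∫ u : ℝ, Real.exp (s * u) * HZ.kg K Real.pi u := by
  have heq : (fun u : ℝ => Real.exp (s * u) * HZ.kg K Real.pi (u + Real.log N)) =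
      fun u : ℝ => N ^ (-s) * (fun v : ℝ => Real.exp (s * v) * HZ.kg K Real.pi v)
        (u + Real.log N) := by
    funext u
    have h3 : Real.exp (s * u) = N ^ (-s) * Real.exp (s * (u + Real.log N)) := by
      rw [Real.rpow_def_of_pos hN, ← Real.exp_add]
      congr 1
      ring
    rw [h3]
    ring
  rw [heq]
  refine ⟨((lb_int K h1 h2).comp_add_right (Real.log N)).const_mul _, ?_⟩
  rw [integral_const_mul,
    integral_add_right_eq_self (fun v : ℝ => Real.exp (s * v) * HZ.kg K Real.pi v)]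

/-- Block LB: the L-series of a nontrivial character of the class group is bounded for `s → 1+`. -/
theorem lb_ideal_pr (ψ : Ideal (𝓞 K) →* ℂ) (h0 : ψ ⊥ = 0) (h1 : ∀ 𝔠, 𝔠 ≠ ⊥ → ‖ψ 𝔠‖ = 1)
    (hpr : ∀ α : 𝓞 K, α ≠ 0 → ψ (Ideal.span {α}) = 1) (hne : ∃ 𝔠, 𝔠 ≠ ⊥ ∧ ψ 𝔠 ≠ 1) :
    ∃ C : ℝ, ∀ s : ℝ, 1 < s → s ≤ 2 →
      ‖∑' 𝔠 : Ideal (𝓞 K), ψ 𝔠 * ((Ideal.absNorm 𝔠 : ℝ) ^ (-s) : ℝ)‖ ≤ C := by
  have : Countable (Ideal (𝓞 K)) := HZ.lam2_countable
  obtain ⟨C₁, hC₁⟩ := lb_theta ψ h0 h1 hpr hne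
  obtain ⟨C₂, hC₂0, hC₂⟩ := HZ.sum_kg_le (K := K) Real.pi_pos (A := 3) (by norm_num)
  obtain ⟨c, hc, hgam⟩ := lb_gam K
  have hC₁0 : 0 ≤ C₁ := (norm_nonneg _).trans (hC₁ 0)
  have hle : ∀ 𝔠 : Ideal (𝓞 K), ‖ψ 𝔠‖ ≤ 1 := by
    intro 𝔠
    by_cases h : 𝔠 = ⊥
    · rw [h, h0]; simp
    · exact (h1 𝔠 h).le
  refine ⟨(C₁ + C₂) * (∫ u : ℝ, Real.exp (-|u|)) / c, fun s hs1 hs2 => ?_⟩
  set g : ℝ → ℝ := HZ.kg K Real.pi with hg
  set J : ℝ := ∫ u : ℝ, Real.exp (s * u) * g u with hJ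
  have hJc : c ≤ J := hgam s hs1 hs2
  set F : Ideal (𝓞 K) → ℝ → ℂ := fun 𝔠 u =>
    ψ 𝔠 * ((Real.exp (s * u) * g (u + Real.log (Ideal.absNorm 𝔠)) : ℝ) : ℂ) with hF
  have hNpos : ∀ 𝔠 : Ideal (𝓞 K), 𝔠 ≠ ⊥ → 0 < (Ideal.absNorm 𝔠 : ℝ) := by
    intro 𝔠 h
    rw [Nat.cast_pos, Nat.pos_iff_ne_zero, Ne, Ideal.absNorm_eq_zero_iff]
    exact h
  have hFint : ∀ 𝔠, Integrable (F 𝔠) := by
    intro 𝔠
    by_cases h : 𝔠 = ⊥
    · have : F 𝔠 = fun _ => 0 := by
        funext u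
        simp only [hF, h, h0, zero_mul]
      rw [this]
      exact integrable_zero _ _ _
    · exact ((lb_shift hs1 hs2 (hNpos 𝔠 h)).1.ofReal).const_mul _
  have hFval : ∀ 𝔠, ∫ u, F 𝔠 u = ψ 𝔠 * ((Ideal.absNorm 𝔠 : ℝ) ^ (-s) : ℝ) * (J : ℂ) := by
    intro 𝔠
    by_cases h : 𝔠 = ⊥
    · have : F 𝔠 = fun _ => 0 := by
        funext u
        simp only [hF, h, h0, zero_mul]
      rw [this, h, h0]
      simp
    · simp only [hF]
      rw [integral_const_mul, integral_complex_ofReal, (lb_shift hs1 hs2 (hNpos 𝔠 h)).2]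
      push_cast
      ring
  have hFnorm : ∀ 𝔠, ∫ u, ‖F 𝔠 u‖ = ‖ψ 𝔠‖ * ((Ideal.absNorm 𝔠 : ℝ) ^ (-s)) * J := by
    intro 𝔠
    by_cases h : 𝔠 = ⊥
    · have : F 𝔠 = fun _ => 0 := by
        funext u
        simp only [hF, h, h0, zero_mul]
      rw [this, h, h0]
      simp
    · have : ∀ u, ‖F 𝔠 u‖ = ‖ψ 𝔠‖ * (Real.exp (s * u) * g (u + Real.log (Ideal.absNorm 𝔠))) := by
        intro u
        simp only [hF]
        rw [norm_mul, Complex.norm_real,
          Real.norm_of_nonneg (mul_nonneg (Real.exp_pos _).le (lb_kg_pos _).le)]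
      simp_rw [this]
      rw [integral_const_mul, (lb_shift hs1 hs2 (hNpos 𝔠 h)).2]
      ring
  have hsum : Summable fun 𝔠 => ∫ u, ‖F 𝔠 u‖ := by
    simp_rw [hFnorm]
    have hJ0 : 0 ≤ J := hc.le.trans hJc
    refine Summable.of_nonneg_of_le (fun 𝔠 => ?_) (fun 𝔠 => ?_)
      ((HZ.ideal_summable (K := K) hs1).mul_right J)
    · exact mul_nonneg (mul_nonneg (norm_nonneg _) (Real.rpow_nonneg (Nat.cast_nonneg _) _)) hJ0
    · refine mul_le_mul_of_nonneg_right ?_ hJ0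
      calc ‖ψ 𝔠‖ * ((Ideal.absNorm 𝔠 : ℝ) ^ (-s)) ≤ 1 * ((Ideal.absNorm 𝔠 : ℝ) ^ (-s)) :=
            mul_le_mul_of_nonneg_right (hle 𝔠) (Real.rpow_nonneg (Nat.cast_nonneg _) _)
        _ = _ := one_mul _
  have hmain := (hasSum_integral_of_summable_integral_norm hFint hsum).tsum_eq
  simp_rw [hFval] at hmain
  rw [tsum_mul_right] at hmain
  -- the bound for the integral
  have hbound : ‖∫ u, ∑' 𝔠, F 𝔠 u‖ ≤ ∫ u : ℝ, (C₁ + C₂) * Real.exp (-|u|) := by
    refine norm_integral_le_of_norm_le (HZ.lam2_int_exp.const_mul _) (ae_of_all _ fun u => ?_)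
    have hsumF : ∑' 𝔠, F 𝔠 u = (Real.exp (s * u) : ℂ) *
        ∑' 𝔠 : Ideal (𝓞 K), ψ 𝔠 * (g (u + Real.log (Ideal.absNorm 𝔠)) : ℂ) := by
      rw [← tsum_mul_left]
      refine tsum_congr fun 𝔠 => ?_
      simp only [hF]
      push_cast
      ring
    rw [hsumF, norm_mul, Complex.norm_real,
      Real.norm_of_nonneg (Real.exp_pos _).le]
    rcases le_total u 0 with hu | hu
    · refine (mul_le_mul_of_nonneg_left (hC₁ u) (Real.exp_pos _).le).trans ?_
      rw [abs_of_nonpos hu, neg_neg, mul_comm]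
      refine mul_le_mul (by linarith) (Real.exp_le_exp.2 (by nlinarith)) (Real.exp_pos _).le
        (by linarith)
    · have hb := hC₂ (fun 𝔠 => ‖ψ 𝔠‖) 1 (fun 𝔠 => norm_nonneg _) hle (by simp [h0]) u
      have h3 : ‖∑' 𝔠 : Ideal (𝓞 K), ψ 𝔠 * (g (u + Real.log (Ideal.absNorm 𝔠)) : ℂ)‖ ≤
          C₂ * Real.exp (-(3 * u)) := by
        have hn : ∀ 𝔠 : Ideal (𝓞 K), ‖ψ 𝔠 * (g (u + Real.log (Ideal.absNorm 𝔠)) : ℂ)‖ =
            ‖ψ 𝔠‖ * g (u + Real.log (Ideal.absNorm 𝔠)) := by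
          intro 𝔠
          rw [norm_mul, Complex.norm_real, Real.norm_of_nonneg (lb_kg_pos _).le]
        refine (norm_tsum_le_tsum_norm ?_).trans ?_
        · simp_rw [hn]; exact hb.1
        · simp_rw [hn]
          refine hb.2.trans (le_of_eq (one_mul _))
      refine (mul_le_mul_of_nonneg_left h3 (Real.exp_pos _).le).trans ?_
      rw [abs_of_nonneg hu]
      calc Real.exp (s * u) * (C₂ * Real.exp (-(3 * u))) = C₂ * Real.exp (s * u + -(3 * u)) := by
            rw [Real.exp_add]; ring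
        _ ≤ (C₁ + C₂) * Real.exp (-u) := by
            refine mul_le_mul (by linarith) (Real.exp_le_exp.2 (by nlinarith)) (Real.exp_pos _).le
              (by linarith)
  rw [← hmain, integral_const_mul, norm_mul, Complex.norm_real,
    Real.norm_of_nonneg (hc.le.trans hJc)] at hbound
  rw [le_div_iff₀ hc]
  refine (mul_le_mul_of_nonneg_left hJc (norm_nonneg _)).trans hbound

end lb

end Pool.Agent.RG

namespace Pool.Agent.RG

theorem lb_ideal : type_of% @lb_ideal_pr := @lb_ideal_pr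

end Pool.Agent.RG
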