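import Pool.Agent.Lib_helper35.RG.Defs
import Pool.Agent.Lib_helper35.RG.P_LB
import Pool.Agent.Lib_helper17.RS.P_EB
import Pool.Agent.Lib_helper41.HZF.Defs

/-!
# Block LP: the sum over the primes, from the Euler product
-/

set_option autoImplicit false
set_option linter.unusedSectionVars false
set_option linter.unusedVariables false

namespace Pool.Agent.RG

open Pool.Agent.RSK Pool.Agent.RS2 Pool.Agent.RS3 Pool.Agent.SY Pool.Agent.AU Pool.Agent.CR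
open NumberField IsDedekindDomain Filter Topology Complex
open scoped TensorProduct

section LP

variable {K : Type} [Field K] [NumberField K]

open scoped Classical in
/-- the divisor of an ideal -/
noncomputable def lpD (𝔠 : Ideal (𝓞 K)) (h : 𝔠 ≠ ⊥) : Dvs K :=
  Finsupp.ofSupportFinite
    (fun v => ((Associates.mk v.asIdeal).count (Associates.mk 𝔠).factors : ℤ))
    (Filter.eventually_cofinite.mp (Associates.finite_factors h))

open scoped Classical in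
theorem lpD_apply (𝔠 : Ideal (𝓞 K)) (h : 𝔠 ≠ ⊥) (v : HeightOneSpectrum (𝓞 K)) :
    lpD 𝔠 h v = ((Associates.mk v.asIdeal).count (Associates.mk 𝔠).factors : ℤ) := rfl

theorem lpD_mul (𝔞 𝔟 : Ideal (𝓞 K)) (ha : 𝔞 ≠ ⊥) (hb : 𝔟 ≠ ⊥) (hab : 𝔞 * 𝔟 ≠ ⊥) :
    lpD (𝔞 * 𝔟) hab = lpD 𝔞 ha + lpD 𝔟 hb := by
  classical
  ext v
  rw [Finsupp.add_apply, lpD_apply, lpD_apply, lpD_apply, ← Associates.mk_mul_mk,
    Associates.count_mul (Associates.mk_ne_zero.2 ha) (Associates.mk_ne_zero.2 hb)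
      v.associates_irreducible]
  push_cast
  rfl

theorem lpD_one (h : (1 : Ideal (𝓞 K)) ≠ ⊥) : lpD 1 h = 0 := by
  have h1 := lpD_mul (1 : Ideal (𝓞 K)) 1 h h (by rw [mul_one]; exact h)
  have h2 : lpD ((1 : Ideal (𝓞 K)) * 1) (by rw [mul_one]; exact h) = lpD 1 h := by
    congr 1
    exact mul_one _
  rw [h2] at h1
  exact (left_eq_add.1 h1)

theorem lpD_prime (v : HeightOneSpectrum (𝓞 K)) : lpD v.asIdeal v.ne_bot = Finsupp.single v 1 := by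
  classical
  ext w
  rw [lpD_apply, Finsupp.single_apply]
  by_cases h : v = w
  · subst h
    rw [if_pos rfl]
    have := Associates.count_self v.associates_irreducible
    exact_mod_cast this
  · rw [if_neg h]
    have h1 : Associates.mk w.asIdeal ≠ Associates.mk v.asIdeal := by
      intro h2
      apply h
      have h3 := Associates.mk_eq_mk_iff_associated.1 h2
      exact HeightOneSpectrum.ext (associated_iff_eq.1 h3).symm
    have := Associates.count_eq_zero_of_ne w.associates_irreducible v.associates_irreducible h1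
    exact_mod_cast this

theorem lpD_span (α : 𝓞 K) (hα : α ≠ 0) (h : Ideal.span {α} ≠ (⊥ : Ideal (𝓞 K)))
    (hK : (α : K) ≠ 0) :
    lpD (Ideal.span {α}) h = dv K (Additive.ofMul (Units.mk0 (α : K) hK)) := by
  classical
  ext v
  rw [dv_apply, lpD_apply]
  show _ = ordv v (α : K)
  unfold ordv
  have h1 : v.valuation K (α : K) = v.intValuation α := v.valuation_of_algebraMap α
  rw [h1, HeightOneSpectrum.intValuation_if_neg v hα, WithZero.log_exp, neg_neg]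

variable {p : ℕ} [NeZero p] (f : Dvs K →+ ZMod p)

open scoped Classical in
/-- the character of the ideals -/
noncomputable def lpPsi : Ideal (𝓞 K) →* ℂ where
  toFun 𝔠 := if h : 𝔠 = ⊥ then 0 else ZMod.stdAddChar (f (lpD 𝔠 h))
  map_one' := by
    have h1 : (1 : Ideal (𝓞 K)) ≠ ⊥ := one_ne_zero
    rw [dif_neg h1, lpD_one, map_zero, AddChar.map_zero_eq_one]
  map_mul' 𝔞 𝔟 := by
    by_cases ha : 𝔞 = ⊥
    · subst ha
      rw [dif_pos (Ideal.bot_mul 𝔟), dif_pos rfl, zero_mul]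
    by_cases hb : 𝔟 = ⊥
    · subst hb
      rw [dif_pos (Ideal.mul_bot 𝔞), dif_pos rfl, mul_zero]
    have hab : 𝔞 * 𝔟 ≠ ⊥ := mul_ne_zero ha hb
    rw [dif_neg ha, dif_neg hb, dif_neg hab, lpD_mul 𝔞 𝔟 ha hb hab, map_add,
      AddChar.map_add_eq_mul]

theorem lpPsi_bot : lpPsi f ⊥ = 0 := by
  show (if h : (⊥ : Ideal (𝓞 K)) = ⊥ then (0 : ℂ) else _) = 0
  rw [dif_pos rfl]

theorem lpPsi_ne {𝔠 : Ideal (𝓞 K)} (h : 𝔠 ≠ ⊥) :
    lpPsi f 𝔠 = ZMod.stdAddChar (f (lpD 𝔠 h)) := by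
  show (if h : 𝔠 = ⊥ then (0 : ℂ) else _) = _
  rw [dif_neg h]

theorem lp_norm (a : ZMod p) : ‖(ZMod.stdAddChar a : ℂ)‖ = 1 := by
  rw [ZMod.stdAddChar_apply]
  exact Circle.norm_coe _

theorem lp_ineq (z : ℂ) : Real.exp (z.re - ‖z‖ ^ 2 / 2) * ‖1 - z‖ ≤ 1 := by
  have h1 : ‖1 - z‖ ^ 2 = 1 + (-2 * z.re + ‖z‖ ^ 2) := by
    rw [← Complex.normSq_eq_norm_sq, ← Complex.normSq_eq_norm_sq, Complex.normSq_apply,
      Complex.normSq_apply]
    simp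
    ring
  have h2 : ‖1 - z‖ ^ 2 ≤ Real.exp (-2 * z.re + ‖z‖ ^ 2) := by
    rw [h1, add_comm]
    exact Real.add_one_le_exp _
  have h3 : (Real.exp (z.re - ‖z‖ ^ 2 / 2) * ‖1 - z‖) ^ 2 ≤ 1 := by
    rw [mul_pow, ← Real.exp_nat_mul]
    calc _ ≤ Real.exp ((2 : ℕ) * (z.re - ‖z‖ ^ 2 / 2)) * Real.exp (-2 * z.re + ‖z‖ ^ 2) :=
          mul_le_mul_of_nonneg_left h2 (Real.exp_pos _).le
      _ = 1 := by
          rw [← Real.exp_add]
          push_cast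
          rw [show 2 * (z.re - ‖z‖ ^ 2 / 2) + (-2 * z.re + ‖z‖ ^ 2) = 0 by ring, Real.exp_zero]
  have h4 : 0 ≤ Real.exp (z.re - ‖z‖ ^ 2 / 2) * ‖1 - z‖ := by positivity
  nlinarith

theorem lp_sum2 {s : ℝ} (hs : 1 < s) :
    Summable (fun v : HeightOneSpectrum (𝓞 K) => (nv v : ℝ) ^ (-s)) := by
  have h1 := HZ.ideal_summable (K := K) hs
  have h2 : Function.Injective (fun v : HeightOneSpectrum (𝓞 K) => v.asIdeal) :=
    fun v w h => HeightOneSpectrum.ext h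
  exact h1.comp_injective h2

theorem lp_local {s : ℝ} (hs : 1 < s) (g : Ideal (𝓞 K) → ℂ)
    (hg : g = fun 𝔠 => lpPsi f 𝔠 * ((Ideal.absNorm 𝔠 : ℝ) ^ (-s) : ℝ)) (htop : g ⊤ = 1)
    (hmul : ∀ 𝔞 𝔟 : Ideal (𝓞 K), g (𝔞 * 𝔟) = g 𝔞 * g 𝔟)
    (hle : ∀ 𝔠 : Ideal (𝓞 K), ‖g 𝔠‖ ≤ (Ideal.absNorm 𝔠 : ℝ) ^ (-s))
    (v : HeightOneSpectrum (𝓞 K)) :
    ∑' j : ℕ, g (v.asIdeal ^ j) =
      (1 - (ZMod.stdAddChar (f (Finsupp.single v 1)) : ℂ) * ((nv v : ℝ) ^ (-s) : ℝ))⁻¹ := by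
  have hpow : ∀ j : ℕ, g (v.asIdeal ^ j) = (g v.asIdeal) ^ j := by
    intro j
    induction j with
    | zero =>
      rw [pow_zero, pow_zero, Ideal.one_eq_top]
      exact htop
    | succ j ih => rw [pow_succ, pow_succ, hmul, ih]
  have hgv : g v.asIdeal =
      (ZMod.stdAddChar (f (Finsupp.single v 1)) : ℂ) * ((nv v : ℝ) ^ (-s) : ℝ) := by
    rw [hg]
    show lpPsi f v.asIdeal * ((Ideal.absNorm v.asIdeal : ℝ) ^ (-s) : ℝ) = _
    rw [lpPsi_ne f v.ne_bot, lpD_prime]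
    rfl
  have hlt : ‖g v.asIdeal‖ < 1 := by
    refine (hle _).trans_lt ?_
    refine Real.rpow_lt_one_of_one_lt_of_neg ?_ (by linarith)
    have h2 := nv_two_le v
    have : (2 : ℝ) ≤ nv v := by exact_mod_cast h2
    show (1 : ℝ) < (nv v : ℝ)
    linarith
  rw [tsum_congr hpow, tsum_geometric_of_norm_lt_one hlt, hgv]

theorem lp_euler {s : ℝ} (hs : 1 < s) :
    HasProd (fun v : HeightOneSpectrum (𝓞 K) =>
      (1 - (ZMod.stdAddChar (f (Finsupp.single v 1)) : ℂ) * ((nv v : ℝ) ^ (-s) : ℝ))⁻¹)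
      (∑' 𝔠 : Ideal (𝓞 K), lpPsi f 𝔠 * ((Ideal.absNorm 𝔠 : ℝ) ^ (-s) : ℝ)) := by
  set g : Ideal (𝓞 K) → ℂ := fun 𝔠 => lpPsi f 𝔠 * ((Ideal.absNorm 𝔠 : ℝ) ^ (-s) : ℝ) with hg
  have hle : ∀ 𝔠 : Ideal (𝓞 K), ‖g 𝔠‖ ≤ (Ideal.absNorm 𝔠 : ℝ) ^ (-s) := by
    intro 𝔠
    have h0 : 0 ≤ (Ideal.absNorm 𝔠 : ℝ) ^ (-s) := by positivity
    rw [hg]
    show ‖lpPsi f 𝔠 * ((Ideal.absNorm 𝔠 : ℝ) ^ (-s) : ℝ)‖ ≤ _
    rw [norm_mul, Complex.norm_real, Real.norm_of_nonneg h0]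
    refine mul_le_of_le_one_left h0 ?_
    by_cases h : 𝔠 = ⊥
    · rw [h, lpPsi_bot, norm_zero]
      exact zero_le_one
    · rw [lpPsi_ne f h, lp_norm]
  have hsum : Summable (fun 𝔠 : Ideal (𝓞 K) => ‖g 𝔠‖) :=
    Summable.of_nonneg_of_le (fun _ => norm_nonneg _) hle (HZ.ideal_summable (K := K) hs)
  have hmul : ∀ 𝔞 𝔟 : Ideal (𝓞 K), g (𝔞 * 𝔟) = g 𝔞 * g 𝔟 := by
    intro 𝔞 𝔟
    rw [hg]
    show lpPsi f (𝔞 * 𝔟) * ((Ideal.absNorm (𝔞 * 𝔟) : ℝ) ^ (-s) : ℝ) =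
      (lpPsi f 𝔞 * ((Ideal.absNorm 𝔞 : ℝ) ^ (-s) : ℝ)) *
        (lpPsi f 𝔟 * ((Ideal.absNorm 𝔟 : ℝ) ^ (-s) : ℝ))
    rw [map_mul, map_mul, Nat.cast_mul, Real.mul_rpow (Nat.cast_nonneg _) (Nat.cast_nonneg _)]
    push_cast
    ring
  have htop : g ⊤ = 1 := by
    rw [hg]
    show lpPsi f ⊤ * ((Ideal.absNorm (⊤ : Ideal (𝓞 K)) : ℝ) ^ (-s) : ℝ) = 1
    have h1 : lpPsi f ⊤ = 1 := by
      have := map_one (lpPsi f)
      rwa [Ideal.one_eq_top] at this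
    rw [h1, Ideal.absNorm_top, Nat.cast_one, Real.one_rpow, Complex.ofReal_one, one_mul]
  have h1 := H4.ideal_euler (K := K) (g := g) htop (fun 𝔞 𝔟 _ => hmul 𝔞 𝔟)
    (hsum.comp_injective Subtype.val_injective)
  have h2 : ∑' 𝔞 : H4.NI K, g 𝔞.1 = ∑' 𝔠 : Ideal (𝓞 K), g 𝔠 := by
    refine tsum_subtype_eq_of_support_subset (s := {𝔞 : Ideal (𝓞 K) | 𝔞 ≠ ⊥}) (f := g) ?_
    intro 𝔞 h𝔞 h
    subst h
    apply h𝔞
    rw [hg]
    show lpPsi f ⊥ * _ = 0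
    rw [lpPsi_bot, zero_mul]
  rw [h2, ← (eb_equiv K).hasProd_iff] at h1
  have key : ∀ v : HeightOneSpectrum (𝓞 K),
      (1 - (ZMod.stdAddChar (f (Finsupp.single v 1)) : ℂ) * ((nv v : ℝ) ^ (-s) : ℝ))⁻¹ =
        ∑' j : ℕ, g (v.asIdeal ^ j) := fun v => (lp_local f hs g hg htop hmul hle v).symm
  rw [funext key]
  exact h1

theorem lb_prime_pr {p : ℕ} [NeZero p] (f : Dvs K →+ ZMod p) (hf : f ≠ 0)
    (hpr : ∀ x : Additive Kˣ, f (dv K x) = 0) :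
    ∃ C : ℝ, ∀ s : ℝ, 1 < s → s ≤ 2 →
      ∑' v : HeightOneSpectrum (𝓞 K),
        (ZMod.stdAddChar (f (Finsupp.single v 1)) : ℂ).re * (nv v : ℝ) ^ (-s) ≤ C := by
  obtain ⟨C, hC⟩ := lb_ideal (lpPsi f) (lpPsi_bot f)
    (fun 𝔠 h => by rw [lpPsi_ne f h, lp_norm])
    (by
      intro α hα
      have h1 : Ideal.span {α} ≠ (⊥ : Ideal (𝓞 K)) := by
        rw [Ne, Ideal.span_singleton_eq_bot]
        exact hα
      have h2 : (α : K) ≠ 0 := by
        intro h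
        exact hα (RingOfIntegers.coe_eq_zero_iff.1 h)
      rw [lpPsi_ne f h1, lpD_span α hα h1 h2, hpr, AddChar.map_zero_eq_one])
    (by
      by_contra hcon
      push Not at hcon
      apply hf
      refine Finsupp.addHom_ext' fun v => AddMonoidHom.ext_int ?_
      show f (Finsupp.single v 1) = 0
      have h1 := hcon v.asIdeal v.ne_bot
      rw [lpPsi_ne f v.ne_bot, lpD_prime] at h1
      apply ZMod.injective_stdAddChar
      rw [h1, AddChar.map_zero_eq_one])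
  have hC2 := lp_sum2 (K := K) (s := 2) (by norm_num)
  refine ⟨Real.log C + (∑' v : HeightOneSpectrum (𝓞 K), (nv v : ℝ) ^ (-(2 : ℝ))) / 2,
    fun s hs hs2 => ?_⟩
  have hCs := hC s hs hs2
  set z : HeightOneSpectrum (𝓞 K) → ℂ := fun v =>
    (ZMod.stdAddChar (f (Finsupp.single v 1)) : ℂ) * ((nv v : ℝ) ^ (-s) : ℝ) with hz
  have hpos : ∀ v : HeightOneSpectrum (𝓞 K), 0 ≤ (nv v : ℝ) ^ (-s) := fun v => by positivity
  have hzn : ∀ v, ‖z v‖ = (nv v : ℝ) ^ (-s) := by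
    intro v
    rw [hz]
    show ‖(ZMod.stdAddChar (f (Finsupp.single v 1)) : ℂ) * ((nv v : ℝ) ^ (-s) : ℝ)‖ = _
    rw [norm_mul, lp_norm, one_mul, Complex.norm_real, Real.norm_of_nonneg (hpos v)]
  have hzr : ∀ v, (z v).re =
      (ZMod.stdAddChar (f (Finsupp.single v 1)) : ℂ).re * (nv v : ℝ) ^ (-s) := by
    intro v
    rw [hz]
    show ((ZMod.stdAddChar (f (Finsupp.single v 1)) : ℂ) * ((nv v : ℝ) ^ (-s) : ℝ)).re = _
    rw [Complex.re_mul_ofReal]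
  have h2 : ∀ v : HeightOneSpectrum (𝓞 K), 2 ≤ (nv v : ℝ) := fun v => by
    have := nv_two_le v
    exact_mod_cast this
  have hsq : ∀ v, ‖z v‖ ^ 2 ≤ (nv v : ℝ) ^ (-(2 : ℝ)) := by
    intro v
    rw [hzn, ← Real.rpow_natCast, ← Real.rpow_mul (Nat.cast_nonneg _)]
    refine Real.rpow_le_rpow_of_exponent_le (by linarith [h2 v]) ?_
    push_cast
    linarith
  have hs1 : Summable (fun v => (z v).re) := by
    refine Summable.of_norm_bounded (lp_sum2 (K := K) hs) fun v => ?_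
    rw [← hzn v]
    exact Complex.abs_re_le_norm _
  have hs3 : Summable (fun v => ‖z v‖ ^ 2 / 2) := by
    refine Summable.div_const ?_ 2
    exact Summable.of_nonneg_of_le (fun v => by positivity) hsq hC2
  have hs4 := (hs1.sub hs3).hasSum
  have he := lp_euler f hs
  have h3 : Tendsto (fun F : Finset (HeightOneSpectrum (𝓞 K)) =>
      Real.exp (∑ v ∈ F, ((z v).re - ‖z v‖ ^ 2 / 2))) atTop
      (𝓝 (Real.exp (∑' v, ((z v).re - ‖z v‖ ^ 2 / 2)))) :=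
    (Real.continuous_exp.tendsto _).comp hs4
  have h4 : Tendsto (fun F : Finset (HeightOneSpectrum (𝓞 K)) =>
      ‖∏ v ∈ F, (1 - z v)⁻¹‖) atTop
      (𝓝 ‖∑' 𝔠 : Ideal (𝓞 K), lpPsi f 𝔠 * ((Ideal.absNorm 𝔠 : ℝ) ^ (-s) : ℝ)‖) :=
    (continuous_norm.tendsto _).comp he
  have hzlt : ∀ v, ‖z v‖ < 1 := by
    intro v
    rw [hzn]
    exact Real.rpow_lt_one_of_one_lt_of_neg (by linarith [h2 v]) (by linarith)
  have h5 : ∀ F : Finset (HeightOneSpectrum (𝓞 K)),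
      Real.exp (∑ v ∈ F, ((z v).re - ‖z v‖ ^ 2 / 2)) ≤ ‖∏ v ∈ F, (1 - z v)⁻¹‖ := by
    intro F
    rw [Real.exp_sum, norm_prod]
    refine Finset.prod_le_prod (fun v _ => (Real.exp_pos _).le) fun v _ => ?_
    have hne : 0 < ‖1 - z v‖ := by
      rw [norm_pos_iff]
      intro h
      have h6 := hzlt v
      rw [← sub_eq_zero.1 h, norm_one] at h6
      exact lt_irrefl _ h6
    rw [norm_inv, ← one_div, le_div_iff₀ hne]
    exact lp_ineq (z v)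
  have h6 := le_of_tendsto_of_tendsto' h3 h4 h5
  have h7 : Real.exp (∑' v, ((z v).re - ‖z v‖ ^ 2 / 2)) ≤ C := h6.trans hCs
  have hCpos : 0 < C := (Real.exp_pos _).trans_le h7
  have h8 := (Real.le_log_iff_exp_le hCpos).2 h7
  rw [hs1.tsum_sub hs3, tsum_div_const] at h8
  have h9 : ∑' v, ‖z v‖ ^ 2 ≤ ∑' v : HeightOneSpectrum (𝓞 K), (nv v : ℝ) ^ (-(2 : ℝ)) :=
    Summable.tsum_le_tsum hsq
      (Summable.of_nonneg_of_le (fun v => by positivity) hsq hC2) hC2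
  rw [tsum_congr hzr] at h8
  linarith

end LP

end Pool.Agent.RG

namespace Pool.Agent.RG

theorem lb_prime : type_of% @lb_prime_pr := @lb_prime_pr

end Pool.Agent.RG
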