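import Pool.Agent.Lib_helper35.RG.Defs
import Pool.Agent.Lib_helper35.RG.P_DS
import Pool.Agent.Lib_helper35.RG.P_DZ
import Pool.Agent.Lib_helper35.RG.P_LP
import Pool.Agent.Lib_helper17.RS.P_ED
import Mathlib

/-!
Block DJ: characters attached to distinct subgroups of index `p` are distinct.
-/

set_option autoImplicit false
set_option linter.unusedSectionVars false

namespace Pool.Agent.RG

open Pool.Agent.RSK Pool.Agent.RS2 Pool.Agent.RS3 Pool.Agent.SY Pool.Agent.AU Pool.Agent.CR
open NumberField IsDedekindDomain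
open scoped TensorProduct

section B2

variable {K H : Type} [Field K] [NumberField K] [Field H] [NumberField H] [Algebra K H]
  [IsGalois K H] {G : Type} [CommGroup G] [Fintype G] (ι : G ≃* (H ≃ₐ[K] H))

theorem dj_inf {M M' : Subgroup G} (v : HeightOneSpectrum (𝓞 K)) :
    Spl ι (M ⊓ M') v ↔ Spl ι M v ∧ Spl ι M' v := by
  constructor
  · intro h
    exact ⟨fun W hW g hg => (h W hW g hg).1, fun W hW g hg => (h W hW g hg).2⟩
  · rintro ⟨h1, h2⟩ W hW g hg
    exact ⟨h1 W hW g hg, h2 W hW g hg⟩

theorem dj_zero {p : ℕ} {M : Subgroup G} {f : Dvs K →+ ZMod p} (h : VM ι M p f)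
    (v : HeightOneSpectrum (𝓞 K)) (hv : Spl ι M v) : f (Finsupp.single v 1) = 0 := by
  obtain ⟨W, hW⟩ := ed_exists (H := H) v
  have := h.split W (hv W hW)
  rwa [hW] at this

theorem dj_index {M M' : Subgroup G} {p : ℕ} (hp : p.Prime) (hM : M.index = p)
    (hM' : M'.index = p) (hne : M ≠ M') : p < (M ⊓ M').index := by
  have h1 : (M ⊓ M').relIndex M * M.index = (M ⊓ M').index :=
    Subgroup.relIndex_mul_index inf_le_left
  have h2 : (M ⊓ M').relIndex M ≠ 1 := by
    rw [Ne, Subgroup.relIndex_eq_one]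
    intro hle
    have h3 : M ≤ M' := hle.trans inf_le_right
    apply hne
    have h4 : M.relIndex M' * M'.index = M.index := Subgroup.relIndex_mul_index h3
    rw [hM, hM'] at h4
    have h5 : M.relIndex M' = 1 := by
      have := hp.pos
      nlinarith [Nat.eq_of_mul_eq_mul_right this (by rw [h4, one_mul] : M.relIndex M' * p = 1 * p)]
    exact le_antisymm h3 (Subgroup.relIndex_eq_one.1 h5)
  have h0 : (M ⊓ M').index ≠ 0 := Subgroup.index_ne_zero_of_finite
  have h3 : (M ⊓ M').relIndex M ≠ 0 := by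
    intro h
    rw [h, zero_mul] at h1
    exact h0 h1.symm
  have h4 : 2 ≤ (M ⊓ M').relIndex M := by omega
  rw [← h1, hM]
  have := hp.pos
  nlinarith

theorem gen_disj_pr {p : ℕ} (hp : p.Prime) {M M' : Subgroup G} (hM : M.index = p)
    (hM' : M'.index = p) (hne : M ≠ M') {f : Dvs K →+ ZMod p} (h : VM ι M p f)
    (h' : VM ι M' p f) : f = 0 := by
  classical
  by_contra hf
  have : Fact p.Prime := ⟨hp⟩
  -- the term for `a`
  have hC : ∀ a : ZMod p, ∃ C : ℝ, ∀ s : ℝ, 1 < s → s ≤ 2 →
      ∑' v : HeightOneSpectrum (𝓞 K),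
        (ZMod.stdAddChar (a * f (Finsupp.single v 1)) : ℂ).re * (nv v : ℝ) ^ (-s) ≤
        C + if a = 0 then Real.log (1 / (s - 1)) else 0 := by
    intro a
    by_cases ha : a = 0
    · obtain ⟨C, hC⟩ := dens_all K
      refine ⟨C, fun s hs1 hs2 => ?_⟩
      have h1 := (abs_le.1 (hC s hs1 hs2)).2
      rw [if_pos ha]
      have h2 : ∀ v : HeightOneSpectrum (𝓞 K),
          (ZMod.stdAddChar (a * f (Finsupp.single v 1)) : ℂ).re * (nv v : ℝ) ^ (-s) =
          (nv v : ℝ) ^ (-s) := by
        intro v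
        rw [ha, zero_mul, AddChar.map_zero_eq_one, Complex.one_re, one_mul]
      rw [tsum_congr h2]
      linarith
    · obtain ⟨C, hC⟩ := lb_prime ((AddMonoidHom.mulLeft a).comp f) (by
        intro h0
        apply hf
        ext x
        have h1 := DFunLike.congr_fun h0 (Finsupp.single x 1)
        have h2 : a * f (Finsupp.single x 1) = 0 := h1
        have h3 := (mul_eq_zero.1 h2).resolve_left ha
        simpa using h3) (by
        intro x
        show a * f (dv K x) = 0
        rw [h.prin, mul_zero])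
      refine ⟨C, fun s hs1 hs2 => ?_⟩
      rw [if_neg ha, add_zero]
      exact hC s hs1 hs2
  choose C hC using hC
  obtain ⟨C1, hC1⟩ := dens_spl ι M
  obtain ⟨C2, hC2⟩ := dens_spl ι M'
  obtain ⟨C3, hC3⟩ := dens_spl ι (M ⊓ M')
  have hidx := dj_index hp hM hM' hne
  set q := (M ⊓ M').index with hq
  have hp0 : (0 : ℝ) < p := by exact_mod_cast hp.pos
  have hq0 : (0 : ℝ) < q := lt_trans hp0 (by exact_mod_cast hidx)
  have hpq : (1 : ℝ) / q < 1 / p := by
    apply one_div_lt_one_div_of_lt hp0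
    exact_mod_cast hidx
  set CC : ℝ := ∑ a : ZMod p, C a with hCC
  -- the main inequality
  have main : ∀ s : ℝ, 1 < s → s ≤ 2 →
      (1 / (p : ℝ) - 1 / q) * Real.log (1 / (s - 1)) ≤ CC / p + C1 + C2 + C3 := by
    intro s hs1 hs2
    have hsum := nv_summable K hs1
    have hnn : ∀ v : HeightOneSpectrum (𝓞 K), 0 ≤ (nv v : ℝ) ^ (-s) :=
      fun v => Real.rpow_nonneg (Nat.cast_nonneg _) _
    have hsub : ∀ (P : HeightOneSpectrum (𝓞 K) → Prop) [DecidablePred P],
        Summable fun v => if P v then (nv v : ℝ) ^ (-s) else 0 := by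
      intro P _
      refine Summable.of_nonneg_of_le (fun v => ?_) (fun v => ?_) hsum
      · split_ifs
        · exact hnn v
        · exact le_rfl
      · split_ifs
        · exact le_rfl
        · exact hnn v
    have hch : ∀ a : ZMod p, Summable fun v : HeightOneSpectrum (𝓞 K) =>
        (ZMod.stdAddChar (a * f (Finsupp.single v 1)) : ℂ).re * (nv v : ℝ) ^ (-s) := by
      intro a
      refine Summable.of_norm_bounded hsum fun v => ?_
      rw [norm_mul, Real.norm_eq_abs, Real.norm_of_nonneg (hnn v)]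
      have h1 : |(ZMod.stdAddChar (a * f (Finsupp.single v 1)) : ℂ).re| ≤ 1 := by
        refine (Complex.abs_re_le_norm _).trans (le_of_eq ?_)
        rw [AddChar.norm_apply]
      nlinarith [hnn v]
    -- upper bound
    have hA : (p : ℝ) * ∑' v : HeightOneSpectrum (𝓞 K),
        (if f (Finsupp.single v 1) = 0 then (nv v : ℝ) ^ (-s) else 0) ≤
        CC + Real.log (1 / (s - 1)) := by
      have h1 : ∀ v : HeightOneSpectrum (𝓞 K),
          (p : ℝ) * (if f (Finsupp.single v 1) = 0 then (nv v : ℝ) ^ (-s) else 0) =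
          ∑ a : ZMod p, (ZMod.stdAddChar (a * f (Finsupp.single v 1)) : ℂ).re *
            (nv v : ℝ) ^ (-s) := by
        intro v
        rw [← Finset.sum_mul, ← Complex.re_sum,
          AddChar.sum_mulShift (f (Finsupp.single v 1)) (ZMod.isPrimitive_stdAddChar p)]
        split_ifs with h0
        · rw [ZMod.card, Complex.natCast_re]
        · simp
      rw [← tsum_mul_left, tsum_congr h1, Summable.tsum_finsetSum fun a _ => hch a]
      refine (Finset.sum_le_sum fun a _ => hC a s hs1 hs2).trans (le_of_eq ?_)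
      rw [Finset.sum_add_distrib, Finset.sum_ite_eq' Finset.univ (0 : ZMod p), if_pos
        (Finset.mem_univ _)]
    -- lower bound
    have hB : ∑' v : HeightOneSpectrum (𝓞 K), (if Spl ι M v then (nv v : ℝ) ^ (-s) else 0) +
        ∑' v : HeightOneSpectrum (𝓞 K), (if Spl ι M' v then (nv v : ℝ) ^ (-s) else 0) ≤
        ∑' v : HeightOneSpectrum (𝓞 K),
          (if f (Finsupp.single v 1) = 0 then (nv v : ℝ) ^ (-s) else 0) +
        ∑' v : HeightOneSpectrum (𝓞 K), (if Spl ι (M ⊓ M') v then (nv v : ℝ) ^ (-s) else 0) := by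
      have s1 := hsub fun v => Spl ι M v
      have s2 := hsub fun v => Spl ι M' v
      have s3 := hsub fun v => f (Finsupp.single v 1) = 0
      have s4 := hsub fun v => Spl ι (M ⊓ M') v
      rw [← s1.tsum_add s2, ← s3.tsum_add s4]
      refine Summable.tsum_le_tsum (fun v => ?_) (s1.add s2) (s3.add s4)
      have h1 := hnn v
      by_cases a1 : Spl ι M v <;> by_cases a2 : Spl ι M' v
      · rw [if_pos a1, if_pos a2, if_pos (dj_zero ι h v a1), if_pos ((dj_inf ι v).2 ⟨a1, a2⟩)]
      · rw [if_pos a1, if_neg a2, if_pos (dj_zero ι h v a1),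
          if_neg (fun h0 => a2 ((dj_inf ι v).1 h0).2)]
      · rw [if_neg a1, if_pos a2, if_pos (dj_zero ι h' v a2),
          if_neg (fun h0 => a1 ((dj_inf ι v).1 h0).1)]
        linarith
      · rw [if_neg a1, if_neg a2, if_neg (fun h0 => a1 ((dj_inf ι v).1 h0).1)]
        split_ifs
        · linarith
        · linarith
    have b1 := (abs_le.1 (hC1 s hs1 hs2)).1
    have b2 := (abs_le.1 (hC2 s hs1 hs2)).1
    have b3 := (abs_le.1 (hC3 s hs1 hs2)).2
    rw [hM] at b1
    rw [hM'] at b2
    have hA' : ∑' v : HeightOneSpectrum (𝓞 K),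
        (if f (Finsupp.single v 1) = 0 then (nv v : ℝ) ^ (-s) else 0) ≤
        (CC + Real.log (1 / (s - 1))) / p := by
      rw [le_div_iff₀ hp0, mul_comm]
      exact hA
    rw [add_div] at hA'
    have e1 : (1 / (p : ℝ)) * Real.log (1 / (s - 1)) = Real.log (1 / (s - 1)) / p := by ring
    rw [e1] at b1 b2
    rw [sub_mul, e1]
    linarith
  -- contradiction as `s → 1`
  set c : ℝ := 1 / (p : ℝ) - 1 / q with hc
  have hc0 : 0 < c := by rw [hc]; linarith
  set B : ℝ := CC / p + C1 + C2 + C3 with hB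
  set t : ℝ := max (B / c + 1) 0 with ht
  have h1 : B / c < t := lt_of_lt_of_le (lt_add_one _) (le_max_left _ _)
  have h2 : 0 ≤ t := le_max_right _ _
  have h3 := main (1 + Real.exp (-t)) (by linarith [Real.exp_pos (-t)]) (by
    have : Real.exp (-t) ≤ 1 := Real.exp_le_one_iff.2 (by linarith)
    linarith)
  rw [add_sub_cancel_left, one_div (Real.exp _), ← Real.exp_neg, neg_neg, Real.log_exp] at h3
  rw [div_lt_iff₀ hc0] at h1
  linarith

end B2

end Pool.Agent.RG

namespace Pool.Agent.RG

theorem gen_disj : type_of% @gen_disj_pr := @gen_disj_pr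

end Pool.Agent.RG
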