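import Pool.Agent.Lib_helper35.RG.Defs

set_option autoImplicit false
set_option linter.unusedSectionVars false
set_option linter.unusedVariables false

namespace Pool.Agent.RG

open Pool.Agent.RSK Pool.Agent.RS2 Pool.Agent.RS3 Pool.Agent.SY Pool.Agent.AU Pool.Agent.CR
open NumberField IsDedekindDomain Filter Topology Complex
open scoped TensorProduct

section A

variable {M : Type} [AddCommGroup M]

theorem amb_telescope (τ : M →+ M) (p : ℕ) (x : M) : trc p τ (τ x) - trc p τ x = τ^[p] x - x := by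
  rw [trc_apply, trc_apply]
  induction p with
  | zero => simp
  | succ k ih =>
    rw [Finset.sum_range_succ, Finset.sum_range_succ]
    have h1 : τ^[k] (τ x) = τ^[k + 1] x := (Function.iterate_succ_apply τ k x).symm
    rw [h1]
    have h2 : (∑ i ∈ Finset.range k, τ^[i] (τ x) + τ^[k + 1] x) -
        (∑ i ∈ Finset.range k, τ^[i] x + τ^[k] x) =
        (∑ i ∈ Finset.range k, τ^[i] (τ x) - ∑ i ∈ Finset.range k, τ^[i] x) +
          (τ^[k + 1] x - τ^[k] x) := by abel
    rw [h2, ih]
    abel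

theorem amb_trc_comm (τ : M →+ M) (p : ℕ) (x : M) : τ (trc p τ x) = trc p τ (τ x) := by
  rw [trc_apply, trc_apply, map_sum]
  refine Finset.sum_congr rfl fun i _ => ?_
  rw [← Function.iterate_succ_apply, ← Function.iterate_succ_apply' (⇑τ)]

theorem amb_trc_dlt {τ : M →+ M} {p : ℕ} (hτ : ∀ x, τ^[p] x = x) (x : M) :
    trc p τ (dlt τ x) = 0 := by
  rw [dlt_apply, map_sub, amb_telescope, hτ, sub_self]

theorem amb_dlt_trc {τ : M →+ M} {p : ℕ} (hτ : ∀ x, τ^[p] x = x) (x : M) :
    dlt τ (trc p τ x) = 0 := by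
  rw [dlt_apply, amb_trc_comm, amb_telescope, hτ, sub_self]

/-- index through a homomorphism -/
theorem amb_rel {A B : Type} [AddCommGroup A] [AddCommGroup B] (f : A →+ B) (H K : AddSubgroup A) :
    (H ⊔ f.ker).relIndex K = (H.map f).relIndex (K.map f) := by
  rw [← AddSubgroup.relIndex_comap, AddSubgroup.comap_map_eq]

theorem q_amb_pr {D : Type} [AddCommGroup D] {p : ℕ} (hp : p.Prime) (τ : M →+ M) (τ' : D →+ D)
    (hτ : ∀ x, τ^[p] x = x) (hτ' : ∀ x, τ'^[p] x = x) (div : M →+ D)
    (hdiv : ∀ x, div (τ x) = τ' (div x)) (h90 : ∀ x, trc p τ x = 0 → ∃ y, dlt τ y = x)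
    (hC : div.range.index ≠ 0)
    (hU1 : (div.ker.map (trc p τ)).relIndex ((dlt τ).ker ⊓ div.ker) ≠ 0)
    (hU : (div.ker.map (dlt τ)).relIndex ((trc p τ).ker ⊓ div.ker) =
      p * (div.ker.map (trc p τ)).relIndex ((dlt τ).ker ⊓ div.ker)) :
    (((dlt τ).ker.map div) ⊔ (trc p τ').range).relIndex (dlt τ').ker ≠ 0 ∧
    p ≤ (((dlt τ).ker.map div) ⊔ (trc p τ').range).relIndex (dlt τ').ker := by
  set t := dlt τ with ht
  set t' := dlt τ' with ht'
  set nn := trc p τ with hnn
  set nn' := trc p τ' with hnn'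
  set U := div.ker with hUd
  set I := div.range with hI
  set h := (U.map nn).relIndex (t.ker ⊓ U) with hh
  have hdt : ∀ x, div (t x) = t' (div x) := by
    intro x
    rw [ht, ht', dlt_apply, dlt_apply, map_sub, hdiv]
  have hdi : ∀ (i : ℕ) (x : M), div (τ^[i] x) = τ'^[i] (div x) := by
    intro i
    induction i with
    | zero => intro x; rfl
    | succ k ih =>
      intro x
      rw [Function.iterate_succ_apply, Function.iterate_succ_apply, ih, hdiv]
  have hdn : ∀ x, div (nn x) = nn' (div x) := by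
    intro x
    rw [hnn, hnn', trc_apply, trc_apply, map_sum]
    exact Finset.sum_congr rfl fun i _ => hdi i x
  have hnt : ∀ x, nn (t x) = 0 := amb_trc_dlt hτ
  have htn : ∀ x, t (nn x) = 0 := amb_dlt_trc hτ
  have hnt' : ∀ x, nn' (t' x) = 0 := amb_trc_dlt hτ'
  have htn' : ∀ x, t' (nn' x) = 0 := amb_dlt_trc hτ'
  have hrk : t.range = nn.ker := by
    ext x
    constructor
    · rintro ⟨y, rfl⟩
      exact hnt y
    · intro hx
      exact h90 x hx
  set P := t'.ker with hP
  set Q := t.ker.map div with hQ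
  set R := nn'.range with hR
  have hRP : R ≤ P := by
    rintro x ⟨y, rfl⟩
    exact htn' y
  have hQP : Q ≤ P := by
    rintro x ⟨y, hy, rfl⟩
    show t' (div y) = 0
    rw [← hdt, (show t y = 0 from hy), map_zero]
  have hQI : Q ≤ I := by
    rintro x ⟨y, hy, rfl⟩
    exact ⟨y, rfl⟩
  -- step 4
  have s4 : Q.relIndex (P ⊓ I) = p * h := by
    have e1 : (P.comap div).map div = P ⊓ I := by
      rw [AddSubgroup.map_comap_eq, inf_comm]
    have e2 : P.comap div = U.comap t := by
      ext y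
      show t' (div y) = 0 ↔ div (t y) = 0
      rw [hdt]
    have e3 : (P.comap div).map t = nn.ker ⊓ U := by
      rw [e2, AddSubgroup.map_comap_eq, hrk]
    rw [← e1, hQ, ← amb_rel, sup_comm, ← hUd, amb_rel t, e3]
    exact hU
  have hc0 : I.relIndex P ≠ 0 := fun h0 => hC (by
    have := AddSubgroup.relIndex_dvd_index_of_normal (H := I) (K := P)
    rw [h0] at this
    exact Nat.eq_zero_of_zero_dvd this)
  have s4' : Q.relIndex P = p * h * I.relIndex P := by
    have e := AddSubgroup.relIndex_mul_relIndex Q (P ⊓ I) P (le_inf hQP hQI) inf_le_left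
    rw [← e, s4, inf_comm P I, AddSubgroup.inf_relIndex_right]
  -- step 3
  set W := I.comap t' with hW
  have hPW : P ≤ W := by
    intro x hx
    show t' x ∈ I
    rw [(show t' x = 0 from hx)]
    exact I.zero_mem
  have hIW : I ≤ W := by
    rintro x ⟨y, rfl⟩
    show t' (div y) ∈ I
    rw [← hdt]
    exact ⟨_, rfl⟩
  have s3 : (I ⊔ P).relIndex W ≤ h := by
    rw [hP, amb_rel t' I W]
    have e1 : W.map t' = t'.range ⊓ I := by
      rw [hW, AddSubgroup.map_comap_eq]
    have e2 : (t'.range.comap div).map div = t'.range ⊓ I := by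
      rw [AddSubgroup.map_comap_eq, inf_comm]
    have e3 : I.map t' = (t.range).map div := by
      ext x
      constructor
      · rintro ⟨_, ⟨y, rfl⟩, rfl⟩
        exact ⟨t y, ⟨y, rfl⟩, hdt y⟩
      · rintro ⟨_, ⟨y, rfl⟩, rfl⟩
        exact ⟨div y, ⟨y, rfl⟩, (hdt y).symm⟩
    rw [e1, ← e2, e3, ← amb_rel, hrk, sup_comm, ← hUd, amb_rel nn]
    refine AddSubgroup.relIndex_le_of_le_right ?_ hU1
    rintro x ⟨y, hy, rfl⟩
    refine ⟨htn y, ?_⟩
    show div (nn y) = 0
    obtain ⟨z, hz⟩ := hy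
    rw [hdn, ← hz, hnt']
  have s3' : I.relIndex W ≤ h * I.relIndex P := by
    have e := AddSubgroup.relIndex_mul_relIndex I (I ⊔ P) W le_sup_left (sup_le hIW hPW)
    rw [← e, AddSubgroup.relIndex_sup_left, mul_comm]
    exact Nat.mul_le_mul_right _ s3
  -- step 2
  set V := I ⊔ t'.range with hV
  have s2 : V.index = I.relIndex W := by
    have e1 : I.relIndex W * W.index = I.index := AddSubgroup.relIndex_mul_index hIW
    have e2 : I.relIndex V * V.index = I.index := AddSubgroup.relIndex_mul_index le_sup_left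
    have e3 : W.index = I.relIndex V := by
      rw [hV, AddSubgroup.relIndex_sup_left, hW, AddSubgroup.index_comap]
    have hW0 : W.index ≠ 0 := fun h0 => hC (by rw [← e1, h0, mul_zero])
    rw [← e3] at e2
    have e4 : V.index * W.index = I.relIndex W * W.index := by
      rw [e1, ← e2, mul_comm]
    exact Nat.eq_of_mul_eq_mul_right (Nat.pos_of_ne_zero hW0) e4
  have hV0 : V.index ≠ 0 := by
    rw [s2]
    intro h0
    have e1 : I.relIndex W * W.index = I.index := AddSubgroup.relIndex_mul_index hIW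
    rw [h0, zero_mul] at e1
    exact hC e1.symm
  -- step 1
  have s1 : Q.relIndex (Q ⊔ R) ≤ V.index := by
    rw [AddSubgroup.relIndex_sup_left, hR, ← AddSubgroup.index_comap]
    refine Nat.le_of_dvd (Nat.pos_of_ne_zero hV0) (AddSubgroup.index_dvd_of_le ?_)
    refine sup_le ?_ ?_
    · rintro x ⟨y, rfl⟩
      show nn' (div y) ∈ Q
      rw [← hdn]
      exact ⟨nn y, htn y, rfl⟩
    · rintro x ⟨y, rfl⟩
      show nn' (t' y) ∈ Q
      rw [hnt']
      exact Q.zero_mem
  -- conclusion
  have e5 := AddSubgroup.relIndex_mul_relIndex Q (Q ⊔ R) P le_sup_left (sup_le hQP hRP)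
  rw [s4'] at e5
  have hh0 : 0 < h := Nat.pos_of_ne_zero hU1
  have hcp : 0 < I.relIndex P := Nat.pos_of_ne_zero hc0
  have hpp := hp.pos
  have hpos : 0 < p * h * I.relIndex P := by positivity
  have hA0 : (Q ⊔ R).relIndex P ≠ 0 := by
    intro h0
    rw [h0, mul_zero] at e5
    omega
  refine ⟨hA0, ?_⟩
  have h6 : Q.relIndex (Q ⊔ R) ≤ h * I.relIndex P := s1.trans (s2.le.trans s3')
  have h7 : p * (h * I.relIndex P) ≤ (Q ⊔ R).relIndex P * (h * I.relIndex P) := by
    calc p * (h * I.relIndex P) = p * h * I.relIndex P := by ring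
      _ = Q.relIndex (Q ⊔ R) * (Q ⊔ R).relIndex P := e5.symm
      _ ≤ (h * I.relIndex P) * (Q ⊔ R).relIndex P := Nat.mul_le_mul_right _ h6
      _ = _ := by ring
  exact Nat.le_of_mul_le_mul_right h7 (by positivity)

end A

end Pool.Agent.RG

namespace Pool.Agent.RG

theorem q_amb : type_of% @q_amb_pr := @q_amb_pr

end Pool.Agent.RG
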