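import Pool.Agent.Lib_helper35.RG.Defs
import Pool.Agent.Lib_helper17.RS.P_UP1
import Pool.Agent.Lib_helper17.RS.P_UP2
import Pool.Agent.Lib_helper17.RS.P_UP3

/-!
# Genus theory for Rubin's conjecture (RG): block EXA (extension of divisors)
-/

set_option autoImplicit false
set_option linter.unusedSectionVars false
set_option linter.unusedVariables false

namespace Pool.Agent.RG

open Pool.Agent.RSK Pool.Agent.RS2 Pool.Agent.RS3 Pool.Agent.SY Pool.Agent.AU Pool.Agent.CR
open NumberField IsDedekindDomain Filter Topology Complex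
open scoped TensorProduct

section A2

variable {K E : Type} [Field K] [NumberField K] [Field E] [NumberField E] [Algebra K E]
  [IsGalois K E]

/-! ### the Galois group is cyclic -/

omit [NumberField K] [NumberField E] [IsGalois K E] in
theorem exa_gen {p : ℕ} (hp : p.Prime) (hcard : Nat.card (E ≃ₐ[K] E) = p) (σ : E ≃ₐ[K] E)
    (hσ : σ ≠ 1) (τ : E ≃ₐ[K] E) : ∃ i, i < p ∧ σ ^ i = τ := by
  have : Fact p.Prime := ⟨hp⟩
  have ho : orderOf σ = p := orderOf_eq_prime (by rw [← hcard]; exact pow_card_eq_one') hσ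
  obtain ⟨k, hk⟩ := mem_powers_of_prime_card (g' := τ) hcard hσ
  refine ⟨k % p, Nat.mod_lt _ hp.pos, ?_⟩
  have h1 : σ ^ (k % p) = σ ^ k := by
    have h2 := pow_mod_orderOf σ k
    rwa [ho] at h2
  rw [h1]
  exact hk

omit [NumberField K] [NumberField E] [IsGalois K E] in
theorem exa_inj {p : ℕ} (hp : p.Prime) (hcard : Nat.card (E ≃ₐ[K] E) = p) (σ : E ≃ₐ[K] E)
    (hσ : σ ≠ 1) {i j : ℕ} (hi : i < p) (hj : j < p) (h : σ ^ i = σ ^ j) : i = j := by
  have : Fact p.Prime := ⟨hp⟩
  have ho : orderOf σ = p := orderOf_eq_prime (by rw [← hcard]; exact pow_card_eq_one') hσ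
  exact pow_injOn_Iio_orderOf (by rw [ho]; exact hi) (by rw [ho]; exact hj) h

/-! ### the action on the places -/

omit [IsGalois K E] in
theorem exa_act (σ : E ≃ₐ[K] E) (W : HeightOneSpectrum (𝓞 E)) :
    act σ (Sum.inr W) = Sum.inr (pac σ W) := rfl

omit [IsGalois K E] in
theorem exa_pac_pow (σ : E ≃ₐ[K] E) (i : ℕ) (W : HeightOneSpectrum (𝓞 E)) :
    act (σ ^ i) (Sum.inr W) = Sum.inr ((pac σ)^[i] W) := by
  induction i with
  | zero => rw [pow_zero, act_one]; rfl
  | succ i ih =>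
    rw [pow_succ', act_mul, ih, exa_act, Function.iterate_succ_apply']

omit [IsGalois K E] in
theorem exa_under (σ : E ≃ₐ[K] E) (W : HeightOneSpectrum (𝓞 E)) :
    (pac σ W).under (𝓞 K) = W.under (𝓞 K) := under_equiv σ W

omit [IsGalois K E] in
theorem exa_under_pow (σ : E ≃ₐ[K] E) (i : ℕ) (W : HeightOneSpectrum (𝓞 E)) :
    ((pac σ)^[i] W).under (𝓞 K) = W.under (𝓞 K) := by
  induction i with
  | zero => rfl
  | succ i ih => rw [Function.iterate_succ_apply', exa_under, ih]

/-- the Galois group is transitive on the places above a place of `K` -/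
theorem exa_trans {p : ℕ} (hp : p.Prime) (hcard : Nat.card (E ≃ₐ[K] E) = p) (σ : E ≃ₐ[K] E)
    (hσ : σ ≠ 1) {W W' : HeightOneSpectrum (𝓞 E)} (h : W.under (𝓞 K) = W'.under (𝓞 K)) :
    ∃ i, i < p ∧ (pac σ)^[i] W = W' := by
  have h1 : dn K (Sum.inr W : Pl E) = dn K (Sum.inr W' : Pl E) := by
    show Sum.inr _ = Sum.inr _
    rw [h]
  obtain ⟨τ, hτ⟩ := act_trans h1
  obtain ⟨i, hi, rfl⟩ := exa_gen hp hcard σ hσ τ
  refine ⟨i, hi, ?_⟩
  rw [exa_pac_pow] at hτ
  exact Sum.inr_injective hτ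

/-! ### the divisors -/

omit [IsGalois K E] in
theorem exa_xt_fix (σ : E ≃ₐ[K] E) (D : Dvs K) : dac σ (xt K E D) = xt K E D := by
  refine Finsupp.ext fun W => ?_
  obtain ⟨W', rfl⟩ := (pac σ).surjective W
  rw [dac_apply, xt_apply, xt_apply, exa_under]

theorem xt_inv_pr {p : ℕ} (hp : p.Prime) (hcard : Nat.card (E ≃ₐ[K] E) = p) (σ : E ≃ₐ[K] E)
    (hσ : σ ≠ 1) (D : Dvs E) : dlt (dac σ) D = 0 ↔ ∃ D' : Dvs K, xt K E D' = D := by
  constructor
  · intro h
    have h0 : dac σ D = D := by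
      rw [dlt_apply, sub_eq_zero] at h
      exact h
    have h1 : ∀ W : HeightOneSpectrum (𝓞 E), D (pac σ W) = D W := fun W => by
      conv_rhs => rw [← dac_apply σ D W, h0]
    have h2 : ∀ (i : ℕ) (W : HeightOneSpectrum (𝓞 E)), D ((pac σ)^[i] W) = D W := by
      intro i
      induction i with
      | zero => intro W; rfl
      | succ i ih =>
        intro W
        rw [Function.iterate_succ_apply', h1, ih]
    choose g hg using fun v : HeightOneSpectrum (𝓞 K) => up1_surj (H := E) v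
    have hfin : (Function.support fun v : HeightOneSpectrum (𝓞 K) => D (g v)).Finite := by
      refine Set.Finite.subset (Set.Finite.image (fun W : HeightOneSpectrum (𝓞 E) =>
        W.under (𝓞 K)) D.finite_support) ?_
      intro v hv
      exact ⟨g v, hv, hg v⟩
    refine ⟨Finsupp.ofSupportFinite _ hfin, ?_⟩
    refine Finsupp.ext fun W => ?_
    rw [xt_apply]
    show D (g (W.under (𝓞 K))) = D W
    obtain ⟨i, -, hi⟩ := exa_trans hp hcard σ hσ (hg (W.under (𝓞 K)))
    rw [← h2 i (g (W.under (𝓞 K))), hi]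
  · rintro ⟨D', rfl⟩
    rw [dlt_apply, exa_xt_fix, sub_self]

omit [IsGalois K E] in
theorem xt_inj_aux : Function.Injective (xt K E) := by
  intro D D' h
  refine Finsupp.ext fun v => ?_
  obtain ⟨W, hW⟩ := up1_surj (H := E) v
  have h1 := DFunLike.congr_fun h W
  rw [xt_apply, xt_apply, hW] at h1
  exact h1

theorem xt_inj_pr : Function.Injective (xt K E) := xt_inj_aux

theorem xt_dv_pr (hunr : ∀ W : HeightOneSpectrum (𝓞 E), Algebra.IsUnramifiedAt (𝓞 K) W.asIdeal)
    (x : Additive Kˣ) : xt K E (dv K x) = dv E (inc K E x) := by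
  refine Finsupp.ext fun W => ?_
  rw [xt_apply, dv_apply, dv_apply, inc_apply, ordv_unr (hunr W)]

theorem inc_inv_pr {p : ℕ} (hp : p.Prime) (hcard : Nat.card (E ≃ₐ[K] E) = p) (σ : E ≃ₐ[K] E)
    (hσ : σ ≠ 1) (y : Additive Eˣ) : dlt (eac σ) y = 0 ↔ ∃ x, inc K E x = y := by
  constructor
  · intro h
    have h0 : eac σ y = y := by
      rw [dlt_apply, sub_eq_zero] at h
      exact h
    have h1 : σ ((Additive.toMul y : Eˣ) : E) = ((Additive.toMul y : Eˣ) : E) := by
      rw [← eac_apply, h0]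
    have h2 : ∀ τ : E ≃ₐ[K] E, τ • (Additive.toMul y : Eˣ) = Additive.toMul y := by
      intro τ
      obtain ⟨i, -, rfl⟩ := exa_gen hp hcard σ hσ τ
      refine Units.ext ?_
      show (σ ^ i) ((Additive.toMul y : Eˣ) : E) = ((Additive.toMul y : Eˣ) : E)
      induction i with
      | zero => rfl
      | succ i ih =>
        rw [pow_succ, AlgEquiv.mul_apply, h1, ih]
    obtain ⟨x, hx⟩ := fixed_unit (Additive.toMul y) h2
    exact ⟨Additive.ofMul x, hx⟩
  · rintro ⟨x, rfl⟩
    rw [dlt_apply, sub_eq_zero]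
    apply Additive.toMul.injective
    refine Units.ext ?_
    rw [eac_apply, inc_apply]
    exact σ.commutes _

theorem xt_trc_pr {p : ℕ} (hp : p.Prime) (hcard : Nat.card (E ≃ₐ[K] E) = p) (σ : E ≃ₐ[K] E)
    (hσ : σ ≠ 1) (D : Dvs K) : trc p (dac σ) (xt K E D) = p • xt K E D := by
  have h : ∀ i : ℕ, (dac σ)^[i] (xt K E D) = xt K E D := by
    intro i
    induction i with
    | zero => rfl
    | succ i ih => rw [Function.iterate_succ_apply', ih, exa_xt_fix]
  rw [trc_apply, Finset.sum_congr rfl fun i _ => h i, Finset.sum_const, Finset.card_range]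

omit [IsGalois K E] in
theorem exa_single_pow (σ : E ≃ₐ[K] E) (W : HeightOneSpectrum (𝓞 E)) (i : ℕ) :
    (dac σ)^[i] (Finsupp.single W 1) = Finsupp.single ((pac σ)^[i] W) 1 := by
  induction i with
  | zero => rfl
  | succ i ih => rw [Function.iterate_succ_apply', ih, dac_single, Function.iterate_succ_apply']

theorem xt_single_pr {p : ℕ} (hp : p.Prime) (hcard : Nat.card (E ≃ₐ[K] E) = p) (σ : E ≃ₐ[K] E)
    (hσ : σ ≠ 1) (W : HeightOneSpectrum (𝓞 E))
    (hW : ∀ τ : E ≃ₐ[K] E, act τ (Sum.inr W) = Sum.inr W → τ = 1) :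
    xt K E (Finsupp.single (W.under (𝓞 K)) 1) = trc p (dac σ) (Finsupp.single W 1) := by
  classical
  refine Finsupp.ext fun W' => ?_
  rw [xt_apply, trc_apply, Finset.sum_congr rfl fun i _ => exa_single_pow σ W i,
    Finsupp.finset_sum_apply]
  by_cases h : W.under (𝓞 K) = W'.under (𝓞 K)
  · obtain ⟨i, hi, hiW⟩ := exa_trans hp hcard σ hσ h
    rw [← h, Finsupp.single_eq_same, Finset.sum_eq_single i]
    · rw [hiW, Finsupp.single_eq_same]
    · intro j hj hji
      refine Finsupp.single_eq_of_ne fun hjW => hji ?_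
      rw [Finset.mem_range] at hj
      have h1 : act (σ ^ i) (Sum.inr W) = act (σ ^ j) (Sum.inr W) := by
        rw [exa_pac_pow, exa_pac_pow, hiW, hjW]
      have h2 : act ((σ ^ j)⁻¹ * σ ^ i) (Sum.inr W) = Sum.inr W := by
        rw [act_mul, h1, ← act_mul, inv_mul_cancel, act_one]
      have h3 := hW _ h2
      have h4 : σ ^ j = σ ^ i := by
        rw [inv_mul_eq_one] at h3
        exact h3
      exact exa_inj hp hcard σ hσ hj hi h4
    · intro hni
      exact absurd (Finset.mem_range.mpr hi) hni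
  · rw [Finsupp.single_eq_of_ne (fun h' => h (by first | exact h' | exact h'.symm))]
    symm
    refine Finset.sum_eq_zero fun i _ => Finsupp.single_eq_of_ne fun hi => h ?_
    first
    | rw [← hi, exa_under_pow]
    | rw [hi, exa_under_pow]

end A2

end Pool.Agent.RG

namespace Pool.Agent.RG

theorem xt_inv : type_of% @xt_inv_pr := @xt_inv_pr
theorem xt_inj : type_of% @xt_inj_pr := @xt_inj_pr
theorem xt_dv : type_of% @xt_dv_pr := @xt_dv_pr
theorem inc_inv : type_of% @inc_inv_pr := @inc_inv_pr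
theorem xt_trc : type_of% @xt_trc_pr := @xt_trc_pr
theorem xt_single : type_of% @xt_single_pr := @xt_single_pr

end Pool.Agent.RG
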