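import Pool.Agent.Lib_helper35.RG.Defs
import Pool.Agent.Lib_helper35.RG.P_EQ
import Pool.Agent.Lib_helper35.RG.P_LAT
import Pool.Agent.Lib_helper35.RG.P_QI
import Pool.Agent.Lib_helper17.RS.P_UP2

/-!
# Genus theory for Rubin's conjecture (RG), block UN: the Herbrand quotient of the units
-/

set_option autoImplicit false
set_option linter.unusedSectionVars false
set_option linter.unusedVariables false

namespace Pool.Agent.RG

open Pool.Agent.RSK Pool.Agent.RS2 Pool.Agent.RS3 Pool.Agent.SY Pool.Agent.AU Pool.Agent.CR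
open NumberField IsDedekindDomain Filter Topology Complex
open scoped TensorProduct

/-! ## Restrictions -/

section Res

variable {M : Type} [AddCommGroup M]

/-- the restriction of an endomorphism to an invariant subgroup -/
def un_res (τ : M →+ M) (V : AddSubgroup M) (h : ∀ x ∈ V, τ x ∈ V) : V →+ V where
  toFun x := ⟨τ (x : M), h (x : M) x.2⟩
  map_zero' := Subtype.ext (map_zero τ)
  map_add' x y := Subtype.ext (map_add τ (x : M) (y : M))

theorem un_res_apply (τ : M →+ M) (V : AddSubgroup M) (h : ∀ x ∈ V, τ x ∈ V) (x : V) :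
    ((un_res τ V h x : V) : M) = τ x := rfl

theorem un_res_iter (τ : M →+ M) (V : AddSubgroup M) (h : ∀ x ∈ V, τ x ∈ V) (i : ℕ) (x : V) :
    (((un_res τ V h)^[i] x : V) : M) = τ^[i] (x : M) := by
  induction i with
  | zero => rfl
  | succ i ih => rw [Function.iterate_succ_apply', Function.iterate_succ_apply', un_res_apply, ih]

theorem un_res_trc (τ : M →+ M) (V : AddSubgroup M) (h : ∀ x ∈ V, τ x ∈ V) (p : ℕ) (x : V) :
    ((trc p (un_res τ V h) x : V) : M) = trc p τ (x : M) := by
  rw [trc_apply, trc_apply, AddSubgroup.val_finsetSum]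
  exact Finset.sum_congr rfl fun i _ => un_res_iter τ V h i x

theorem un_res_dlt (τ : M →+ M) (V : AddSubgroup M) (h : ∀ x ∈ V, τ x ∈ V) (x : V) :
    ((dlt (un_res τ V h) x : V) : M) = dlt τ (x : M) := rfl

/-- indices of images in kernels, for a subgroup -/
theorem un_tr (f g : M →+ M) (V : AddSubgroup M) (f' g' : V →+ V)
    (hf : ∀ x : V, ((f' x : V) : M) = f x) (hg : ∀ x : V, ((g' x : V) : M) = g x) :
    (V.map f).relIndex (g.ker ⊓ V) = f'.range.relIndex g'.ker := by
  rw [← AddSubgroup.relIndex_map_map_of_injective f'.range g'.ker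
    (f := V.subtype) Subtype.val_injective]
  have h1 : f'.range.map V.subtype = V.map f := by
    ext x
    constructor
    · rintro ⟨_, ⟨y, rfl⟩, rfl⟩
      exact ⟨y, y.2, (hf y).symm⟩
    · rintro ⟨y, hy, rfl⟩
      exact ⟨f' ⟨y, hy⟩, ⟨⟨y, hy⟩, rfl⟩, hf ⟨y, hy⟩⟩
  have h2 : g'.ker.map V.subtype = g.ker ⊓ V := by
    ext x
    constructor
    · rintro ⟨y, hy, rfl⟩
      refine ⟨?_, y.2⟩
      show g (y : M) = 0
      rw [← hg y, (AddMonoidHom.mem_ker.1 hy)]
      rfl
    · rintro ⟨hx, hx'⟩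
      refine ⟨⟨x, hx'⟩, ?_, rfl⟩
      refine AddMonoidHom.mem_ker.2 (Subtype.ext ?_)
      rw [hg]
      exact hx
  rw [h1, h2]

end Res

/-! ## Ranks -/

section Rk

/-- the rank does not decrease under a map with torsion kernel -/
theorem un_rk {A B : Type} [AddCommGroup A] [AddCommGroup B] [Module.Finite ℤ A]
    [Module.Finite ℤ B] (f : A →+ B) (hf : ∀ x, f x = 0 → ∃ k : ℕ, k ≠ 0 ∧ k • x = 0) :
    Module.finrank ℤ A ≤ Module.finrank ℤ B := by
  set F := f.toIntLinearMap with hF
  have h1 := F.ker.finrank_quotient_add_finrank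
  have h2 : Module.finrank ℤ F.ker = 0 := by
    rw [Module.finrank_eq_zero_iff_isTorsion]
    intro x
    obtain ⟨k, hk0, hk⟩ := hf x.1 (by
      have := x.2
      rw [LinearMap.mem_ker] at this
      exact this)
    refine ⟨⟨(k : ℤ), mem_nonZeroDivisors_of_ne_zero (by exact_mod_cast hk0)⟩, ?_⟩
    refine Subtype.ext ?_
    show (k : ℤ) • (x : A) = 0
    rw [natCast_zsmul, hk]
  have h3 : Module.finrank ℤ (A ⧸ F.ker) = Module.finrank ℤ F.range :=
    F.quotKerEquivRange.finrank_eq
  have h4 : Module.finrank ℤ F.range ≤ Module.finrank ℤ B := Submodule.finrank_le _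
  omega

theorem un_rn {A : Type} [AddCommGroup A] [Module.Finite ℤ A] (f : A →+ A) :
    Module.finrank ℤ f.range + Module.finrank ℤ f.ker = Module.finrank ℤ A := by
  have h1 := f.toIntLinearMap.ker.finrank_quotient_add_finrank
  have h3 : Module.finrank ℤ (A ⧸ f.toIntLinearMap.ker) =
      Module.finrank ℤ f.toIntLinearMap.range :=
    f.toIntLinearMap.quotKerEquivRange.finrank_eq
  rw [h3] at h1
  exact h1

end Rk

/-! ## The Herbrand quotient of a finitely generated group -/

section Her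

variable {U : Type} [AddCommGroup U]

theorem un_dt {p : ℕ} (τ : U →+ U) (hτ : ∀ x, τ^[p] x = x) (x : U) :
    dlt τ (trc p τ x) = 0 ∧ trc p τ (dlt τ x) = 0 := by
  have h1 : ∀ x, τ (trc p τ x) = trc p τ x := by
    intro x
    rw [trc_apply, map_sum]
    have h2 : ∀ i, τ (τ^[i] x) = τ^[i + 1] x := fun i =>
      (Function.iterate_succ_apply' τ i x).symm
    simp only [h2]
    have h3 := Finset.sum_range_succ (fun i => τ^[i] x) p
    rw [Finset.sum_range_succ' (fun i => τ^[i] x) p] at h3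
    simp only [Function.iterate_zero, id, hτ] at h3
    exact add_right_cancel h3
  have h4 : ∀ i (x : U), τ^[i] (τ x) = τ (τ^[i] x) := fun i x => by
    rw [← Function.iterate_succ_apply, Function.iterate_succ_apply']
  constructor
  · rw [dlt_apply, h1, sub_self]
  · rw [dlt_apply, map_sub, sub_eq_zero]
    have h5 : trc p τ (τ x) = τ (trc p τ x) := by
      rw [trc_apply, trc_apply, map_sum]
      exact Finset.sum_congr rfl fun i _ => h4 i x
    rw [h5, h1]

theorem un_fix {p : ℕ} (τ : U →+ U) (x : U) (hx : dlt τ x = 0) : trc p τ x = p • x := by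
  rw [dlt_apply, sub_eq_zero] at hx
  have h1 : ∀ i : ℕ, τ^[i] x = x := by
    intro i
    induction i with
    | zero => rfl
    | succ i ih => rw [Function.iterate_succ_apply', ih, hx]
  rw [trc_apply]
  simp only [h1, Finset.sum_const, Finset.card_range]

theorem un_her [Module.Finite ℤ U] {p : ℕ} (hp : p.Prime) (τ : U →+ U) (hτ : ∀ x, τ^[p] x = x)
    {s : ℕ} (hs : 0 < s) (h1 : Module.finrank ℤ (dlt τ).ker = s - 1)
    (h2 : Module.finrank ℤ U = s * p - 1) :
    (trc p τ).range.relIndex (dlt τ).ker ≠ 0 ∧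
      (dlt τ).range.relIndex (trc p τ).ker = p * (trc p τ).range.relIndex (dlt τ).ker := by
  classical
  -- the torsion is finite
  obtain ⟨n, hn0, hn⟩ : ∃ n : ℕ, n ≠ 0 ∧ ∀ x : U, (∃ k : ℕ, k ≠ 0 ∧ k • x = 0) → n • x = 0 := by
    have hfin : Finite (Submodule.torsion ℤ U) :=
      Module.finite_of_fg_torsion _ (Submodule.torsion_isTorsion)
    refine ⟨Nat.card (Submodule.torsion ℤ U), Nat.card_pos.ne', fun x ⟨k, hk0, hk⟩ => ?_⟩
    have hx : x ∈ Submodule.torsion ℤ U := by
      rw [Submodule.mem_torsion_iff]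
      refine ⟨⟨(k : ℤ), mem_nonZeroDivisors_of_ne_zero (by exact_mod_cast hk0)⟩, ?_⟩
      show (k : ℤ) • x = 0
      rw [natCast_zsmul, hk]
    have := card_nsmul_eq_zero' (G := Submodule.torsion ℤ U) (x := ⟨x, hx⟩)
    exact congrArg Subtype.val this
  set m : U →+ U := nsmulAddMonoidHom n with hm
  have hma : ∀ x, m x = n • x := fun x => rfl
  set M' : AddSubgroup U := m.range with hM'
  have hτn : ∀ x, τ (n • x) = n • τ x := fun x => map_nsmul τ n x
  have hres : ∀ x ∈ M', τ x ∈ M' := by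
    rintro _ ⟨x, rfl⟩
    exact ⟨τ x, (hτn x).symm⟩
  have htf : ∀ x ∈ M', ∀ k : ℕ, k ≠ 0 → k • x = 0 → x = 0 := by
    rintro _ ⟨x, rfl⟩ k hk0 hk
    rw [hma] at hk ⊢
    exact hn x ⟨k * n, mul_ne_zero hk0 hn0, by rw [mul_smul, hk]⟩
  have hFinM : Module.Finite ℤ M' := by
    have : Module.Finite ℤ (AddSubgroup.toIntSubmodule M') := inferInstance
    exact this
  have hTF : Module.IsTorsionFree ℤ M' := by
    refine Module.IsTorsionFree.mk fun r hr x y hxy => ?_
    have h0 : r • (x - y) = 0 := by rw [smul_sub, sub_eq_zero]; exact hxy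
    have hr0 : r ≠ 0 := hr.ne_zero
    have h3 : r.natAbs • (x - y) = 0 := by
      rcases Int.natAbs_eq r with h | h
      · rw [h, natCast_zsmul] at h0; exact h0
      · rw [h, neg_smul, neg_eq_zero, natCast_zsmul] at h0; exact h0
    have h4 := htf _ (x - y).2 r.natAbs (Int.natAbs_ne_zero.2 hr0) (congrArg Subtype.val h3)
    exact sub_eq_zero.1 (Subtype.ext h4)
  set τ' := un_res τ M' hres with hτ'
  have hτ'p : ∀ x, τ'^[p] x = x := fun x => Subtype.ext (by rw [hτ', un_res_iter, hτ])
  -- ranks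
  have fk : Module.Finite ℤ (dlt τ).ker := by
    have : Module.Finite ℤ (AddSubgroup.toIntSubmodule (dlt τ).ker) := inferInstance
    exact this
  have fk' : Module.Finite ℤ (dlt τ').ker := by
    have : Module.Finite ℤ (AddSubgroup.toIntSubmodule (dlt τ').ker) := inferInstance
    exact this
  have fr' : Module.Finite ℤ (trc p τ').range := by
    have : Module.Finite ℤ (AddSubgroup.toIntSubmodule (trc p τ').range) := inferInstance
    exact this
  have r1 : Module.finrank ℤ M' = s * p - 1 := by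
    refine le_antisymm ?_ ?_
    · rw [← h2]
      exact un_rk M'.subtype fun x hx => ⟨1, one_ne_zero, by
        rw [one_smul]; exact Subtype.ext hx⟩
    · rw [← h2]
      refine un_rk m.rangeRestrict fun x hx => ⟨n, hn0, ?_⟩
      exact congrArg Subtype.val hx
  have r2 : Module.finrank ℤ (dlt τ').ker = s - 1 := by
    refine le_antisymm ?_ ?_
    · rw [← h1]
      refine un_rk (AddMonoidHom.codRestrict (M'.subtype.comp (dlt τ').ker.subtype) (dlt τ).ker
        fun x => ?_) fun x hx => ⟨1, one_ne_zero, ?_⟩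
      · rw [AddMonoidHom.mem_ker]
        exact congrArg Subtype.val (AddMonoidHom.mem_ker.1 x.2)
      · rw [one_smul]
        have h5 : (((x : (dlt τ').ker) : M') : U) = 0 := congrArg Subtype.val hx
        exact Subtype.ext (Subtype.ext h5)
    · rw [← h1]
      refine un_rk (AddMonoidHom.codRestrict (m.rangeRestrict.comp (dlt τ).ker.subtype)
        (dlt τ').ker fun x => ?_) fun x hx => ⟨n, hn0, ?_⟩
      · rw [AddMonoidHom.mem_ker]
        refine Subtype.ext ?_
        have hx := AddMonoidHom.mem_ker.1 x.2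
        rw [dlt_apply, sub_eq_zero] at hx
        show τ (n • (x : U)) - n • (x : U) = 0
        rw [hτn, hx, sub_self]
      · have h5 : (m.rangeRestrict ((x : (dlt τ).ker) : U)) = 0 := congrArg Subtype.val hx
        have h6 : n • ((x : (dlt τ).ker) : U) = 0 := congrArg Subtype.val h5
        exact Subtype.ext h6
  have r3 : Module.finrank ℤ (trc p τ').range = s - 1 := by
    refine le_antisymm ?_ ?_
    · rw [← r2]
      refine un_rk (AddSubgroup.inclusion ?_) fun x hx => ⟨1, one_ne_zero, ?_⟩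
      · rintro _ ⟨x, rfl⟩
        exact AddMonoidHom.mem_ker.2 (un_dt τ' hτ'p x).1
      · rw [one_smul]
        have h5 : ((x : (trc p τ').range) : M') = 0 := congrArg Subtype.val hx
        exact Subtype.ext h5
    · rw [← r2]
      refine un_rk ((trc p τ').rangeRestrict.comp (dlt τ').ker.subtype) fun x hx =>
        ⟨p, hp.ne_zero, ?_⟩
      have h3 : trc p τ' (x : M') = 0 := congrArg Subtype.val hx
      rw [un_fix τ' x (AddMonoidHom.mem_ker.1 x.2)] at h3
      exact Subtype.ext h3
  have r4 : Module.finrank ℤ (trc p τ').ker = s * (p - 1) := by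
    have h3 := un_rn (trc p τ')
    rw [r1, r3] at h3
    have hp1 := hp.one_lt
    have h4 : s * (p - 1) = s * p - s := by rw [Nat.mul_sub, mul_one]
    have h5 : s ≤ s * p := Nat.le_mul_of_pos_right _ hp.pos
    omega
  -- the lattice
  obtain ⟨q1, q2, q3⟩ := q_lat hp τ' hτ'p (a := s - 1) (b := s) r2 r4
  have hf' : ∀ x : M', ((dlt τ' x : M') : U) = dlt τ (x : U) := fun x => rfl
  have hg' : ∀ x : M', ((trc p τ' x : M') : U) = trc p τ (x : U) := fun x =>
    un_res_trc τ M' hres p x
  have e1 := un_tr (dlt τ) (trc p τ) M' (dlt τ') (trc p τ') hf' hg'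
  have e2 := un_tr (trc p τ) (dlt τ) M' (trc p τ') (dlt τ') hg' hf'
  have hidx : M'.index ≠ 0 := by
    have hfin : Finite (U ⧸ AddSubgroup.toIntSubmodule M') := by
      refine Module.finite_of_fg_torsion _ fun x => ?_
      obtain ⟨y, rfl⟩ := Submodule.Quotient.mk_surjective _ x
      refine ⟨⟨(n : ℤ), mem_nonZeroDivisors_of_ne_zero (by exact_mod_cast hn0)⟩, ?_⟩
      rw [Submonoid.mk_smul, ← Submodule.Quotient.mk_smul, Submodule.Quotient.mk_eq_zero, natCast_zsmul]
      exact ⟨y, rfl⟩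
    have hfin' : Finite (U ⧸ M') := hfin
    exact AddSubgroup.index_ne_zero_of_finite
  obtain ⟨i1, i2, i3⟩ := q_index (dlt τ) (trc p τ) (fun x => (un_dt τ hτ x).1)
    (fun x => (un_dt τ hτ x).2) M'
    (fun x hx => M'.sub_mem (hres x hx) hx)
    (fun x hx => by
      have := (trc p τ' ⟨x, hx⟩).2
      rwa [hg'] at this) hidx (by rw [e1]; exact q1) (by rw [e2]; exact q2)
  refine ⟨i2, ?_⟩
  rw [e1, e2] at i3
  obtain ⟨s', rfl⟩ : ∃ s', s = s' + 1 := ⟨s - 1, by omega⟩
  rw [Nat.add_sub_cancel] at q3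
  have hpp : 0 < p ^ s' := pow_pos hp.pos _
  have q4 : (dlt τ').range.relIndex (trc p τ').ker = p * (trc p τ').range.relIndex (dlt τ').ker := by
    refine Nat.eq_of_mul_eq_mul_right hpp ?_
    rw [q3, pow_succ]
    ring
  rw [q4] at i3
  refine Nat.eq_of_mul_eq_mul_right (Nat.pos_of_ne_zero q2) ?_
  rw [i3]
  ring

end Her

/-! ## The units -/

section A2

variable {K E : Type} [Field K] [NumberField K] [Field E] [NumberField E] [Algebra K E]
  [IsGalois K E]

theorem un_mem (x : Additive Eˣ) : x ∈ (dv E).ker ↔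
    ∃ u : (𝓞 E)ˣ, Units.map (algebraMap (𝓞 E) E : 𝓞 E →* E) u = Additive.toMul x := by
  rw [← dvx_zero_iff (Additive.toMul x), AddMonoidHom.mem_ker]
  constructor
  · intro h v
    rw [← dv_apply, h]
    rfl
  · intro h
    ext v
    rw [dv_apply, h v]
    rfl

/-- the units of the ring of integers -/
noncomputable def un_hom (E : Type) [Field E] [NumberField E] :
    Additive (𝓞 E)ˣ →+ (dv E).ker where
  toFun u := ⟨Additive.ofMul (Units.map (algebraMap (𝓞 E) E : 𝓞 E →* E) (Additive.toMul u)),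
    (un_mem _).2 ⟨Additive.toMul u, rfl⟩⟩
  map_zero' := by
    refine Subtype.ext ?_
    show Additive.ofMul (Units.map (algebraMap (𝓞 E) E : 𝓞 E →* E) 1) = 0
    rw [map_one]
    rfl
  map_add' x y := by
    refine Subtype.ext ?_
    show Additive.ofMul (Units.map (algebraMap (𝓞 E) E : 𝓞 E →* E)
      (Additive.toMul x * Additive.toMul y)) = _
    rw [map_mul]
    rfl

theorem un_hom_inj (E : Type) [Field E] [NumberField E] : Function.Injective (un_hom E) := by
  intro x y h
  have h1 := congrArg Subtype.val h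
  have h2 : Units.map (algebraMap (𝓞 E) E : 𝓞 E →* E) (Additive.toMul x) =
    Units.map (algebraMap (𝓞 E) E : 𝓞 E →* E) (Additive.toMul y) := h1
  have h3 : Additive.toMul x = Additive.toMul y := by
    refine Units.ext (FaithfulSMul.algebraMap_injective (𝓞 E) E ?_)
    exact congrArg (fun u : Eˣ => (u : E)) h2
  exact h3

theorem un_hom_surj (E : Type) [Field E] [NumberField E] : Function.Surjective (un_hom E) := by
  intro x
  obtain ⟨u, hu⟩ := (un_mem x.1).1 x.2
  exact ⟨Additive.ofMul u, Subtype.ext hu⟩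

noncomputable def un_eq (E : Type) [Field E] [NumberField E] :
    Additive (𝓞 E)ˣ ≃+ (dv E).ker :=
  AddEquiv.ofBijective (un_hom E) ⟨un_hom_inj E, un_hom_surj E⟩

theorem un_fin (E : Type) [Field E] [NumberField E] : Module.Finite ℤ (dv E).ker :=
  Module.Finite.equiv (un_eq E).toIntLinearEquiv

theorem un_rank (E : Type) [Field E] [NumberField E] :
    Module.finrank ℤ (dv E).ker = Units.rank E := by
  rw [← (un_eq E).toIntLinearEquiv.finrank_eq]
  exact Units.finrank_eq E

theorem un_stab (σ : E ≃ₐ[K] E) (x : Additive Eˣ) (hx : x ∈ (dv E).ker) :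
    eac σ x ∈ (dv E).ker := by
  obtain ⟨u, hu⟩ := (un_mem x).1 hx
  refine (un_mem _).2 ⟨Units.map (RingOfIntegers.mapRingEquiv σ.toRingEquiv : 𝓞 E →* 𝓞 E) u, ?_⟩
  refine Units.ext ?_
  have h1 : ((Additive.toMul x : Eˣ) : E) = algebraMap (𝓞 E) E u := by rw [← hu]; rfl
  rw [eac_apply, h1]
  rfl

/-- the invariant units -/
theorem un_inv {p : ℕ} (hp : p.Prime) (hcard : Nat.card (E ≃ₐ[K] E) = p) (σ : E ≃ₐ[K] E)
    (hσ : σ ≠ 1) (x : Additive Eˣ) (hx : x ∈ (dv E).ker) (hx2 : dlt (eac σ) x = 0) :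
    ∃ u : (𝓞 K)ˣ, Units.map (algebraMap K E : K →* E)
      (Units.map (algebraMap (𝓞 K) K : 𝓞 K →* K) u) = Additive.toMul x := by
  rw [dlt_apply, sub_eq_zero] at hx2
  have hfix : ∀ τ : E ≃ₐ[K] E, τ ((Additive.toMul x : Eˣ) : E) = ((Additive.toMul x : Eˣ) : E) := by
    have hs : σ ∈ MulAction.stabilizer (E ≃ₐ[K] E) (((Additive.toMul x : Eˣ) : E)) := by
      rw [MulAction.mem_stabilizer_iff]
      exact congrArg (fun y : Additive Eˣ => ((Additive.toMul y : Eˣ) : E)) hx2
    have htop : MulAction.stabilizer (E ≃ₐ[K] E) (((Additive.toMul x : Eˣ) : E)) = ⊤ := by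
      have : Fact (Nat.card (E ≃ₐ[K] E)).Prime := ⟨by rw [hcard]; exact hp⟩
      rcases Subgroup.eq_bot_or_eq_top_of_prime_card
        (MulAction.stabilizer (E ≃ₐ[K] E) (((Additive.toMul x : Eˣ) : E))) with h | h
      · rw [h, Subgroup.mem_bot] at hs
        exact absurd hs hσ
      · exact h
    intro τ
    have : τ ∈ MulAction.stabilizer (E ≃ₐ[K] E) (((Additive.toMul x : Eˣ) : E)) := by
      rw [htop]; exact Subgroup.mem_top τ
    exact MulAction.mem_stabilizer_iff.1 this
  obtain ⟨y, hy⟩ := RSK.fixed_unit (F := K) (H := E) (Additive.toMul x) fun τ => Units.ext (hfix τ)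
  obtain ⟨u, hu⟩ := (un_mem x).1 hx
  have hyx : algebraMap K E (y : K) = ((Additive.toMul x : Eˣ) : E) := by rw [← hy]; rfl
  have hyx' : algebraMap K E ((y⁻¹ : Kˣ) : K) = (((Additive.toMul x)⁻¹ : Eˣ) : E) := by
    rw [← hy, ← map_inv]; rfl
  have i1 : IsIntegral ℤ (y : K) := by
    rw [← isIntegral_algebraMap_iff (FaithfulSMul.algebraMap_injective K E), hyx, ← hu]
    exact (u : 𝓞 E).isIntegral_coe
  have i2 : IsIntegral ℤ ((y⁻¹ : Kˣ) : K) := by
    rw [← isIntegral_algebraMap_iff (FaithfulSMul.algebraMap_injective K E), hyx', ← hu, ← map_inv]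
    exact ((u⁻¹ : (𝓞 E)ˣ) : 𝓞 E).isIntegral_coe
  refine ⟨⟨⟨(y : K), i1⟩, ⟨((y⁻¹ : Kˣ) : K), i2⟩, ?_, ?_⟩, ?_⟩
  · refine RingOfIntegers.ext ?_
    show (y : K) * ((y⁻¹ : Kˣ) : K) = 1
    exact Units.mul_inv y
  · refine RingOfIntegers.ext ?_
    show ((y⁻¹ : Kˣ) : K) * (y : K) = 1
    exact Units.inv_mul y
  · refine Units.ext ?_
    rw [← hy]
    rfl

theorem un_rankK {p : ℕ} (hp : p.Prime) (hcard : Nat.card (E ≃ₐ[K] E) = p) (σ : E ≃ₐ[K] E)
    (hσ : σ ≠ 1) :
    Module.finrank ℤ (dlt (un_res (eac σ) (dv E).ker (un_stab σ))).ker = Units.rank K := by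
  have := un_fin E
  have : Module.Finite ℤ (dlt (un_res (eac σ) (dv E).ker (un_stab σ))).ker := by
    have : Module.Finite ℤ (AddSubgroup.toIntSubmodule
      (dlt (un_res (eac σ) (dv E).ker (un_stab σ))).ker) := inferInstance
    exact this
  rw [← Units.finrank_eq K]
  have hmem : ∀ u : (𝓞 K)ˣ, Additive.ofMul (Units.map (algebraMap K E : K →* E)
      (Units.map (algebraMap (𝓞 K) K : 𝓞 K →* K) u)) ∈ (dv E).ker := by
    intro u
    refine (un_mem _).2 ⟨Units.map (algebraMap (𝓞 K) (𝓞 E) : 𝓞 K →* 𝓞 E) u, ?_⟩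
    refine Units.ext ?_
    rfl
  let φ : Additive (𝓞 K)ˣ →+ (dlt (un_res (eac σ) (dv E).ker (un_stab σ))).ker :=
    { toFun := fun u => ⟨⟨Additive.ofMul (Units.map (algebraMap K E : K →* E)
        (Units.map (algebraMap (𝓞 K) K : 𝓞 K →* K) (Additive.toMul u))), hmem _⟩, by
          rw [AddMonoidHom.mem_ker]
          refine Subtype.ext ?_
          rw [un_res_dlt, dlt_apply]
          show _ = (0 : Additive Eˣ)
          rw [sub_eq_zero]
          have h1 : Additive.toMul (eac σ (Additive.ofMul (Units.map (algebraMap K E : K →* E)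
            (Units.map (algebraMap (𝓞 K) K : 𝓞 K →* K) (Additive.toMul u))))) =
            Units.map (algebraMap K E : K →* E)
            (Units.map (algebraMap (𝓞 K) K : 𝓞 K →* K) (Additive.toMul u)) := by
            refine Units.ext ?_
            rw [eac_apply]
            exact σ.commutes _
          exact h1⟩
      map_zero' := by
        refine Subtype.ext (Subtype.ext ?_)
        show Additive.ofMul (Units.map (algebraMap K E : K →* E)
          (Units.map (algebraMap (𝓞 K) K : 𝓞 K →* K) 1)) = 0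
        rw [map_one, map_one]
        rfl
      map_add' := fun x y => by
        refine Subtype.ext (Subtype.ext ?_)
        show Additive.ofMul (Units.map (algebraMap K E : K →* E)
          (Units.map (algebraMap (𝓞 K) K : 𝓞 K →* K) (Additive.toMul x * Additive.toMul y))) = _
        rw [map_mul, map_mul]
        rfl }
  have hinj : Function.Injective φ := by
    intro x y h
    have h1 := congrArg Subtype.val (congrArg Subtype.val h)
    have h2 : Units.map (algebraMap K E : K →* E)
        (Units.map (algebraMap (𝓞 K) K : 𝓞 K →* K) (Additive.toMul x)) =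
      Units.map (algebraMap K E : K →* E)
        (Units.map (algebraMap (𝓞 K) K : 𝓞 K →* K) (Additive.toMul y)) := h1
    have h3 : Additive.toMul x = Additive.toMul y := by
      refine Units.ext (FaithfulSMul.algebraMap_injective (𝓞 K) K
        (FaithfulSMul.algebraMap_injective K E ?_))
      exact congrArg (fun u : Eˣ => (u : E)) h2
    exact h3
  have hsurj : Function.Surjective φ := by
    intro x
    have hx := AddMonoidHom.mem_ker.1 x.2
    have hx2 : dlt (eac σ) (x.1 : Additive Eˣ) = 0 := by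
      rw [← un_res_dlt (eac σ) (dv E).ker (un_stab σ), hx]
      rfl
    obtain ⟨u, hu⟩ := un_inv hp hcard σ hσ x.1.1 x.1.2 hx2
    exact ⟨Additive.ofMul u, Subtype.ext (Subtype.ext hu)⟩
  exact (AddEquiv.ofBijective φ ⟨hinj, hsurj⟩).toIntLinearEquiv.finrank_eq.symm

theorem q_units_pr {p : ℕ} (hp : p.Prime) (hcard : Nat.card (E ≃ₐ[K] E) = p) (σ : E ≃ₐ[K] E)
    (hσ : σ ≠ 1) (hinf : ∀ (w : InfinitePlace E) (τ : E ≃ₐ[K] E), τ • w = w → τ = 1) :
    ((dv E).ker.map (trc p (eac σ))).relIndex ((dlt (eac σ)).ker ⊓ (dv E).ker) ≠ 0 ∧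
    ((dv E).ker.map (dlt (eac σ))).relIndex ((trc p (eac σ)).ker ⊓ (dv E).ker) =
      p * ((dv E).ker.map (trc p (eac σ))).relIndex ((dlt (eac σ)).ker ⊓ (dv E).ker) := by
  have := un_fin E
  set τ := un_res (eac σ) (dv E).ker (un_stab σ) with hτ
  have hper : ∀ x, τ^[p] x = x := by
    intro x
    refine Subtype.ext ?_
    rw [hτ, un_res_iter]
    exact eac_per hcard σ _
  have e1 := un_tr (trc p (eac σ)) (dlt (eac σ)) (dv E).ker (trc p τ) (dlt τ)
    (fun x => un_res_trc _ _ _ p x) (fun x => un_res_dlt _ _ _ x)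
  have e2 := un_tr (dlt (eac σ)) (trc p (eac σ)) (dv E).ker (dlt τ) (trc p τ)
    (fun x => un_res_dlt _ _ _ x) (fun x => un_res_trc _ _ _ p x)
  have : IsUnramifiedAtInfinitePlaces K E := ⟨fun w => by
    rw [InfinitePlace.isUnramified_iff_stabilizer_eq_bot, Subgroup.eq_bot_iff_forall]
    exact fun τ hτ => hinf w τ (MulAction.mem_stabilizer_iff.1 hτ)⟩
  have hcE := IsUnramifiedAtInfinitePlaces.card_infinitePlace K E
  rw [← IsGalois.card_aut_eq_finrank K E, hcard] at hcE
  have hs : 0 < Fintype.card (InfinitePlace K) := Fintype.card_pos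
  rw [e1, e2]
  refine un_her hp τ hper hs (un_rankK hp hcard σ hσ) ?_
  rw [un_rank, Units.rank, hcE]

end A2

end Pool.Agent.RG

namespace Pool.Agent.RG

theorem q_units : type_of% @q_units_pr := @q_units_pr

end Pool.Agent.RG
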