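import Pool.Agent.Lib_helper35.RG.Defs
import Pool.Agent.Lib_helper35.RG.P_AMB
import Pool.Agent.Lib_helper35.RG.P_EQ
import Pool.Agent.Lib_helper35.RG.P_EXA
import Pool.Agent.Lib_helper35.RG.P_UN

/-!
# RG, block EXB: a character attached to an unramified extension of prime degree
-/

set_option autoImplicit false
set_option linter.unusedSectionVars false
set_option linter.unusedVariables false

namespace Pool.Agent.RG

open Pool.Agent.RSK Pool.Agent.RS2 Pool.Agent.RS3 Pool.Agent.SY Pool.Agent.AU Pool.Agent.CR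
open NumberField IsDedekindDomain Filter Topology Complex
open scoped TensorProduct

theorem exb_sep0 {k V : Type} [Field k] [AddCommGroup V] [Module k V] {x : V} (hx : x ≠ 0) :
    ∃ f : V →+ k, f x ≠ 0 := by
  by_contra h
  push Not at h
  exact hx ((Module.forall_dual_apply_eq_zero_iff k x).1 fun φ => h φ.toAddMonoidHom)

/-- characters separate the points of a group of exponent `p` -/
theorem exb_sep {V : Type} [AddCommGroup V] {p : ℕ} (hp : p.Prime) (hV : ∀ y : V, p • y = 0)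
    {x : V} (hx : x ≠ 0) : ∃ f : V →+ ZMod p, f x ≠ 0 := by
  have : Fact p.Prime := ⟨hp⟩
  exact @exb_sep0 (ZMod p) V _ _ (AddCommGroup.zmodModule hV) x hx

/-- a nonzero character of a proper subgroup quotient of exponent `p` -/
theorem exb_char {D : Type} [AddCommGroup D] {p : ℕ} (hp : p.Prime) (B : AddSubgroup D)
    (hB : B ≠ ⊤) (hpB : ∀ x : D, p • x ∈ B) :
    ∃ f : D →+ ZMod p, f ≠ 0 ∧ ∀ x ∈ B, f x = 0 := by
  obtain ⟨x, hx⟩ : ∃ x, x ∉ B := by
    by_contra h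
    push Not at h
    exact hB (AddSubgroup.eq_top_iff' B |>.2 h)
  have hq : ∀ y : D ⧸ B, p • y = 0 := by
    intro y
    obtain ⟨z, rfl⟩ := QuotientAddGroup.mk_surjective y
    rw [← QuotientAddGroup.mk_nsmul]
    exact (QuotientAddGroup.eq_zero_iff _).2 (hpB z)
  have hx0 : (QuotientAddGroup.mk x : D ⧸ B) ≠ 0 := fun h =>
    hx ((QuotientAddGroup.eq_zero_iff _).1 h)
  obtain ⟨φ, hφ⟩ := exb_sep hp hq hx0
  refine ⟨φ.comp (QuotientAddGroup.mk' B), fun h => hφ ?_, fun y hy => ?_⟩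
  · exact DFunLike.congr_fun h x
  · have h2 : (QuotientAddGroup.mk y : D ⧸ B) = 0 := (QuotientAddGroup.eq_zero_iff _).2 hy
    show φ (QuotientAddGroup.mk y) = 0
    rw [h2, map_zero]

section A2

variable {K E : Type} [Field K] [NumberField K] [Field E] [NumberField E] [Algebra K E]
  [IsGalois K E]

theorem ex_E_pr {p : ℕ} (hp : p.Prime) (hcard : Nat.card (E ≃ₐ[K] E) = p)
    (hunr : ∀ W : HeightOneSpectrum (𝓞 E), Algebra.IsUnramifiedAt (𝓞 K) W.asIdeal)
    (hinf : ∀ (w : InfinitePlace E) (τ : E ≃ₐ[K] E), τ • w = w → τ = 1) :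
    ∃ f : Dvs K →+ ZMod p, f ≠ 0 ∧ (∀ x : Additive Kˣ, f (dv K x) = 0) ∧
      ∀ W : HeightOneSpectrum (𝓞 E), (∀ σ : E ≃ₐ[K] E, act σ (Sum.inr W) = Sum.inr W → σ = 1) →
        f (Finsupp.single (W.under (𝓞 K)) 1) = 0 := by
  obtain ⟨σ, hσ⟩ : ∃ σ : E ≃ₐ[K] E, σ ≠ 1 := by
    by_contra h
    push Not at h
    have h1 : Nat.card (E ≃ₐ[K] E) = 1 := by
      have : Unique (E ≃ₐ[K] E) := ⟨⟨1⟩, h⟩
      exact Nat.card_unique
    rw [hcard] at h1
    exact hp.one_lt.ne' h1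
  obtain ⟨hU1, hU⟩ := q_units hp hcard σ hσ hinf
  obtain ⟨-, hge⟩ := q_amb hp (eac σ) (dac σ) (eac_per hcard σ) (dac_per hcard σ) (dv E)
    (dv_eac σ) (eac_h90 hp hcard σ hσ) (dv_index E) hU1 hU
  set X : AddSubgroup (Dvs E) := ((dlt (eac σ)).ker.map (dv E)) ⊔ (trc p (dac σ)).range with hX
  have hran : (xt K E).range = (dlt (dac σ)).ker := by
    ext D
    rw [AddMonoidHom.mem_range, AddMonoidHom.mem_ker, xt_inv hp hcard σ hσ]
  have hidx : (X.comap (xt K E)).index = X.relIndex (dlt (dac σ)).ker := by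
    rw [AddSubgroup.index_comap, hran]
  have hne : X.comap (xt K E) ≠ ⊤ := by
    intro h
    rw [h, AddSubgroup.index_top] at hidx
    rw [← hidx] at hge
    exact absurd hge (not_le.2 hp.one_lt)
  obtain ⟨f, hf, hfB⟩ := exb_char hp (X.comap (xt K E)) hne (by
    intro D
    rw [AddSubgroup.mem_comap, map_nsmul, ← xt_trc hp hcard σ hσ]
    exact AddSubgroup.mem_sup_right ⟨_, rfl⟩)
  refine ⟨f, hf, fun x => hfB _ ?_, fun W hW => hfB _ ?_⟩
  · rw [AddSubgroup.mem_comap, xt_dv hunr]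
    refine AddSubgroup.mem_sup_left ⟨inc K E x, ?_, rfl⟩
    show dlt (eac σ) (inc K E x) = 0
    exact (inc_inv hp hcard σ hσ _).2 ⟨x, rfl⟩
  · rw [AddSubgroup.mem_comap, xt_single hp hcard σ hσ W hW]
    exact AddSubgroup.mem_sup_right ⟨_, rfl⟩

end A2

end Pool.Agent.RG

namespace Pool.Agent.RG

theorem ex_E : type_of% @ex_E_pr := @ex_E_pr

end Pool.Agent.RG
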