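import Pool.Agent.Lib_helper35.RG.Defs
import Pool.Agent.Lib_helper35.RG.P_EXB
import Pool.Agent.Lib_helper35.RG.P_SPU
import Pool.Agent.Lib_helper17.RS.P_IF
import Pool.Agent.Lib_helper17.RS.P_QU1
import Pool.Agent.Lib_helper17.RS.P_QU2
import Pool.Agent.Lib_helper17.RS.P_UP1
import Pool.Agent.Lib_helper17.RS.P_UP2
import Pool.Agent.Lib_helper17.RS.P_TW

/-!
# RG block GEX: `ex_E` for the fixed field of `M`
-/

set_option autoImplicit false
set_option linter.unusedSectionVars false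
set_option linter.unusedVariables false

namespace Pool.Agent.RG

open Pool.Agent.RSK Pool.Agent.RS2 Pool.Agent.RS3 Pool.Agent.SY Pool.Agent.AU Pool.Agent.CR
open NumberField IsDedekindDomain Filter Topology Complex
open scoped TensorProduct

section gex

variable {F K H : Type} [Field F] [NumberField F] [Field K] [NumberField K] [Field H]
  [NumberField H] [Algebra F K] [Algebra F H] [Algebra K H] [IsScalarTower F K H]
  [IsGalois F H] [IsGalois F K] [IsGalois K H]
  {G G' : Type} [CommGroup G] [Fintype G] [CommGroup G'] [Fintype G'] {ι : G ≃* (H ≃ₐ[F] H)}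
  {ι' : G' ≃* (K ≃ₐ[F] K)} {π : G →* G'}

theorem gex_split (hq : Quo ι ι' π) {W : Pl H} (hW : ∀ g : G, act (ι g) W = W → π g = 1)
    (σ' : K ≃ₐ[F] K) (hσ' : act σ' (dn K W) = dn K W) : σ' = 1 := by
  obtain ⟨g, hg⟩ := hq.surj (ι'.symm σ')
  have hσg : ι' (π g) = σ' := by rw [hg, MulEquiv.apply_symm_apply]
  have h1 : dn K (act (ι g) W) = dn K W := by rw [quo_act hq, hσg, hσ']
  obtain ⟨τ, hτ⟩ := act_trans (F := K) h1
  obtain ⟨t, ht⟩ := ι.surjective (τ.restrictScalars F)
  have h2 : act (ι (t * g)) W = W := by rw [map_mul, act_mul, ht, act_restrict, hτ]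
  have h3 := hW _ h2
  have h4 : π t = 1 := by
    refine ι'.injective ?_
    rw [map_one]
    ext x
    refine (algebraMap K H).injective ?_
    rw [hq.compat, ht]
    exact τ.commutes x
  rw [map_mul, h4, one_mul] at h3
  rw [← hσg, h3, map_one]

end gex

section A3

variable {K H : Type} [Field K] [NumberField K] [Field H] [NumberField H] [Algebra K H]
  [IsGalois K H] {G : Type} [CommGroup G] [Fintype G] (ι : G ≃* (H ≃ₐ[K] H))

theorem gen_exists_pr {p : ℕ} (hp : p.Prime) (M : Subgroup G) (hM : M.index = p)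
    (hram : ∀ W : HeightOneSpectrum (𝓞 H), Algebra.IsUnramifiedAt (𝓞 K) W.asIdeal ∨
      ∀ g : G, act (ι g) (Sum.inr W) = Sum.inr W → g ∈ M)
    (hinf : ∀ (w : InfinitePlace H) (g : G), act (ι g) (Sum.inl w) = Sum.inl w → g ∈ M) :
    ∃ f : Dvs K →+ ZMod p, f ≠ 0 ∧ VM ι M p f := by
  classical
  have := kf_galois ι M
  obtain ⟨ι', hq⟩ := kf_quo ι M
  have : Fintype (G ⧸ M) := Fintype.ofFinite _
  have hcard : Nat.card (Kf ι M ≃ₐ[K] Kf ι M) = p := by
    rw [← Nat.card_congr ι'.toEquiv, ← hM]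
    rfl
  have hπ : ∀ g : G, g ∈ M → QuotientGroup.mk' M g = 1 := fun g hg =>
    (QuotientGroup.eq_one_iff g).2 hg
  have hun : ∀ W : HeightOneSpectrum (𝓞 (Kf ι M)), Algebra.IsUnramifiedAt (𝓞 K) W.asIdeal := by
    intro W
    obtain ⟨W', hW'⟩ := dn_surj (H := H) (Sum.inr W : Pl (Kf ι M))
    rcases W' with W' | W'
    · exact absurd hW' (by simp [dn])
    · have h1 : W'.under (𝓞 (Kf ι M)) = W := Sum.inr_injective hW'
      rcases hram W' with h4 | h4
      · have h5 : W'.asIdeal.LiesOver W.asIdeal := ⟨by rw [← h1]; rfl⟩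
        exact Algebra.IsUnramifiedAt.of_liesOver (𝓞 K) W.asIdeal W'.asIdeal
      · refine spl_unram W fun σ hσ => ?_
        refine gex_split hq (W := Sum.inr W') (fun g hg => hπ g (h4 g hg)) σ ?_
        rw [hW']
        exact hσ
  have hin : ∀ (w : InfinitePlace (Kf ι M)) (τ : Kf ι M ≃ₐ[K] Kf ι M), τ • w = w → τ = 1 := by
    intro w τ hτ
    obtain ⟨W', hW'⟩ := dn_surj (H := H) (Sum.inl w : Pl (Kf ι M))
    rcases W' with W' | W'
    · refine gex_split hq (W := Sum.inl W') (fun g hg => hπ g (hinf W' g hg)) τ ?_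
      rw [hW']
      exact congrArg Sum.inl hτ
    · exact absurd hW' (by simp [dn])
  obtain ⟨f, hf0, hf1, hf2⟩ := ex_E hp hcard hun hin
  refine ⟨f, hf0, hf1, fun W hW => ?_⟩
  have h1 : dn K (dn (Kf ι M) (Sum.inr W : Pl H)) = dn K (Sum.inr W : Pl H) := dn_dn _
  have h2 : (W.under (𝓞 (Kf ι M))).under (𝓞 K) = W.under (𝓞 K) := Sum.inr_injective h1
  rw [← h2]
  refine hf2 _ fun σ hσ => ?_
  exact gex_split hq (W := Sum.inr W) (fun g hg => hπ g (hW g hg)) σ hσ

end A3

end Pool.Agent.RG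

namespace Pool.Agent.RG

theorem gen_exists : type_of% @gen_exists_pr := @gen_exists_pr

end Pool.Agent.RG
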