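import Pool.Agent.Lib_helper35.RG.Defs
import Pool.Agent.Lib_helper17.RS.P_XA2

set_option autoImplicit false
set_option linter.unusedSectionVars false
set_option linter.unusedVariables false

namespace Pool.Agent.RG

open Pool.Agent.RSK Pool.Agent.RS2 Pool.Agent.RS3 Pool.Agent.SY Pool.Agent.AU Pool.Agent.CR
open NumberField IsDedekindDomain Filter Topology Complex
open scoped TensorProduct

theorem res_zero_pr {K : Type} [Field K] [NumberField K] (T' : Finset (HeightOneSpectrum (𝓞 K)))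
    {p : ℕ} (f : Dvs K →+ ZMod p) (hf : ∀ x : Additive Kˣ, f (dv K x) = 0)
    (h : ∀ D ∈ Dv T', f D = 0) : f = 0 := by
  classical
  have key : ∀ D : Dvs K, f D = 0 := by
    intro D
    have hD : D ∈ Dv (∅ : Finset (HeightOneSpectrum (𝓞 K))) := fun v hv =>
      absurd hv (Finset.notMem_empty v)
    obtain ⟨D1, hD1⟩ := xa2_surj T' (xa2Psi ∅ ⟨D, hD⟩)
    have hDD : D - D1.1 ∈ Dv (∅ : Finset (HeightOneSpectrum (𝓞 K))) := fun v hv =>
      absurd hv (Finset.notMem_empty v)
    have h1 : xa2Psi ∅ ⟨D - D1.1, hDD⟩ = 0 := by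
      have e1 : xa2Psi ∅ ⟨D - D1.1, hDD⟩ = xa2Psi ∅ ⟨D, hD⟩ - xa2Psi T' D1 := by
        unfold xa2Psi
        simp only [AddMonoidHom.comp_apply, AddSubgroup.subtype_apply, map_sub]
      rw [e1, hD1, sub_self]
    have h2 : (⟨D - D1.1, hDD⟩ : Dv (∅ : Finset (HeightOneSpectrum (𝓞 K)))) ∈
        (P0 (∅ : Finset (HeightOneSpectrum (𝓞 K)))).addSubgroupOf (Dv ∅) := by
      rw [← xa2_ker]
      exact h1
    rw [AddSubgroup.mem_addSubgroupOf] at h2
    obtain ⟨-, x, -, hx⟩ := h2
    have h3 : D - D1.1 = dv K (Additive.ofMul x) := by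
      ext v
      rw [dv_apply]
      exact hx v
    have h4 : D = D1.1 + dv K (Additive.ofMul x) := by
      rw [← h3]
      abel
    rw [h4, map_add, hf, h D1.1 D1.2, add_zero]
  exact DFunLike.ext _ _ fun D => key D

end Pool.Agent.RG

namespace Pool.Agent.RG

theorem res_zero : type_of% @res_zero_pr := @res_zero_pr

end Pool.Agent.RG
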