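import Pool.Agent.Lib_helper35.RG.Defs
import Pool.Agent.Lib_helper35.RG.P_CT
import Pool.Agent.Lib_helper35.RG.P_DJ
import Pool.Agent.Lib_helper35.RG.P_GEX
import Pool.Agent.Lib_helper35.RG.P_RES
import Pool.Agent.Lib_helper17.CRF.N_PC5
import Pool.Agent.Lib_helper17.RS.P_XD

/-!
# Project RG, block HA: divisibility of the class number
-/

set_option autoImplicit false
set_option linter.unusedSectionVars false
set_option linter.unusedVariables false

namespace Pool.Agent.RG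

open Pool.Agent.RSK Pool.Agent.RS2 Pool.Agent.RS3 Pool.Agent.SY Pool.Agent.AU Pool.Agent.CR
open NumberField IsDedekindDomain Filter Topology Complex
open scoped TensorProduct

section HAK

variable {K : Type} [Field K] [NumberField K]

theorem ha_rel_ne (S T : Finset (HeightOneSpectrum (𝓞 K))) : (Pr S T).relIndex (Dv T) ≠ 0 := by
  have h1 : (Pr (∅ : Finset (HeightOneSpectrum (𝓞 K))) T).relIndex (Dv T) ≠ 0 := (xd_hA_ne T).1
  have h2 : Pr (∅ : Finset (HeightOneSpectrum (𝓞 K))) T ≤ Pr S T := by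
    rintro D ⟨h, x, hx, hD⟩
    exact ⟨h, x, hx, fun v _ => hD v (Finset.notMem_empty v)⟩
  intro h0
  have h3 := AddSubgroup.relIndex_dvd_of_le_left (Dv T) h2
  rw [h0, zero_dvd_iff] at h3
  exact h1 h3

/-- a character which kills the principal divisors and the places in `S` kills `Pr` -/
theorem ha_pr {S T : Finset (HeightOneSpectrum (𝓞 K))} {p : ℕ} (f : Dvs K →+ ZMod p)
    (hf : ∀ x : Additive Kˣ, f (dv K x) = 0)
    (hS : ∀ v ∈ S, f (Finsupp.single v 1) = 0) {D : Dvs K} (hD : D ∈ Pr S T) : f D = 0 := by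
  classical
  obtain ⟨-, x, -, hx⟩ := hD
  have h1 : f (D - dv K (Additive.ofMul x)) = 0 := by
    have h2 : D - dv K (Additive.ofMul x) =
        ∑ v ∈ (D - dv K (Additive.ofMul x)).support,
          Finsupp.single v ((D - dv K (Additive.ofMul x)) v) :=
      (Finsupp.sum_single _).symm
    rw [h2, map_sum]
    refine Finset.sum_eq_zero fun v hv => ?_
    have hvS : v ∈ S := by
      by_contra h
      rw [Finsupp.mem_support_iff, Finsupp.sub_apply, dv_apply, hx v h] at hv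
      exact hv (sub_self _)
    have h3 : Finsupp.single v ((D - dv K (Additive.ofMul x)) v) =
        ((D - dv K (Additive.ofMul x)) v) • Finsupp.single v (1 : ℤ) := by
      rw [Finsupp.smul_single, smul_eq_mul, mul_one]
    rw [h3, map_zsmul, hS v hvS, smul_zero]
  rw [map_sub, hf, sub_zero] at h1
  exact h1

end HAK

section HAF

variable {F H : Type} [Field F] [NumberField F] [Field H] [NumberField H] [Algebra F H]
  [IsGalois F H] {G : Type} [CommGroup G] [Fintype G] {ι : G ≃* (H ≃ₐ[F] H)}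
  {S T : Finset (HeightOneSpectrum (𝓞 F))} {r : ℕ} {w : Fin r → Pl H}
  {fr : HeightOneSpectrum (𝓞 F) → G}

/-- the decomposition groups of the places in `S` lie in `RN ι S ⊤` -/
theorem ha_dec (W : Pl H) (hW : InS S (dn F W)) (g : G) (hg : act (ι g) W = W) :
    g ∈ RN ι S ⊤ := by
  obtain ⟨P, hP⟩ := pc5_of hW
  have h1 : g ∈ dgF ι P.pl := by
    rw [hP]
    exact (dgF_eq W g).2 hg
  have h2 : dgF ι P.pl ⊓ ⊤ ≤ RN ι S ⊤ := le_iSup (fun P : PS S => dgF ι P.pl ⊓ ⊤) P
  exact h2 ⟨h1, Subgroup.mem_top _⟩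

theorem hA_dvd_pr (hD : Data ι S T r w fr) {p : ℕ} (hp : p.Prime) (hexp : ∀ g : G, g ^ p = 1)
    {g : ℕ} (hg : (RN ι S ⊤).index = p ^ g) : p ^ g ∣ hA S T ∧
      p ^ g ∣ (Pr S T ⊔ (Dv T).map (nsmulAddMonoidHom p)).relIndex (Dv T) := by
  classical
  have hRdec : ∀ (M : Subgroup G), RN ι S ⊤ ≤ M → ∀ W : Pl H, InS S (dn F W) →
      ∀ g : G, act (ι g) W = W → g ∈ M := fun M hM W hW g hg => hM (ha_dec W hW g hg)
  refine count_dvd (V := Dvs F) (N := G) hp hexp (RN ι S ⊤) hg (Pr S T) (Dv T) (fun D h => h.1)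
    (ha_rel_ne S T)
    (fun M f => RN ι S ⊤ ≤ M ∧ ∃ f' : Dvs F →+ ZMod p, VM ι M p f' ∧ ∀ x : Dv T, f x = f' x)
    ?_ ?_ ?_ ?_
  · rintro M f ⟨hM, f', hf', hff⟩ c
    refine ⟨hM, c • f', ⟨fun x => ?_, fun W hW => ?_⟩, fun x => ?_⟩
    · rw [AddMonoidHom.smul_apply, hf'.prin, smul_zero]
    · rw [AddMonoidHom.smul_apply, hf'.split W hW, smul_zero]
    · rw [AddMonoidHom.smul_apply, AddMonoidHom.smul_apply, hff]
  · rintro M f ⟨hM, f', hf', hff⟩ x hx
    rw [hff]
    refine ha_pr f' hf'.prin (fun v hv => ?_) hx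
    obtain ⟨W, hW⟩ := dn_surj (H := H) (Sum.inr v : Pl F)
    rcases W with W | W
    · exact absurd hW (by simp [dn])
    · have h1 : W.under (𝓞 F) = v := Sum.inr_injective hW
      have h2 := hf'.split W (fun g hg => hRdec M hM (Sum.inr W) (by
        show W.under (𝓞 F) ∈ S
        rw [h1]
        exact hv) g hg)
      rwa [h1] at h2
  · intro M hM hMp
    obtain ⟨f', hf0, hf'⟩ := gen_exists ι hp M hMp (fun W => by
      by_cases hW : W.under (𝓞 F) ∈ S
      · exact Or.inr fun g hg => hRdec M hM (Sum.inr W) hW g hg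
      · exact Or.inl (hD.unram W hW)) (fun w g hg => hRdec M hM (Sum.inl w) trivial g hg)
    refine ⟨f'.comp (Dv T).subtype, fun h => hf0 ?_, hM, f', hf', fun x => rfl⟩
    refine res_zero T f' hf'.prin fun D hD => ?_
    exact DFunLike.congr_fun h (⟨D, hD⟩ : Dv T)
  · rintro M M' hM hM' hne f ⟨-, f1, hf1, hff1⟩ ⟨-, f2, hf2, hff2⟩
    have h1 : f1 - f2 = 0 := by
      refine res_zero T (f1 - f2) (fun x => ?_) fun D hD => ?_
      · rw [AddMonoidHom.sub_apply, hf1.prin, hf2.prin, sub_zero]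
      · rw [AddMonoidHom.sub_apply]
        have h2 := hff1 ⟨D, hD⟩
        have h3 := hff2 ⟨D, hD⟩
        rw [h2] at h3
        rw [h3, sub_self]
    have h2 : f1 = f2 := sub_eq_zero.1 h1
    have h3 : f1 = 0 := gen_disj ι hp hM hM' hne hf1 (h2 ▸ hf2)
    ext x
    rw [hff1, h3]
    rfl

end HAF

end Pool.Agent.RG

namespace Pool.Agent.RG

theorem hA_dvd : type_of% @hA_dvd_pr := @hA_dvd_pr

end Pool.Agent.RG
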