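import Pool.Agent.Lib_helper35.RG.Defs
import Pool.Agent.Lib_helper35.RG.P_EQ
import Pool.Agent.Lib_helper17.CRF.N_PC5
import Pool.Agent.Lib_helper17.RS.P_IF
import Pool.Agent.Lib_helper17.RS.P_QU1

/-!
# Project RG, block INV: an invariant character
-/

set_option autoImplicit false
set_option linter.unusedSectionVars false
set_option linter.unusedVariables false

namespace Pool.Agent.RG

open Pool.Agent.RSK Pool.Agent.RS2 Pool.Agent.RS3 Pool.Agent.SY Pool.Agent.AU Pool.Agent.CR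
open NumberField IsDedekindDomain Filter Topology Complex
open scoped TensorProduct

section INVA

variable {F K H : Type} [Field F] [NumberField F] [Field K] [NumberField K] [Field H]
  [NumberField H] [Algebra F H] [Algebra K H] [Algebra F K]

/-- the action on the places only depends on the field automorphism -/
theorem inv_act (σ : H ≃ₐ[K] H) (τ : H ≃ₐ[F] H) (h : ∀ x, σ x = τ x) (W : Pl H) :
    act σ W = act τ W := by
  have h1 : σ.toRingEquiv = τ.toRingEquiv := RingEquiv.ext h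
  rcases W with W | W
  · show Sum.inl (σ • W) = Sum.inl (τ • W)
    congr 1
    ext x
    rw [InfinitePlace.smul_apply, InfinitePlace.smul_apply]
    have h2 : σ.symm x = τ.symm x := by
      rw [AlgEquiv.symm_apply_eq, h, AlgEquiv.apply_symm_apply]
    rw [h2]
  · show Sum.inr (HeightOneSpectrum.equivOfRingEquiv
      (RingOfIntegers.mapRingEquiv σ.toRingEquiv) W) = Sum.inr (HeightOneSpectrum.equivOfRingEquiv
      (RingOfIntegers.mapRingEquiv τ.toRingEquiv) W)
    rw [h1]

theorem inv_pac_one (W : HeightOneSpectrum (𝓞 K)) : pac (1 : K ≃ₐ[F] K) W = W :=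
  Sum.inr_injective (act_one (F := F) (Sum.inr W : Pl K))

theorem inv_pac_mul (σ τ : K ≃ₐ[F] K) (W : HeightOneSpectrum (𝓞 K)) :
    pac (σ * τ) W = pac σ (pac τ W) :=
  Sum.inr_injective (act_mul (F := F) σ τ (Sum.inr W : Pl K))

theorem inv_dac_one (D : Dvs K) : dac (1 : K ≃ₐ[F] K) D = D := by
  ext W
  have h1 := dac_apply (1 : K ≃ₐ[F] K) D W
  rwa [inv_pac_one] at h1

theorem inv_dac_mul (σ τ : K ≃ₐ[F] K) (D : Dvs K) : dac (σ * τ) D = dac σ (dac τ D) := by
  ext W
  obtain ⟨W', rfl⟩ := (pac (σ * τ)).surjective W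
  rw [dac_apply, inv_pac_mul, dac_apply, dac_apply]

end INVA

section INVF

variable {F H : Type} [Field F] [NumberField F] [Field H] [NumberField H] [Algebra F H]
  [IsGalois F H] {G : Type} [CommGroup G] [Fintype G] {ι : G ≃* (H ≃ₐ[F] H)}

/-- the characters with the property `VM` -/
def inv_V {K : Type} [Field K] [NumberField K] [Algebra K H] {G' : Type} [CommGroup G']
    (ι' : G' ≃* (H ≃ₐ[K] H)) (M : Subgroup G') (p : ℕ) : AddSubgroup (Dvs K →+ ZMod p) where
  carrier := {f | VM ι' M p f}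
  zero_mem' := ⟨fun x => rfl, fun W _ => rfl⟩
  add_mem' := fun {a b} ha hb => ⟨fun x => by
    rw [AddMonoidHom.add_apply, ha.prin, hb.prin, add_zero], fun W hW => by
    rw [AddMonoidHom.add_apply, ha.split W hW, hb.split W hW, add_zero]⟩
  neg_mem' := fun {a} ha => ⟨fun x => by
    rw [AddMonoidHom.neg_apply, ha.prin, neg_zero], fun W hW => by
    rw [AddMonoidHom.neg_apply, ha.split W hW, neg_zero]⟩

theorem inv_fin {K : Type} [Field K] [NumberField K] [Algebra K H] {G' : Type} [CommGroup G']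
    (ι' : G' ≃* (H ≃ₐ[K] H)) (M : Subgroup G') {p : ℕ} (hp : p.Prime) :
    Finite (inv_V ι' M p) := by
  have : NeZero p := ⟨hp.ne_zero⟩
  have : Finite (Dvs K ⧸ (dv K).range) := Nat.finite_of_card_ne_zero (dv_index K)
  refine Finite.of_injective (β := (Dvs K ⧸ (dv K).range) → ZMod p)
    (fun f x => QuotientAddGroup.lift (dv K).range f.1 (by
      rintro _ ⟨y, rfl⟩
      exact f.2.prin y) x) ?_
  intro f g hfg
  refine Subtype.ext (AddMonoidHom.ext fun D => ?_)
  exact congrFun hfg (QuotientAddGroup.mk D)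

theorem inv_exists_pr {p : ℕ} (hp : p.Prime) (N : Subgroup G)
    (ιN : N ≃* (H ≃ₐ[Kf ι N] H)) (hι : ∀ (g : N) (x : H), ιN g x = ι (g : G) x) (M : Subgroup N)
    (hex : ∃ f : Dvs (Kf ι N) →+ ZMod p, f ≠ 0 ∧ VM ιN M p f) :
    ∃ f : Dvs (Kf ι N) →+ ZMod p, f ≠ 0 ∧ VM ιN M p f ∧
      ∀ σ : Kf ι N ≃ₐ[F] Kf ι N, σ ^ p = 1 → ∀ D, f (dac σ D) = f D := by
  classical
  have hpf : Fact p.Prime := ⟨hp⟩
  have hgal : IsGalois F (Kf ι N) := kf_galois ι N
  have hft : Fintype (G ⧸ N) := Fintype.ofFinite _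
  obtain ⟨ι', hq⟩ := kf_quo ι N
  have hact : ∀ (g : N) (W : Pl H), act (ιN g) W = act (ι (g : G)) W := fun g W =>
    inv_act (ιN g) (ι (g : G)) (hι g) W
  -- `VM` is invariant
  have hVM : ∀ (γ : G ⧸ N) (f : Dvs (Kf ι N) →+ ZMod p), VM ιN M p f →
      VM ιN M p (f.comp (dac (ι' γ))) := by
    intro γ f hf
    obtain ⟨g, rfl⟩ := QuotientGroup.mk'_surjective N γ
    refine ⟨fun x => ?_, fun W hW => ?_⟩
    · show f (dac _ (dv _ x)) = 0
      rw [← dv_eac]
      exact hf.prin _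
    · show f (dac _ (Finsupp.single _ 1)) = 0
      rw [dac_single]
      obtain ⟨W', hW'⟩ : ∃ W' : HeightOneSpectrum (𝓞 H), act (ι g) (Sum.inr W) = Sum.inr W' :=
        ⟨_, rfl⟩
      have h1 := quo_act (K := Kf ι N) hq g (Sum.inr W)
      rw [hW'] at h1
      have h2 : W'.under (𝓞 (Kf ι N)) =
          pac (ι' ((QuotientGroup.mk' N) g)) (W.under (𝓞 (Kf ι N))) := Sum.inr_injective h1
      rw [← h2]
      refine hf.split W' fun k hk => hW k ?_
      rw [hact, ← hW', ← act_mul, ← map_mul, mul_comm, map_mul, act_mul] at hk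
      rw [hact]
      have h3 := congrArg (act (ι g)⁻¹) hk
      rw [← act_mul (ι g)⁻¹ (ι g) (act (ι (k : G)) (Sum.inr W)),
        ← act_mul (ι g)⁻¹ (ι g) (Sum.inr W), inv_mul_cancel, act_one, act_one] at h3
      exact h3
  -- the group and its action
  set Γ : Subgroup (G ⧸ N) := (powMonoidHom p : (G ⧸ N) →* (G ⧸ N)).ker with hΓ
  have hPG : IsPGroup p Γ := by
    rintro ⟨x, hx⟩
    refine ⟨1, Subtype.ext ?_⟩
    rw [pow_one]
    exact hx
  let act' : MulAction Γ (inv_V ιN M p) :=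
    { smul := fun γ f => ⟨f.1.comp (dac (ι' γ)), hVM γ f.1 f.2⟩
      one_smul := fun f => Subtype.ext (AddMonoidHom.ext fun D => by
        show f.1 (dac (ι' ((1 : Γ) : G ⧸ N)) D) = f.1 D
        rw [OneMemClass.coe_one, map_one, inv_dac_one])
      mul_smul := fun γ γ' f => Subtype.ext (AddMonoidHom.ext fun D => by
        show f.1 (dac (ι' ((γ * γ' : Γ) : G ⧸ N)) D) =
          f.1 (dac (ι' (γ' : G ⧸ N)) (dac (ι' (γ : G ⧸ N)) D))
        rw [← inv_dac_mul, ← map_mul, mul_comm γ γ']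
        rfl) }
  have hfin : Finite (inv_V ιN M p) := inv_fin ιN M hp
  -- `p` divides the number of the characters
  have hcard : p ∣ Nat.card (inv_V ιN M p) := by
    obtain ⟨f, hf0, hf⟩ := hex
    have h1 : addOrderOf (⟨f, hf⟩ : inv_V ιN M p) = p := by
      refine addOrderOf_eq_prime ?_ ?_
      · refine Subtype.ext (AddMonoidHom.ext fun D => ?_)
        show (p • f) D = 0
        rw [AddMonoidHom.smul_apply, nsmul_eq_mul, ZMod.natCast_self, zero_mul]
      · intro h
        exact hf0 (congrArg Subtype.val h)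
    exact dvd_trans (dvd_of_eq h1.symm) (addOrderOf_dvd_natCard _)
  have h0 : (0 : inv_V ιN M p) ∈ MulAction.fixedPoints Γ (inv_V ιN M p) := by
    intro γ
    exact Subtype.ext (AddMonoidHom.ext fun D => rfl)
  obtain ⟨b, hb, hb0⟩ := hPG.exists_fixed_point_of_prime_dvd_card_of_fixed_point
    (inv_V ιN M p) hcard h0
  refine ⟨b.1, fun h => hb0 (Subtype.ext h.symm), b.2, fun σ hσ D => ?_⟩
  have hγ : ι'.symm σ ∈ Γ := by
    rw [hΓ, MonoidHom.mem_ker, powMonoidHom_apply, ← map_pow, hσ, map_one]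
  have h1 := hb ⟨ι'.symm σ, hγ⟩
  have h2 : b.1 (dac (ι' (ι'.symm σ)) D) = b.1 D :=
    DFunLike.congr_fun (congrArg Subtype.val h1) D
  rwa [MulEquiv.apply_symm_apply] at h2

end INVF

end Pool.Agent.RG

namespace Pool.Agent.RG

theorem inv_exists : type_of% @inv_exists_pr := @inv_exists_pr

end Pool.Agent.RG
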