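import Pool.Agent.Lib_helper35.RG.Defs
import Pool.Agent.Lib_helper17.CRF.N_PC5
import Pool.Agent.Lib_helper17.CRF.N_PC1
import Pool.Agent.Lib_helper17.RS.P_IF
import Pool.Agent.Lib_helper17.RS.P_QU1

/-!
# Project RG, block KIL: invariant characters kill `Pr` and `DvP`
-/

set_option autoImplicit false
set_option linter.unusedSectionVars false
set_option linter.unusedVariables false

namespace Pool.Agent.RG

open Pool.Agent.RSK Pool.Agent.RS2 Pool.Agent.RS3 Pool.Agent.SY Pool.Agent.AU Pool.Agent.CR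
open NumberField IsDedekindDomain Filter Topology Complex
open scoped TensorProduct

section KILA

/-- a sum over a finite set, invariant under a permutation of order `p`, of an invariant function
which vanishes at the fixed points, is `0` in `ZMod p` -/
theorem kil_orb {α : Type} {p : ℕ} (hp : p.Prime) (s : Finset α) (e : α → α)
    (hs : ∀ a ∈ s, e a ∈ s) (he : ∀ a, e^[p] a = a) (h : α → ZMod p)
    (hinv : ∀ a, h (e a) = h a) (hfix : ∀ a ∈ s, e a = a → h a = 0) :
    ∑ a ∈ s, h a = 0 := by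
  classical
  have hpf : Fact p.Prime := ⟨hp⟩
  have h1 := Finset.sum_comp (s := s) (fun c : ZMod p => c) h
  rw [h1]
  refine Finset.sum_eq_zero fun c hc => ?_
  by_cases hc0 : c = 0
  · rw [hc0, smul_zero]
  -- the points with value `c`
  let A := {a // a ∈ s.filter (fun a => h a = c)}
  have hA : ∀ a, a ∈ s.filter (fun a => h a = c) → e a ∈ s.filter (fun a => h a = c) := by
    intro a ha
    rw [Finset.mem_filter] at ha ⊢
    exact ⟨hs a ha.1, by rw [hinv, ha.2]⟩
  let g : Function.End A := fun a => ⟨e a.1, hA a.1 a.2⟩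
  have hg : ∀ (n : ℕ) (a : A), ((g ^ n : Function.End A) a).1 = e^[n] a.1 := by
    intro n
    induction n with
    | zero => intro a; rfl
    | succ n ih =>
      intro a
      rw [pow_succ]
      show ((g ^ n : Function.End A) (g a)).1 = _
      rw [ih]
      rfl
  have hgp : g ^ p ^ 1 = 1 := by
    funext a
    refine Subtype.ext ?_
    rw [hg, pow_one, he]
    rfl
  have hft : Fintype (Function.fixedPoints g) := Fintype.ofFinite _
  have h2 : Fintype.card A ≡ Fintype.card (Function.fixedPoints g) [MOD p] := by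
    convert Equiv.Perm.card_fixedPoints_modEq (p := p) (n := 1) hgp
  have h3 : Fintype.card (Function.fixedPoints g) = 0 := by
    rw [Fintype.card_eq_zero_iff]
    refine ⟨fun a => ?_⟩
    have h4 : g a.1 = a.1 := a.2
    have h5 : e a.1.1 = a.1.1 := congrArg Subtype.val h4
    have h6 := Finset.mem_filter.1 a.1.2
    exact hc0 (h6.2.symm.trans (hfix _ h6.1 h5))
  rw [h3] at h2
  have h7 : p ∣ Fintype.card A := (Nat.modEq_zero_iff_dvd).1 h2
  have h8 : Fintype.card A = (s.filter (fun a => h a = c)).card := Fintype.card_coe _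
  rw [h8] at h7
  obtain ⟨m, hm⟩ := h7
  rw [hm, mul_comm, mul_smul, nsmul_eq_mul (p : ℕ), ZMod.natCast_self, zero_mul, smul_zero]

theorem kil_supp {K : Type} [Field K] [NumberField K] {p : ℕ} (f : Dvs K →+ ZMod p) (D : Dvs K) :
    f D = ∑ v ∈ D.support, (D v) • f (Finsupp.single v 1) := by
  classical
  conv_lhs => rw [show D = ∑ v ∈ D.support, Finsupp.single v (D v) from (Finsupp.sum_single _).symm]
  rw [map_sum]
  refine Finset.sum_congr rfl fun v _ => ?_
  have h3 : Finsupp.single v (D v) = (D v) • Finsupp.single v (1 : ℤ) := by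
    rw [Finsupp.smul_single, smul_eq_mul, mul_one]
  rw [h3, map_zsmul]

theorem kil_act {F K H : Type} [Field F] [NumberField F] [Field K] [NumberField K] [Field H]
    [NumberField H] [Algebra F H] [Algebra K H] [Algebra F K] (σ : H ≃ₐ[K] H) (τ : H ≃ₐ[F] H)
    (h : ∀ x, σ x = τ x) (W : Pl H) : act σ W = act τ W := by
  have h1 : σ.toRingEquiv = τ.toRingEquiv := RingEquiv.ext h
  rcases W with W | W
  · show Sum.inl (σ • W) = Sum.inl (τ • W)
    congr 1
    ext x
    rw [InfinitePlace.smul_apply, InfinitePlace.smul_apply]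
    have h2 : σ.symm x = τ.symm x := by
      rw [AlgEquiv.symm_apply_eq, h, AlgEquiv.apply_symm_apply]
    rw [h2]
  · show Sum.inr (HeightOneSpectrum.equivOfRingEquiv
      (RingOfIntegers.mapRingEquiv σ.toRingEquiv) W) = Sum.inr (HeightOneSpectrum.equivOfRingEquiv
      (RingOfIntegers.mapRingEquiv τ.toRingEquiv) W)
    rw [h1]

end KILA

section C

variable {F H : Type} [Field F] [NumberField F] [Field H] [NumberField H] [Algebra F H]
  [IsGalois F H] {G : Type} [CommGroup G] [Fintype G] {ι : G ≃* (H ≃ₐ[F] H)}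
  {S T : Finset (HeightOneSpectrum (𝓞 F))} {r : ℕ} {w : Fin r → Pl H}
  {fr : HeightOneSpectrum (𝓞 F) → G}

/-- tower law for the places below -/
theorem kil_tower (N : Subgroup G) (W : HeightOneSpectrum (𝓞 H)) :
    (W.under (𝓞 (Kf ι N))).under (𝓞 F) = W.under (𝓞 F) := by
  ext y
  show algebraMap (𝓞 (Kf ι N)) (𝓞 H) (algebraMap (𝓞 F) (𝓞 (Kf ι N)) y) ∈ W.asIdeal ↔
    algebraMap (𝓞 F) (𝓞 H) y ∈ W.asIdeal
  have : algebraMap (𝓞 (Kf ι N)) (𝓞 H) (algebraMap (𝓞 F) (𝓞 (Kf ι N)) y) =
      algebraMap (𝓞 F) (𝓞 H) y := by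
    apply RingOfIntegers.ext
    exact (IsScalarTower.algebraMap_apply F (Kf ι N) H (y : F)).symm
  rw [this]

theorem inv_kill_pr (hD : Data ι S T r w fr) {p : ℕ} (hp : p.Prime) (hexp : ∀ g : G, g ^ p = 1)
    (N : Subgroup G) (hN : N.index = p) (ιN : N ≃* (H ≃ₐ[Kf ι N] H))
    (hι : ∀ (g : N) (x : H), ιN g x = ι (g : G) x) (M : Subgroup N)
    (hS : ∀ W : HeightOneSpectrum (𝓞 H), W.under (𝓞 F) ∈ S →
      ∀ g : N, act (ιN g) (Sum.inr W) = Sum.inr W → g ∈ M)
    {f : Dvs (Kf ι N) →+ ZMod p} (hf : VM ιN M p f)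
    (hinv : ∀ σ : Kf ι N ≃ₐ[F] Kf ι N, σ ^ p = 1 → ∀ D, f (dac σ D) = f D)
    {D : Dvs (Kf ι N)} (hDm : D ∈ Pr (ovr (Kf ι N) S) (ovr (Kf ι N) T) ⊔ DvP p F (Kf ι N) T) :
    f D = 0 := by
  classical
  have hpf : Fact p.Prime := ⟨hp⟩
  have hgal : IsGalois F (Kf ι N) := kf_galois ι N
  have hft : Fintype (G ⧸ N) := Fintype.ofFinite _
  obtain ⟨ι', hq⟩ := kf_quo ι N
  have hcardQ : Nat.card (G ⧸ N) = p := hN
  have hact : ∀ (g : N) (W : Pl H), act (ιN g) W = act (ι (g : G)) W := fun g W =>
    kil_act (F := F) (ιN g) (ι (g : G)) (hι g) W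
  -- places above
  have hov : ∀ V : HeightOneSpectrum (𝓞 (Kf ι N)), ∃ W : HeightOneSpectrum (𝓞 H),
      W.under (𝓞 (Kf ι N)) = V := fun V => pc1_over (K := H) V
  -- places above `S`
  have hSk : ∀ V : HeightOneSpectrum (𝓞 (Kf ι N)), V.under (𝓞 F) ∈ S →
      f (Finsupp.single V 1) = 0 := by
    intro V hV
    obtain ⟨W, rfl⟩ := hov V
    rw [kil_tower] at hV
    exact hf.split W (hS W hV)
  obtain ⟨a, ha, b, hb, rfl⟩ := AddSubgroup.mem_sup.1 hDm
  rw [map_add]
  have hfa : f a = 0 := by
    obtain ⟨-, x, -, hx⟩ := ha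
    have h1 : f (a - dv (Kf ι N) (Additive.ofMul x)) = 0 := by
      rw [kil_supp]
      refine Finset.sum_eq_zero fun v hv => ?_
      have hvS : v ∈ ovr (Kf ι N) S := by
        by_contra h
        rw [Finsupp.mem_support_iff, Finsupp.sub_apply, dv_apply, hx v h] at hv
        exact hv (sub_self _)
      rw [hSk v (mem_ovr.1 hvS), smul_zero]
    rw [map_sub, hf.prin, sub_zero] at h1
    exact h1
  have hfb : f b = 0 := by
    obtain ⟨hb1, hb2⟩ := hb
    -- a generator of `Gal(K/F)`
    obtain ⟨g0, hg0⟩ : ∃ g : G, g ∉ N := by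
      by_contra h
      push Not at h
      have : N = ⊤ := (Subgroup.eq_top_iff' N).2 h
      rw [this, Subgroup.index_top] at hN
      exact hp.one_lt.ne hN
    have hγ : (QuotientGroup.mk' N) g0 ≠ 1 := by
      intro h
      exact hg0 ((QuotientGroup.eq_one_iff g0).1 h)
    set σ : Kf ι N ≃ₐ[F] Kf ι N := ι' ((QuotientGroup.mk' N) g0) with hσ
    have hσp : σ ^ p = 1 := by
      rw [hσ, ← map_pow, ← map_pow, hexp, map_one, map_one]
    have hpac : ∀ (n : ℕ) (V : HeightOneSpectrum (𝓞 (Kf ι N))), (pac σ)^[n] V = pac (σ ^ n) V := by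
      intro n
      induction n with
      | zero =>
        intro V
        exact (Sum.inr_injective (act_one (F := F) (Sum.inr V : Pl (Kf ι N)))).symm
      | succ n ih =>
        intro V
        rw [Function.iterate_succ_apply, ih, pow_succ]
        exact (Sum.inr_injective (act_mul (F := F) (σ ^ n) σ (Sum.inr V : Pl (Kf ι N)))).symm
    have hpac1 : ∀ V : HeightOneSpectrum (𝓞 (Kf ι N)), (pac σ)^[p] V = V := by
      intro V
      rw [hpac, hσp]
      exact Sum.inr_injective (act_one (F := F) (Sum.inr V : Pl (Kf ι N)))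
    have hbσ : ∀ V, b (pac σ V) = b V := fun V => hb2 σ hσp V
    rw [kil_supp]
    refine kil_orb hp b.support (pac σ) ?_ hpac1 (fun V => b V • f (Finsupp.single V 1)) ?_ ?_
    · intro V hV
      rw [Finsupp.mem_support_iff] at hV ⊢
      rwa [hbσ]
    · intro V
      show b (pac σ V) • f (Finsupp.single (pac σ V) 1) = b V • f (Finsupp.single V 1)
      rw [hbσ, ← dac_single, hinv σ hσp]
    · intro V _ hV
      show b V • f (Finsupp.single V 1) = 0
      suffices h : f (Finsupp.single V 1) = 0 by rw [h, smul_zero]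
      by_cases hVS : V.under (𝓞 F) ∈ S
      · exact hSk V hVS
      obtain ⟨W, hW⟩ := hov V
      have hWF : W.under (𝓞 F) = V.under (𝓞 F) := by rw [← hW, kil_tower]
      -- the decomposition group
      have hdg : dgF ι (Sum.inr (V.under (𝓞 F)) : Pl F) = Subgroup.zpowers (fr (V.under (𝓞 F))) :=
        dgF_fr (fun W' hW' => hD.unram W' (by rw [hW']; exact hVS)) (hD.frob _ hVS)
      have hdec : ∀ g : G, act (ι g) (Sum.inr W : Pl H) = Sum.inr W ↔
          g ∈ Subgroup.zpowers (fr (V.under (𝓞 F))) := by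
        intro g
        rw [← hdg, ← hWF]
        exact (dgF_eq (ι := ι) (Sum.inr W : Pl H) g).symm
      -- all of `Gal(K/F)` fixes `V`
      have hfixall : ∀ g : G, act (ι' ((QuotientGroup.mk' N) g)) (Sum.inr V : Pl (Kf ι N)) =
          Sum.inr V := by
        intro g
        have h1 : (QuotientGroup.mk' N) g ∈ Subgroup.zpowers ((QuotientGroup.mk' N) g0) :=
          mem_zpowers_of_prime_card hcardQ hγ
        obtain ⟨n, hn⟩ := (isOfFinOrder_of_finite _).mem_powers_iff_mem_zpowers.2 h1
        have hn' : ((QuotientGroup.mk' N) g0) ^ n = (QuotientGroup.mk' N) g := hn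
        rw [← hn', map_pow]
        show Sum.inr (pac (σ ^ n) V) = Sum.inr V
        rw [← hpac]
        congr 1
        exact Function.iterate_fixed hV n
      -- the Frobenius is not in `N`
      have hfrN : fr (V.under (𝓞 F)) ∉ N := by
        intro hfr
        have hle : Subgroup.zpowers (fr (V.under (𝓞 F))) ≤ N := by
          rw [Subgroup.zpowers_le]
          exact hfr
        refine hg0 ?_
        have h1 := quo_act (K := Kf ι N) hq g0 (Sum.inr W)
        have h2 : dn (Kf ι N) (Sum.inr W : Pl H) = Sum.inr V := by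
          show Sum.inr _ = _
          rw [hW]
        rw [h2, hfixall g0, ← h2] at h1
        obtain ⟨τ, hτ⟩ := act_trans (F := Kf ι N) (W := (Sum.inr W : Pl H))
          (W' := act (ι g0) (Sum.inr W)) h1.symm
        obtain ⟨n, rfl⟩ := ιN.surjective τ
        rw [hact] at hτ
        have h3 : act (ι ((n : G)⁻¹ * g0)) (Sum.inr W : Pl H) = Sum.inr W := by
          rw [map_mul, act_mul, ← hτ, ← act_mul, ← map_mul, inv_mul_cancel, map_one, act_one]
        have h4 := hle ((hdec _).1 h3)
        have h5 : (n : G) * ((n : G)⁻¹ * g0) ∈ N := N.mul_mem n.2 h4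
        rwa [mul_inv_cancel_left] at h5
      rw [← hW]
      refine hf.split W fun g hg => ?_
      rw [hact] at hg
      have h1 := (hdec _).1 hg
      obtain ⟨n, hn⟩ := (isOfFinOrder_of_finite _).mem_powers_iff_mem_zpowers.2 h1
      have hn' : (fr (V.under (𝓞 F))) ^ n = (g : G) := hn
      have hpn : p ∣ n := by
        by_contra hpn
        have hcop : Nat.Coprime n p := ((Nat.Prime.coprime_iff_not_dvd hp).2 hpn).symm
        obtain ⟨m, -, hm⟩ := Nat.exists_mul_mod_eq_one_of_coprime hcop hp.one_lt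
        refine hfrN ?_
        have h2 : (fr (V.under (𝓞 F))) ^ (n * m) = fr (V.under (𝓞 F)) := by
          rw [← Nat.div_add_mod (n * m) p, hm, pow_add, pow_mul, hexp, one_pow, one_mul, pow_one]
        rw [← h2, pow_mul, hn']
        exact N.pow_mem g.2 m
      obtain ⟨m, rfl⟩ := hpn
      have h6 : (g : G) = 1 := by rw [← hn', pow_mul, hexp, one_pow]
      have h7 : g = 1 := Subtype.ext h6
      rw [h7]
      exact M.one_mem
  rw [hfa, hfb, add_zero]

end C

end Pool.Agent.RG

namespace Pool.Agent.RG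

theorem inv_kill : type_of% @inv_kill_pr := @inv_kill_pr

end Pool.Agent.RG
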