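import Pool.Agent.Lib_helper35.RG.Defs

/-!
# Block KN: the Galois group of `H` over the fixed field of `N`
-/

set_option autoImplicit false
set_option linter.unusedSectionVars false
set_option linter.unusedVariables false

namespace Pool.Agent.RG

open Pool.Agent.RSK Pool.Agent.RS2 Pool.Agent.RS3 Pool.Agent.SY Pool.Agent.AU Pool.Agent.CR
open NumberField IsDedekindDomain Filter Topology Complex
open scoped TensorProduct

section C

variable {F H : Type} [Field F] [NumberField F] [Field H] [NumberField H] [Algebra F H]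
  [IsGalois F H] {G : Type} [CommGroup G] [Fintype G] {ι : G ≃* (H ≃ₐ[F] H)}
  {S T : Finset (HeightOneSpectrum (𝓞 F))} {r : ℕ} {w : Fin r → Pl H}
  {fr : HeightOneSpectrum (𝓞 F) → G}

/-- Block KN: the group of `H / Kf ι N` is `N`. -/
theorem kf_iota_pr (ι : G ≃* (H ≃ₐ[F] H)) (N : Subgroup G) :
    ∃ ιN : N ≃* (H ≃ₐ[Kf ι N] H), ∀ (g : N) (x : H), ιN g x = ι (g : G) x := by
  have h1 : IntermediateField.fixingSubgroup (Kf ι N) = N.map ι.toMonoidHom :=
    IntermediateField.fixingSubgroup_fixedField _
  refine ⟨((N.equivMapOfInjective ι.toMonoidHom ι.injective).trans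
    (MulEquiv.subgroupCongr h1.symm)).trans (IntermediateField.fixingSubgroupEquiv (Kf ι N)),
    fun g x => rfl⟩

end C

end Pool.Agent.RG

namespace Pool.Agent.RG

theorem kf_iota : type_of% @kf_iota_pr := @kf_iota_pr

end Pool.Agent.RG
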