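import Pool.Agent.Lib_helper35.RG.Defs
import Pool.Agent.Lib_helper35.RG.P_CT
import Pool.Agent.Lib_helper35.RG.P_DJ
import Pool.Agent.Lib_helper35.RG.P_GEX
import Pool.Agent.Lib_helper35.RG.P_INV
import Pool.Agent.Lib_helper35.RG.P_KIL
import Pool.Agent.Lib_helper35.RG.P_KN
import Pool.Agent.Lib_helper35.RG.P_RES
import Pool.Agent.Lib_helper17.CRF.N_PC5
import Pool.Agent.Lib_helper17.RS.P_XD

/-!
# Project RG, block HJ: divisibility of the class number of `H^N` modulo invariant classes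
-/

set_option autoImplicit false
set_option linter.unusedSectionVars false
set_option linter.unusedVariables false

namespace Pool.Agent.RG

open Pool.Agent.RSK Pool.Agent.RS2 Pool.Agent.RS3 Pool.Agent.SY Pool.Agent.AU Pool.Agent.CR
open NumberField IsDedekindDomain Filter Topology Complex
open scoped TensorProduct

section HJK

variable {K : Type} [Field K] [NumberField K]

theorem hj_rel_ne (S T : Finset (HeightOneSpectrum (𝓞 K))) {A : AddSubgroup (Dvs K)}
    (hA : Pr S T ≤ A) : A.relIndex (Dv T) ≠ 0 := by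
  have h1 : (Pr (∅ : Finset (HeightOneSpectrum (𝓞 K))) T).relIndex (Dv T) ≠ 0 := (xd_hA_ne T).1
  have h2 : Pr (∅ : Finset (HeightOneSpectrum (𝓞 K))) T ≤ A := by
    refine le_trans ?_ hA
    rintro D ⟨h, x, hx, hD⟩
    exact ⟨h, x, hx, fun v _ => hD v (Finset.notMem_empty v)⟩
  intro h0
  have h3 := AddSubgroup.relIndex_dvd_of_le_left (Dv T) h2
  rw [h0, zero_dvd_iff] at h3
  exact h1 h3

end HJK

section HJA

variable {F K H : Type} [Field F] [NumberField F] [Field K] [NumberField K] [Field H]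
  [NumberField H] [Algebra F H] [Algebra K H]

/-- the action on the places only depends on the field automorphism -/
theorem hj_act (σ : H ≃ₐ[K] H) (τ : H ≃ₐ[F] H) (h : ∀ x, σ x = τ x) (W : Pl H) :
    act σ W = act τ W := by
  have h1 : σ.toRingEquiv = τ.toRingEquiv := RingEquiv.ext h
  rcases W with W | W
  · show Sum.inl (σ • W) = Sum.inl (τ • W)
    congr 1
    ext x
    rw [InfinitePlace.smul_apply, InfinitePlace.smul_apply]
    have h2 : σ.symm x = τ.symm x := by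
      rw [AlgEquiv.symm_apply_eq, h, AlgEquiv.apply_symm_apply]
    rw [h2]
  · show Sum.inr (HeightOneSpectrum.equivOfRingEquiv
      (RingOfIntegers.mapRingEquiv σ.toRingEquiv) W) = Sum.inr (HeightOneSpectrum.equivOfRingEquiv
      (RingOfIntegers.mapRingEquiv τ.toRingEquiv) W)
    rw [h1]

end HJA

section HJF

variable {F H : Type} [Field F] [NumberField F] [Field H] [NumberField H] [Algebra F H]
  [IsGalois F H] {G : Type} [CommGroup G] [Fintype G] {ι : G ≃* (H ≃ₐ[F] H)}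
  {S T : Finset (HeightOneSpectrum (𝓞 F))} {r : ℕ} {w : Fin r → Pl H}
  {fr : HeightOneSpectrum (𝓞 F) → G}

/-- the decomposition groups in `N` of the places above `S` lie in `RN ι S N` -/
theorem hj_dec (N : Subgroup G) (W : Pl H) (hW : InS S (dn F W)) (g : G) (hgN : g ∈ N)
    (hg : act (ι g) W = W) : g ∈ RN ι S N := by
  obtain ⟨P, hP⟩ := pc5_of hW
  have h1 : g ∈ dgF ι P.pl := by
    rw [hP]
    exact (dgF_eq W g).2 hg
  have h2 : dgF ι P.pl ⊓ N ≤ RN ι S N := le_iSup (fun P : PS S => dgF ι P.pl ⊓ N) P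
  exact h2 ⟨h1, hgN⟩

theorem hj_unram (N : Subgroup G) (W : HeightOneSpectrum (𝓞 H))
    (h : Algebra.IsUnramifiedAt (𝓞 F) W.asIdeal) :
    Algebra.IsUnramifiedAt (𝓞 (Kf ι N)) W.asIdeal := by
  have : Algebra.FormallyUnramified (𝓞 F) (Localization.AtPrime W.asIdeal) := h
  exact Algebra.FormallyUnramified.of_restrictScalars (𝓞 F) (𝓞 (Kf ι N))
    (Localization.AtPrime W.asIdeal)

theorem hJ_dvd_pr (hD : Data ι S T r w fr) {p : ℕ} (hp : p.Prime) (hexp : ∀ g : G, g ^ p = 1)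
    (N : Subgroup G) (hN : N.index = p) {g : ℕ} (hg : (RN ι S N).relIndex N = p ^ g) :
    p ^ g ∣ hJ p F (Kf ι N) S T := by
  classical
  obtain ⟨ιN, hι⟩ := kf_iota ι N
  have hact : ∀ (g : N) (W : Pl H), act (ιN g) W = act (ι (g : G)) W := fun g W =>
    hj_act (ιN g) (ι (g : G)) (hι g) W
  set R : Subgroup N := (RN ι S N).subgroupOf N with hR
  have hRdec : ∀ (M : Subgroup N), R ≤ M → ∀ W : Pl H, InS S (dn F W) →
      ∀ g : N, act (ιN g) W = W → g ∈ M := by
    intro M hM W hW g hg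
    refine hM ?_
    rw [hR, Subgroup.mem_subgroupOf]
    exact hj_dec N W hW g g.2 (by rw [← hact]; exact hg)
  have hSdec : ∀ (M : Subgroup N), R ≤ M → ∀ W : HeightOneSpectrum (𝓞 H), W.under (𝓞 F) ∈ S →
      ∀ g : N, act (ιN g) (Sum.inr W) = Sum.inr W → g ∈ M := fun M hM W hW g hg =>
    hRdec M hM (Sum.inr W) hW g hg
  refine (count_dvd (V := Dvs (Kf ι N)) (N := N) hp (fun x => Subtype.ext (hexp x)) R hg
    (Pr (ovr (Kf ι N) S) (ovr (Kf ι N) T) ⊔ DvP p F (Kf ι N) T) (Dv (ovr (Kf ι N) T))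
    (sup_le (fun D h => h.1) (fun D h => h.1))
    (hj_rel_ne (ovr (Kf ι N) S) (ovr (Kf ι N) T) le_sup_left)
    (fun M f => R ≤ M ∧ ∃ f' : Dvs (Kf ι N) →+ ZMod p, VM ιN M p f' ∧
      (∀ σ : Kf ι N ≃ₐ[F] Kf ι N, σ ^ p = 1 → ∀ D, f' (dac σ D) = f' D) ∧
      ∀ x : Dv (ovr (Kf ι N) T), f x = f' x)
    ?_ ?_ ?_ ?_).1
  · rintro M f ⟨hM, f', hf', hinv, hff⟩ c
    refine ⟨hM, c • f', ⟨fun x => ?_, fun W hW => ?_⟩, fun σ hσ D => ?_, fun x => ?_⟩
    · rw [AddMonoidHom.smul_apply, hf'.prin, smul_zero]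
    · rw [AddMonoidHom.smul_apply, hf'.split W hW, smul_zero]
    · rw [AddMonoidHom.smul_apply, AddMonoidHom.smul_apply, hinv σ hσ]
    · rw [AddMonoidHom.smul_apply, AddMonoidHom.smul_apply, hff]
  · rintro M f ⟨hM, f', hf', hinv, hff⟩ x hx
    rw [hff]
    exact inv_kill hD hp hexp N hN ιN hι M (hSdec M hM) hf' hinv hx
  · intro M hM hMp
    obtain ⟨f0, hf0, hf0'⟩ := gen_exists ιN hp M hMp (fun W => by
      by_cases hW : W.under (𝓞 F) ∈ S
      · exact Or.inr fun g hg => hSdec M hM W hW g hg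
      · exact Or.inl (hj_unram N W (hD.unram W hW)))
      (fun w g hg => hRdec M hM (Sum.inl w) trivial g hg)
    obtain ⟨f', hf1, hf', hinv⟩ := inv_exists hp N ιN hι M ⟨f0, hf0, hf0'⟩
    refine ⟨f'.comp (Dv (ovr (Kf ι N) T)).subtype, fun h => hf1 ?_, hM, f', hf', hinv,
      fun x => rfl⟩
    refine res_zero (ovr (Kf ι N) T) f' hf'.prin fun D hD => ?_
    exact DFunLike.congr_fun h (⟨D, hD⟩ : Dv (ovr (Kf ι N) T))
  · rintro M M' hM hM' hne f ⟨-, f1, hf1, -, hff1⟩ ⟨-, f2, hf2, -, hff2⟩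
    have h1 : f1 - f2 = 0 := by
      refine res_zero (ovr (Kf ι N) T) (f1 - f2) (fun x => ?_) fun D hD => ?_
      · rw [AddMonoidHom.sub_apply, hf1.prin, hf2.prin, sub_zero]
      · rw [AddMonoidHom.sub_apply]
        have h2 := hff1 ⟨D, hD⟩
        have h3 := hff2 ⟨D, hD⟩
        rw [h2] at h3
        rw [h3, sub_self]
    have h2 : f1 = f2 := sub_eq_zero.1 h1
    have h3 : f1 = 0 := gen_disj ιN hp hM hM' hne hf1 (h2 ▸ hf2)
    ext x
    rw [hff1, h3]
    rfl

end HJF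

end Pool.Agent.RG

namespace Pool.Agent.RG

theorem hJ_dvd : type_of% @hJ_dvd_pr := @hJ_dvd_pr

end Pool.Agent.RG
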