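import Pool.Agent.Lib_helper35.RG.Defs
import Pool.Agent.Lib_helper35.RS2.P_AT

/-!
# RG, block MI: elements of `𝔪 ^ κ`
-/

set_option autoImplicit false
set_option linter.unusedSectionVars false
set_option linter.unusedVariables false

namespace Pool.Agent.RG

open Pool.Agent.RSK Pool.Agent.RS2 Pool.Agent.RS3 Pool.Agent.SY Pool.Agent.AU Pool.Agent.CR
open NumberField IsDedekindDomain Filter Topology Complex
open scoped TensorProduct

section D

variable {F H : Type} [Field F] [NumberField F] [Field H] [NumberField H] [Algebra F H]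
  [IsGalois F H] {G : Type} [CommGroup G] [Fintype G] {ι : G ≃* (H ≃ₐ[F] H)}
  {S T : Finset (HeightOneSpectrum (𝓞 F))} {r : ℕ} {w : Fin r → Pl H}
  {fr : HeightOneSpectrum (𝓞 F) → G}

theorem mi_sup_pow {R : Type} [CommRing R] (I J : Ideal R) (κ : ℕ) :
    (I ⊔ J) ^ κ ≤ I ^ κ ⊔ J := by
  induction κ with
  | zero => rw [pow_zero, pow_zero]; exact le_sup_left
  | succ κ ih =>
    rw [pow_succ, pow_succ, Ideal.mul_le]
    intro x hx y hy
    obtain ⟨a, ha, b, hb, rfl⟩ := Submodule.mem_sup.1 (ih hx)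
    obtain ⟨c, hc, d, hd, rfl⟩ := Submodule.mem_sup.1 hy
    refine Submodule.mem_sup.2 ⟨a * c, Ideal.mul_mem_mul ha hc, a * d + b * (c + d), ?_, by ring⟩
    exact J.add_mem (J.mul_mem_left a hd) (J.mul_mem_right _ hb)

theorem mI_norm_pr {G' : Type} [CommGroup G'] [Fintype G'] {P' : Subgroup G'} {p j : ℕ}
    (hC : CycP p j P') {κ : ℕ} {a : MonoidAlgebra ℤ G'} (ha : a ∈ mI p G' ^ κ) :
    ∃ t : ℤ, pF P' (fun χ => evZ χ a) = (p : ℂ) ^ κ * t := by
  have hcyc : IsCyclic G' := hC.cyc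
  obtain ⟨σ, hσ⟩ := hcyc.exists_generator
  set π : MonoidAlgebra ℤ G' := MonoidAlgebra.single σ (1 : ℤ) - 1 with hπ
  have hle : mI p G' ≤ Ideal.span {π} ⊔ Ideal.span {nP P'} := by
    rw [mI, Ideal.span_le]
    rintro x (hx | ⟨g, rfl⟩)
    · rw [Set.mem_singleton_iff] at hx
      subst hx
      obtain ⟨c, hc, hε⟩ := at_S hC hσ
      obtain ⟨c', hc'⟩ := at_aug hσ c
      rw [hε] at hc'
      have hf := at_phi_pos hC
      obtain ⟨f, hf'⟩ := Nat.exists_eq_succ_of_ne_zero hf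
      rw [hf', pow_succ] at hc
      refine Submodule.mem_sup.2 ⟨π * ((p : MonoidAlgebra ℤ G') * c' - π ^ f),
        Ideal.mem_span_singleton.2 (dvd_mul_right _ _), nP P', Ideal.mem_span_singleton_self _, ?_⟩
      rw [← hπ] at hc hc'
      rw [hc'] at hc
      push_cast at hc
      linear_combination -hc
    · obtain ⟨a', ha'⟩ := at_aug hσ (MonoidAlgebra.single g (1 : ℤ) - 1)
      have h0 : ab_eps G' (MonoidAlgebra.single g (1 : ℤ) - 1) = 0 := by
        rw [map_sub, ab_eps_single, map_one, sub_self]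
      rw [h0, Int.cast_zero, zero_add] at ha'
      refine Ideal.mem_sup_left (Ideal.mem_span_singleton.2 ⟨a', ha'⟩)
  have h1 := mi_sup_pow _ _ κ (Ideal.pow_right_mono hle κ ha)
  rw [Ideal.span_singleton_pow] at h1
  obtain ⟨x, hx, y, hy, rfl⟩ := Submodule.mem_sup.1 h1
  obtain ⟨b, rfl⟩ := Ideal.mem_span_singleton.1 hx
  obtain ⟨c, rfl⟩ := Ideal.mem_span_singleton.1 hy
  obtain ⟨u, hu, -⟩ := at_norm_S hC hσ
  obtain ⟨n, hn⟩ := at_norm_int hC b
  refine ⟨u ^ κ * n, ?_⟩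
  have h2 : pF P' (fun χ => evZ χ (π ^ κ * b + nP P' * c)) =
      pF P' (fun χ => evZ χ (π ^ κ * b)) := by
    refine at_pF_congr fun χ hχ => ?_
    have h3 : evZ χ (nP P') = 0 := ev_nP hχ
    rw [map_add, map_mul (evZ χ) (nP P') c, h3, zero_mul, add_zero]
  rw [h2, at_pF_evmul, at_pF_evpow, hu, hn]
  push_cast
  ring

theorem mI_one_pr {p κ : ℕ} {a : MonoidAlgebra ℤ G} (ha : a ∈ mI p G ^ κ) :
    ∃ t : ℤ, evZ (1 : G →* ℂˣ) a = (p : ℂ) ^ κ * t := by
  have h1 : (mI p G).map (ab_eps G) ≤ Ideal.span {(p : ℤ)} := by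
    rw [mI, Ideal.map_span, Ideal.span_le]
    rintro _ ⟨x, hx | ⟨g, rfl⟩, rfl⟩
    · rw [Set.mem_singleton_iff] at hx
      subst hx
      rw [map_natCast]
      exact Ideal.mem_span_singleton_self _
    · have h0 : ab_eps G (MonoidAlgebra.single g (1 : ℤ) - 1) = 0 := by
        rw [map_sub, ab_eps_single, map_one, sub_self]
      rw [h0]
      exact Ideal.zero_mem _
  have h2 : ab_eps G a ∈ Ideal.span {(p : ℤ)} ^ κ := by
    have h3 := Ideal.mem_map_of_mem (ab_eps G) ha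
    rw [Ideal.map_pow] at h3
    exact Ideal.pow_right_mono h1 κ h3
  rw [Ideal.span_singleton_pow, Ideal.mem_span_singleton] at h2
  obtain ⟨t, ht⟩ := h2
  refine ⟨t, ?_⟩
  have h4 : ∀ b : MonoidAlgebra ℤ G, evZ (1 : G →* ℂˣ) b = (ab_eps G b : ℂ) := by
    intro b
    induction b using MonoidAlgebra.induction_linear with
    | zero => simp
    | add x y hx hy => rw [map_add, map_add, hx, hy]; push_cast; ring
    | single g n =>
      rw [ab_evZ_single, ab_eps_single, MonoidHom.one_apply]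
      simp
  rw [h4, ht]
  push_cast
  ring

theorem mI_map_pr {G' : Type} [CommGroup G'] (π : G →* G') {p κ : ℕ} {a : MonoidAlgebra ℤ G}
    (ha : a ∈ mI p G ^ κ) :
    MonoidAlgebra.mapDomainRingHom ℤ π a ∈ mI p G' ^ κ := by
  have h1 : (mI p G).map (MonoidAlgebra.mapDomainRingHom ℤ π) ≤ mI p G' := by
    rw [mI, Ideal.map_span, Ideal.span_le]
    rintro _ ⟨x, hx | ⟨g, rfl⟩, rfl⟩
    · rw [Set.mem_singleton_iff] at hx
      subst hx
      rw [map_natCast]
      exact Ideal.subset_span (Or.inl rfl)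
    · refine Ideal.subset_span (Or.inr ⟨π g, ?_⟩)
      rw [map_sub, map_one]
      congr 1
      simp
  have h3 := Ideal.mem_map_of_mem (MonoidAlgebra.mapDomainRingHom ℤ π) ha
  rw [Ideal.map_pow] at h3
  exact Ideal.pow_right_mono h1 κ h3

end D

end Pool.Agent.RG

namespace Pool.Agent.RG

theorem mI_norm : type_of% @mI_norm_pr := @mI_norm_pr
theorem mI_one : type_of% @mI_one_pr := @mI_one_pr
theorem mI_map : type_of% @mI_map_pr := @mI_map_pr

end Pool.Agent.RG
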