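import Pool.Agent.Lib_helper35.RG.Defs
import Pool.Agent.Lib_helper35.RG.P_HA
import Pool.Agent.Lib_helper35.RG.P_HJ
import Pool.Agent.Lib_helper35.RG.P_MI
import Pool.Agent.Lib_helper3.AU.ST

/-!
# RG, block LI: integrality at `p`
-/

set_option autoImplicit false
set_option linter.unusedSectionVars false
set_option linter.unusedVariables false

namespace Pool.Agent.RG

open Pool.Agent.RSK Pool.Agent.RS2 Pool.Agent.RS3 Pool.Agent.SY Pool.Agent.AU Pool.Agent.CR
open NumberField IsDedekindDomain Filter Topology Complex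
open scoped TensorProduct

section D

variable {F H : Type} [Field F] [NumberField F] [Field H] [NumberField H] [Algebra F H]
  [IsGalois F H] {G : Type} [CommGroup G] [Fintype G] {ι : G ≃* (H ≃ₐ[F] H)}
  {S T : Finset (HeightOneSpectrum (𝓞 F))} {r : ℕ} {w : Fin r → Pl H}
  {fr : HeightOneSpectrum (𝓞 F) → G}

/-- the index of a subgroup of a `p`-group -/
theorem li_index {p : ℕ} (hp : p.Prime) (hG : IsPGroup p G) (N : Subgroup G) :
    ∃ g : ℕ, N.index = p ^ g := by
  have := Fact.mk hp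
  exact hG.index N

theorem li_p (hD : Data ι S T r w fr) {p : ℕ} (hp : p.Prime) (hexp : ∀ g : G, g ^ p = 1)
    {κ : ℕ} (hS : CondR p κ ι S w) {a : MonoidAlgebra ℤ G} (ha : a ∈ mI p G ^ κ)
    {c : (G →* ℂˣ) → ℂ} (hc : Lead S T r fr c)
    {u : (⋀[MonoidAlgebra ℤ G]^r (UM ι S T)) ⊗[ℤ] ℚ} (hu : IsStark ι S T w c u)
    (ψ : Fin r → (UM ι S T →ₗ[MonoidAlgebra ℤ G] MonoidAlgebra ℤ G)) :
    ∃ (m : ℕ) (b : MonoidAlgebra ℤ G), ¬ p ∣ m ∧ MonoidAlgebra.single 1 (m : ℚ) *
      (toQ G a * psiQ ψ u) = toQ G b := by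
  classical
  obtain ⟨hS1, hS2⟩ := hS
  have hpfact : Fact p.Prime := ⟨hp⟩
  have hG : IsPGroup p G := fun g => ⟨1, by rw [pow_one]; exact hexp g⟩
  have hev : ∀ χ : G →* ℂˣ, evQ χ (toQ G a * psiQ ψ u) = evZ χ a * evQ χ (psiQ ψ u) := by
    intro χ
    rw [map_mul, al_evZ]
  refine gl_main hp _ ?_ ?_
  · obtain ⟨⟨t, ht⟩, h0⟩ := fn_one hD hc hu ψ
    obtain ⟨t', ht'⟩ := mI_one ha
    refine ⟨1, ?_⟩
    rcases hS1 with hS1 | hS1
    · refine ⟨0, hp.one_lt.ne' ∘ Nat.dvd_one.1, ?_⟩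
      rw [hev, h0 hS1, Int.cast_zero, mul_zero, mul_zero, mul_zero]
    · obtain ⟨g, hg⟩ := li_index hp hG (RN ι S ⊤)
      obtain ⟨s, hs⟩ := (hA_dvd hD hp hexp hg).1
      rw [hg] at hS1
      obtain ⟨n, hn⟩ := hS1
      refine ⟨n * s * t' * t, hp.one_lt.ne' ∘ Nat.dvd_one.1, ?_⟩
      have hn' : (p : ℂ) ^ κ * (p : ℂ) ^ g = (Nat.card G : ℂ) * n := by exact_mod_cast hn
      have hs' : (hA S T : ℂ) = (p : ℂ) ^ g * s := by exact_mod_cast hs
      rw [hev, ht, ht', hs']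
      push_cast
      linear_combination (s * t' * t : ℂ) * hn'
  · intro N hcyc hN
    let _ : Fintype (G ⧸ N) := Fintype.ofFinite _
    obtain ⟨i, hi⟩ := IsPGroup.iff_card.1 (hG.to_subgroup N)
    have hj : Nat.card (G ⧸ N) = p ^ 1 := by
      obtain ⟨x, hx⟩ := hcyc.exists_generator
      have h1 : orderOf x = Nat.card (G ⧸ N) := orderOf_eq_card_of_forall_mem_zpowers hx
      have h2 : x ^ p = 1 := by
        obtain ⟨g, rfl⟩ := QuotientGroup.mk_surjective x
        rw [← QuotientGroup.mk_pow, hexp]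
        rfl
      have h3 : orderOf x ∣ p := orderOf_dvd_of_pow_eq_one h2
      rw [h1] at h3
      rcases (Nat.dvd_prime hp).1 h3 with h | h
      · exact absurd (Subgroup.index_eq_one.1 h) hN
      · rw [h, pow_one]
    by_cases hX : NoX ι S w N
    · obtain ⟨P', hC⟩ := cn_cycp hp Nat.one_pos hcyc hj
      obtain ⟨hNN, hidx, hidx'⟩ := cn_index hC
      obtain ⟨m, t, hm, ht⟩ := cn_main hD hc hu hC ψ
      obtain ⟨yN, hy0, hyN⟩ := fn_comp (P' := P') (psiQ ψ u)
      have hNidx : N.index = p := by rw [hidx, pow_one]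
      obtain ⟨i', g, hi', hg, hle⟩ := hS2 N hNidx hX
      have hii : i' = i := Nat.pow_right_injective hp.two_le (hi'.symm.trans hi)
      subst hii
      obtain ⟨b, hb⟩ := hJ_dvd hD hp hexp N hNidx hg
      -- the number of places
      have hge := card_ovr_ge hD (P'.comap (QuotientGroup.mk' N))
      rw [hidx', Nat.sub_self, pow_zero, mul_one] at hge
      rw [Nat.sub_self, pow_zero, mul_one] at hm
      have hm' : i' * (p - 1) + 1 ≤ κ + m + g := by omega
      -- multiplication by `a`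
      set aN : MonoidAlgebra ℤ (G ⧸ N) :=
        MonoidAlgebra.mapDomainRingHom ℤ (QuotientGroup.mk' N) a with haN
      obtain ⟨s, hs⟩ := mI_norm hC (mI_map (QuotientGroup.mk' N) ha)
      set zN : MonoidAlgebra ℚ (G ⧸ N) := toQ (G ⧸ N) aN * yN with hzN
      have hz0 : toQ (G ⧸ N) (nP P') * zN = 0 := by
        rw [hzN, mul_left_comm, hy0, mul_zero]
      have hzN' : ∀ χ' : (G ⧸ N) →* ℂˣ, Fth P' χ' → evQ χ' zN =
          evQ (χ'.comp (QuotientGroup.mk' N)) (toQ G a * psiQ ψ u) := by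
        intro χ' hχ'
        rw [hev, ← hyN χ' hχ', hzN, map_mul, al_evZ, tf_evZ]
      have hpF : pF P' (fun χ' => evQ χ' zN) =
          (p : ℂ) ^ (κ + m + g) * ((s * b * t : ℤ) : ℂ) := by
        have h1 : pF P' (fun χ' => evQ χ' zN) =
            pF P' (fun χ' => evZ χ' aN) *
              pF P' (fun χ' => evQ (χ'.comp (QuotientGroup.mk' N)) (psiQ ψ u)) := by
          have hfin : Finite ((G ⧸ N) →* ℂˣ) := px2_finite
          unfold pF
          rw [← finprod_mul_distrib (Set.toFinite _) (Set.toFinite _)]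
          refine finprod_congr fun χ' => ?_
          show evQ χ'.1 zN = evZ χ'.1 aN *
            evQ (χ'.1.comp (QuotientGroup.mk' N)) (psiQ ψ u)
          rw [hzN' χ'.1 χ'.2, hev, tf_evZ]
        rw [h1, hs, ht, hb]
        push_cast
        ring
      have hκ : p ^ (1 - 1) * (i' * (p - 1) + 1) ≤ κ + m + g := by
        rw [Nat.sub_self, pow_zero, one_mul]
        exact hm'
      obtain ⟨n, a', hn, ha'⟩ := alg_fin_at hC zN hz0 ⟨_, hpF⟩ hκ
      have hcard : Nat.card (QuotientGroup.mk' N).ker = p ^ i' := by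
        rw [QuotientGroup.ker_mk', hi]
      obtain ⟨b', hb1, hb2⟩ := gf_lift (QuotientGroup.mk'_surjective N) hC _ zN hz0 hzN'
        n a' (by
          rw [hcard, ha']
          push_cast
          rfl)
      rw [QuotientGroup.ker_mk'] at hb1 hb2
      exact ⟨n, b', hn, hb1, hb2⟩
    · refine ⟨1, 0, hp.one_lt.ne' ∘ Nat.dvd_one.1, fun χ hχ => ?_, fun χ _ => map_zero _⟩
      rw [hev, cn_zero hu hN hX hχ ψ, mul_zero, mul_zero, map_zero]

/-- Block LI: integrality at `p` -/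
theorem loc_p_pr (hD : Data ι S T r w fr) {p : ℕ} (hp : p.Prime) (hexp : ∀ g : G, g ^ p = 1)
    {κ : ℕ} (hS : CondR p κ ι S w) {a : MonoidAlgebra ℤ G} (ha : a ∈ mI p G ^ κ) :
    CR.StarkMul p a ι S T w fr := by
  classical
  intro c Θ hc hΘ M _ _ e l hM u hu
  obtain ⟨φ, hφ⟩ := st_equiv hM
  have hl : ∀ i, (wl ι S T (w i)).comp (φ : M →ₗ[MonoidAlgebra ℤ G] UM ι S T) = l i := by
    intro i
    ext m : 1
    rw [hM.log i m]
    show ∑ γ : G, MonoidAlgebra.single γ (lg (act (ι γ) (w i)) ((φ m).val : H)) = _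
    rw [hφ]
  have hu' : IsStark ι S T w c (stMap (φ : M →ₗ[MonoidAlgebra ℤ G] UM ι S T) u) := by
    refine ⟨fun a ha => ?_, fun χ => ?_⟩
    · rw [← st_smul, hu.er a ha, map_zero]
    · have h1 := st_ext (AddMonoidHom.id (MonoidAlgebra ℝ G))
        (φ : M →ₗ[MonoidAlgebra ℤ G] UM ι S T) (fun i => wl ι S T (w i)) u
      rw [AddMonoidHom.id_comp, AddMonoidHom.id_comp] at h1
      rw [h1]
      have h2 : (fun i => (wl ι S T (w i)).comp (φ : M →ₗ[MonoidAlgebra ℤ G] UM ι S T)) = l :=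
        funext hl
      rw [h2, hu.value]
      exact hΘ χ
  intro ψ
  have hψ : psiQ (fun i => (ψ i).comp (φ.symm : UM ι S T →ₗ[MonoidAlgebra ℤ G] M))
      (stMap (φ : M →ₗ[MonoidAlgebra ℤ G] UM ι S T) (a • u)) =
      extQ ((toQ G).toAddMonoidHom.comp (detMap ψ).toAddMonoidHom) (a • u) := by
    unfold psiQ
    rw [st_ext]
    have h : (fun i => ((ψ i).comp (φ.symm : UM ι S T →ₗ[MonoidAlgebra ℤ G] M)).comp
        (φ : M →ₗ[MonoidAlgebra ℤ G] UM ι S T)) = ψ := by
      funext i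
      ext m : 1
      show ψ i (φ.symm (φ m)) = ψ i m
      rw [φ.symm_apply_apply]
    rw [h]
  have hsm : ∀ (n : ℕ) (x : MonoidAlgebra ℚ G), n • x = MonoidAlgebra.single 1 (n : ℚ) * x := by
    intro n x
    induction n with
    | zero => rw [zero_smul, Nat.cast_zero, MonoidAlgebra.single_zero, zero_mul]
    | succ n ih =>
      rw [succ_nsmul, ih, Nat.cast_succ, MonoidAlgebra.single_add, add_mul,
        ← MonoidAlgebra.one_def, one_mul]
  obtain ⟨m, b, hm, hb⟩ := li_p hD hp hexp hS ha hc hu'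
    (fun i => (ψ i).comp (φ.symm : UM ι S T →ₗ[MonoidAlgebra ℤ G] M))
  refine ⟨m, b, hm, ?_⟩
  rw [← hψ, pow_zero, mul_one, hsm, st_smul, er_psiQ, ← hb]

end D

end Pool.Agent.RG

namespace Pool.Agent.RG

theorem loc_p : type_of% @loc_p_pr := @loc_p_pr

end Pool.Agent.RG
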