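import Pool.Agent.Lib_helper35.RG.Defs

set_option autoImplicit false
set_option linter.unusedSectionVars false
set_option linter.unusedVariables false

namespace Pool.Agent.RG

open Pool.Agent.RSK Pool.Agent.RS2 Pool.Agent.RS3 Pool.Agent.SY Pool.Agent.AU Pool.Agent.CR
open NumberField IsDedekindDomain Filter Topology Complex
open scoped TensorProduct

section D

variable {F H : Type} [Field F] [NumberField F] [Field H] [NumberField H] [Algebra F H]
  [IsGalois F H] {G : Type} [CommGroup G] [Fintype G] {ι : G ≃* (H ≃ₐ[F] H)}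
  {S T : Finset (HeightOneSpectrum (𝓞 F))} {r : ℕ} {w : Fin r → Pl H}
  {fr : HeightOneSpectrum (𝓞 F) → G}

/-- Block D1: decomposition groups of order `≤ 2`: archimedean places. -/
theorem dg_inf_pr (w : InfinitePlace F) : Nat.card (dgF ι (Sum.inl w)) ≤ 2 := by
  obtain ⟨W, hW⟩ := InfinitePlace.comap_surjective (k := F) (K := H) w
  have hst : ∀ g : dgF ι (Sum.inl w), ι g ∈ MulAction.stabilizer (H ≃ₐ[F] H) W := by
    intro g
    have h1 : act (ι g) (Sum.inl W) = Sum.inl W := g.2 (Sum.inl W) (congrArg Sum.inl hW)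
    rw [MulAction.mem_stabilizer_iff]
    exact Sum.inl_injective h1
  have hfin : Finite (MulAction.stabilizer (H ≃ₐ[F] H) W) := inferInstance
  have h2 : Nat.card (dgF ι (Sum.inl w)) ≤ Nat.card (MulAction.stabilizer (H ≃ₐ[F] H) W) := by
    refine Nat.card_le_card_of_injective (fun g => (⟨ι g, hst g⟩ :
      MulAction.stabilizer (H ≃ₐ[F] H) W)) ?_
    intro a b hab
    have h3 : ι (a : G) = ι (b : G) := congrArg Subtype.val hab
    exact Subtype.ext (ι.injective h3)
  rcases InfinitePlace.nat_card_stabilizer_eq_one_or_two F W with h3 | h3 <;> omega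

end D

end Pool.Agent.RG

namespace Pool.Agent.RG

theorem dg_inf : type_of% @dg_inf_pr := @dg_inf_pr

end Pool.Agent.RG
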