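import Pool.Agent.Lib_helper35.RG.Defs
import Pool.Agent.Lib_helper17.RS.P_UP1

/-!
# Block D2: decomposition groups at unramified places are cyclic
-/

set_option autoImplicit false
set_option linter.unusedSectionVars false
set_option linter.unusedVariables false

namespace Pool.Agent.RG

open Pool.Agent.RSK Pool.Agent.RS2 Pool.Agent.RS3 Pool.Agent.SY Pool.Agent.AU Pool.Agent.CR
open NumberField IsDedekindDomain Filter Topology Complex
open scoped TensorProduct

section D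

variable {F H : Type} [Field F] [NumberField F] [Field H] [NumberField H] [Algebra F H]
  [IsGalois F H] {G : Type} [CommGroup G] [Fintype G] {ι : G ≃* (H ≃ₐ[F] H)}
  {S T : Finset (HeightOneSpectrum (𝓞 F))} {r : ℕ} {w : Fin r → Pl H}
  {fr : HeightOneSpectrum (𝓞 F) → G}

open scoped Pointwise in
theorem d2_asIdeal (σ : H ≃ₐ[F] H) (W : HeightOneSpectrum (𝓞 H)) :
    (HeightOneSpectrum.equivOfRingEquiv (RingOfIntegers.mapRingEquiv σ.toRingEquiv) W).asIdeal =
      σ • W.asIdeal := by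
  rw [Ideal.pointwise_smul_def]
  show Ideal.comap (((RingOfIntegers.mapRingEquiv σ.toRingEquiv).symm : 𝓞 H ≃+* 𝓞 H) :
    𝓞 H →+* 𝓞 H) W.asIdeal = _
  exact Ideal.comap_symm _

open scoped Pointwise in
theorem d2_stab (σ : H ≃ₐ[F] H) (W : HeightOneSpectrum (𝓞 H))
    (h : act σ (Sum.inr W) = Sum.inr W) : σ ∈ MulAction.stabilizer (H ≃ₐ[F] H) W.asIdeal := by
  rw [MulAction.mem_stabilizer_iff, ← d2_asIdeal]
  exact congrArg HeightOneSpectrum.asIdeal (Sum.inr_injective h)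

open scoped Pointwise in
theorem d2_inertia (W : HeightOneSpectrum (𝓞 H))
    (hW : Algebra.IsUnramifiedAt (𝓞 F) W.asIdeal) : W.asIdeal.inertia (H ≃ₐ[F] H) = ⊥ := by
  have h1 : W.asIdeal.LiesOver (W.under (𝓞 F)).asIdeal := ⟨rfl⟩
  have h2 : (W.under (𝓞 F)).asIdeal.IsPrime := (W.under (𝓞 F)).isPrime
  have h3 : (W.under (𝓞 F)).asIdeal.IsMaximal := (W.under (𝓞 F)).isMaximal
  have h4 : W.asIdeal.IsMaximal := W.isMaximal
  have h5 : Ideal.ramificationIdx W.asIdeal (𝓞 F) = 1 := Ideal.ramificationIdx_eq_one_iff.mpr hW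
  have h6 := Ideal.card_inertia_eq_ramificationIdxIn (G := H ≃ₐ[F] H)
    (W.under (𝓞 F)).asIdeal W.asIdeal
  rw [Ideal.ramificationIdxIn_eq_ramificationIdx (W.under (𝓞 F)).asIdeal W.asIdeal (H ≃ₐ[F] H),
    h5] at h6
  exact Subgroup.card_eq_one.1 h6

attribute [local instance] Ideal.Quotient.field in
open scoped Pointwise in
theorem d2_cyc (W : HeightOneSpectrum (𝓞 H)) (hW : Algebra.IsUnramifiedAt (𝓞 F) W.asIdeal) :
    IsCyclic (MulAction.stabilizer (H ≃ₐ[F] H) W.asIdeal) := by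
  have h1 : W.asIdeal.LiesOver (W.under (𝓞 F)).asIdeal := ⟨rfl⟩
  have h2 : (W.under (𝓞 F)).asIdeal.IsPrime := (W.under (𝓞 F)).isPrime
  have h3 : (W.under (𝓞 F)).asIdeal.IsMaximal := (W.under (𝓞 F)).isMaximal
  have h4 : W.asIdeal.IsMaximal := W.isMaximal
  have hcomm : SMulCommClass (H ≃ₐ[F] H) (𝓞 F) (𝓞 H) := IsGaloisGroup.commutes
  have hfin : Finite (𝓞 H ⧸ W.asIdeal) := inferInstance
  have hcyc : IsCyclic ((𝓞 H ⧸ W.asIdeal) ≃ₐ[𝓞 F ⧸ (W.under (𝓞 F)).asIdeal]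
      (𝓞 H ⧸ W.asIdeal)) := inferInstance
  refine isCyclic_of_injective
    (Ideal.Quotient.stabilizerHom W.asIdeal (W.under (𝓞 F)).asIdeal (H ≃ₐ[F] H)) ?_
  rw [← MonoidHom.ker_eq_bot_iff]
  have h5 := Ideal.Quotient.map_ker_stabilizer_subtype (P := W.asIdeal)
    (p := (W.under (𝓞 F)).asIdeal) (G := H ≃ₐ[F] H)
  rw [d2_inertia W hW] at h5
  exact (Subgroup.map_eq_bot_iff_of_injective _ (Subgroup.subtype_injective _)).1 h5

open scoped Pointwise in
theorem d2_dgF (v : HeightOneSpectrum (𝓞 F))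
    (h : ∀ W : HeightOneSpectrum (𝓞 H), W.under (𝓞 F) = v →
      Algebra.IsUnramifiedAt (𝓞 F) W.asIdeal) : IsCyclic (dgF ι (Sum.inr v)) := by
  obtain ⟨W, hW⟩ := up1_surj (H := H) v
  have hcyc := d2_cyc (F := F) W (h W hW)
  have hmem : ∀ g : dgF ι (Sum.inr v),
      ι (g : G) ∈ MulAction.stabilizer (H ≃ₐ[F] H) W.asIdeal := fun g =>
    d2_stab _ W (g.2 (Sum.inr W) (congrArg Sum.inr hW))
  let f : dgF ι (Sum.inr v) →* MulAction.stabilizer (H ≃ₐ[F] H) W.asIdeal :=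
    (ι.toMonoidHom.comp (dgF ι (Sum.inr v)).subtype).codRestrict _ hmem
  have hf : Function.Injective f := by
    intro a b hab
    have h1 : ι (a : G) = ι (b : G) := congrArg Subtype.val hab
    exact Subtype.ext (ι.injective h1)
  exact isCyclic_of_injective f hf

/-- Block D2: unramified places: the decomposition group is cyclic. -/
theorem dg_unr_pr {p : ℕ} (hp : p.Prime) (hexp : ∀ g : G, g ^ p = 1)
    (v : HeightOneSpectrum (𝓞 F))
    (h : ∀ W : HeightOneSpectrum (𝓞 H), W.under (𝓞 F) = v →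
      Algebra.IsUnramifiedAt (𝓞 F) W.asIdeal) :
    Nat.card (dgF ι (Sum.inr v)) ≤ p := by
  have hc : IsCyclic (dgF ι (Sum.inr v)) := d2_dgF v h
  obtain ⟨g, hg⟩ := hc.exists_generator
  rw [← orderOf_eq_card_of_forall_mem_zpowers hg]
  refine orderOf_le_of_pow_eq_one hp.pos (Subtype.ext ?_)
  exact hexp g

end D

end Pool.Agent.RG

namespace Pool.Agent.RG

theorem dg_unr : type_of% @dg_unr_pr := @dg_unr_pr

end Pool.Agent.RG
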