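import Pool.Agent.Lib_helper35.RG.Defs
import Pool.Agent.Lib_helper17.RS.P_UP1

/-!
# Project RG, block D3: decomposition groups at tame places
-/

set_option autoImplicit false
set_option linter.unusedSectionVars false

namespace Pool.Agent.RG

open Pool.Agent.RSK Pool.Agent.RS2 Pool.Agent.RS3 Pool.Agent.SY Pool.Agent.AU Pool.Agent.CR
open NumberField IsDedekindDomain Filter Topology Complex
open scoped TensorProduct

/-! ### groups -/

theorem d3_cyc {Q : Type} [Group Q] [Finite Q] [IsCyclic Q] {p : ℕ} (hp : 0 < p)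
    (h : ∀ g : Q, g ^ p = 1) : Nat.card Q ≤ p := by
  obtain ⟨g, hg⟩ := IsCyclic.exists_generator (α := Q)
  rw [← orderOf_eq_card_of_forall_mem_zpowers hg]
  exact Nat.le_of_dvd hp (orderOf_dvd_of_pow_eq_one (h g))

theorem d3_range {D C : Type} [Group D] [Finite D] [Group C] [IsCyclic C] {p : ℕ} (hp : 0 < p)
    (h : ∀ g : D, g ^ p = 1) (φ : D →* C) : Nat.card φ.range ≤ p := by
  have : Finite φ.range := Set.finite_range φ
  refine d3_cyc hp ?_
  rintro ⟨-, g, rfl⟩
  apply Subtype.ext
  show φ g ^ p = 1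
  rw [← map_pow, h, map_one]

/-! ### one automorphism -/

section one

variable {R : Type} [CommRing R] [IsDedekindDomain R] {P : Ideal R}

theorem d3_triv (hPm : P.IsMaximal) (hP : P ≠ ⊥) (a : R ≃+* R) {p : ℕ}
    (hap : ∀ x, a^[p] x = x) (hst : ∀ x ∈ P, a x ∈ P) (h0 : ∀ x, a x - x ∈ P) {π : R}
    (hπ1 : π ∈ P) (hπ2 : π ∉ P ^ 2) (hπ : a π - π ∈ P ^ 2) (hpP : (p : R) ∉ P) (x : R) :
    a x = x := by
  have hPp : P.IsPrime := hPm.isPrime
  have hst2 : ∀ x ∈ P ^ 2, a x ∈ P ^ 2 := by
    intro x hx
    rw [pow_two] at hx ⊢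
    refine Submodule.mul_induction_on hx (fun b hb c hc => ?_) fun b c hb hc => ?_
    · rw [map_mul]
      exact Ideal.mul_mem_mul (hst b hb) (hst c hc)
    · rw [map_add]
      exact add_mem hb hc
  -- step 1
  have h1 : ∀ x ∈ P, a x - x ∈ P ^ 2 := by
    intro x hx
    obtain ⟨u, y, hy, rfl⟩ := Ideal.exists_mul_add_mem_pow_succ (i := 1) hP π x
      (by rwa [pow_one]) hπ2 (by rwa [pow_one])
    have e1 : (a u - u) * a π ∈ P ^ 2 := by
      rw [pow_two]
      exact Ideal.mul_mem_mul (h0 u) (hst π hπ1)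
    have e2 : u * (a π - π) ∈ P ^ 2 := Ideal.mul_mem_left _ _ hπ
    have e3 : a y - y ∈ P ^ 2 := sub_mem (hst2 y hy) hy
    have e4 : a (π * u + y) - (π * u + y) = (a u - u) * a π + u * (a π - π) + (a y - y) := by
      rw [map_add, map_mul]
      ring
    rw [e4]
    exact add_mem (add_mem e1 e2) e3
  -- step 2
  have h2 : ∀ (n : ℕ) (x : R), x ∈ P ^ n → a x - x ∈ P ^ (n + 1) := by
    intro n
    induction n with
    | zero =>
      intro x _
      rw [zero_add, pow_one]
      exact h0 x
    | succ n ih =>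
      intro x hx
      rw [pow_succ] at hx
      refine Submodule.mul_induction_on hx (fun b hb c hc => ?_) fun b c hb hc => ?_
      · have e1 : (a b - b) * a c ∈ P ^ (n + 1 + 1) := by
          rw [pow_succ]
          exact Ideal.mul_mem_mul (ih b hb) (hst c hc)
        have e2 : b * (a c - c) ∈ P ^ (n + 1 + 1) := by
          rw [show n + 1 + 1 = n + 2 from rfl, pow_add]
          exact Ideal.mul_mem_mul hb (h1 c hc)
        have e3 : a (b * c) - b * c = (a b - b) * a c + b * (a c - c) := by
          rw [map_mul]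
          ring
        rw [e3]
        exact add_mem e1 e2
      · have e3 : a (b + c) - (b + c) = (a b - b) + (a c - c) := by
          rw [map_add]
          ring
        rw [e3]
        exact add_mem hb hc
  -- step 3
  have h3 : ∀ n : ℕ, ∀ x : R, a x - x ∈ P ^ (n + 1) := by
    intro n
    induction n with
    | zero =>
      intro x
      rw [zero_add, pow_one]
      exact h0 x
    | succ n ih =>
      intro x
      have key : ∀ j : ℕ, a^[j] x - x - (j : R) * (a x - x) ∈ P ^ (n + 1 + 1) := by
        intro j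
        induction j with
        | zero =>
          simp
        | succ j jh =>
          rw [Function.iterate_succ_apply']
          set y := a^[j] x with hy
          set d := a x - x with hd
          have hdm : d ∈ P ^ (n + 1) := ih x
          have e1 : a d - d ∈ P ^ (n + 1 + 1) := h2 (n + 1) d hdm
          have e2 : a (y - x - (j : R) * d) - (y - x - (j : R) * d) ∈ P ^ (n + 1 + 1) :=
            Ideal.pow_le_pow_right (Nat.le_succ _) (h2 (n + 1 + 1) _ jh)
          have e3 : a y - x - ((j + 1 : ℕ) : R) * d =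
              (a (y - x - (j : R) * d) - (y - x - (j : R) * d)) + (y - x - (j : R) * d) +
                (j : R) * (a d - d) := by
            rw [map_sub, map_sub, map_mul, map_natCast]
            have e4 : a x = x + d := by rw [hd]; ring
            rw [e4]
            push_cast
            ring
          rw [e3]
          exact add_mem (add_mem e2 jh) (Ideal.mul_mem_left _ _ e1)
      have hk := key p
      rw [hap, sub_self, zero_sub, neg_mem_iff] at hk
      exact (Ideal.IsPrime.mul_mem_pow P hk).resolve_left hpP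
  -- step 4
  have h4 : a x - x ∈ (⨅ i : ℕ, P ^ i) := by
    rw [Ideal.mem_iInf]
    intro i
    exact Ideal.pow_le_pow_right (Nat.le_succ i) (h3 i x)
  rw [Ideal.iInf_pow_eq_bot_of_isDomain _ hPm.ne_top, Ideal.mem_bot, sub_eq_zero] at h4
  exact h4

end one

/-! ### the group -/

section grp

variable {R : Type} [CommRing R] [IsDedekindDomain R]

theorem d3_abs {D : Type} [Group D] [Finite D] {p : ℕ} (hp : 0 < p) (hexp : ∀ g : D, g ^ p = 1)
    (A : D → R ≃+* R) (hA1 : ∀ x, A 1 x = x) (hAm : ∀ g h x, A (g * h) x = A g (A h x))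
    (P : Ideal R) (hPm : P.IsMaximal) (hP : P ≠ ⊥) (hfin : Finite (R ⧸ P))
    (hst : ∀ g, ∀ x ∈ P, A g x ∈ P) (hpP : (p : R) ∉ P)
    (hinj : ∀ g, (∀ x, A g x = x) → g = 1) : Nat.card D ≤ p ^ 2 := by
  classical
  have hPp : P.IsPrime := hPm.isPrime
  letI : Field (R ⧸ P) := Ideal.Quotient.field P
  obtain ⟨ℓ, hℓ⟩ := CharP.exists (R ⧸ P)
  haveI : Fact ℓ.Prime := ⟨CharP.char_is_prime (R ⧸ P) ℓ⟩
  letI : Algebra (ZMod ℓ) (R ⧸ P) := ZMod.algebra (R ⧸ P) ℓ
  have hAinv : ∀ g x, A g (A g⁻¹ x) = x := fun g x => by rw [← hAm, mul_inv_cancel, hA1]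
  have hmap : ∀ g, P = P.map (A g : R →+* R) := by
    intro g
    apply le_antisymm
    · intro x hx
      rw [← hAinv g x]
      exact Ideal.mem_map_of_mem (A g : R →+* R) (hst g⁻¹ x hx)
    · rw [Ideal.map_le_iff_le_comap]
      intro x hx
      exact hst g x hx
  let ρ : D → ((R ⧸ P) ≃+* (R ⧸ P)) := fun g => Ideal.quotientEquiv P P (A g) (hmap g)
  have hρ : ∀ g x, ρ g (Ideal.Quotient.mk P x) = Ideal.Quotient.mk P (A g x) := fun g x => rfl
  have hρc : ∀ (g : D) (r : ZMod ℓ), ρ g (algebraMap (ZMod ℓ) (R ⧸ P) r) =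
      algebraMap (ZMod ℓ) (R ⧸ P) r := by
    intro g r
    exact RingHom.congr_fun (Subsingleton.elim
      ((ρ g : (R ⧸ P) →+* (R ⧸ P)).comp (algebraMap (ZMod ℓ) (R ⧸ P)))
      (algebraMap (ZMod ℓ) (R ⧸ P))) r
  let φ : D →* ((R ⧸ P) ≃ₐ[ZMod ℓ] (R ⧸ P)) :=
    { toFun := fun g => AlgEquiv.ofRingEquiv (f := ρ g) (hρc g)
      map_one' := by
        apply AlgEquiv.ext
        intro y
        obtain ⟨x, rfl⟩ := Ideal.Quotient.mk_surjective y
        show Ideal.Quotient.mk P (A 1 x) = Ideal.Quotient.mk P x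
        rw [hA1]
      map_mul' := by
        intro g h
        apply AlgEquiv.ext
        intro y
        obtain ⟨x, rfl⟩ := Ideal.Quotient.mk_surjective y
        show Ideal.Quotient.mk P (A (g * h) x) = Ideal.Quotient.mk P (A g (A h x))
        rw [hAm] }
  have hφ : ∀ g x, φ g (Ideal.Quotient.mk P x) = Ideal.Quotient.mk P (A g x) := fun g x => rfl
  have hr : Nat.card φ.range ≤ p := d3_range hp hexp φ
  have hker : ∀ g ∈ φ.ker, ∀ x, A g x - x ∈ P := by
    intro g hg x
    rw [← Ideal.Quotient.eq, ← hφ, (MonoidHom.mem_ker).mp hg]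
    rfl
  -- the tame character
  obtain ⟨π, hπ1', hπ2'⟩ := Ideal.exists_mem_pow_notMem_pow_succ P hP hPm.ne_top 1
  have hπ1 : π ∈ P := by rwa [pow_one] at hπ1'
  have hπ2 : π ∉ P ^ 2 := hπ2'
  have hex : ∀ g : φ.ker, ∃ u : R, A g π - π * u ∈ P ^ 2 := by
    intro g
    obtain ⟨u, y, hy, hu⟩ := Ideal.exists_mul_add_mem_pow_succ (i := 1) hP π (A g π)
      hπ1' hπ2' (by rw [pow_one]; exact hst g π hπ1)
    exact ⟨u, by rw [← hu, add_sub_cancel_left]; exact hy⟩
  choose u hu using hex
  have huniq : ∀ a b : R, π * a - π * b ∈ P ^ 2 →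
      Ideal.Quotient.mk P a = Ideal.Quotient.mk P b := by
    intro a b hab
    rw [Ideal.Quotient.eq]
    refine Ideal.mem_prime_of_mul_mem_pow (i := 1) hP hπ2' ?_
    rw [mul_sub]
    exact hab
  let θ : φ.ker →* (R ⧸ P) :=
    { toFun := fun g => Ideal.Quotient.mk P (u g)
      map_one' := by
        rw [← map_one (Ideal.Quotient.mk P)]
        apply huniq
        have h1 := hu 1
        rw [show ((1 : φ.ker) : D) = 1 from rfl, hA1] at h1
        rw [← neg_mem_iff]
        have e : -(π * u 1 - π * 1) = π - π * u 1 := by ring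
        rw [e]
        exact h1
      map_mul' := by
        intro g h
        rw [← map_mul]
        apply huniq
        have h1 := hu (g * h)
        have h2 := hu g
        have h3 := hu h
        have h4 := hker g g.2 (u h)
        have h5 : A g (A h π - π * u h) ∈ P ^ 2 := by
          have hst2 : ∀ x ∈ P ^ 2, A g x ∈ P ^ 2 := by
            intro x hx
            rw [pow_two] at hx ⊢
            refine Submodule.mul_induction_on hx (fun b hb c hc => ?_) fun b c hb hc => ?_
            · rw [map_mul]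
              exact Ideal.mul_mem_mul (hst g b hb) (hst g c hc)
            · rw [map_add]
              exact add_mem hb hc
          exact hst2 _ h3
        rw [map_sub, map_mul] at h5
        rw [show ((g * h : φ.ker) : D) = (g : D) * (h : D) from rfl, hAm] at h1
        have h6 : A g π * (A g (u h) - u h) ∈ P ^ 2 := by
          rw [pow_two]
          exact Ideal.mul_mem_mul (hst g π hπ1) h4
        have h7 : (A g π - π * u g) * u h ∈ P ^ 2 := Ideal.mul_mem_right _ _ h2
        have e : π * u (g * h) - π * (u g * u h) =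
            (A g (A h π) - A g π * A g (u h)) + A g π * (A g (u h) - u h) +
              (A g π - π * u g) * u h - (A g (A h π) - π * u (g * h)) := by ring
        rw [e]
        exact sub_mem (add_mem (add_mem h5 h6) h7) h1 }
  have hθ : Function.Injective θ.toHomUnits := by
    rw [injective_iff_map_eq_one]
    intro g hg
    have h1 : Ideal.Quotient.mk P (u g) = 1 := congrArg Units.val hg
    rw [← map_one (Ideal.Quotient.mk P), Ideal.Quotient.eq] at h1
    have h2 := hu g
    have h3 : A g π - π ∈ P ^ 2 := by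
      have h4 : π * (u g - 1) ∈ P ^ 2 := by
        rw [pow_two]
        exact Ideal.mul_mem_mul hπ1 h1
      have e : A g π - π = (A g π - π * u g) + π * (u g - 1) := by ring
      rw [e]
      exact add_mem h2 h4
    apply Subtype.ext
    refine hinj g fun x => ?_
    refine d3_triv hPm hP (A g) (p := p) (fun x => ?_) (hst g) (hker g g.2) hπ1 hπ2 h3 hpP x
    have hit : ∀ (j : ℕ) (x : R), (A g)^[j] x = A ((g : D) ^ j) x := by
      intro j
      induction j with
      | zero => intro x; rw [pow_zero, hA1]; rfl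
      | succ j jh => intro x; rw [Function.iterate_succ_apply, jh, ← hAm, pow_succ]
    rw [hit, hexp, hA1]
  have hk : Nat.card φ.ker ≤ p := by
    have h1 := d3_range (p := p) hp (fun g : φ.ker => Subtype.ext (hexp g)) θ.toHomUnits
    rwa [← Nat.card_congr (MonoidHom.ofInjective hθ).toEquiv] at h1
  have hc := φ.ker.card_mul_index
  rw [Subgroup.index_ker] at hc
  rw [← hc, pow_two]
  exact Nat.mul_le_mul hk hr

end grp

section D

variable {F H : Type} [Field F] [NumberField F] [Field H] [NumberField H] [Algebra F H]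
  [IsGalois F H] {G : Type} [CommGroup G] [Fintype G] {ι : G ≃* (H ≃ₐ[F] H)}
  {S T : Finset (HeightOneSpectrum (𝓞 F))} {r : ℕ} {w : Fin r → Pl H}
  {fr : HeightOneSpectrum (𝓞 F) → G}

/-- Block D3: tame places: inertia is cyclic, the quotient is cyclic. -/
theorem dg_tame_pr {p : ℕ} (hp : p.Prime) (hexp : ∀ g : G, g ^ p = 1)
    (v : HeightOneSpectrum (𝓞 F)) (h : (p : 𝓞 F) ∉ v.asIdeal) :
    Nat.card (dgF ι (Sum.inr v)) ≤ p ^ 2 := by
  obtain ⟨W, hW⟩ := up1_surj (H := H) v
  have hstab : ∀ g : dgF ι (Sum.inr v), HeightOneSpectrum.equivOfRingEquiv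
      (RingOfIntegers.mapRingEquiv (ι (g : G)).toRingEquiv) W = W := by
    intro g
    have h1 := g.2 (Sum.inr W) (congrArg Sum.inr hW)
    exact Sum.inr.inj h1
  have hfin : Finite (𝓞 H ⧸ W.asIdeal) := Ideal.finiteQuotientOfFreeOfNeBot _ W.ne_bot
  refine d3_abs (R := 𝓞 H) hp.pos (fun g => Subtype.ext (hexp g))
    (fun g => RingOfIntegers.mapRingEquiv (ι (g : G)).toRingEquiv) ?_ ?_ W.asIdeal
    W.isMaximal W.ne_bot hfin ?_ ?_ ?_
  · intro x
    apply RingOfIntegers.ext
    show ι (1 : G) (x : H) = x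
    rw [map_one]
    rfl
  · intro g g' x
    apply RingOfIntegers.ext
    show ι ((g : G) * (g' : G)) (x : H) = ι (g : G) (ι (g' : G) (x : H))
    rw [map_mul]
    rfl
  · intro g x hx
    have h1 := hstab g
    have h2 : (HeightOneSpectrum.equivOfRingEquiv
      (RingOfIntegers.mapRingEquiv (ι (g : G)).toRingEquiv) W).asIdeal = W.asIdeal := by rw [h1]
    rw [← h2]
    show (RingOfIntegers.mapRingEquiv (ι (g : G)).toRingEquiv).symm
      (RingOfIntegers.mapRingEquiv (ι (g : G)).toRingEquiv x) ∈ W.asIdeal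
    rw [RingEquiv.symm_apply_apply]
    exact hx
  · intro hc
    apply h
    rw [← hW]
    show algebraMap (𝓞 F) (𝓞 H) (p : 𝓞 F) ∈ W.asIdeal
    rw [map_natCast]
    exact hc
  · intro g hg
    apply Subtype.ext
    show (g : G) = 1
    apply ι.injective
    rw [map_one]
    apply AlgEquiv.ext
    intro y
    obtain ⟨a, b, hb, rfl⟩ := IsFractionRing.div_surjective (A := 𝓞 H) y
    have h1 : ∀ a : 𝓞 H, ι (g : G) (algebraMap (𝓞 H) H a) = algebraMap (𝓞 H) H a := fun a =>
      congrArg (algebraMap (𝓞 H) H) (hg a)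
    rw [map_div₀, h1, h1]
    rfl

end D

end Pool.Agent.RG

namespace Pool.Agent.RG

theorem dg_tame : type_of% @dg_tame_pr := @dg_tame_pr

end Pool.Agent.RG
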