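import Pool.Agent.Lib_helper35.RG.P_AMB
import Pool.Agent.Lib_helper35.RG.P_CT
import Pool.Agent.Lib_helper35.RG.P_D1
import Pool.Agent.Lib_helper35.RG.P_D2
import Pool.Agent.Lib_helper35.RG.P_D3
import Pool.Agent.Lib_helper35.RG.P_DJ
import Pool.Agent.Lib_helper35.RG.P_DS
import Pool.Agent.Lib_helper35.RG.P_DZ
import Pool.Agent.Lib_helper35.RG.P_EQ
import Pool.Agent.Lib_helper35.RG.P_ES
import Pool.Agent.Lib_helper35.RG.P_EXA
import Pool.Agent.Lib_helper35.RG.P_EXB
import Pool.Agent.Lib_helper35.RG.P_FI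
import Pool.Agent.Lib_helper35.RG.P_GEX
import Pool.Agent.Lib_helper35.RG.P_H2
import Pool.Agent.Lib_helper35.RG.P_HA
import Pool.Agent.Lib_helper35.RG.P_HJ
import Pool.Agent.Lib_helper35.RG.P_INV
import Pool.Agent.Lib_helper35.RG.P_KIL
import Pool.Agent.Lib_helper35.RG.P_KN
import Pool.Agent.Lib_helper35.RG.P_LA
import Pool.Agent.Lib_helper35.RG.P_LAT
import Pool.Agent.Lib_helper35.RG.P_LB
import Pool.Agent.Lib_helper35.RG.P_LI
import Pool.Agent.Lib_helper35.RG.P_LP
import Pool.Agent.Lib_helper35.RG.P_MI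
import Pool.Agent.Lib_helper35.RG.P_MN
import Pool.Agent.Lib_helper35.RG.P_QI
import Pool.Agent.Lib_helper35.RG.P_RES
import Pool.Agent.Lib_helper35.RG.P_SPU
import Pool.Agent.Lib_helper35.RG.P_UN

/-!
# Genus theory for Rubin's conjecture (RG): the library

Statements: `RG/W.lean`; every block `P_<block>` proves its statements under their own names.
-/
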