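import Pool.Agent.Lib_helper35.RG.Defs
import Pool.Agent.Lib_helper35.RG.P_D1
import Pool.Agent.Lib_helper35.RG.P_D2
import Pool.Agent.Lib_helper35.RG.P_D3
import Pool.Agent.Lib_helper35.RG.P_ES
import Pool.Agent.Lib_helper35.RG.P_MN
import Pool.Agent.Lib_helper17.CRF.N_PC5

/-!
Blocks FI, FT: unramified and tame extensions.
-/

set_option autoImplicit false
set_option linter.unusedSectionVars false

namespace Pool.Agent.RG

open Pool.Agent.RSK Pool.Agent.RS2 Pool.Agent.RS3 Pool.Agent.SY Pool.Agent.AU Pool.Agent.CR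
open NumberField IsDedekindDomain Filter Topology Complex
open scoped TensorProduct

section D

variable {F H : Type} [Field F] [NumberField F] [Field H] [NumberField H] [Algebra F H]
  [IsGalois F H] {G : Type} [CommGroup G] [Fintype G] {ι : G ≃* (H ≃ₐ[F] H)}
  {S T : Finset (HeightOneSpectrum (𝓞 F))} {r : ℕ} {w : Fin r → Pl H}
  {fr : HeightOneSpectrum (𝓞 F) → G}

theorem fx_main (hD : Data ι S T r w fr) (hexp : ∀ g : G, g ^ 2 = 1)
    (h4 : ∀ P : PS S, Nat.card (dgF ι P.pl) ≤ 4)
    (hS : 2 ≤ Nat.card {P : PS S // Nat.card (dgF ι P.pl) = 2}) :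
    CRF.RubinOn Set.univ ι S T w fr := by
  classical
  have hG : IsPGroup 2 G := fun g => ⟨1, by rw [pow_one]; exact hexp g⟩
  have : Fact (Nat.Prime 2) := ⟨Nat.prime_two⟩
  obtain ⟨k, hk⟩ := IsPGroup.iff_card.1 hG
  have h1 : (2 : ℤ) ≤ eS 2 ι S := by
    have h2 : (Nat.card {P : PS S // Nat.card (dgF ι P.pl) = 2} : ℤ) ≤ eS 2 ι S := by
      rw [Nat.card_eq_fintype_card, Fintype.card_subtype, Finset.card_filter]
      unfold eS
      push_cast
      refine Finset.sum_le_sum fun P _ => ?_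
      have h5 := h4 P
      have h6 : Nat.log 2 (Nat.card (dgF ι P.pl)) ≤ 2 := by
        calc Nat.log 2 (Nat.card (dgF ι P.pl)) ≤ Nat.log 2 4 := Nat.log_mono_right h5
          _ = 2 := by
            rw [show (4 : ℕ) = 2 ^ 2 by norm_num, Nat.log_pow Nat.one_lt_two]
      by_cases hc : Nat.card (dgF ι P.pl) = 2
      · rw [if_pos hc, if_neg, hc]
        · have : Nat.log 2 2 = 1 := by
            have h := Nat.log_pow Nat.one_lt_two 1
            rwa [pow_one] at h
          rw [this]
          norm_num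
        · intro hb
          rw [hb, Subgroup.card_bot] at hc
          omega
      · rw [if_neg hc]
        split_ifs
        · exact le_rfl
        · have : (Nat.log 2 (Nat.card (dgF ι P.pl)) : ℤ) ≤ 2 := by exact_mod_cast h6
          linarith
    have h3 : (2 : ℤ) ≤ (Nat.card {P : PS S // Nat.card (dgF ι P.pl) = 2} : ℤ) := by
      exact_mod_cast hS
    linarith
  have hC : CondR 2 0 ι S w := condR_of hD Nat.prime_two hexp hk (by
    push_cast
    linarith)
  have h := main_R hD Nat.prime_two hexp (Or.inl rfl) hC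
  obtain ⟨c, Θ, h1, h2, M, i1, i2, e, l, h3, u, h4⟩ := h
  exact ⟨c, Θ, h1, h2, M, i1, i2, e, l, h3, u, h4.er, h4.value,
    fun a _ => h4.integral a (by
      show a ∈ mI 2 G ^ 0
      rw [pow_zero, Ideal.one_eq_top]
      trivial)⟩

theorem fin_unr_pr (hD : Data ι S T r w fr) (hexp : ∀ g : G, g ^ 2 = 1)
    (hunr : ∀ W : HeightOneSpectrum (𝓞 H), Algebra.IsUnramifiedAt (𝓞 F) W.asIdeal)
    (hS : r + 2 ≤ Fintype.card (InfinitePlace F) + S.card) :
    CRF.RubinOn Set.univ ι S T w fr := by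
  classical
  have h2 : ∀ P : PS S, Nat.card (dgF ι P.pl) ≤ 2 := by
    rintro (v | v)
    · exact dg_inf v
    · exact dg_unr Nat.prime_two hexp v.1 fun W _ => hunr W
  refine fx_main hD hexp (fun P => (h2 P).trans (by norm_num)) ?_
  have hcard := (data_pl hD).1
  have h3 : Nat.card {v : PS S // dgS ι S v = ⊥} +
      Nat.card {P : PS S // Nat.card (dgF ι P.pl) = 2} = Fintype.card (PS S) := by
    rw [Nat.card_eq_fintype_card, Nat.card_eq_fintype_card, Fintype.card_subtype,
      Fintype.card_subtype]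
    have h4 : (Finset.univ.filter fun P : PS S => Nat.card (dgF ι P.pl) = 2) =
        Finset.univ.filter fun P : PS S => ¬ dgS ι S P = ⊥ := by
      refine Finset.filter_congr fun P _ => ?_
      have h5 := h2 P
      have h6 : 0 < Nat.card (dgF ι P.pl) := Nat.card_pos
      have h7 : dgS ι S P = ⊥ ↔ Nat.card (dgF ι P.pl) = 1 := Subgroup.card_eq_one.symm
      rw [h7]
      omega
    rw [h4, Finset.card_filter_add_card_filter_not, Finset.card_univ]
  have h4 : Fintype.card (PS S) = Fintype.card (InfinitePlace F) + S.card := by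
    rw [Fintype.card_sum, Fintype.card_coe]
  rw [hcard, h4] at h3
  omega

theorem fin_tame_pr (hD : Data ι S T r w fr) (hexp : ∀ g : G, g ^ 2 = 1)
    (hunr : ∀ W : HeightOneSpectrum (𝓞 H), (2 : 𝓞 H) ∈ W.asIdeal →
      Algebra.IsUnramifiedAt (𝓞 F) W.asIdeal)
    (hS : 2 ≤ Nat.card {P : PS S // Nat.card (dgF ι P.pl) = 2}) :
    CRF.RubinOn Set.univ ι S T w fr := by
  refine fx_main hD hexp ?_ hS
  rintro (v | v)
  · exact (dg_inf v).trans (by norm_num)
  · by_cases h2 : ((2 : ℕ) : 𝓞 F) ∈ v.1.asIdeal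
    · refine (dg_unr Nat.prime_two hexp v.1 fun W hW => hunr W ?_).trans (by norm_num)
      have h3 : algebraMap (𝓞 F) (𝓞 H) ((2 : ℕ) : 𝓞 F) ∈ W.asIdeal := by
        have h4 : ((2 : ℕ) : 𝓞 F) ∈ (W.under (𝓞 F)).asIdeal := by rw [hW]; exact h2
        exact h4
      rw [map_natCast] at h3
      exact_mod_cast h3
    · exact (dg_tame Nat.prime_two hexp v.1 h2).trans (by norm_num)

end D

end Pool.Agent.RG

namespace Pool.Agent.RG

theorem fin_unr : type_of% @fin_unr_pr := @fin_unr_pr
theorem fin_tame : type_of% @fin_tame_pr := @fin_tame_pr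

end Pool.Agent.RG
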